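import Pool.Agent.Lib.MRL.MVT

/-!
# Short averages and Dirichlet polynomials

Gaussian smoothing of short sums; the energy identity; the reduction of short averages to the mean
square of a Dirichlet polynomial over a bounded range.
-/

set_option autoImplicit false

namespace Pool.Agent.MRL

open Complex MeasureTheory Finset
open scoped Real ComplexConjugate

/-- the Gaussian of width `δ` -/
noncomputable def gw (δ y : ℝ) : ℝ := rexp (-(1 / (2 * δ ^ 2)) * y ^ 2) / (δ * √(2 * π))

theorem gw_nonneg {δ : ℝ} (hδ : 0 < δ) (y : ℝ) : 0 ≤ gw δ y := by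
  unfold gw
  positivity

theorem gw_continuous (δ : ℝ) : Continuous (gw δ) := by
  unfold gw
  fun_prop

theorem gw_even (δ y : ℝ) : gw δ (-y) = gw δ y := by
  unfold gw
  congr 2
  ring

theorem gw_integrable {δ : ℝ} (hδ : 0 < δ) : Integrable (gw δ) := by
  unfold gw
  exact (integrable_exp_neg_mul_sq (by positivity)).div_const _

theorem gw_integral {δ : ℝ} (hδ : 0 < δ) : ∫ y, gw δ y = 1 := by
  unfold gw
  rw [integral_div, integral_gaussian]
  have h1 : π / (1 / (2 * δ ^ 2)) = (2 * π) * δ ^ 2 := by field_simp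
  rw [h1, Real.sqrt_mul (by positivity), Real.sqrt_sq hδ.le]
  have h2 : √(2 * π) ≠ 0 := by positivity
  field_simp

theorem gw_conv {δ : ℝ} (hδ : 0 < δ) (y z : ℝ) :
    ∫ u, gw δ (y - u) * gw δ (z - u) =
      rexp (-(1 / δ * (y - z)) ^ 2 / 4) / (2 * δ * √π) := by
  have h1 : ∀ u : ℝ, gw δ (y - u) * gw δ (z - u) =
      rexp (-(1 / δ * (y - z)) ^ 2 / 4) / (δ * √(2 * π)) ^ 2 *
        rexp (-(1 / δ ^ 2) * (u - (y + z) / 2) ^ 2) := by
    intro u
    unfold gw
    rw [div_mul_div_comm, ← Real.exp_add, ← sq, div_mul_eq_mul_div, ← Real.exp_add]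
    congr 2
    field_simp
    ring
  simp_rw [h1]
  rw [integral_const_mul,
    integral_sub_right_eq_self (fun u : ℝ => rexp (-(1 / δ ^ 2) * u ^ 2)) ((y + z) / 2),
    integral_gaussian]
  have h2 : π / (1 / δ ^ 2) = π * δ ^ 2 := by field_simp
  have h2' : √(π * δ ^ 2) = √π * δ := by
    rw [Real.sqrt_mul Real.pi_pos.le, Real.sqrt_sq hδ.le]
  have h2'' : (δ * √(2 * π)) ^ 2 = δ ^ 2 * (2 * π) := by
    rw [mul_pow, Real.sq_sqrt (by positivity)]
  rw [h2, h2', h2'']
  have h3 : √π * √π = π := Real.mul_self_sqrt (by positivity)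
  have h4 : √π ≠ 0 := by positivity
  rw [div_mul_eq_mul_div, div_eq_div_iff (by positivity) (by positivity)]
  linear_combination (rexp (-(1 / δ * (y - z)) ^ 2 / 4) * δ ^ 2 * 2) * h3

/-- the smoothed short sum at `u`; the numbers `y n` are the places of the coefficients -/
noncomputable def es (s : Finset ℕ) (y : ℕ → ℝ) (b : ℕ → ℂ) (δ u : ℝ) : ℂ :=
  ∑ n ∈ s, b n * (gw δ (y n - u) : ℂ)

theorem es_continuous (s : Finset ℕ) (y : ℕ → ℝ) (b : ℕ → ℂ) (δ : ℝ) :
    Continuous (es s y b δ) := by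
  unfold es
  refine continuous_finsetSum _ fun n _ => continuous_const.mul ?_
  exact Complex.continuous_ofReal.comp ((gw_continuous δ).comp (by fun_prop))

theorem gw_prod_int {δ : ℝ} (hδ : 0 < δ) (y z : ℝ) :
    Integrable fun u => gw δ (y - u) * gw δ (z - u) := by
  have h1 : Integrable fun u => gw δ (y - u) := (gw_integrable hδ).comp_sub_left y
  refine (h1.mul_const (1 / (δ * √(2 * π)))).mono' ?_ ?_
  · apply Continuous.aestronglyMeasurable
    exact ((gw_continuous δ).comp (by fun_prop)).mul ((gw_continuous δ).comp (by fun_prop))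
  · refine Filter.Eventually.of_forall fun u => ?_
    rw [Real.norm_of_nonneg (mul_nonneg (gw_nonneg hδ _) (gw_nonneg hδ _))]
    refine mul_le_mul_of_nonneg_left ?_ (gw_nonneg hδ _)
    unfold gw
    refine div_le_div_of_nonneg_right ?_ (by positivity)
    rw [Real.exp_le_one_iff]
    have : 0 ≤ 1 / (2 * δ ^ 2) * (z - u) ^ 2 := by positivity
    linarith

theorem es_sq (s : Finset ℕ) (y : ℕ → ℝ) (b : ℕ → ℂ) (δ u : ℝ) :
    ((‖es s y b δ u‖ ^ 2 : ℝ) : ℂ) =
      ∑ n ∈ s, ∑ m ∈ s, b n * conj (b m) * ((gw δ (y n - u) * gw δ (y m - u) : ℝ) : ℂ) := by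
  have h0 : ((‖es s y b δ u‖ ^ 2 : ℝ) : ℂ) = es s y b δ u * conj (es s y b δ u) := by
    rw [Complex.mul_conj, Complex.normSq_eq_norm_sq]
  rw [h0]
  unfold es
  rw [map_sum, Finset.sum_mul_sum]
  refine Finset.sum_congr rfl fun n _ => Finset.sum_congr rfl fun m _ => ?_
  rw [map_mul, Complex.conj_ofReal]
  push_cast
  ring

theorem es_int {δ : ℝ} (hδ : 0 < δ) (s : Finset ℕ) (y : ℕ → ℝ) (b : ℕ → ℂ) :
    Integrable fun u => ‖es s y b δ u‖ ^ 2 := by
  have h1 : Integrable fun u => (((‖es s y b δ u‖ ^ 2 : ℝ)) : ℂ) := by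
    simp_rw [es_sq]
    refine integrable_finsetSum _ fun n _ => integrable_finsetSum _ fun m _ => ?_
    exact (gw_prod_int hδ _ _).ofReal.const_mul _
  refine h1.re.congr (Filter.Eventually.of_forall fun u => ?_)
  exact Complex.ofReal_re _

/-- **The energy identity.** -/
theorem energy {δ : ℝ} (hδ : 0 < δ) (s : Finset ℕ) (y : ℕ → ℝ) (b : ℕ → ℂ) :
    ∫ u, ‖es s y b δ u‖ ^ 2 =
      1 / (2 * π) * ∫ t : ℝ, ‖tp s (fun n => -y n) b t‖ ^ 2 *
        rexp (-(1 / (1 / δ) ^ 2) * t ^ 2) := by
  have hT : (0 : ℝ) < 1 / δ := by positivity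
  have h1 := gauss_mean hT s (fun n => -y n) b
  have h00 : ((∫ u, ‖es s y b δ u‖ ^ 2 : ℝ) : ℂ) = ∫ u, (((‖es s y b δ u‖ ^ 2 : ℝ)) : ℂ) :=
    (integral_ofReal (𝕜 := ℂ)).symm
  have h2 : ((∫ u, ‖es s y b δ u‖ ^ 2 : ℝ) : ℂ) =
      ∑ n ∈ s, ∑ m ∈ s, b n * conj (b m) *
        ((rexp (-(1 / δ * (y n - y m)) ^ 2 / 4) / (2 * δ * √π) : ℝ) : ℂ) := by
    rw [h00]
    simp_rw [es_sq]
    rw [integral_finsetSum]
    · refine Finset.sum_congr rfl fun n _ => ?_
      rw [integral_finsetSum]
      · refine Finset.sum_congr rfl fun m _ => ?_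
        rw [integral_const_mul, ← gw_conv hδ]
        congr 1
        exact integral_ofReal (𝕜 := ℂ)
      · intro m _
        exact (gw_prod_int hδ _ _).ofReal.const_mul _
    · intro n _
      exact integrable_finsetSum _ fun m _ => (gw_prod_int hδ _ _).ofReal.const_mul _
  have h3 : ((∫ u, ‖es s y b δ u‖ ^ 2 : ℝ) : ℂ) = ((1 / (2 * π) * ∫ t : ℝ,
      ‖tp s (fun n => -y n) b t‖ ^ 2 * rexp (-(1 / (1 / δ) ^ 2) * t ^ 2) : ℝ) : ℂ) := by
    rw [h2, ofReal_mul, h1, Finset.mul_sum]
    refine Finset.sum_congr rfl fun n _ => ?_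
    rw [Finset.mul_sum]
    refine Finset.sum_congr rfl fun m _ => ?_
    have h4 : rexp (-(1 / δ * (y n - y m)) ^ 2 / 4) / (2 * δ * √π) =
        1 / (2 * π) * (√π * (1 / δ) * rexp (-(1 / δ * (-y n - -y m)) ^ 2 / 4)) := by
      have h5 : (-(1 / δ * (-y n - -y m)) ^ 2 / 4) = (-(1 / δ * (y n - y m)) ^ 2 / 4) := by ring
      have h6 : √π * √π = π := Real.mul_self_sqrt (by positivity)
      have h7 : √π ≠ 0 := by positivity
      rw [h5]
      rw [show 1 / (2 * π) * (√π * (1 / δ) * rexp (-(1 / δ * (y n - y m)) ^ 2 / 4)) =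
        (√π * rexp (-(1 / δ * (y n - y m)) ^ 2 / 4)) / (2 * π * δ) by field_simp]
      rw [div_eq_div_iff (by positivity) (by positivity)]
      linear_combination (-(rexp (-(1 / δ * (y n - y m)) ^ 2 / 4)) * 2 * δ) * h6
    rw [h4]
    push_cast
    ring
  exact_mod_cast h3

/-- Cauchy-Schwarz on an interval -/
theorem cs_interval {f : ℝ → ℂ} (hf : Continuous f) {a b : ℝ} (hab : a ≤ b) :
    ‖∫ u in a..b, f u‖ ^ 2 ≤ (b - a) * ∫ u in a..b, ‖f u‖ ^ 2 := by
  have h1 : ‖∫ u in a..b, f u‖ ≤ ∫ u in a..b, ‖f u‖ :=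
    intervalIntegral.norm_integral_le_integral_norm hab
  have hn : Continuous fun u => ‖f u‖ := hf.norm
  have h2 : (∫ u in a..b, ‖f u‖) ^ 2 ≤ (b - a) * ∫ u in a..b, ‖f u‖ ^ 2 := by
    rcases hab.eq_or_lt with rfl | hlt
    · simp
    · set c : ℝ := (∫ u in a..b, ‖f u‖) / (b - a) with hc
      have h3 : 0 ≤ ∫ u in a..b, (‖f u‖ - c) ^ 2 :=
        intervalIntegral.integral_nonneg hab fun u _ => sq_nonneg _
      have h4 : ∫ u in a..b, (‖f u‖ - c) ^ 2 =
          (∫ u in a..b, ‖f u‖ ^ 2) - 2 * c * (∫ u in a..b, ‖f u‖) + c ^ 2 * (b - a) := by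
        have h5 : ∀ u, (‖f u‖ - c) ^ 2 = ‖f u‖ ^ 2 - 2 * c * ‖f u‖ + c ^ 2 := fun u => by ring
        simp_rw [h5]
        rw [intervalIntegral.integral_add, intervalIntegral.integral_sub,
          intervalIntegral.integral_const_mul, intervalIntegral.integral_const]
        · simp only [smul_eq_mul]; ring
        · exact (hn.pow 2).intervalIntegrable _ _
        · exact (continuous_const.mul hn).intervalIntegrable _ _
        · exact ((hn.pow 2).sub (continuous_const.mul hn)).intervalIntegrable _ _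
        · exact continuous_const.intervalIntegrable _ _
      have hba : 0 < b - a := by linarith
      have h6 : c * (b - a) = ∫ u in a..b, ‖f u‖ := by
        rw [hc]; field_simp
      rw [h4] at h3
      rw [← h6] at h3 ⊢
      nlinarith
  calc ‖∫ u in a..b, f u‖ ^ 2 ≤ (∫ u in a..b, ‖f u‖) ^ 2 :=
        pow_le_pow_left₀ (norm_nonneg _) h1 2
    _ ≤ _ := h2

/-- the main term of the short averages -/
theorem main_term {E : ℝ → ℂ} (hE : Continuous E) (hEi : Integrable fun u => ‖E u‖ ^ 2)
    {X h : ℝ} (hX : 0 < X) (hh : 0 < h) :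
    ∫ x in X..(2 * X), ‖∫ u in (Real.log x)..(Real.log (x + h)), E u‖ ^ 2 ≤
      h ^ 2 / X * ∫ u, ‖E u‖ ^ 2 := by
  set S : Set (ℝ × ℝ) := {q | Real.log q.1 < q.2 ∧ q.2 ≤ Real.log (q.1 + h)} with hS
  have hSm : MeasurableSet S := by
    apply MeasurableSet.inter
    · exact measurableSet_lt (Real.measurable_log.comp measurable_fst) measurable_snd
    · exact measurableSet_le measurable_snd
        (Real.measurable_log.comp (measurable_fst.add_const h))
  set f : ℝ → ℝ → ℝ := fun x u => S.indicator (fun q : ℝ × ℝ => ‖E q.2‖ ^ 2) (x, u) with hf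
  have hf0 : ∀ x u, 0 ≤ f x u := fun x u =>
    Set.indicator_nonneg (fun q _ => by positivity) _
  have hfle : ∀ x u, f x u ≤ ‖E u‖ ^ 2 := fun x u =>
    Set.indicator_le_self' (fun q _ => by positivity) _
  have hint : Integrable (Function.uncurry f)
      ((volume.restrict (Set.Ioc X (2 * X))).prod volume) := by
    have h1 : Integrable (fun q : ℝ × ℝ => (1 : ℝ) * ‖E q.2‖ ^ 2)
        ((volume.restrict (Set.Ioc X (2 * X))).prod volume) :=
      Integrable.mul_prod (f := fun _ : ℝ => (1 : ℝ)) (g := fun u => ‖E u‖ ^ 2)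
        (integrable_const _) hEi
    refine h1.mono' ?_ ?_
    · refine AEStronglyMeasurable.indicator ?_ hSm
      apply Continuous.aestronglyMeasurable
      exact ((hE.comp continuous_snd).norm).pow 2
    · refine Filter.Eventually.of_forall fun q => ?_
      have h2 : ‖Function.uncurry f q‖ = f q.1 q.2 := Real.norm_of_nonneg (hf0 q.1 q.2)
      rw [h2, one_mul]
      exact hfle q.1 q.2
  have hpt : ∀ x ∈ Set.Ioc X (2 * X),
      ‖∫ u in (Real.log x)..(Real.log (x + h)), E u‖ ^ 2 ≤ h / X * ∫ u, f x u := by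
    intro x hx
    have hx0 : 0 < x := hX.trans hx.1
    have hlog : Real.log x ≤ Real.log (x + h) := Real.log_le_log hx0 (by linarith)
    have h1 := cs_interval hE hlog
    have h2 : Real.log (x + h) - Real.log x ≤ h / X := by
      rw [← Real.log_div (by linarith) hx0.ne']
      have h3 := Real.log_le_sub_one_of_pos (show 0 < (x + h) / x by positivity)
      have h4 : (x + h) / x - 1 = h / x := by field_simp; ring
      have h5 : h / x ≤ h / X := div_le_div_of_nonneg_left hh.le hX hx.1.le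
      linarith
    have h3 : ∫ u in (Real.log x)..(Real.log (x + h)), ‖E u‖ ^ 2 = ∫ u, f x u := by
      rw [intervalIntegral.integral_of_le hlog, ← integral_indicator measurableSet_Ioc]
      rfl
    rw [h3] at h1
    refine h1.trans (mul_le_mul_of_nonneg_right h2 ?_)
    exact integral_nonneg fun u => hf0 x u
  have hvol : ∀ u, ∫ x in Set.Ioc X (2 * X), f x u ≤ h * ‖E u‖ ^ 2 := by
    intro u
    have h1 : ∀ x ∈ Set.Ioc X (2 * X), f x u ≤
        (Set.Ico (rexp u - h) (rexp u)).indicator (fun _ => ‖E u‖ ^ 2) x := by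
      intro x hx
      have hx0 : 0 < x := hX.trans hx.1
      by_cases hm : Real.log x < u ∧ u ≤ Real.log (x + h)
      · have h2 : x < rexp u := by
          rw [← Real.log_lt_iff_lt_exp hx0]; exact hm.1
        have h3 : rexp u ≤ x + h := by
          rw [← Real.le_log_iff_exp_le (by linarith)]; exact hm.2
        have h4 : x ∈ Set.Ico (rexp u - h) (rexp u) := ⟨by linarith, h2⟩
        rw [Set.indicator_of_mem h4]
        exact hfle x u
      · have h2 : f x u = 0 := by
          simp only [hf]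
          exact Set.indicator_of_notMem (by simpa only [hS, Set.mem_ofPred_eq] using hm) _
        rw [h2]
        exact Set.indicator_nonneg (fun _ _ => by positivity) _
    have hconst : Integrable ((Set.Ico (rexp u - h) (rexp u)).indicator
        (fun _ : ℝ => ‖E u‖ ^ 2)) := by
      rw [integrable_indicator_iff measurableSet_Ico]
      exact integrableOn_const (by simp)
    have hfi : IntegrableOn (fun x => f x u) (Set.Ioc X (2 * X)) := by
      have h2 : Integrable (fun _ : ℝ => ‖E u‖ ^ 2) (volume.restrict (Set.Ioc X (2 * X))) :=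
        integrable_const _
      refine h2.mono' ?_ ?_
      · have hmeas : Measurable fun x : ℝ => f x u := by
          simp only [hf]
          have : Measurable (S.indicator (fun q : ℝ × ℝ => ‖E q.2‖ ^ 2)) := by
            refine Measurable.indicator ?_ hSm
            exact (((hE.comp continuous_snd).norm).pow 2).measurable
          exact this.comp (measurable_id.prodMk measurable_const)
        exact hmeas.aestronglyMeasurable
      · refine Filter.Eventually.of_forall fun x => ?_
        rw [Real.norm_of_nonneg (hf0 x u)]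
        exact hfle x u
    calc ∫ x in Set.Ioc X (2 * X), f x u
        ≤ ∫ x in Set.Ioc X (2 * X),
          (Set.Ico (rexp u - h) (rexp u)).indicator (fun _ => ‖E u‖ ^ 2) x :=
          setIntegral_mono_on hfi hconst.integrableOn measurableSet_Ioc h1
      _ ≤ ∫ x, (Set.Ico (rexp u - h) (rexp u)).indicator (fun _ => ‖E u‖ ^ 2) x :=
          setIntegral_le_integral hconst (Filter.Eventually.of_forall fun x =>
            Set.indicator_nonneg (fun _ _ => by positivity) _)
      _ = h * ‖E u‖ ^ 2 := by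
          rw [integral_indicator measurableSet_Ico, setIntegral_const]
          simp only [measureReal_def, Real.volume_Ico, smul_eq_mul]
          rw [ENNReal.toReal_ofReal (by linarith)]
          ring
  have hle : X ≤ 2 * X := by linarith
  rw [intervalIntegral.integral_of_le hle]
  have hL : Integrable (fun x => h / X * ∫ u, f x u) (volume.restrict (Set.Ioc X (2 * X))) :=
    (hint.integral_prod_left).const_mul _
  have hstep : ∫ x in Set.Ioc X (2 * X),
      ‖∫ u in (Real.log x)..(Real.log (x + h)), E u‖ ^ 2 ≤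
      ∫ x in Set.Ioc X (2 * X), h / X * ∫ u, f x u := by
    refine integral_mono_of_nonneg (Filter.Eventually.of_forall fun x => by positivity) hL ?_
    exact (ae_restrict_iff' measurableSet_Ioc).2 (Filter.Eventually.of_forall hpt)
  refine hstep.trans ?_
  rw [integral_const_mul, integral_integral_swap hint]
  have h7 : ∫ u, ∫ x in Set.Ioc X (2 * X), f x u ≤ ∫ u, h * ‖E u‖ ^ 2 := by
    refine integral_mono_of_nonneg (Filter.Eventually.of_forall fun u => ?_)
      (hEi.const_mul h) (Filter.Eventually.of_forall hvol)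
    exact integral_nonneg fun x => hf0 x u
  rw [integral_const_mul] at h7
  calc h / X * ∫ u, ∫ x in Set.Ioc X (2 * X), f x u
      ≤ h / X * (h * ∫ u, ‖E u‖ ^ 2) := mul_le_mul_of_nonneg_left h7 (by positivity)
    _ = h ^ 2 / X * ∫ u, ‖E u‖ ^ 2 := by ring

end Pool.Agent.MRL
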