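import Pool.Agent.Lib.MRL.Defs
import Pool.Agent.Lib.MRL.Pars

/-!
# Row NR: `MRD` implies `NoRuns`

A run of `2 L` equal values of `λ` makes the Gaussian average of `λ(n)/n` large at its middle, and
the mean square of the Gaussian averages is the mean square of the Dirichlet polynomial.
-/

set_option autoImplicit false

namespace Pool.Agent.MRL.NR

open Finset MeasureTheory

theorem nt_eq (n : ℕ) (t : ℝ) :
    nt n t = Complex.exp (Complex.I * ((-Real.log n : ℝ) : ℂ) * t) := by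
  unfold nt
  congr 1
  push_cast
  ring

theorem nt_norm (n : ℕ) (t : ℝ) : ‖nt n t‖ = 1 := by
  unfold nt
  rw [← Complex.ofReal_neg, Complex.norm_exp_ofReal_mul_I]

/-- the coefficients `λ(n)/n` -/
noncomputable def lb (n : ℕ) : ℂ := ((lam n / n : ℝ) : ℂ)

theorem A_eq (Y t : ℝ) : A Y t = ∑ n ∈ Ioc ⌊Y⌋₊ ⌊2 * Y⌋₊, lb n * nt n t := rfl

theorem tp_eq (s : Finset ℕ) (t : ℝ) :
    tp s (fun n => -Real.log n) lb t = ∑ n ∈ s, lb n * nt n t := by
  unfold tp
  exact Finset.sum_congr rfl fun n _ => by rw [nt_eq]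

theorem tp_split {X : ℝ} (hX : 0 ≤ X) (t : ℝ) :
    tp (Ioc ⌊X / 4⌋₊ ⌊4 * X⌋₊) (fun n => -Real.log n) lb t =
      A (X / 4) t + A (X / 2) t + A X t + A (2 * X) t := by
  rw [tp_eq, A_eq, A_eq, A_eq, A_eq]
  have h1 : 2 * (X / 4) = X / 2 := by ring
  have h2 : 2 * (X / 2) = X := by ring
  have h3 : 2 * (2 * X) = 4 * X := by ring
  rw [h1, h2, h3]
  have e1 : ⌊X / 4⌋₊ ≤ ⌊X / 2⌋₊ := Nat.floor_mono (by linarith)
  have e2 : ⌊X / 2⌋₊ ≤ ⌊X⌋₊ := Nat.floor_mono (by linarith)
  have e3 : ⌊X⌋₊ ≤ ⌊2 * X⌋₊ := Nat.floor_mono (by linarith)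
  have e4 : ⌊2 * X⌋₊ ≤ ⌊4 * X⌋₊ := Nat.floor_mono (by linarith)
  rw [Finset.sum_Ioc_consecutive _ e1 e2, Finset.sum_Ioc_consecutive _ (e1.trans e2) e3,
    Finset.sum_Ioc_consecutive _ ((e1.trans e2).trans e3) e4]

theorem A_continuous (Y : ℝ) : Continuous (A Y) := by
  have h : A Y = tp (Ioc ⌊Y⌋₊ ⌊2 * Y⌋₊) (fun n => -Real.log n) lb := by
    funext t
    rw [tp_eq, A_eq]
  rw [h]
  exact tp_continuous _ _ _

theorem A_g_int (Y : ℝ) {T : ℝ} (hT : 0 < T) : Integrable fun t => ‖A Y t‖ ^ 2 * g T t := by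
  have hg : (fun t => ‖A Y t‖ ^ 2 * g T t) =
      fun t => ‖A Y t‖ ^ 2 * Real.exp (-(1 / T ^ 2) * t ^ 2) := by
    funext t
    unfold g
    congr 2
    field_simp
  rw [hg]
  have hb : (0 : ℝ) < 1 / T ^ 2 := by positivity
  have hbd : ∀ t, ‖A Y t‖ ≤ ∑ n ∈ Ioc ⌊Y⌋₊ ⌊2 * Y⌋₊, ‖lb n‖ := by
    intro t
    rw [A_eq]
    refine (norm_sum_le _ _).trans (Finset.sum_le_sum fun n _ => ?_)
    rw [norm_mul, nt_norm, mul_one]
  refine ((integrable_exp_neg_mul_sq hb).const_mul
    ((∑ n ∈ Ioc ⌊Y⌋₊ ⌊2 * Y⌋₊, ‖lb n‖) ^ 2)).mono' ?_ ?_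
  · apply Continuous.aestronglyMeasurable
    have := A_continuous Y
    fun_prop
  · refine Filter.Eventually.of_forall fun t => ?_
    rw [Real.norm_of_nonneg (by positivity)]
    refine mul_le_mul_of_nonneg_right ?_ (Real.exp_pos _).le
    exact pow_le_pow_left₀ (norm_nonneg _) (hbd t) 2

/-- the energy of the Gaussian averages -/
theorem energy_le {ε h X0 X : ℝ} (hh : 1 ≤ h)
    (H : ∀ X : ℝ, X0 ≤ X → ∀ T : ℝ, 1 ≤ T → T ≤ X / h → ∫ t : ℝ, ‖A X t‖ ^ 2 * g T t ≤ ε)
    (hX0 : 4 * X0 ≤ X) (hX1 : 4 * h ≤ X) (hX : 0 < X) (hε : 0 ≤ ε) :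
    ∫ u, ‖es (Ioc ⌊X / 4⌋₊ ⌊4 * X⌋₊) (fun n => Real.log n) lb (4 * h / X) u‖ ^ 2 ≤ 3 * ε := by
  have hδ : 0 < 4 * h / X := by positivity
  rw [energy hδ]
  set T : ℝ := 1 / (4 * h / X) with hT
  have hTX : T = X / (4 * h) := by rw [hT]; field_simp
  have hT0 : 0 < T := by rw [hTX]; positivity
  have hT1 : 1 ≤ T := by
    rw [hTX, le_div_iff₀ (by positivity)]
    linarith
  have hk : ∀ Y : ℝ, X / 4 ≤ Y → ∫ t : ℝ, ‖A Y t‖ ^ 2 * g T t ≤ ε := by
    intro Y hY
    refine H Y (by linarith) T hT1 ?_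
    rw [hTX, show X / (4 * h) = X / 4 / h by field_simp]
    exact div_le_div_of_nonneg_right hY (by linarith)
  have h1 := hk (X / 4) le_rfl
  have h2 := hk (X / 2) (by linarith)
  have h3 := hk X (by linarith)
  have h4 := hk (2 * X) (by linarith)
  have hpt : ∀ t : ℝ, ‖tp (Ioc ⌊X / 4⌋₊ ⌊4 * X⌋₊) (fun n => -Real.log n) lb t‖ ^ 2 *
      Real.exp (-(1 / T ^ 2) * t ^ 2) ≤
      4 * (‖A (X / 4) t‖ ^ 2 * g T t + ‖A (X / 2) t‖ ^ 2 * g T t + ‖A X t‖ ^ 2 * g T t +
        ‖A (2 * X) t‖ ^ 2 * g T t) := by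
    intro t
    have hg : g T t = Real.exp (-(1 / T ^ 2) * t ^ 2) := by
      unfold g
      congr 1
      field_simp
    rw [tp_split hX.le, ← hg]
    have hg0 : 0 ≤ g T t := by unfold g; positivity
    have h5 : ‖A (X / 4) t + A (X / 2) t + A X t + A (2 * X) t‖ ≤
        ‖A (X / 4) t‖ + ‖A (X / 2) t‖ + ‖A X t‖ + ‖A (2 * X) t‖ := by
      refine (norm_add_le _ _).trans (add_le_add ?_ le_rfl)
      refine (norm_add_le _ _).trans (add_le_add ?_ le_rfl)
      exact norm_add_le _ _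
    have h6 : ‖A (X / 4) t + A (X / 2) t + A X t + A (2 * X) t‖ ^ 2 ≤
        4 * (‖A (X / 4) t‖ ^ 2 + ‖A (X / 2) t‖ ^ 2 + ‖A X t‖ ^ 2 + ‖A (2 * X) t‖ ^ 2) := by
      refine (pow_le_pow_left₀ (norm_nonneg _) h5 2).trans ?_
      nlinarith [sq_nonneg (‖A (X / 4) t‖ - ‖A (X / 2) t‖), sq_nonneg (‖A (X / 4) t‖ - ‖A X t‖),
        sq_nonneg (‖A (X / 4) t‖ - ‖A (2 * X) t‖), sq_nonneg (‖A (X / 2) t‖ - ‖A X t‖),
        sq_nonneg (‖A (X / 2) t‖ - ‖A (2 * X) t‖), sq_nonneg (‖A X t‖ - ‖A (2 * X) t‖)]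
    nlinarith [mul_le_mul_of_nonneg_right h6 hg0]
  have i1 := A_g_int (X / 4) hT0
  have i2 := A_g_int (X / 2) hT0
  have i3 := A_g_int X hT0
  have i4 := A_g_int (2 * X) hT0
  have h7 : ∫ t : ℝ, ‖tp (Ioc ⌊X / 4⌋₊ ⌊4 * X⌋₊) (fun n => -Real.log n) lb t‖ ^ 2 *
      Real.exp (-(1 / T ^ 2) * t ^ 2) ≤ 4 * (4 * ε) := by
    refine (integral_mono_of_nonneg (Filter.Eventually.of_forall fun t => by positivity)
      ((((i1.add i2).add i3).add i4).const_mul 4)
      (Filter.Eventually.of_forall hpt)).trans ?_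
    have h8 : ∫ t : ℝ, 4 * (‖A (X / 4) t‖ ^ 2 * g T t + ‖A (X / 2) t‖ ^ 2 * g T t +
        ‖A X t‖ ^ 2 * g T t + ‖A (2 * X) t‖ ^ 2 * g T t) =
        4 * ((∫ t, ‖A (X / 4) t‖ ^ 2 * g T t) + (∫ t, ‖A (X / 2) t‖ ^ 2 * g T t) +
          (∫ t, ‖A X t‖ ^ 2 * g T t) + (∫ t, ‖A (2 * X) t‖ ^ 2 * g T t)) := by
      have e1 := integral_add i1 i2
      have e2 := integral_add (i1.add i2) i3
      have e3 := integral_add ((i1.add i2).add i3) i4
      simp only [Pi.add_apply] at e2 e3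
      rw [integral_const_mul, e3, e2, e1]
    exact h8.le.trans (by linarith)
  have hpi : 1 / (2 * Real.pi) ≤ 1 / 6 := by
    apply one_div_le_one_div_of_le (by norm_num)
    have := Real.pi_gt_three
    linarith
  have hpi0 : 0 ≤ 1 / (2 * Real.pi) := by positivity
  calc 1 / (2 * Real.pi) * ∫ t : ℝ, ‖tp (Ioc ⌊X / 4⌋₊ ⌊4 * X⌋₊) (fun n => -Real.log n) lb t‖ ^ 2 *
      Real.exp (-(1 / T ^ 2) * t ^ 2) ≤ 1 / (2 * Real.pi) * (4 * (4 * ε)) :=
        mul_le_mul_of_nonneg_left h7 hpi0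
    _ ≤ 1 / 6 * (4 * (4 * ε)) := mul_le_mul_of_nonneg_right hpi (by positivity)
    _ ≤ 3 * ε := by linarith

theorem lam_abs (n : ℕ) : |lam n| = 1 := by
  unfold lam
  rw [abs_pow, abs_neg, abs_one, one_pow]

/-- `Σ_{k < K} 1/(m + k)^2 ≤ 1/(m - 1)` -/
theorem sum_inv_sq_le {m : ℝ} (hm : 1 < m) (K : ℕ) :
    ∑ k ∈ range K, 1 / (m + k) ^ 2 ≤ 1 / (m - 1) - 1 / (m - 1 + K) := by
  induction K with
  | zero => simp
  | succ K ih =>
    rw [Finset.sum_range_succ]
    have hK : (0 : ℝ) ≤ K := Nat.cast_nonneg _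
    have h1 : 1 / (m + K) ^ 2 ≤ 1 / (m - 1 + K) - 1 / (m - 1 + (K + 1 : ℕ)) := by
      push_cast
      have h2 : 1 / (m - 1 + K) - 1 / (m - 1 + (K + 1)) = 1 / ((m - 1 + K) * (m + K)) := by
        have e1 : m - 1 + (K : ℝ) ≠ 0 := by linarith
        have e2 : m + (K : ℝ) ≠ 0 := by linarith
        have e3 : m - 1 + ((K : ℝ) + 1) ≠ 0 := by linarith
        rw [div_sub_div _ _ e1 e3]
        congr 1
        · ring
        · ring
      rw [h2]
      apply one_div_le_one_div_of_le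
      · apply mul_pos <;> linarith
      · nlinarith
    linarith

theorem log_spacing_real {a b M : ℝ} (ha : 0 < a) (hab : a ≤ b) (hb : b ≤ M) :
    (b - a) / M ≤ Real.log b - Real.log a := by
  have hb0 : 0 < b := ha.trans_le hab
  have h1 : Real.log b - Real.log a = -Real.log (a / b) := by
    rw [Real.log_div ha.ne' hb0.ne']
    ring
  have h2 := Real.log_le_sub_one_of_pos (show 0 < a / b by positivity)
  have h3 : (b - a) / M ≤ (b - a) / b := div_le_div_of_nonneg_left (by linarith) hb0 hb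
  have h4 : (b - a) / b = 1 - a / b := by field_simp
  rw [h1]
  linarith

theorem sqrt_two_pi_ge : (2.5 : ℝ) ≤ √(2 * Real.pi) := by
  apply Real.le_sqrt_of_sq_le
  have := Real.pi_gt_d2
  linarith

theorem sqrt_two_pi_le : √(2 * Real.pi) ≤ 2.51 := by
  rw [Real.sqrt_le_left (by norm_num)]
  have := Real.pi_lt_d4
  linarith

/-- upper bound of the kernel away from the centre -/
theorem ker_le {h X u d : ℝ} {n : ℕ} (hh : 1 ≤ h) (hX : 0 < X) (hn1 : X / 4 < n)
    (hn2 : (n : ℝ) ≤ 4 * X) (hu : Real.exp u ≤ 4 * X) (hd : 0 < d)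
    (hdist : d ≤ |(n : ℝ) - Real.exp u|) :
    1 / n * gw (4 * h / X) (Real.log n - u) ≤ 205 * h * (1 / d ^ 2) := by
  have hn0 : (0 : ℝ) < n := by linarith [show 0 < X / 4 by positivity]
  have hy : d / (4 * X) ≤ |Real.log n - u| := by
    have h1 : |(n : ℝ) - Real.exp u| / (4 * X) ≤ |Real.log n - u| := by
      rcases le_total (n : ℝ) (Real.exp u) with h | h
      · have h2 := log_spacing_real hn0 h hu
        rw [Real.log_exp] at h2
        rw [abs_sub_comm, abs_of_nonneg (by linarith), abs_sub_comm]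
        exact h2.trans (le_abs_self _)
      · have h2 := log_spacing_real (Real.exp_pos u) h hn2
        rw [Real.log_exp] at h2
        rw [abs_of_nonneg (by linarith)]
        exact h2.trans (le_abs_self _)
    exact (div_le_div_of_nonneg_right hdist (by positivity)).trans h1
  have hy0 : 0 < d / (4 * X) := by positivity
  have hy2 : (d / (4 * X)) ^ 2 ≤ (Real.log n - u) ^ 2 := by
    rw [← sq_abs (Real.log n - u)]
    exact pow_le_pow_left₀ hy0.le hy 2
  have hδ : 0 < 4 * h / X := by positivity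
  set δ : ℝ := 4 * h / X with hδd
  have h1 : gw δ (Real.log n - u) ≤ 51.2 * h * X / d ^ 2 := by
    unfold gw
    have h2 : Real.exp (-(1 / (2 * δ ^ 2)) * (Real.log n - u) ^ 2) ≤
        Real.exp (-(1 / (2 * δ ^ 2) * (d / (4 * X)) ^ 2)) := by
      apply Real.exp_le_exp.mpr
      have : 0 ≤ 1 / (2 * δ ^ 2) := by positivity
      nlinarith [mul_le_mul_of_nonneg_left hy2 this]
    have h3 : Real.exp (-(1 / (2 * δ ^ 2) * (d / (4 * X)) ^ 2)) ≤
        1 / (1 / (2 * δ ^ 2) * (d / (4 * X)) ^ 2) := by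
      rw [Real.exp_neg, inv_eq_one_div]
      apply one_div_le_one_div_of_le (by positivity)
      linarith [Real.add_one_le_exp (1 / (2 * δ ^ 2) * (d / (4 * X)) ^ 2)]
    have h4 := (h2.trans h3)
    calc Real.exp (-(1 / (2 * δ ^ 2)) * (Real.log n - u) ^ 2) / (δ * √(2 * Real.pi))
        ≤ (1 / (1 / (2 * δ ^ 2) * (d / (4 * X)) ^ 2)) / (δ * 2.5) := by
          apply div_le_div₀ (by positivity) h4 (by positivity)
          exact mul_le_mul_of_nonneg_left sqrt_two_pi_ge hδ.le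
      _ = 51.2 * h * X / d ^ 2 := by
          rw [hδd]
          field_simp
          ring
  have h5 : 1 / (n : ℝ) ≤ 4 / X := by
    rw [div_le_div_iff₀ hn0 hX]
    linarith
  calc 1 / (n : ℝ) * gw δ (Real.log n - u) ≤ 4 / X * (51.2 * h * X / d ^ 2) :=
        mul_le_mul h5 h1 (gw_nonneg hδ _) (by positivity)
    _ = 204.8 * h * (1 / d ^ 2) := by
        field_simp
        ring
    _ ≤ 205 * h * (1 / d ^ 2) := by
        have : 0 ≤ h * (1 / d ^ 2) := by positivity
        nlinarith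

/-- lower bound of the kernel near the centre -/
theorem ker_ge {h X u : ℝ} {n : ℕ} (hh : 1 ≤ h) (hX : 0 < X) (hn2 : (n : ℝ) ≤ 4 * X)
    (hu : X ≤ Real.exp u) (h1 : Real.exp u ≤ n) (h2 : (n : ℝ) - Real.exp u ≤ 4 * h) :
    0.0149 / h ≤ 1 / n * gw (4 * h / X) (Real.log n - u) := by
  have he0 : 0 < Real.exp u := Real.exp_pos u
  have hn0 : (0 : ℝ) < n := by linarith
  have hδ : 0 < 4 * h / X := by positivity
  have hy0 : 0 ≤ Real.log n - u := by
    have := Real.log_le_log he0 h1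
    rw [Real.log_exp] at this
    linarith
  have hy1 : Real.log n - u ≤ 4 * h / X := by
    have h3 : Real.log n - u = Real.log (n / Real.exp u) := by
      rw [Real.log_div hn0.ne' he0.ne', Real.log_exp]
    have h4 := Real.log_le_sub_one_of_pos (show 0 < (n : ℝ) / Real.exp u by positivity)
    have h5 : (n : ℝ) / Real.exp u - 1 = ((n : ℝ) - Real.exp u) / Real.exp u := by field_simp
    have h6 : ((n : ℝ) - Real.exp u) / Real.exp u ≤ 4 * h / X :=
      div_le_div₀ (by positivity) h2 hX hu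
    linarith
  have hn3 : 1 / (4 * X) ≤ 1 / (n : ℝ) := one_div_le_one_div_of_le hn0 hn2
  set δ : ℝ := 4 * h / X with hδd
  have h7 : 0.6 / (δ * 2.51) ≤ gw δ (Real.log n - u) := by
    unfold gw
    have h8 : (0.6 : ℝ) ≤ Real.exp (-(1 / (2 * δ ^ 2)) * (Real.log n - u) ^ 2) := by
      have h9 : Real.exp (-(1 / 2)) ≤ Real.exp (-(1 / (2 * δ ^ 2)) * (Real.log n - u) ^ 2) := by
        apply Real.exp_le_exp.mpr
        have h10 : (Real.log n - u) ^ 2 ≤ δ ^ 2 := pow_le_pow_left₀ hy0 hy1 2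
        have h11 : 1 / (2 * δ ^ 2) * (Real.log n - u) ^ 2 ≤ 1 / (2 * δ ^ 2) * δ ^ 2 :=
          mul_le_mul_of_nonneg_left h10 (by positivity)
        have h12 : 1 / (2 * δ ^ 2) * δ ^ 2 = 1 / 2 := by field_simp
        linarith
      have h13 : (0.6 : ℝ) ≤ Real.exp (-(1 / 2)) := by
        have h14 : Real.exp (-(1 / 2)) * Real.exp (-(1 / 2)) = Real.exp (-1) := by
          rw [← Real.exp_add]; norm_num
        have h15 : (0.36 : ℝ) ≤ Real.exp (-1) := by
          rw [Real.exp_neg, inv_eq_one_div, le_div_iff₀ (Real.exp_pos 1)]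
          have := Real.exp_one_lt_d9
          linarith
        nlinarith [Real.exp_pos (-(1 / 2) : ℝ)]
      exact h13.trans h9
    apply div_le_div₀ (Real.exp_pos _).le h8 (by positivity)
    exact mul_le_mul_of_nonneg_left sqrt_two_pi_le hδ.le
  calc 0.0149 / h ≤ 1 / (4 * X) * (0.6 / (δ * 2.51)) := by
        rw [hδd]
        have : 1 / (4 * X) * (0.6 / (4 * h / X * 2.51)) = (0.6 / 40.16) / h := by
          field_simp
          norm_num
        rw [this]
        apply div_le_div_of_nonneg_right _ (by linarith)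
        norm_num
    _ ≤ 1 / n * gw δ (Real.log n - u) := mul_le_mul hn3 h7 (by positivity) (by positivity)

/-- lower bound of the Gaussian average in the middle of a run -/
theorem es_lower {h X u : ℝ} {x L : ℕ} (hh : 1 ≤ h) (hX : 4 * ((L : ℝ) + 4 * h + 4) ≤ X)
    (hL : 30000 * h ≤ L) (hx1 : X ≤ x) (hx2 : (x : ℝ) ≤ 2 * X)
    (hrun : ∀ j < 2 * L, lam (x + j) = lam x)
    (hu1 : ((x + L : ℕ) : ℝ) ≤ Real.exp u) (hu2 : Real.exp u < ((x + L : ℕ) : ℝ) + 1) :
    1 / 40 ≤ ‖es (Ioc ⌊X / 4⌋₊ ⌊4 * X⌋₊) (fun n => Real.log n) lb (4 * h / X) u‖ := by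
  have hL0 : (0 : ℝ) ≤ L := Nat.cast_nonneg _
  have hX0 : 0 < X := by linarith
  push_cast at hu1 hu2
  have hδ : 0 < 4 * h / X := by positivity
  set s : Finset ℕ := Ioc ⌊X / 4⌋₊ ⌊4 * X⌋₊ with hs
  set F : ℕ → ℝ := fun n => 1 / (n : ℝ) * gw (4 * h / X) (Real.log n - u) with hF
  have hF0 : ∀ n, 0 ≤ F n := fun n => by
    simp only [hF]
    exact mul_nonneg (by positivity) (gw_nonneg hδ _)
  have hsm : ∀ n ∈ s, X / 4 < (n : ℝ) ∧ (n : ℝ) ≤ 4 * X := by
    intro n hn
    rw [hs, Finset.mem_Ioc] at hn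
    exact ⟨(Nat.floor_lt (by positivity)).1 hn.1, (Nat.le_floor_iff (by positivity)).1 hn.2⟩
  have hes : es s (fun n => Real.log n) lb (4 * h / X) u
      = ((∑ n ∈ s, lam n * F n : ℝ) : ℂ) := by
    unfold es lb
    push_cast
    refine Finset.sum_congr rfl fun n _ => ?_
    simp only [hF]
    push_cast
    ring
  rw [hes, Complex.norm_real, Real.norm_eq_abs]
  have hlx := lam_abs x
  have h1 : lam x * ∑ n ∈ s, lam n * F n ≤ |∑ n ∈ s, lam n * F n| := by
    refine (le_abs_self _).trans ?_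
    rw [abs_mul, hlx, one_mul]
  refine le_trans ?_ h1
  have hlx2 : lam x * lam x = 1 := by
    have := congrArg (fun z => z ^ 2) hlx
    simp only [sq_abs] at this
    nlinarith
  -- the run
  set P : ℕ → Prop := fun n => x ≤ n ∧ n < x + 2 * L with hP
  have hrun' : ∀ n, P n → lam n = lam x := by
    intro n hn
    obtain ⟨j, rfl⟩ := Nat.exists_eq_add_of_le hn.1
    exact hrun j (by have := hn.2; omega)
  rw [Finset.mul_sum, ← Finset.sum_filter_add_sum_filter_not s P]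
  have hin : ∑ n ∈ s.filter P, lam x * (lam n * F n) = ∑ n ∈ s.filter P, F n := by
    refine Finset.sum_congr rfl fun n hn => ?_
    rw [hrun' n (Finset.mem_filter.mp hn).2, ← mul_assoc, hlx2, one_mul]
  have hout : -(∑ n ∈ s.filter (fun n => ¬ P n), F n) ≤
      ∑ n ∈ s.filter (fun n => ¬ P n), lam x * (lam n * F n) := by
    rw [← Finset.sum_neg_distrib]
    refine Finset.sum_le_sum fun n _ => ?_
    have h2 : |lam x * lam n| = 1 := by rw [abs_mul, hlx, lam_abs, one_mul]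
    have h3 : -1 ≤ lam x * lam n := by
      have := neg_abs_le (lam x * lam n)
      rw [h2] at this
      exact this
    nlinarith [mul_le_mul_of_nonneg_right h3 (hF0 n)]
  rw [hin]
  -- the centre
  set m : ℕ := ⌊4 * h⌋₊ with hm
  have hm1 : (m : ℝ) ≤ 4 * h := Nat.floor_le (by positivity)
  have hm2 : 4 * h - 1 < m := Nat.sub_one_lt_floor _
  have hmL : m < L := by
    have : (m : ℝ) < L := by linarith
    exact_mod_cast this
  have hcen : 0.0447 ≤ ∑ n ∈ s.filter P, F n := by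
    have h2 : ∑ n ∈ Icc (x + L + 1) (x + L + m), F n ≤ ∑ n ∈ s.filter P, F n := by
      refine Finset.sum_le_sum_of_subset_of_nonneg ?_ fun n _ _ => hF0 n
      intro n hn
      rw [Finset.mem_Icc] at hn
      rw [Finset.mem_filter]
      refine ⟨?_, ⟨by omega, by omega⟩⟩
      rw [hs, Finset.mem_Ioc]
      have h3 : (x : ℝ) ≤ n := by exact_mod_cast (by omega : x ≤ n)
      have h4 : (n : ℝ) ≤ x + L + m := by exact_mod_cast hn.2
      constructor
      · rw [Nat.floor_lt (by positivity)]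
        linarith
      · rw [Nat.le_floor_iff (by positivity)]
        linarith
    refine le_trans ?_ h2
    have h3 : ∑ n ∈ Icc (x + L + 1) (x + L + m), (0.0149 / h : ℝ) ≤
        ∑ n ∈ Icc (x + L + 1) (x + L + m), F n := by
      refine Finset.sum_le_sum fun n hn => ?_
      rw [Finset.mem_Icc] at hn
      have h4 : (n : ℝ) ≤ x + L + m := by exact_mod_cast hn.2
      have h5 : (x : ℝ) + L + 1 ≤ n := by exact_mod_cast hn.1
      exact ker_ge hh hX0 (by linarith) (by linarith) (by linarith) (by linarith)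
    refine le_trans ?_ h3
    rw [Finset.sum_const, Nat.card_Icc, show x + L + m + 1 - (x + L + 1) = m by omega,
      nsmul_eq_mul]
    have h6 : 3 * h ≤ m := by linarith
    calc (0.0447 : ℝ) = 3 * h * (0.0149 / h) := by
          field_simp
          norm_num
      _ ≤ m * (0.0149 / h) := mul_le_mul_of_nonneg_right h6 (by positivity)
  -- outside
  have hLm : (1 : ℝ) < (L : ℝ) - 1 := by linarith
  have hout2 : ∑ n ∈ s.filter (fun n => ¬ P n), F n ≤ 2 * (205 * h * (1 / ((L : ℝ) - 1 - 1))) := by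
    have hsum : ∀ K : ℕ, ∑ k ∈ range K, 205 * h * (1 / ((L : ℝ) - 1 + k) ^ 2) ≤
        205 * h * (1 / ((L : ℝ) - 1 - 1)) := by
      intro K
      rw [← Finset.mul_sum]
      refine mul_le_mul_of_nonneg_left ?_ (by positivity)
      have h2 := sum_inv_sq_le hLm K
      have h3 : 0 ≤ 1 / ((L : ℝ) - 1 - 1 + K) := by
        have : (0 : ℝ) ≤ K := Nat.cast_nonneg _
        apply div_nonneg zero_le_one
        linarith
      linarith
    rw [← Finset.sum_filter_add_sum_filter_not (s.filter (fun n => ¬ P n)) (fun n => n < x)]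
    have hA1 : ∑ n ∈ (s.filter (fun n => ¬ P n)).filter (fun n => n < x), F n ≤
        205 * h * (1 / ((L : ℝ) - 1 - 1)) := by
      refine le_trans ?_ (hsum x)
      have h2 : ∀ n ∈ (s.filter (fun n => ¬ P n)).filter (fun n => n < x),
          F n ≤ 205 * h * (1 / ((L : ℝ) - 1 + ((x - 1 - n : ℕ) : ℝ)) ^ 2) := by
        intro n hn
        rw [Finset.mem_filter, Finset.mem_filter] at hn
        have h3 := hsm n hn.1.1
        have h4 : ((x - 1 - n : ℕ) : ℝ) = (x : ℝ) - 1 - n := by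
          rw [Nat.cast_sub (by omega), Nat.cast_sub (by omega), Nat.cast_one]
        have hn5 : (n : ℝ) + 1 ≤ x := by exact_mod_cast hn.2
        refine ker_le hh hX0 h3.1 h3.2 (by linarith) ?_ ?_
        · rw [h4]; linarith
        · rw [abs_sub_comm, abs_of_nonneg (by linarith), h4]
          linarith
      refine (Finset.sum_le_sum h2).trans ?_
      have h5 : ∑ n ∈ (s.filter (fun n => ¬ P n)).filter (fun n => n < x),
          205 * h * (1 / ((L : ℝ) - 1 + ((x - 1 - n : ℕ) : ℝ)) ^ 2) =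
          ∑ k ∈ ((s.filter (fun n => ¬ P n)).filter (fun n => n < x)).image
            (fun n => x - 1 - n), 205 * h * (1 / ((L : ℝ) - 1 + (k : ℝ)) ^ 2) := by
        rw [Finset.sum_image]
        intro a ha b hb hab
        have h6 := (Finset.mem_filter.mp ha).2
        have h7 := (Finset.mem_filter.mp hb).2
        simp only at hab
        omega
      rw [h5]
      refine Finset.sum_le_sum_of_subset_of_nonneg ?_ fun k _ _ => by positivity
      intro k hk
      obtain ⟨n, hn, rfl⟩ := Finset.mem_image.mp hk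
      have h6 := (Finset.mem_filter.mp hn).2
      rw [Finset.mem_range]
      omega
    have hA2 : ∑ n ∈ (s.filter (fun n => ¬ P n)).filter (fun n => ¬ n < x), F n ≤
        205 * h * (1 / ((L : ℝ) - 1 - 1)) := by
      refine le_trans ?_ (hsum (⌊4 * X⌋₊ + 1))
      have h2 : ∀ n ∈ (s.filter (fun n => ¬ P n)).filter (fun n => ¬ n < x),
          F n ≤ 205 * h * (1 / ((L : ℝ) - 1 + ((n - (x + 2 * L) : ℕ) : ℝ)) ^ 2) := by
        intro n hn
        rw [Finset.mem_filter, Finset.mem_filter] at hn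
        have h3 := hsm n hn.1.1
        have hge : x + 2 * L ≤ n := by
          by_contra hcon
          exact hn.1.2 ⟨by omega, by omega⟩
        have h4 : ((n - (x + 2 * L) : ℕ) : ℝ) = (n : ℝ) - (x + 2 * L) := by
          rw [Nat.cast_sub hge]; push_cast; ring
        have hn5 : (x : ℝ) + 2 * L ≤ n := by exact_mod_cast hge
        refine ker_le hh hX0 h3.1 h3.2 (by linarith) ?_ ?_
        · rw [h4]; linarith
        · rw [abs_of_nonneg (by linarith), h4]
          linarith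
      refine (Finset.sum_le_sum h2).trans ?_
      have h5 : ∑ n ∈ (s.filter (fun n => ¬ P n)).filter (fun n => ¬ n < x),
          205 * h * (1 / ((L : ℝ) - 1 + ((n - (x + 2 * L) : ℕ) : ℝ)) ^ 2) =
          ∑ k ∈ ((s.filter (fun n => ¬ P n)).filter (fun n => ¬ n < x)).image
            (fun n => n - (x + 2 * L)), 205 * h * (1 / ((L : ℝ) - 1 + (k : ℝ)) ^ 2) := by
        rw [Finset.sum_image]
        intro a ha b hb hab
        have ha' := Finset.mem_filter.mp ha
        have hb' := Finset.mem_filter.mp hb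
        have ha2 := (Finset.mem_filter.mp ha'.1).2
        have hb2 := (Finset.mem_filter.mp hb'.1).2
        have ha3 : x + 2 * L ≤ a := by
          by_contra hcon
          exact ha2 ⟨by omega, by omega⟩
        have hb3 : x + 2 * L ≤ b := by
          by_contra hcon
          exact hb2 ⟨by omega, by omega⟩
        simp only at hab
        omega
      rw [h5]
      refine Finset.sum_le_sum_of_subset_of_nonneg ?_ fun k _ _ => by positivity
      intro k hk
      obtain ⟨n, hn, rfl⟩ := Finset.mem_image.mp hk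
      have h6 := (Finset.mem_filter.mp (Finset.mem_filter.mp hn).1).1
      rw [hs, Finset.mem_Ioc] at h6
      rw [Finset.mem_range]
      omega
    linarith
  have hfin : 2 * (205 * h * (1 / ((L : ℝ) - 1 - 1))) ≤ 0.014 := by
    have h2 : 29998 * h ≤ (L : ℝ) - 1 - 1 := by linarith
    have h3 : 1 / ((L : ℝ) - 1 - 1) ≤ 1 / (29998 * h) :=
      one_div_le_one_div_of_le (by positivity) h2
    calc 2 * (205 * h * (1 / ((L : ℝ) - 1 - 1))) ≤ 2 * (205 * h * (1 / (29998 * h))) := by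
          have : 0 ≤ 205 * h := by positivity
          nlinarith [mul_le_mul_of_nonneg_left h3 this]
      _ = 410 / 29998 := by
          field_simp
          norm_num
      _ ≤ 0.014 := by norm_num
  linarith

/-- **Row NR.** -/
theorem noRuns (H : MRD) : NoRuns := by
  intro δ hδ
  obtain ⟨h, hh, X0, hX0⟩ := H (δ / 15000) (by positivity)
  set L : ℕ := ⌈30000 * h⌉₊ with hLd
  have hL : 30000 * h ≤ L := Nat.le_ceil _
  refine ⟨2 * L, max (4 * X0) (4 * ((L : ℝ) + 4 * h + 4)), fun X hX => ?_⟩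
  have hX1 : 4 * X0 ≤ X := (le_max_left _ _).trans hX
  have hX2 : 4 * ((L : ℝ) + 4 * h + 4) ≤ X := (le_max_right _ _).trans hX
  have hL0 : (0 : ℝ) ≤ L := Nat.cast_nonneg _
  have hXpos : 0 < X := by linarith
  set R : Finset ℕ := (Icc ⌈X⌉₊ ⌊2 * X⌋₊).filter (fun x => ∀ j < 2 * L, lam (x + j) = lam x)
    with hR
  have hen := energy_le hh hX0 hX1 (by linarith) hXpos (by positivity)
  set E : ℝ → ℝ := fun u =>
    ‖es (Ioc ⌊X / 4⌋₊ ⌊4 * X⌋₊) (fun n => Real.log n) lb (4 * h / X) u‖ ^ 2 with hE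
  have hEi : Integrable E := es_int (by positivity) _ _ _
  set I : ℕ → Set ℝ := fun x =>
    Set.Ico (Real.log ((x + L : ℕ) : ℝ)) (Real.log (((x + L : ℕ) : ℝ) + 1)) with hI
  have hmem : ∀ x ∈ R, X ≤ (x : ℝ) ∧ (x : ℝ) ≤ 2 * X ∧ ∀ j < 2 * L, lam (x + j) = lam x := by
    intro x hx
    rw [hR, Finset.mem_filter, Finset.mem_Icc] at hx
    exact ⟨Nat.ceil_le.1 hx.1.1, (Nat.le_floor_iff (by positivity)).1 hx.1.2, hx.2⟩
  have hdisj : Set.Pairwise (↑R : Set ℕ) (Function.onFun Disjoint I) := by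
    intro x hx y hy hxy
    have hx0 : (0 : ℝ) < ((x + L : ℕ) : ℝ) := by
      push_cast; linarith [(hmem x hx).1]
    have hy0 : (0 : ℝ) < ((y + L : ℕ) : ℝ) := by
      push_cast; linarith [(hmem y hy).1]
    rw [Function.onFun, Set.disjoint_left]
    intro u hux huy
    simp only [hI, Set.mem_Ico] at hux huy
    have a1 := (Real.log_le_iff_le_exp hx0).1 hux.1
    have a2 := (Real.lt_log_iff_exp_lt (by linarith)).1 hux.2
    have b1 := (Real.log_le_iff_le_exp hy0).1 huy.1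
    have b2 := (Real.lt_log_iff_exp_lt (by linarith)).1 huy.2
    have c1 : ((x + L : ℕ) : ℝ) < ((y + L : ℕ) : ℝ) + 1 := lt_of_le_of_lt a1 b2
    have c2 : ((y + L : ℕ) : ℝ) < ((x + L : ℕ) : ℝ) + 1 := lt_of_le_of_lt b1 a2
    have c3 : x + L < y + L + 1 := by exact_mod_cast c1
    have c4 : y + L < x + L + 1 := by exact_mod_cast c2
    exact hxy (by omega)
  have hunion : ∑ x ∈ R, ∫ u in I x, E u ≤ ∫ u, E u := by
    rw [← integral_biUnion_finset R (fun x _ => measurableSet_Ico) hdisj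
      (fun x _ => hEi.integrableOn)]
    exact setIntegral_le_integral hEi (Filter.Eventually.of_forall fun u => by
      simp only [hE, Pi.zero_apply]; positivity)
  have hone : ∀ x ∈ R, (1 / 1600 : ℝ) * (1 / (3 * X)) ≤ ∫ u in I x, E u := by
    intro x hx
    obtain ⟨hx1, hx2, hx3⟩ := hmem x hx
    have hx0 : (0 : ℝ) < ((x + L : ℕ) : ℝ) := by push_cast; linarith
    have h1 : ∫ _ in I x, (1 / 1600 : ℝ) ≤ ∫ u in I x, E u := by
      refine setIntegral_mono_on ?_ hEi.integrableOn measurableSet_Ico fun u hu => ?_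
      · exact integrableOn_const (by simp [hI])
      · simp only [hI, Set.mem_Ico] at hu
        have a1 := (Real.log_le_iff_le_exp hx0).1 hu.1
        have a2 := (Real.lt_log_iff_exp_lt (by linarith)).1 hu.2
        have h2 := es_lower hh hX2 hL hx1 hx2 hx3 a1 a2
        simp only [hE]
        calc (1 / 1600 : ℝ) = (1 / 40) ^ 2 := by norm_num
          _ ≤ _ := pow_le_pow_left₀ (by norm_num) h2 2
    refine le_trans ?_ h1
    rw [setIntegral_const]
    simp only [hI, measureReal_def, Real.volume_Ico, smul_eq_mul]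
    have h3 : (((x + L : ℕ) : ℝ) + 1 - ((x + L : ℕ) : ℝ)) / (3 * X) ≤
        Real.log (((x + L : ℕ) : ℝ) + 1) - Real.log ((x + L : ℕ) : ℝ) := by
      apply log_spacing_real hx0 (by linarith)
      push_cast
      linarith
    have h4 : (((x + L : ℕ) : ℝ) + 1 - ((x + L : ℕ) : ℝ)) = 1 := by ring
    rw [h4] at h3
    have h5 : 0 ≤ Real.log (((x + L : ℕ) : ℝ) + 1) - Real.log ((x + L : ℕ) : ℝ) :=
      le_trans (by positivity) h3
    rw [ENNReal.toReal_ofReal h5, mul_comm]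
    exact mul_le_mul_of_nonneg_right h3 (by norm_num)
  have hcard : (R.card : ℝ) * ((1 / 1600 : ℝ) * (1 / (3 * X))) ≤ 3 * (δ / 15000) := by
    calc (R.card : ℝ) * ((1 / 1600 : ℝ) * (1 / (3 * X)))
        = ∑ _x ∈ R, (1 / 1600 : ℝ) * (1 / (3 * X)) := by
          rw [Finset.sum_const, nsmul_eq_mul]
      _ ≤ ∑ x ∈ R, ∫ u in I x, E u := Finset.sum_le_sum hone
      _ ≤ ∫ u, E u := hunion
      _ ≤ 3 * (δ / 15000) := hen
  have h6 : (R.card : ℝ) * ((1 / 1600 : ℝ) * (1 / (3 * X))) = R.card / (4800 * X) := by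
    field_simp
    ring
  rw [h6, div_le_iff₀ (by positivity)] at hcard
  nlinarith

end Pool.Agent.MRL.NR

namespace Pool.Agent.MRL

/-- **Row NR.** -/
theorem noRuns_of_MRD (H : MRD) : NoRuns := NR.noRuns H

end Pool.Agent.MRL
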