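import Pool.Agent.Lib.MRL.Defs2

/-! TANK MR: elementary facts on `nt`, `A`, `Q`, `g`. helper89. -/

set_option autoImplicit false

namespace Pool.Agent.MRL.Bas

open Finset MeasureTheory

theorem norm_nt (n : ℕ) (t : ℝ) : ‖nt n t‖ = 1 := by
  unfold nt
  rw [← Complex.ofReal_neg]
  exact Complex.norm_exp_ofReal_mul_I _

theorem continuous_nt (n : ℕ) : Continuous (nt n) := by
  unfold nt
  fun_prop

theorem nt_mul {m n : ℕ} (hm : m ≠ 0) (hn : n ≠ 0) (t : ℝ) : nt (m * n) t = nt m t * nt n t := by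
  unfold nt
  rw [← Complex.exp_add]
  congr 1
  rw [Nat.cast_mul, Real.log_mul (by exact_mod_cast hm) (by exact_mod_cast hn)]
  push_cast
  ring

theorem nt_add (n : ℕ) (s t : ℝ) : nt n (s + t) = nt n s * nt n t := by
  unfold nt
  rw [← Complex.exp_add]
  congr 1
  push_cast
  ring

theorem continuous_A (Y : ℝ) : Continuous (A Y) := by
  unfold A
  exact continuous_finsetSum _ fun m _ => continuous_const.mul (continuous_nt m)

theorem continuous_Q (H v : ℕ) : Continuous (Q H v) := by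
  unfold Q
  exact continuous_finsetSum _ fun m _ => continuous_const.mul (continuous_nt m)

theorem continuous_S (X : ℝ) (H v1 v2 : ℕ) : Continuous (S X H v1 v2) := by
  unfold S
  exact continuous_finsetSum _ fun v _ => (continuous_Q H v).mul (continuous_A _)

theorem continuous_g (T : ℝ) : Continuous (g T) := by
  unfold g
  fun_prop

theorem g_pos (T t : ℝ) : 0 < g T t := Real.exp_pos _

theorem g_nonneg (T t : ℝ) : 0 ≤ g T t := (g_pos T t).le

theorem g_le_one (T t : ℝ) : g T t ≤ 1 := by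
  unfold g
  rw [Real.exp_le_one_iff]
  have := sq_nonneg (t / T)
  linarith

theorem g_eq {T : ℝ} (t : ℝ) : g T t = Real.exp (-(1 / T ^ 2) * t ^ 2) := by
  unfold g
  congr 1
  rw [div_pow]
  ring

theorem integrable_g {T : ℝ} (hT : 0 < T) : Integrable (g T) := by
  have h := integrable_exp_neg_mul_sq (b := 1 / T ^ 2) (by positivity)
  refine h.congr (Filter.Eventually.of_forall fun t => ?_)
  simp only
  rw [g_eq]

theorem g_mono {T T' : ℝ} (hT : 0 < T) (h : T ≤ T') (t : ℝ) : g T t ≤ g T' t := by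
  unfold g
  apply Real.exp_le_exp.2
  have h1 : (t / T') ^ 2 ≤ (t / T) ^ 2 := by
    rw [div_pow, div_pow]
    gcongr
  linarith

theorem lam_sq (n : ℕ) : lam n * lam n = 1 := by
  unfold lam
  rw [← mul_pow]
  norm_num

theorem abs_lam (n : ℕ) : |lam n| = 1 := by
  unfold lam
  rw [abs_pow]
  simp

theorem lam_mul {m n : ℕ} (hm : m ≠ 0) (hn : n ≠ 0) : lam (m * n) = lam m * lam n := by
  unfold lam
  rw [ArithmeticFunction.cardFactors_mul hm hn, pow_add]

theorem lam_prime {p : ℕ} (hp : p.Prime) : lam p = -1 := by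
  unfold lam
  rw [ArithmeticFunction.cardFactors_apply_prime hp]
  norm_num

theorem norm_A_le (Y t : ℝ) : ‖A Y t‖ ≤ ∑ m ∈ Ioc ⌊Y⌋₊ ⌊2 * Y⌋₊, 1 / (m : ℝ) := by
  unfold A
  refine (norm_sum_le _ _).trans (Finset.sum_le_sum fun m _ => ?_)
  rw [norm_mul, norm_nt, mul_one, Complex.norm_real, Real.norm_eq_abs, abs_div, abs_lam, Nat.abs_cast]

theorem norm_Q_le (H v : ℕ) (t : ℝ) : ‖Q H v t‖ ≤ ∑ p ∈ W H v, 1 / (p : ℝ) := by
  unfold Q
  refine (norm_sum_le _ _).trans (Finset.sum_le_sum fun m _ => ?_)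
  rw [norm_mul, norm_nt, mul_one, Complex.norm_real, Real.norm_eq_abs, abs_div, abs_one, Nat.abs_cast]

theorem integrable_bdd_g {f : ℝ → ℂ} (hf : Continuous f) {B : ℝ} (hB : ∀ t, ‖f t‖ ≤ B) {T : ℝ}
    (hT : 0 < T) : Integrable (fun t => ‖f t‖ ^ 2 * g T t) := by
  refine ((integrable_g hT).const_mul (B ^ 2)).mono' ((hf.norm.pow 2).mul (continuous_g T)).aestronglyMeasurable
    (Filter.Eventually.of_forall fun t => ?_)
  rw [Real.norm_eq_abs, abs_of_nonneg (mul_nonneg (by positivity) (g_nonneg T t))]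
  have h0 : 0 ≤ ‖f t‖ := norm_nonneg _
  have h1 := hB t
  have h2 := g_nonneg T t
  gcongr

theorem integrable_A {X T : ℝ} (hT : 0 < T) : Integrable (fun t => ‖A X t‖ ^ 2 * g T t) :=
  integrable_bdd_g (continuous_A X) (norm_A_le X) hT

theorem isClosed_good (H v1 v2 : ℕ) (α : ℝ) : IsClosed {t : ℝ | Good H v1 v2 α t} := by
  have : {t : ℝ | Good H v1 v2 α t} =
      ⋂ v ∈ Ico v1 v2, {t : ℝ | ‖Q H v t‖ ≤ Real.exp (-(α * v / H))} := by
    ext t
    simp [Good]
  rw [this]
  exact isClosed_biInter fun v _ => isClosed_le (continuous_Q H v).norm continuous_const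

theorem isClosed_exists_good (s : ℕ → Scale) (J : ℕ) :
    IsClosed {t : ℝ | ∃ j ≤ J, (s j).Good t} := by
  have : {t : ℝ | ∃ j ≤ J, (s j).Good t} = ⋃ j ∈ Iic J, {t : ℝ | (s j).Good t} := by
    ext t
    simp
  rw [this]
  exact (Finset.finite_toSet _).isClosed_biUnion fun j _ => isClosed_good _ _ _ _

end Pool.Agent.MRL.Bas
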