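import Pool.Agent.Lib.MRL.HalP

set_option autoImplicit false

open Filter Topology MeasureTheory
open scoped ArithmeticFunction

namespace Pool.Agent.MRHal

variable {f : ℕ → ℂ}

/-- Completely multiplicative functions with values in the unit disc. -/
structure CM (f : ℕ → ℂ) : Prop where
  one : f 1 = 1
  mul : ∀ m n, f (m * n) = f m * f n
  le : ∀ n, ‖f n‖ ≤ 1

/-- `f log`. -/
noncomputable def fl (f : ℕ → ℂ) (n : ℕ) : ℂ := f n * ((Real.log n : ℝ) : ℂ)

/-- `f Λ`. -/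
noncomputable def fL (f : ℕ → ℂ) (n : ℕ) : ℂ := ((ArithmeticFunction.vonMangoldt n : ℝ) : ℂ) * f n

theorem ps_norm_le (hf : ∀ n, ‖f n‖ ≤ 1) {u : ℝ} (hu : 0 ≤ u) : ‖ps f u‖ ≤ u := by
  unfold ps
  refine (norm_sum_le _ _).trans ((Finset.sum_le_sum fun n _ => hf n).trans ?_)
  simp only [Finset.sum_const, Nat.card_Icc, add_tsub_cancel_right, nsmul_eq_mul, mul_one]
  exact Nat.floor_le hu

theorem ps_zero (a : ℕ → ℂ) {u : ℝ} (hu : u < 1) : ps a u = 0 := by
  unfold ps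
  rw [Nat.floor_eq_zero.2 hu]
  simp

theorem ps_sub (hf : ∀ n, ‖f n‖ ≤ 1) {x y : ℝ} (hx : 0 ≤ x) (hxy : x ≤ y) :
    ‖ps f y - ps f x‖ ≤ y - x + 1 := by
  have hfl : ⌊x⌋₊ ≤ ⌊y⌋₊ := Nat.floor_mono hxy
  have h1 : ps f y - ps f x = ∑ n ∈ Finset.Ioc ⌊x⌋₊ ⌊y⌋₊, f n := by
    unfold ps
    rw [sub_eq_iff_eq_add']
    have : Finset.Icc 1 ⌊y⌋₊ = Finset.Icc 1 ⌊x⌋₊ ∪ Finset.Ioc ⌊x⌋₊ ⌊y⌋₊ := by
      ext n
      simp only [Finset.mem_union, Finset.mem_Icc, Finset.mem_Ioc]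
      omega
    rw [this, Finset.sum_union]
    rw [Finset.disjoint_left]
    intro n h1 h2
    simp only [Finset.mem_Icc, Finset.mem_Ioc] at h1 h2
    omega
  rw [h1]
  refine (norm_sum_le _ _).trans ((Finset.sum_le_sum fun n _ => hf n).trans ?_)
  simp only [Finset.sum_const, Nat.card_Ioc, nsmul_eq_mul, mul_one]
  rw [Nat.cast_sub hfl]
  have h2 := Nat.floor_le (hx.trans hxy)
  have h3 := Nat.lt_floor_add_one x
  linarith

theorem ps_measurable (a : ℕ → ℂ) : Measurable (ps a) := by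
  have : ps a = (fun k : ℕ => ∑ n ∈ Finset.Icc 1 k, a n) ∘ (fun u : ℝ => ⌊u⌋₊) := rfl
  rw [this]
  exact (measurable_from_top).comp Nat.measurable_floor

theorem sum_log_ge {k : ℕ} (hk : 1 ≤ k) :
    (k : ℝ) * Real.log k - k ≤ ∑ n ∈ Finset.Icc 1 k, Real.log n := by
  have h1 : ∑ n ∈ Finset.Icc 1 k, Real.log n = Real.log (k.factorial : ℝ) := by
    rw [← Finset.prod_Ico_id_eq_factorial, Nat.cast_prod, Real.log_prod]
    · rfl
    intro n hn
    change n ∈ Finset.Icc 1 k at hn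
    rw [Finset.mem_Icc] at hn
    have : n ≠ 0 := by omega
    exact_mod_cast this
  have hk0 : (0 : ℝ) < k := by exact_mod_cast hk
  have h2 := Real.pow_div_factorial_le_exp (k : ℝ) hk0.le k
  have h3 := Real.log_le_log (by positivity) h2
  rw [Real.log_div (by positivity) (by positivity), Real.log_pow, Real.log_exp] at h3
  rw [h1]
  linarith

theorem S_log (hf : ∀ n, ‖f n‖ ≤ 1) {u : ℝ} (hu : 1 ≤ u) :
    ‖ps f u‖ * Real.log u ≤ ‖ps (fl f) u‖ + u := by
  have hlu : 0 ≤ Real.log u := Real.log_nonneg hu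
  set k := ⌊u⌋₊ with hk
  have hk1 : 1 ≤ k := (Nat.one_le_floor_iff u).2 hu
  have hk0 : (0 : ℝ) < k := by exact_mod_cast hk1
  have hku : (k : ℝ) ≤ u := Nat.floor_le (by linarith)
  have h1 : ps f u * ((Real.log u : ℝ) : ℂ) =
      ps (fl f) u + ∑ n ∈ Finset.Icc 1 k, f n * ((Real.log u - Real.log n : ℝ) : ℂ) := by
    unfold ps fl
    rw [← hk, Finset.sum_mul, ← Finset.sum_add_distrib]
    refine Finset.sum_congr rfl fun n _ => ?_
    push_cast
    ring
  have h2 : ‖ps f u‖ * Real.log u = ‖ps f u * ((Real.log u : ℝ) : ℂ)‖ := by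
    rw [norm_mul, Complex.norm_real, Real.norm_of_nonneg hlu]
  rw [h2, h1]
  refine (norm_add_le _ _).trans ?_
  gcongr
  have h3 : ‖∑ n ∈ Finset.Icc 1 k, f n * ((Real.log u - Real.log n : ℝ) : ℂ)‖ ≤
      ∑ n ∈ Finset.Icc 1 k, (Real.log u - Real.log n) := by
    refine (norm_sum_le _ _).trans (Finset.sum_le_sum fun n hn => ?_)
    rw [Finset.mem_Icc] at hn
    have hn0 : (0 : ℝ) < n := by exact_mod_cast hn.1
    have hnu : (n : ℝ) ≤ u := (by exact_mod_cast hn.2 : (n : ℝ) ≤ k).trans hku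
    have : 0 ≤ Real.log u - Real.log n := sub_nonneg.2 (Real.log_le_log hn0 hnu)
    rw [norm_mul, Complex.norm_real, Real.norm_of_nonneg this]
    exact mul_le_of_le_one_left this (hf n)
  refine h3.trans ?_
  rw [Finset.sum_sub_distrib]
  simp only [Finset.sum_const, Nat.card_Icc, add_tsub_cancel_right, nsmul_eq_mul]
  have h4 := sum_log_ge hk1
  have h5 : Real.log u - Real.log k ≤ u / k - 1 := by
    rw [← Real.log_div (by linarith) hk0.ne']
    exact Real.log_le_sub_one_of_pos (by positivity)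
  have h6 : (k : ℝ) * (Real.log u - Real.log k) ≤ k * (u / k - 1) := by gcongr
  have h7 : (k : ℝ) * (u / k - 1) = u - k := by field_simp
  nlinarith

theorem fl_eq (hf : CM f) {n : ℕ} (_ : n ≠ 0) :
    fl f n = ∑ p ∈ n.divisorsAntidiagonal, fL f p.1 * f p.2 := by
  unfold fl fL
  rw [← ArithmeticFunction.vonMangoldt_sum, Complex.ofReal_sum, Finset.mul_sum,
    Nat.sum_divisorsAntidiagonal (f := fun i j => ((ArithmeticFunction.vonMangoldt i : ℝ) : ℂ) * f i * f j)]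
  refine Finset.sum_congr rfl fun d hd => ?_
  have hd' := Nat.mul_div_cancel' (Nat.dvd_of_mem_divisors hd)
  have : f n = f d * f (n / d) := by rw [← hf.mul, hd']
  rw [this]
  ring

theorem N_eq (hf : CM f) (u : ℝ) :
    ps (fl f) u = ∑ d ∈ Finset.Icc 1 ⌊u⌋₊, fL f d * ps f (u / d) := by
  let F1 : ArithmeticFunction ℂ := ⟨fL f, by simp [fL]⟩
  let F2 : ArithmeticFunction ℂ := ⟨fun n => if n = 0 then 0 else f n, by simp⟩
  have h := ArithmeticFunction.sum_Ioc_mul_eq_sum_sum F1 F2 ⌊u⌋₊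
  have hI : ∀ k : ℕ, Finset.Ioc 0 k = Finset.Icc 1 k := fun k => rfl
  simp only [hI] at h
  unfold ps
  have h1 : ∑ n ∈ Finset.Icc 1 ⌊u⌋₊, (F1 * F2) n = ∑ n ∈ Finset.Icc 1 ⌊u⌋₊, fl f n := by
    refine Finset.sum_congr rfl fun n hn => ?_
    rw [Finset.mem_Icc] at hn
    rw [ArithmeticFunction.mul_apply, fl_eq hf (by omega)]
    refine Finset.sum_congr rfl fun p hp => ?_
    have hp' := Nat.mem_divisorsAntidiagonal.1 hp
    have : p.2 ≠ 0 := by
      intro h0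
      rw [h0, mul_zero] at hp'
      omega
    show fL f p.1 * (if p.2 = 0 then 0 else f p.2) = _
    rw [if_neg this]
  rw [← h1, h]
  refine Finset.sum_congr rfl fun d hd => ?_
  rw [Finset.mem_Icc] at hd
  show fL f d * _ = _
  congr 1
  rw [Nat.floor_div_natCast]
  refine Finset.sum_congr rfl fun m hm => ?_
  rw [Finset.mem_Icc] at hm
  show (if m = 0 then 0 else f m) = _
  rw [if_neg (by omega)]

theorem norm_fL (hf : ∀ n, ‖f n‖ ≤ 1) (n : ℕ) : ‖fL f n‖ ≤ ArithmeticFunction.vonMangoldt n := by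
  unfold fL
  rw [norm_mul, Complex.norm_real, Real.norm_of_nonneg ArithmeticFunction.vonMangoldt_nonneg]
  exact mul_le_of_le_one_right ArithmeticFunction.vonMangoldt_nonneg (hf n)

theorem N_le (hf : CM f) (u : ℝ) :
    ‖ps (fl f) u‖ ≤ ∑ d ∈ Finset.Icc 1 ⌊u⌋₊, ArithmeticFunction.vonMangoldt d * ‖ps f (u / d)‖ := by
  rw [N_eq hf]
  refine (norm_sum_le _ _).trans (Finset.sum_le_sum fun d _ => ?_)
  rw [norm_mul]
  gcongr
  exact norm_fL hf.le d

/-- The Chebyshev constant. -/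
noncomputable def CC : ℝ := Real.log 4 + 4

theorem CC_pos : 0 < CC := by
  unfold CC
  have := Real.log_pos (by norm_num : (1 : ℝ) < 4)
  linarith

theorem psi_le {x : ℝ} (hx : 0 ≤ x) : ∑ n ∈ Finset.Icc 1 ⌊x⌋₊, ArithmeticFunction.vonMangoldt n ≤ CC * x :=
  Chebyshev.psi_le_const_mul_self hx

theorem psL_le (hf : ∀ n, ‖f n‖ ≤ 1) {u : ℝ} (hu : 0 ≤ u) : ‖ps (fL f) u‖ ≤ CC * u := by
  unfold ps
  refine (norm_sum_le _ _).trans ((Finset.sum_le_sum fun n _ => norm_fL hf n).trans (psi_le hu))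

end Pool.Agent.MRHal
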