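import Pool.Agent.Lib.MRL.Defs
import Pool.Agent.Lib.MP_663568_nt.TK

/-! TANK MR, row DC: the Turán–Kubilius decomposition (`MeanValue → Decomp`). helper54. -/

set_option autoImplicit false

namespace Pool.Agent.MRL.DC

open Finset
open Pool.Agent.Lib.MP_663568_nt.Katai (om WW turan_kubilius)

noncomputable section

/-! ### elementary facts on windows -/

lemma mem_W {H v p : ℕ} : p ∈ W H v ↔ Real.exp ((v : ℝ) / H) < p ∧
    (p : ℝ) ≤ Real.exp (((v : ℝ) + 1) / H) ∧ p.Prime := by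
  unfold W
  rw [mem_filter, mem_Ioc, Nat.floor_lt (Real.exp_pos _).le, Nat.le_floor_iff (Real.exp_pos _).le]
  tauto

lemma W_disjoint {H v w : ℕ} (hvw : v < w) : Disjoint (W H v) (W H w) := by
  rw [Finset.disjoint_left]
  intro p hp hq
  rw [mem_W] at hp hq
  have h1 : ((v : ℝ) + 1) / H ≤ (w : ℝ) / H := by
    apply div_le_div_of_nonneg_right _ (by positivity)
    exact_mod_cast hvw
  have h2 := Real.exp_le_exp.mpr h1
  linarith [hp.2.1, hq.1]

/-- all primes of the scale -/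
def PP (H v1 v2 : ℕ) : Finset ℕ := (Ico v1 v2).biUnion (W H)

lemma sum_PP (H v1 v2 : ℕ) (f : ℕ → ℝ) :
    ∑ p ∈ PP H v1 v2, f p = ∑ v ∈ Ico v1 v2, ∑ p ∈ W H v, f p := by
  unfold PP
  rw [sum_biUnion]
  intro v _ w _ hvw
  rcases lt_or_gt_of_ne hvw with h | h
  · exact W_disjoint h
  · exact (W_disjoint h).symm

lemma WW_PP (H v1 v2 : ℕ) : WW (PP H v1 v2) = LL H v1 v2 := by
  unfold WW LL
  exact sum_PP H v1 v2 _

lemma om_PP (H v1 v2 n : ℕ) : om (PP H v1 v2) n =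
    ∑ v ∈ Ico v1 v2, ∑ p ∈ W H v, if p ∣ n then (1 : ℝ) else 0 := by
  unfold om
  exact sum_PP H v1 v2 _

lemma prime_of_mem_PP {H v1 v2 p : ℕ} (hp : p ∈ PP H v1 v2) : p.Prime := by
  unfold PP at hp
  rw [mem_biUnion] at hp
  obtain ⟨v, _, hv⟩ := hp
  exact (mem_W.mp hv).2.2

lemma card_PP_le (H v1 v2 : ℕ) : ((PP H v1 v2).card : ℝ) ≤ Real.exp ((v2 : ℝ) / H) := by
  have h1 : PP H v1 v2 ⊆ Ioc 0 ⌊Real.exp ((v2 : ℝ) / H)⌋₊ := by
    intro p hp
    have hpr := prime_of_mem_PP hp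
    unfold PP at hp
    rw [mem_biUnion] at hp
    obtain ⟨v, hv, hpv⟩ := hp
    rw [mem_Ico] at hv
    rw [mem_Ioc]
    refine ⟨hpr.pos, ?_⟩
    rw [Nat.le_floor_iff (Real.exp_pos _).le]
    refine (mem_W.mp hpv).2.1.trans (Real.exp_le_exp.mpr ?_)
    apply div_le_div_of_nonneg_right _ (by positivity)
    exact_mod_cast hv.2
  have h2 := card_le_card h1
  rw [Nat.card_Ioc, Nat.sub_zero] at h2
  calc ((PP H v1 v2).card : ℝ) ≤ (⌊Real.exp ((v2 : ℝ) / H)⌋₊ : ℝ) := by exact_mod_cast h2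
    _ ≤ _ := Nat.floor_le (Real.exp_pos _).le

lemma card_window (N : ℕ) (a b : ℝ) (ha : 0 ≤ a) (hab : a ≤ b) :
    (((Icc 1 N).filter (fun n : ℕ => a < n ∧ (n : ℝ) ≤ b)).card : ℝ) ≤ b - a + 1 := by
  have hb : 0 ≤ b := ha.trans hab
  have h1 : (Icc 1 N).filter (fun n : ℕ => a < n ∧ (n : ℝ) ≤ b) ⊆ Ioc ⌊a⌋₊ ⌊b⌋₊ := by
    intro n hn
    rw [mem_filter] at hn
    rw [mem_Ioc, Nat.floor_lt ha, Nat.le_floor_iff hb]
    exact hn.2
  have h2 := card_le_card h1
  rw [Nat.card_Ioc] at h2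
  have h3 : ⌊a⌋₊ ≤ ⌊b⌋₊ := Nat.floor_le_floor hab
  have h4 : ((⌊b⌋₊ - ⌊a⌋₊ : ℕ) : ℝ) = (⌊b⌋₊ : ℝ) - ⌊a⌋₊ := by
    rw [Nat.cast_sub h3]
  have h5 := Nat.floor_le hb
  have h6 := Nat.lt_floor_add_one a
  calc (((Icc 1 N).filter (fun n : ℕ => a < n ∧ (n : ℝ) ≤ b)).card : ℝ)
      ≤ ((⌊b⌋₊ - ⌊a⌋₊ : ℕ) : ℝ) := by exact_mod_cast h2
    _ ≤ _ := by rw [h4]; linarith

/-! ### arithmetic of `lam` and `nt` -/

lemma lam_prime_mul {p m : ℕ} (hp : p.Prime) (hm : m ≠ 0) : lam (p * m) = - lam m := by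
  unfold lam
  rw [ArithmeticFunction.cardFactors_mul hp.ne_zero hm,
    ArithmeticFunction.cardFactors_apply_prime hp, pow_add, pow_one]
  ring

lemma lam_sq (n : ℕ) : lam n ^ 2 = 1 := by
  unfold lam
  rw [← pow_mul, mul_comm, pow_mul]
  norm_num

lemma nt_mul {a b : ℕ} (ha : a ≠ 0) (hb : b ≠ 0) (t : ℝ) : nt (a * b) t = nt a t * nt b t := by
  unfold nt
  rw [← Complex.exp_add]
  congr 1
  have h : Real.log ((a * b : ℕ) : ℝ) = Real.log a + Real.log b := by
    push_cast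
    exact Real.log_mul (by exact_mod_cast ha) (by exact_mod_cast hb)
  rw [h]
  push_cast
  ring

/-- sum over the multiples of `p` -/
lemma sum_mult (p a b N : ℕ) (hp : 0 < p) (hN : p * b ≤ N) (f : ℕ → ℂ) :
    ∑ m ∈ Ioc a b, f (p * m) = ∑ n ∈ Icc 1 N, if (p ∣ n ∧ n / p ∈ Ioc a b) then f n else 0 := by
  rw [← sum_filter]
  apply sum_bij' (fun m _ => p * m) (fun n _ => n / p)
  · intro m hm
    rw [mem_Ioc] at hm
    rw [mem_filter, mem_Icc, Nat.mul_div_cancel_left m hp, mem_Ioc]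
    refine ⟨⟨?_, ?_⟩, dvd_mul_right p m, hm⟩
    · exact Nat.mul_pos hp (by omega)
    · exact (Nat.mul_le_mul_left p hm.2).trans hN
  · intro n hn
    rw [mem_filter] at hn
    exact hn.2.2
  · intro m _
    exact Nat.mul_div_cancel_left m hp
  · intro n hn
    rw [mem_filter] at hn
    exact Nat.mul_div_cancel' hn.2.1
  · intro m _
    rfl

/-- the number of pairs `(v,p)` which produce `n` -/
def cc (X : ℝ) (H v1 v2 n : ℕ) : ℝ :=
  ∑ v ∈ Ico v1 v2, ∑ p ∈ W H v,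
    if (p ∣ n ∧ n / p ∈ Ioc ⌊X * Real.exp (-((v : ℝ) / H))⌋₊
      ⌊2 * (X * Real.exp (-((v : ℝ) / H)))⌋₊) then (1 : ℝ) else 0

/-- indicator of `(X, 2X]` -/
def ind (X : ℝ) (n : ℕ) : ℝ := if n ∈ Ioc ⌊X⌋₊ ⌊2 * X⌋₊ then 1 else 0

lemma exp_split {H v : ℕ} : Real.exp (((v : ℝ) + 1) / H) =
    Real.exp ((v : ℝ) / H) * Real.exp (1 / (H : ℝ)) := by
  rw [← Real.exp_add, add_div]

lemma exp_inv_le {H : ℕ} (hH : 1 ≤ H) : Real.exp (1 / (H : ℝ)) ≤ 1 + 2 / H := by
  have hH' : (1 : ℝ) ≤ H := by exact_mod_cast hH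
  have h0 : 0 ≤ 1 / (H : ℝ) := by positivity
  have h1 : 1 / (H : ℝ) ≤ 1 := by rw [div_le_one (by linarith)]; exact hH'
  have h2 := Real.abs_exp_sub_one_le (x := 1 / (H : ℝ)) (by rw [abs_of_nonneg h0]; exact h1)
  rw [abs_of_nonneg h0] at h2
  have h3 := le_abs_self (Real.exp (1 / (H : ℝ)) - 1)
  have h4 : 2 * (1 / (H : ℝ)) = 2 / H := by ring
  linarith

/-- the location of a product `p m` -/
lemma loc {X : ℝ} (hX : 1 ≤ X) {H v p n : ℕ} (hp : p ∈ W H v) (hpn : p ∣ n)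
    (hn : n / p ∈ Ioc ⌊X * Real.exp (-((v : ℝ) / H))⌋₊ ⌊2 * (X * Real.exp (-((v : ℝ) / H)))⌋₊) :
    X < n ∧ (n : ℝ) ≤ 2 * X * Real.exp (1 / (H : ℝ)) := by
  rw [mem_W] at hp
  have hpos : 0 < X * Real.exp (-((v : ℝ) / H)) := by positivity
  rw [mem_Ioc, Nat.floor_lt hpos.le, Nat.le_floor_iff (by positivity)] at hn
  obtain ⟨m, rfl⟩ := hpn
  rw [Nat.mul_div_cancel_left m hp.2.2.pos] at hn
  have hE : Real.exp ((v : ℝ) / H) * Real.exp (-((v : ℝ) / H)) = 1 := by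
    rw [← Real.exp_add, add_neg_cancel, Real.exp_zero]
  have hEp := Real.exp_pos ((v : ℝ) / H)
  push_cast
  constructor
  · calc X = Real.exp ((v : ℝ) / H) * (X * Real.exp (-((v : ℝ) / H))) := by
          rw [mul_left_comm, hE, mul_one]
      _ < (p : ℝ) * m := by
          apply mul_lt_mul hp.1 hn.1.le hpos (by positivity)
  · calc (p : ℝ) * m ≤ Real.exp (((v : ℝ) + 1) / H) * (2 * (X * Real.exp (-((v : ℝ) / H)))) := by
          apply mul_le_mul hp.2.1 hn.2 (by positivity) (Real.exp_pos _).le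
      _ = 2 * X * Real.exp (1 / (H : ℝ)) * (Real.exp ((v : ℝ) / H) * Real.exp (-((v : ℝ) / H))) := by
          rw [exp_split]; ring
      _ = _ := by rw [hE, mul_one]

lemma cc_nonneg (X : ℝ) (H v1 v2 n : ℕ) : 0 ≤ cc X H v1 v2 n := by
  unfold cc
  apply sum_nonneg; intro v _
  apply sum_nonneg; intro p _
  split_ifs <;> norm_num

lemma cc_le (X : ℝ) (H v1 v2 n : ℕ) : cc X H v1 v2 n ≤ om (PP H v1 v2) n := by
  rw [om_PP]
  unfold cc
  apply sum_le_sum; intro v _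
  apply sum_le_sum; intro p _
  by_cases h : p ∣ n
  · rw [if_pos h]; split_ifs <;> norm_num
  · rw [if_neg h, if_neg (fun h' => h h'.1)]

lemma cc_zero {X : ℝ} (hX : 1 ≤ X) {H v1 v2 n : ℕ}
    (hn : (n : ℝ) ≤ X ∨ 2 * X * Real.exp (1 / (H : ℝ)) < n) : cc X H v1 v2 n = 0 := by
  unfold cc
  apply sum_eq_zero; intro v _
  apply sum_eq_zero; intro p hp
  rw [if_neg]
  rintro ⟨h1, h2⟩
  have := loc hX hp h1 h2
  rcases hn with h | h <;> linarith

lemma cc_eq {X : ℝ} (hX : 1 ≤ X) {H v1 v2 n : ℕ}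
    (h1 : X * Real.exp (1 / (H : ℝ)) < n) (h2 : (n : ℝ) ≤ 2 * X) :
    cc X H v1 v2 n = om (PP H v1 v2) n := by
  rw [om_PP]
  unfold cc
  apply sum_congr rfl; intro v _
  apply sum_congr rfl; intro p hp
  by_cases h : p ∣ n
  · rw [if_pos h, if_pos]
    refine ⟨h, ?_⟩
    rw [mem_W] at hp
    have hpos : 0 < X * Real.exp (-((v : ℝ) / H)) := by positivity
    rw [mem_Ioc, Nat.floor_lt hpos.le, Nat.le_floor_iff (by positivity)]
    obtain ⟨m, rfl⟩ := h
    rw [Nat.mul_div_cancel_left m hp.2.2.pos]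
    push_cast at h1 h2
    have hE : Real.exp ((v : ℝ) / H) * Real.exp (-((v : ℝ) / H)) = 1 := by
      rw [← Real.exp_add, add_neg_cancel, Real.exp_zero]
    have hEp := Real.exp_pos ((v : ℝ) / H)
    have hEn := Real.exp_pos (-((v : ℝ) / H))
    have hp0 : (0 : ℝ) < p := by exact_mod_cast hp.2.2.pos
    constructor
    · -- X e^{-v/H} < m
      by_contra hcon
      rw [not_lt] at hcon
      have : (p : ℝ) * m ≤ Real.exp (((v : ℝ) + 1) / H) * (X * Real.exp (-((v : ℝ) / H))) :=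
        mul_le_mul hp.2.1 hcon (by positivity) (Real.exp_pos _).le
      have h3 : Real.exp (((v : ℝ) + 1) / H) * (X * Real.exp (-((v : ℝ) / H)))
          = X * Real.exp (1 / (H : ℝ)) := by
        rw [exp_split]
        calc _ = X * Real.exp (1 / (H : ℝ)) *
              (Real.exp ((v : ℝ) / H) * Real.exp (-((v : ℝ) / H))) := by ring
          _ = _ := by rw [hE, mul_one]
      linarith
    · -- m ≤ 2 X e^{-v/H}
      have h3 : (m : ℝ) * Real.exp ((v : ℝ) / H) ≤ 2 * X := by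
        calc (m : ℝ) * Real.exp ((v : ℝ) / H) ≤ m * p := by
              apply mul_le_mul_of_nonneg_left hp.1.le (by positivity)
          _ = p * m := by ring
          _ ≤ _ := h2
      calc (m : ℝ) = (m * Real.exp ((v : ℝ) / H)) * Real.exp (-((v : ℝ) / H)) := by
            rw [mul_assoc, hE, mul_one]
        _ ≤ (2 * X) * Real.exp (-((v : ℝ) / H)) := mul_le_mul_of_nonneg_right h3 hEn.le
        _ = _ := by ring
  · rw [if_neg h, if_neg (fun h' => h h'.1)]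

lemma ind_cases (X : ℝ) (n : ℕ) : ind X n = 0 ∨ ind X n = 1 := by
  unfold ind; split_ifs <;> simp

lemma ind_one {X : ℝ} (hX : 1 ≤ X) {n : ℕ} (h1 : X < n) (h2 : (n : ℝ) ≤ 2 * X) : ind X n = 1 := by
  unfold ind
  rw [if_pos]
  rw [mem_Ioc, Nat.floor_lt (by linarith), Nat.le_floor_iff (by linarith)]
  exact ⟨h1, h2⟩

lemma ind_zero {X : ℝ} (hX : 1 ≤ X) {n : ℕ} (h : (n : ℝ) ≤ X ∨ 2 * X < n) : ind X n = 0 := by
  unfold ind
  rw [if_neg]
  rw [mem_Ioc, Nat.floor_lt (by linarith), Nat.le_floor_iff (by linarith)]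
  rintro ⟨h1, h2⟩
  rcases h with h | h <;> linarith

/-- the edges -/
def Edge (X : ℝ) (H N : ℕ) : Finset ℕ :=
  (Icc 1 N).filter (fun n : ℕ => X < n ∧ (n : ℝ) ≤ X * Real.exp (1 / (H : ℝ))) ∪
  (Icc 1 N).filter (fun n : ℕ => 2 * X < n ∧ (n : ℝ) ≤ 2 * X * Real.exp (1 / (H : ℝ)))

lemma card_Edge {X : ℝ} (hX : 1 ≤ X) {H : ℕ} (hH : 1 ≤ H) (hHX : (H : ℝ) ≤ X) (N : ℕ) :
    ((Edge X H N).card : ℝ) ≤ 8 * X / H := by
  have hH' : (1 : ℝ) ≤ H := by exact_mod_cast hH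
  have he := exp_inv_le hH
  have he1 : 1 ≤ Real.exp (1 / (H : ℝ)) := Real.one_le_exp (by positivity)
  have h1 := card_window N X (X * Real.exp (1 / (H : ℝ))) (by linarith)
    (by nlinarith)
  have h2 := card_window N (2 * X) (2 * X * Real.exp (1 / (H : ℝ))) (by linarith)
    (by nlinarith)
  have h3 : ((Edge X H N).card : ℝ) ≤
      (((Icc 1 N).filter (fun n : ℕ => X < n ∧ (n : ℝ) ≤ X * Real.exp (1 / (H : ℝ)))).card : ℝ) +
      (((Icc 1 N).filter (fun n : ℕ => 2 * X < n ∧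
        (n : ℝ) ≤ 2 * X * Real.exp (1 / (H : ℝ)))).card : ℝ) := by
    unfold Edge
    exact_mod_cast card_union_le _ _
  have h4 : X * Real.exp (1 / (H : ℝ)) ≤ X * (1 + 2 / H) := by
    apply mul_le_mul_of_nonneg_left he (by linarith)
  have h5 : 1 ≤ X / H := by rw [le_div_iff₀ (by linarith)]; linarith
  have h6 : 8 * X / H = 6 * (X / H) + 2 * (X / H) := by ring
  have h7 : X * (1 + 2 / H) = X + 2 * (X / H) := by ring
  have h8 : 2 * X * Real.exp (1 / (H : ℝ)) = 2 * (X * Real.exp (1 / (H : ℝ))) := by ring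
  rw [h6]
  rw [h7] at h4
  rw [h8] at h2 h3
  refine h3.trans ?_
  linarith

lemma d_sq_le {X : ℝ} (hX : 1 ≤ X) {H v1 v2 N : ℕ} (hL : 1 ≤ LL H v1 v2) {n : ℕ}
    (hn : n ∈ Icc 1 N) :
    (ind X n - cc X H v1 v2 n / LL H v1 v2) ^ 2 ≤
      2 / (LL H v1 v2) ^ 2 * (om (PP H v1 v2) n - WW (PP H v1 v2)) ^ 2 +
        3 * (if n ∈ Edge X H N then 1 else 0) := by
  rw [WW_PP]
  set L := LL H v1 v2 with hLdef
  have hL0 : 0 < L := by linarith
  have hc0 := cc_nonneg X H v1 v2 n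
  have hc1 := cc_le X H v1 v2 n
  set c := cc X H v1 v2 n with hc
  set w := om (PP H v1 v2) n with hw
  have hkey : 2 / L ^ 2 * (w - L) ^ 2 = 2 * (1 - w / L) ^ 2 := by
    field_simp
    ring
  rw [hkey]
  by_cases hE : n ∈ Edge X H N
  · rw [if_pos hE]
    have h0 : 0 ≤ c / L := by positivity
    have h1 : c / L ≤ w / L := div_le_div_of_nonneg_right hc1 hL0.le
    rcases ind_cases X n with h | h <;> rw [h] <;> nlinarith [sq_nonneg (1 - w / L), sq_nonneg (w / L - 2)]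
  · rw [if_neg hE]
    have hE' : ¬ (X < n ∧ (n : ℝ) ≤ X * Real.exp (1 / (H : ℝ))) ∧
        ¬ (2 * X < n ∧ (n : ℝ) ≤ 2 * X * Real.exp (1 / (H : ℝ))) := by
      unfold Edge at hE
      rw [mem_union, mem_filter, mem_filter, not_or] at hE
      exact ⟨fun h => hE.1 ⟨hn, h⟩, fun h => hE.2 ⟨hn, h⟩⟩
    by_cases h1 : (n : ℝ) ≤ X
    · have hi := ind_zero hX (Or.inl h1) (n := n)
      have hz : c = 0 := cc_zero hX (Or.inl h1)
      rw [hi, hz]
      have := sq_nonneg (1 - w / L)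
      simp only [zero_div, sub_zero, mul_zero, add_zero]
      nlinarith
    · rw [not_le] at h1
      by_cases h2 : (n : ℝ) ≤ 2 * X
      · have h3 : X * Real.exp (1 / (H : ℝ)) < n := by
          by_contra hcon
          rw [not_lt] at hcon
          exact hE'.1 ⟨h1, hcon⟩
        have hi := ind_one hX h1 h2
        have hz : c = w := cc_eq hX h3 h2
        rw [hi, hz]
        have := sq_nonneg (1 - w / L)
        linarith
      · rw [not_le] at h2
        have h3 : 2 * X * Real.exp (1 / (H : ℝ)) < n := by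
          by_contra hcon
          rw [not_lt] at hcon
          exact hE'.2 ⟨h2, hcon⟩
        have hi := ind_zero hX (Or.inr h2) (n := n)
        have hz : c = 0 := cc_zero hX (Or.inr h3)
        rw [hi, hz]
        have := sq_nonneg (1 - w / L)
        simp only [zero_div, sub_zero, mul_zero, add_zero]
        nlinarith

/-! ### the identity -/

lemma A_eq {X : ℝ} (hX : 1 ≤ X) (t : ℝ) :
    A X t = ∑ n ∈ Icc 1 ⌊6 * X⌋₊, ((lam n / n * ind X n : ℝ) : ℂ) * nt n t := by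
  unfold A
  have hsub : Ioc ⌊X⌋₊ ⌊2 * X⌋₊ ⊆ Icc 1 ⌊6 * X⌋₊ := by
    intro n hn
    rw [mem_Ioc] at hn
    rw [mem_Icc]
    refine ⟨by omega, hn.2.trans (Nat.floor_le_floor (by linarith))⟩
  rw [← sum_subset hsub (f := fun n => ((lam n / n * ind X n : ℝ) : ℂ) * nt n t)]
  · apply sum_congr rfl
    intro n hn
    unfold ind
    rw [if_pos hn, mul_one]
  · intro n _ hn
    unfold ind
    rw [if_neg hn]
    simp

lemma S_eq {X : ℝ} (hX : 1 ≤ X) {H v1 v2 : ℕ} (hH : 1 ≤ H) (t : ℝ) :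
    S X H v1 v2 t = - ∑ n ∈ Icc 1 ⌊6 * X⌋₊, ((lam n / n * cc X H v1 v2 n : ℝ) : ℂ) * nt n t := by
  unfold S
  have hH' : (1 : ℝ) ≤ H := by exact_mod_cast hH
  have h1 : ∀ v ∈ Ico v1 v2, Q H v t * A (X * Real.exp (-((v : ℝ) / H))) t =
      - ∑ p ∈ W H v, ∑ n ∈ Icc 1 ⌊6 * X⌋₊,
        if (p ∣ n ∧ n / p ∈ Ioc ⌊X * Real.exp (-((v : ℝ) / H))⌋₊
          ⌊2 * (X * Real.exp (-((v : ℝ) / H)))⌋₊)
        then ((lam n / n : ℝ) : ℂ) * nt n t else 0 := by
    intro v _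
    unfold Q A
    rw [sum_mul_sum, ← sum_neg_distrib]
    apply sum_congr rfl
    intro p hp
    have hp' := mem_W.mp hp
    have hN : p * ⌊2 * (X * Real.exp (-((v : ℝ) / H)))⌋₊ ≤ ⌊6 * X⌋₊ := by
      rw [Nat.le_floor_iff (by linarith)]
      push_cast
      have hE : Real.exp ((v : ℝ) / H) * Real.exp (-((v : ℝ) / H)) = 1 := by
        rw [← Real.exp_add, add_neg_cancel, Real.exp_zero]
      have hfl := Nat.floor_le (a := 2 * (X * Real.exp (-((v : ℝ) / H)))) (by positivity)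
      have he := exp_inv_le hH
      have he3 : Real.exp (1 / (H : ℝ)) ≤ 3 := by
        refine he.trans ?_
        have : (2 : ℝ) / H ≤ 2 := by
          rw [div_le_iff₀ (by linarith)]; linarith
        linarith
      calc (p : ℝ) * (⌊2 * (X * Real.exp (-((v : ℝ) / H)))⌋₊ : ℝ)
          ≤ Real.exp (((v : ℝ) + 1) / H) * (2 * (X * Real.exp (-((v : ℝ) / H)))) :=
            mul_le_mul hp'.2.1 hfl (by positivity) (Real.exp_pos _).le
        _ = 2 * X * Real.exp (1 / (H : ℝ)) *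
              (Real.exp ((v : ℝ) / H) * Real.exp (-((v : ℝ) / H))) := by
            rw [exp_split]; ring
        _ = 2 * X * Real.exp (1 / (H : ℝ)) := by rw [hE, mul_one]
        _ ≤ 2 * X * 3 := by
            apply mul_le_mul_of_nonneg_left he3 (by linarith)
        _ = 6 * X := by ring
    rw [← sum_mult p _ _ _ hp'.2.2.pos hN (fun n => ((lam n / n : ℝ) : ℂ) * nt n t),
      ← sum_neg_distrib]
    apply sum_congr rfl
    intro m hm
    have hm0 : m ≠ 0 := by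
      rw [mem_Ioc] at hm; omega
    have hp0 : (p : ℝ) ≠ 0 := by exact_mod_cast hp'.2.2.ne_zero
    have hmr : (m : ℝ) ≠ 0 := by exact_mod_cast hm0
    rw [nt_mul hp'.2.2.ne_zero hm0, lam_prime_mul hp'.2.2 hm0]
    have : (((-lam m / ((p * m : ℕ) : ℝ) : ℝ)) : ℂ) =
        - ((((1 / p : ℝ)) : ℂ) * ((lam m / m : ℝ) : ℂ)) := by
      push_cast
      field_simp
    rw [this]
    ring
  rw [sum_congr rfl h1, sum_neg_distrib]
  congr 1
  have h2 : ∀ v ∈ Ico v1 v2, ∑ p ∈ W H v, ∑ n ∈ Icc 1 ⌊6 * X⌋₊,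
        (if (p ∣ n ∧ n / p ∈ Ioc ⌊X * Real.exp (-((v : ℝ) / H))⌋₊
          ⌊2 * (X * Real.exp (-((v : ℝ) / H)))⌋₊)
        then ((lam n / n : ℝ) : ℂ) * nt n t else 0) =
      ∑ n ∈ Icc 1 ⌊6 * X⌋₊, ∑ p ∈ W H v,
        (if (p ∣ n ∧ n / p ∈ Ioc ⌊X * Real.exp (-((v : ℝ) / H))⌋₊
          ⌊2 * (X * Real.exp (-((v : ℝ) / H)))⌋₊)
        then ((lam n / n : ℝ) : ℂ) * nt n t else 0) := by
    intro v _
    rw [sum_comm]
  rw [sum_congr rfl h2, sum_comm]
  apply sum_congr rfl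
  intro n _
  unfold cc
  rw [mul_sum]
  push_cast
  rw [sum_mul]
  apply sum_congr rfl
  intro v _
  rw [mul_sum, sum_mul]
  apply sum_congr rfl
  intro p _
  split_ifs <;> simp

theorem decomp_of_meanValue (hMV : MeanValue) : Decomp := by
  obtain ⟨C, hC, hmv⟩ := hMV
  refine ⟨210 * C, by positivity, ?_⟩
  intro X T H v1 v2 hH hHX _ hL hv2 hT hTX
  have hH' : (1 : ℝ) ≤ H := by exact_mod_cast hH
  have hX : 1 ≤ X := hH'.trans hHX
  set L := LL H v1 v2 with hLdef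
  have hL0 : 0 < L := by linarith
  set N := ⌊6 * X⌋₊ with hN
  have hN1 : 1 ≤ N := by
    rw [hN, Nat.one_le_floor_iff]; linarith
  have hNX : (N : ℝ) ≤ 6 * X := Nat.floor_le (by linarith)
  have hfun : ∀ t : ℝ, A X t + ((1 / L : ℝ) : ℂ) * S X H v1 v2 t =
      ∑ n ∈ Icc 1 N, ((lam n / n * (ind X n - cc X H v1 v2 n / L) : ℝ) : ℂ) * nt n t := by
    intro t
    rw [A_eq hX, S_eq hX hH, mul_neg, mul_sum, ← sub_eq_add_neg, ← sum_sub_distrib]
    apply sum_congr rfl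
    intro n _
    push_cast
    ring
  simp only [hfun]
  refine (hmv N T _ hN1 hT).trans ?_
  -- the coefficients
  have hcoef : ∀ n ∈ Icc 1 N, ‖((lam n / n * (ind X n - cc X H v1 v2 n / L) : ℝ) : ℂ)‖ ^ 2 ≤
      1 / X ^ 2 * (2 / L ^ 2 * (om (PP H v1 v2) n - WW (PP H v1 v2)) ^ 2 +
        3 * (if n ∈ Edge X H N then 1 else 0)) := by
    intro n hn
    have hd := d_sq_le hX hL hn (N := N)
    rw [Complex.norm_real, Real.norm_eq_abs, sq_abs, mul_pow, div_pow, lam_sq]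
    by_cases h1 : (n : ℝ) ≤ X
    · rw [ind_zero hX (Or.inl h1), cc_zero hX (Or.inl h1)]
      simp only [zero_div, sub_zero]
      have : (0 : ℝ) ≤ 1 / X ^ 2 * (2 / L ^ 2 * (om (PP H v1 v2) n - WW (PP H v1 v2)) ^ 2 +
        3 * (if n ∈ Edge X H N then 1 else 0)) := by
        apply mul_nonneg (by positivity)
        apply add_nonneg (by positivity)
        split_ifs <;> norm_num
      simpa using this
    · rw [not_le] at h1
      apply mul_le_mul _ hd (sq_nonneg _) (by positivity)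
      apply one_div_le_one_div_of_le (by positivity)
      exact pow_le_pow_left₀ (by linarith) h1.le 2
  have hTK := turan_kubilius (PP H v1 v2) (fun p hp => prime_of_mem_PP hp) N
  rw [WW_PP, ← hLdef] at hTK
  have hcard := card_PP_le H v1 v2
  have hsq : √X ≤ X := by
    rw [Real.sqrt_le_left (by linarith)]
    nlinarith
  have hPX : ((PP H v1 v2).card : ℝ) ≤ X := by linarith
  have hE := card_Edge hX hH hHX N
  have hsumE : ∑ n ∈ Icc 1 N, (if n ∈ Edge X H N then (1 : ℝ) else 0) ≤ 8 * X / H := by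
    rw [← sum_filter, sum_const, nsmul_eq_mul, mul_one]
    refine le_trans ?_ hE
    have : (Icc 1 N).filter (fun n => n ∈ Edge X H N) ⊆ Edge X H N := by
      intro n hn
      exact (mem_filter.mp hn).2
    exact_mod_cast card_le_card this
  have hsum : ∑ n ∈ Icc 1 N, ‖((lam n / n * (ind X n - cc X H v1 v2 n / L) : ℝ) : ℂ)‖ ^ 2 ≤
      1 / X ^ 2 * (2 / L ^ 2 * (L * N + 2 * L * X) + 3 * (8 * X / H)) := by
    refine (sum_le_sum hcoef).trans ?_
    rw [← mul_sum, sum_add_distrib, ← mul_sum, ← mul_sum]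
    apply mul_le_mul_of_nonneg_left _ (by positivity)
    apply add_le_add
    · apply mul_le_mul_of_nonneg_left _ (by positivity)
      rw [WW_PP, ← hLdef]
      refine hTK.trans ?_
      have : 2 * L * ((PP H v1 v2).card : ℝ) ≤ 2 * L * X :=
        mul_le_mul_of_nonneg_left hPX (by positivity)
      linarith
    · exact mul_le_mul_of_nonneg_left hsumE (by norm_num)
  have h1 : 1 / X ^ 2 * (2 / L ^ 2 * (L * N + 2 * L * X) + 3 * (8 * X / H)) ≤
      24 / X * (1 / L + 1 / H) := by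
    have hX0 : 0 < X := by linarith
    have hH0 : (0 : ℝ) < H := by linarith
    calc 1 / X ^ 2 * (2 / L ^ 2 * (L * N + 2 * L * X) + 3 * (8 * X / H))
        ≤ 1 / X ^ 2 * (2 / L ^ 2 * (L * (6 * X) + 2 * L * X) + 3 * (8 * X / H)) := by
          apply mul_le_mul_of_nonneg_left _ (by positivity)
          apply add_le_add _ le_rfl
          apply mul_le_mul_of_nonneg_left _ (by positivity)
          apply add_le_add _ le_rfl
          exact mul_le_mul_of_nonneg_left hNX hL0.le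
      _ = 16 / X * (1 / L) + 24 / X * (1 / H) := by
          field_simp
          ring
      _ ≤ 24 / X * (1 / L) + 24 / X * (1 / H) := by
          apply add_le_add _ le_rfl
          apply mul_le_mul_of_nonneg_right _ (by positivity)
          apply div_le_div_of_nonneg_right (by norm_num) hX0.le
      _ = _ := by ring
  calc C * (T + N) * ∑ n ∈ Icc 1 N,
        ‖((lam n / n * (ind X n - cc X H v1 v2 n / L) : ℝ) : ℂ)‖ ^ 2
      ≤ C * (7 * X) * (24 / X * (1 / L + 1 / H)) := by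
        apply mul_le_mul _ (hsum.trans h1) (by positivity) (by positivity)
        apply mul_le_mul_of_nonneg_left _ hC.le
        linarith
    _ = 168 * C * (1 / L + 1 / H) := by
        have hX0 : X ≠ 0 := by linarith
        field_simp
        ring
    _ ≤ 210 * C * (1 / L + 1 / H) := by
        apply mul_le_mul_of_nonneg_right _ (by positivity)
        linarith

end

end Pool.Agent.MRL.DC

namespace Pool.Agent.MRL

/-- row DC -/
theorem decomp_of_meanValue (h : MeanValue) : Decomp := DC.decomp_of_meanValue h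

end Pool.Agent.MRL
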