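import Pool.Agent.Lib.MRL.Defs

/-! TANK MR, row FL, half b: 3-4-1 for `ζ`, pole at `1`, assembly of `FlUp` from `ZetaUp`
and the two facts of half a.  helper44. -/

set_option autoImplicit false

namespace Pool.Agent.MRL

namespace FL

open Complex Filter Topology

/-- 3-4-1 inequality for the Riemann zeta function. -/
theorem three_four_one {a : ℝ} (ha : 0 < a) (τ : ℝ) :
    1 ≤ ‖riemannZeta (1 + a)‖ ^ 3 * ‖riemannZeta (1 + a + τ * I)‖ ^ 4
      * ‖riemannZeta (1 + a + ((2 * τ : ℝ) : ℂ) * I)‖ := by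
  have h := DirichletCharacter.norm_LFunction_product_ge_one
    (1 : DirichletCharacter ℂ 1) ha τ
  rw [DirichletCharacter.LFunctionTrivChar, DirichletCharacter.LFunction_modOne_eq,
    DirichletCharacter.LFunction_modOne_eq, norm_mul, norm_mul, norm_pow, norm_pow] at h
  have e1 : (1 : ℂ) + a + I * τ = 1 + a + τ * I := by ring
  have e2 : (1 : ℂ) + a + 2 * I * τ = 1 + a + ((2 * τ : ℝ) : ℂ) * I := by push_cast; ring
  rw [e1, e2] at h
  exact h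

/-- `a |ζ(1+a)|` is bounded for `0 < a ≤ 1`. -/
theorem zeta_pole : ∃ C : ℝ, 0 < C ∧ ∀ a : ℝ, 0 < a → a ≤ 1 →
    ‖riemannZeta (1 + a)‖ ≤ C / a := by
  -- near `0`
  have h1 : Tendsto (fun a : ℝ => ((1 + a : ℂ) - 1) * riemannZeta (1 + a)) (𝓝[>] 0) (𝓝 1) := by
    have h2 : Tendsto (fun a : ℝ => (1 + a : ℂ)) (𝓝[>] 0) (𝓝[≠] 1) := by
      rw [tendsto_nhdsWithin_iff]
      constructor
      · have : Continuous (fun a : ℝ => (1 + a : ℂ)) := by fun_prop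
        have h3 := this.tendsto 0
        simp only [ofReal_zero, add_zero] at h3
        exact h3.mono_left nhdsWithin_le_nhds
      · filter_upwards [self_mem_nhdsWithin] with a ha
        have ha' : (0 : ℝ) < a := ha
        simp only [Set.mem_compl_iff, Set.mem_singleton_iff, add_eq_left, ofReal_eq_zero]
        exact ha'.ne'
    exact riemannZeta_residue_one.comp h2
  have h3 : ∀ᶠ a : ℝ in 𝓝[>] 0, ‖((1 + a : ℂ) - 1) * riemannZeta (1 + a)‖ ≤ 2 := by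
    have h4 := h1.norm
    rw [norm_one] at h4
    exact h4.eventually (ge_mem_nhds (by norm_num))
  obtain ⟨u, hu, hu'⟩ := mem_nhdsGT_iff_exists_Ioo_subset.1 h3
  have hu0 : (0 : ℝ) < u := hu
  -- the compact part
  have hcont : ContinuousOn (fun a : ℝ => ‖riemannZeta (1 + a)‖) (Set.Icc u 1) := by
    intro a ha
    apply ContinuousAt.continuousWithinAt
    have hne : (1 + a : ℂ) ≠ 1 := by
      intro h
      have : (a : ℂ) = 0 := by simpa using h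
      rw [ofReal_eq_zero] at this
      linarith [ha.1]
    have h5 := (differentiableAt_riemannZeta hne).continuousAt
    have h6 : ContinuousAt (fun a : ℝ => (1 + a : ℂ)) a := by fun_prop
    exact (ContinuousAt.comp (f := fun a : ℝ => (1 + a : ℂ)) h5 h6).norm
  obtain ⟨B, hB⟩ := (isCompact_Icc.image_of_continuousOn hcont).bddAbove
  refine ⟨max 2 (max B 1), by positivity, fun a ha ha1 => ?_⟩
  rw [le_div_iff₀ ha]
  by_cases hau : a < u
  · have h7 := hu' ⟨ha, hau⟩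
    simp only [Set.mem_ofPred_eq, add_sub_cancel_left, norm_mul, norm_real, Real.norm_eq_abs,
      abs_of_pos ha] at h7
    calc ‖riemannZeta (1 + a)‖ * a = a * ‖riemannZeta (1 + a)‖ := mul_comm _ _
      _ ≤ 2 := h7
      _ ≤ _ := le_max_left _ _
  · push Not at hau
    have h8 : ‖riemannZeta (1 + a)‖ ≤ B := hB ⟨a, ⟨hau, ha1⟩, rfl⟩
    calc ‖riemannZeta (1 + a)‖ * a ≤ ‖riemannZeta (1 + a)‖ * 1 :=
          mul_le_mul_of_nonneg_left ha1 (norm_nonneg _)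
      _ = ‖riemannZeta (1 + a)‖ := mul_one _
      _ ≤ B := h8
      _ ≤ _ := (le_max_left _ _).trans (le_max_right _ _)

/-- the quotient bound away from the real axis. -/
theorem inv_zeta_le {a P Z : ℝ} (ha : 0 < a) (τ : ℝ) (hP : ‖riemannZeta (1 + a)‖ ≤ P)
    (hZ : ‖riemannZeta (1 + a + ((2 * τ : ℝ) : ℂ) * I)‖ ≤ Z) :
    1 ≤ P ^ (3 / 4 : ℝ) * ‖riemannZeta (1 + a + τ * I)‖ * Z ^ (1 / 4 : ℝ) := by
  have h := three_four_one ha τ
  have hP0 : 0 ≤ P := (norm_nonneg _).trans hP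
  have hZ0 : 0 ≤ Z := (norm_nonneg _).trans hZ
  set z := ‖riemannZeta (1 + a + τ * I)‖ with hz
  have hz0 : 0 ≤ z := norm_nonneg _
  have h1 : 1 ≤ P ^ 3 * z ^ 4 * Z := by
    refine h.trans ?_
    gcongr
  have h2 : (1 : ℝ) ≤ (P ^ 3 * z ^ 4 * Z) ^ (1 / 4 : ℝ) := Real.one_le_rpow h1 (by norm_num)
  rw [Real.mul_rpow (by positivity) hZ0, Real.mul_rpow (by positivity) (by positivity)] at h2
  have e1 : (P ^ 3) ^ (1 / 4 : ℝ) = P ^ (3 / 4 : ℝ) := by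
    rw [← Real.rpow_natCast, ← Real.rpow_mul hP0]; norm_num
  have e2 : (z ^ 4) ^ (1 / 4 : ℝ) = z := by
    rw [← Real.rpow_natCast, ← Real.rpow_mul hz0]; norm_num
  rw [e1, e2] at h2
  exact h2

/-- assembly, against the two facts of half a. -/
theorem flUp_of
    (hFl : ∃ C : ℝ, 0 < C ∧ ∀ a τ : ℝ, 0 < a → ‖Fl a τ‖ * ‖riemannZeta (1 + a + τ * I)‖ ≤ C)
    (hsm : ∃ C : ℝ, 0 < C ∧ ∀ a τ : ℝ, 0 < a → a ≤ 1 → |τ| ≤ 1 →
      C⁻¹ ≤ ‖riemannZeta (1 + a + τ * I)‖)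
    (hZ : ZetaUp) : FlUp := by
  obtain ⟨C2, hC2, hFl⟩ := hFl
  obtain ⟨C3, hC3, hsm⟩ := hsm
  obtain ⟨C1, hC1, hpole⟩ := zeta_pole
  refine ⟨C2 * (C1 ^ (3 / 4 : ℝ) + C3), by positivity, fun ε hε => ?_⟩
  obtain ⟨C, hC, hZ⟩ := hZ ε hε
  refine ⟨ε * Real.log 2 + C + 1, by positivity, fun a τ ha ha1 => ?_⟩
  have hlog : 0 ≤ Real.log (2 + |τ|) := Real.log_nonneg (by linarith [abs_nonneg τ])
  set M := ε * Real.log (2 + |τ|) + (ε * Real.log 2 + C + 1) with hM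
  have hM1 : 1 ≤ M := by
    have : 0 < Real.log 2 := Real.log_pos (by norm_num)
    have h2 : 0 < ε * Real.log 2 := by positivity
    have h3 : 0 ≤ ε * Real.log (2 + |τ|) := by positivity
    linarith
  have hM2 : (1 : ℝ) ≤ M ^ (1 / 4 : ℝ) := Real.one_le_rpow hM1 (by norm_num)
  have ha2 : (1 : ℝ) ≤ a ^ (-(3 / 4 : ℝ)) :=
    Real.one_le_rpow_of_pos_of_le_one_of_nonpos ha ha1 (by norm_num)
  have hmain := hFl a τ ha
  by_cases hτ : |τ| ≤ 1
  · have h1 := hsm a τ ha ha1 hτ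
    have h2 : ‖Fl a τ‖ * C3⁻¹ ≤ C2 :=
      (mul_le_mul_of_nonneg_left h1 (norm_nonneg _)).trans hmain
    have h3 : ‖Fl a τ‖ ≤ C2 * C3 := by
      rw [← div_eq_mul_inv, div_le_iff₀ hC3] at h2
      exact h2
    calc ‖Fl a τ‖ ≤ C2 * C3 := h3
      _ ≤ C2 * (C1 ^ (3 / 4 : ℝ) + C3) := by
          have : 0 ≤ C1 ^ (3 / 4 : ℝ) := by positivity
          gcongr
          linarith
      _ = C2 * (C1 ^ (3 / 4 : ℝ) + C3) * 1 * 1 := by ring
      _ ≤ C2 * (C1 ^ (3 / 4 : ℝ) + C3) * a ^ (-(3 / 4 : ℝ)) * M ^ (1 / 4 : ℝ) := by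
          gcongr
  · push Not at hτ
    have h2τ : 1 / 2 ≤ |2 * τ| := by
      rw [abs_mul, abs_two]; linarith
    have h1 := hZ a (2 * τ) ha ha1 h2τ
    have h2 : ε * Real.log (2 + |2 * τ|) + C ≤ M := by
      have h3 : Real.log (2 + |2 * τ|) ≤ Real.log (2 + |τ|) + Real.log 2 := by
        rw [← Real.log_mul (by positivity) (by norm_num)]
        apply Real.log_le_log (by positivity)
        rw [abs_mul, abs_two]
        linarith
      have h4 := mul_le_mul_of_nonneg_left h3 hε.le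
      rw [hM]
      linarith
    have h5 := inv_zeta_le ha τ (hpole a ha ha1) (h1.trans h2)
    have hF0 := norm_nonneg (Fl a τ)
    have h6 : (C1 / a) ^ (3 / 4 : ℝ) = C1 ^ (3 / 4 : ℝ) * a ^ (-(3 / 4 : ℝ)) := by
      rw [Real.div_rpow hC1.le ha.le, Real.rpow_neg ha.le, div_eq_mul_inv]
    rw [h6] at h5
    have hK0 : 0 ≤ C1 ^ (3 / 4 : ℝ) * a ^ (-(3 / 4 : ℝ)) * M ^ (1 / 4 : ℝ) := by positivity
    calc ‖Fl a τ‖ = ‖Fl a τ‖ * 1 := (mul_one _).symm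
      _ ≤ ‖Fl a τ‖ * (C1 ^ (3 / 4 : ℝ) * a ^ (-(3 / 4 : ℝ)) * ‖riemannZeta (1 + a + τ * I)‖
            * M ^ (1 / 4 : ℝ)) := mul_le_mul_of_nonneg_left h5 hF0
      _ = (C1 ^ (3 / 4 : ℝ) * a ^ (-(3 / 4 : ℝ)) * M ^ (1 / 4 : ℝ))
            * (‖Fl a τ‖ * ‖riemannZeta (1 + a + τ * I)‖) := by ring
      _ ≤ (C1 ^ (3 / 4 : ℝ) * a ^ (-(3 / 4 : ℝ)) * M ^ (1 / 4 : ℝ)) * C2 :=
          mul_le_mul_of_nonneg_left hmain hK0
      _ = C2 * C1 ^ (3 / 4 : ℝ) * a ^ (-(3 / 4 : ℝ)) * M ^ (1 / 4 : ℝ) := by ring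
      _ ≤ C2 * (C1 ^ (3 / 4 : ℝ) + C3) * a ^ (-(3 / 4 : ℝ)) * M ^ (1 / 4 : ℝ) := by
          gcongr
          linarith

end FL

end Pool.Agent.MRL
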