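import Pool.Agent.Lib.MRL.Defs

/-! TANK MR (MP_bf4c7f): the statements `Moment`, `Moment0` between the rows MO, SJ and LC. -/

set_option autoImplicit false

namespace Pool.Agent.MRL

open Finset

/-- Moment bound for `Q_v^l A_Y`: coefficients supported in
`(e^{l v/H} Y, 2 e^{l (v+1)/H} Y]`, with `∑ |c n|^2 n ≤ (C l)^l`. -/
def Moment : Prop := ∃ C : ℝ, 1 ≤ C ∧ ∀ (l H v : ℕ) (Y : ℝ), 1 ≤ l → 1 ≤ H → H ≤ v → 1 ≤ Y →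
  ∃ (N : ℕ) (c : ℕ → ℂ), 1 ≤ N ∧ (N : ℝ) ≤ 2 * Real.exp (l * (((v : ℝ) + 1) / H)) * Y ∧
    (∀ t : ℝ, Q H v t ^ l * A Y t = ∑ n ∈ Icc 1 N, c n * nt n t) ∧
    (∀ n : ℕ, c n ≠ 0 → Real.exp (l * ((v : ℝ) / H)) * Y ≤ n) ∧
    ∑ n ∈ Icc 1 N, ‖c n‖ ^ 2 * n ≤ (C * l) ^ l

/-- Moment bound for `Q_v^l`: coefficients supported in `(e^{l v/H}, e^{l (v+1)/H}]`, with
`∑ |c n|^2 n ≤ (C l)^l`. -/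
def Moment0 : Prop := ∃ C : ℝ, 1 ≤ C ∧ ∀ (l H v : ℕ), 1 ≤ l → 1 ≤ H → H ≤ v →
  ∃ (N : ℕ) (c : ℕ → ℂ), 1 ≤ N ∧ (N : ℝ) ≤ Real.exp (l * (((v : ℝ) + 1) / H)) ∧
    (∀ t : ℝ, Q H v t ^ l = ∑ n ∈ Icc 1 N, c n * nt n t) ∧
    (∀ n : ℕ, c n ≠ 0 → Real.exp (l * ((v : ℝ) / H)) ≤ n) ∧
    ∑ n ∈ Icc 1 N, ‖c n‖ ^ 2 * n ≤ (C * l) ^ l

end Pool.Agent.MRL
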