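import Pool.Agent.Lib.MRL.MO
import Pool.Agent.Lib.MRL.MODefs

/-! TANK MR, row MO: the statements `Moment`, `Moment0`. -/

set_option autoImplicit false

open Complex Finset MeasureTheory

namespace Pool.Agent.MRL

namespace MO

theorem mem_W {H v p : ℕ} (hp : p ∈ W H v) : p.Prime ∧ Real.exp ((v : ℝ) / H) < p ∧
    (p : ℝ) ≤ Real.exp (((v : ℝ) + 1) / H) := by
  have h := mem_filter.1 hp
  have h1 := mem_Ioc.1 h.1
  exact ⟨h.2, (Nat.floor_lt (Real.exp_pos _).le).1 h1.1,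
    (Nat.le_floor_iff (Real.exp_pos _).le).1 h1.2⟩

theorem prime_W {H v : ℕ} : ∀ p ∈ W H v, p.Prime := fun _ hp => (mem_W hp).1

theorem exp_succ_le {H v : ℕ} (hH : 1 ≤ H) :
    Real.exp (((v : ℝ) + 1) / H) ≤ Real.exp 1 * Real.exp ((v : ℝ) / H) := by
  rw [← Real.exp_add]
  apply Real.exp_le_exp.2
  have h1 : (1 : ℝ) ≤ H := by exact_mod_cast hH
  rw [add_div, add_comm]
  have h2 : (1 : ℝ) / H ≤ 1 := (div_le_one (by linarith)).2 h1
  linarith

/-- the sum over a window. -/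
theorem sum_W_le {H v : ℕ} (hH : 1 ≤ H) (hv : H ≤ v) : ∑ p ∈ W H v, 1 / (p : ℝ) ≤ 3 := by
  set x := Real.exp ((v : ℝ) / H) with hx
  set y := Real.exp (((v : ℝ) + 1) / H) with hy
  have hx1 : 1 < x := by
    rw [hx]
    apply Real.one_lt_exp_iff.2
    have h1 : (0 : ℝ) < H := by exact_mod_cast hH
    have h2 : (0 : ℝ) < v := by exact_mod_cast lt_of_lt_of_le hH hv
    positivity
  have hx2 : 2 ≤ x := by
    have h1 : (0 : ℝ) < H := by exact_mod_cast hH
    have h3 : (1 : ℝ) ≤ (v : ℝ) / H := by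
      rw [le_div_iff₀ h1, one_mul]
      exact_mod_cast hv
    have h4 := Real.exp_le_exp.2 h3
    have h5 := Real.add_one_le_exp (1 : ℝ)
    linarith
  have hyx : y ≤ Real.exp 1 * x := exp_succ_le hH
  have he : Real.exp 1 < 2.7182818286 := Real.exp_one_lt_d9
  have h1 : ∀ p ∈ W H v, 1 / (p : ℝ) ≤ 1 / x := fun p hp =>
    one_div_le_one_div_of_le (by linarith) (mem_W hp).2.1.le
  have hyx0 : x ≤ y := by
    rw [hx, hy]
    apply Real.exp_le_exp.2
    apply div_le_div_of_nonneg_right _ (by positivity)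
    linarith
  have h2 : (#(W H v) : ℝ) ≤ y - x + 1 := by
    have h3 : #(W H v) ≤ ⌊y⌋₊ - ⌊x⌋₊ := by
      refine (card_filter_le _ _).trans (le_of_eq ?_)
      rw [Nat.card_Ioc]
    have h4 : ⌊x⌋₊ ≤ ⌊y⌋₊ := Nat.floor_le_floor hyx0
    have h5 : (#(W H v) : ℝ) ≤ (⌊y⌋₊ : ℝ) - ⌊x⌋₊ := by
      rw [← Nat.cast_sub h4]
      exact_mod_cast h3
    have h6 := Nat.floor_le (show 0 ≤ y by linarith)
    have h7 := Nat.lt_floor_add_one x
    linarith
  refine (sum_le_sum h1).trans ?_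
  rw [sum_const, nsmul_eq_mul, mul_one_div, div_le_iff₀ (by linarith)]
  nlinarith

/-- the general form. -/
theorem moment_aux {H v : ℕ} (hH : 1 ≤ H) (hv : H ≤ v) {l : ℕ} (hl : 1 ≤ l) (M : Finset ℕ)
    (b : ℕ → ℂ) {y0 y1 : ℝ} (hy0 : 0 < y0) (hM : ∀ m ∈ M, 1 ≤ m ∧ y0 ≤ m ∧ (m : ℝ) ≤ y1)
    (hb : ∀ m ∈ M, ‖b m‖ ≤ 1 / m) (hy1 : 1 ≤ y1) :
    ∃ (N : ℕ) (c : ℕ → ℂ), 1 ≤ N ∧ (N : ℝ) ≤ Real.exp (l * (((v : ℝ) + 1) / H)) * y1 ∧
      (∀ t : ℝ, Q H v t ^ l * (∑ m ∈ M, b m * nt m t) = ∑ n ∈ Icc 1 N, c n * nt n t) ∧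
      (∀ n : ℕ, c n ≠ 0 → Real.exp (l * ((v : ℝ) / H)) * y0 ≤ n) ∧
      ∑ n ∈ Icc 1 N, ‖c n‖ ^ 2 * n ≤ y1 / y0 * (36 * l) ^ l := by
  classical
  obtain ⟨F, c, hF, hc, hn⟩ := expand' (W := W H v) prime_W (sum_W_le hH hv) l M
    (fun m hm => (hM m hm).1) b hb
  set N1 : ℝ := Real.exp (l * (((v : ℝ) + 1) / H)) * y1 with hN1
  set N0 : ℝ := Real.exp (l * ((v : ℝ) / H)) * y0 with hN0
  have hN0pos : 0 < N0 := by positivity
  have hexp : 1 ≤ Real.exp (l * (((v : ℝ) + 1) / H)) := Real.one_le_exp (by positivity)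
  have hN11 : 1 ≤ N1 := one_le_mul_of_one_le_of_one_le hexp hy1
  have hr : ∀ n ∈ F, 1 ≤ n ∧ N0 ≤ n ∧ (n : ℝ) ≤ N1 := by
    intro n hn
    obtain ⟨x, hx, m, hm, rfl⟩ := hF n hn
    have hm' := hM m hm
    have h1 : 0 < ∏ i, x i := prod_pos_of_tup prime_W hx
    refine ⟨Nat.mul_pos h1 hm'.1, ?_, ?_⟩
    · push_cast
      refine mul_le_mul ?_ hm'.2.1 hy0.le (by positivity)
      rw [Real.exp_nat_mul]
      have h2 : ∏ _i : Fin l, Real.exp ((v : ℝ) / H) ≤ ∏ i, (x i : ℝ) :=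
        prod_le_prod (fun _ _ => (Real.exp_pos _).le) fun i _ => (mem_W (mem_tup.1 hx i)).2.1.le
      simpa using h2
    · push_cast
      refine mul_le_mul ?_ hm'.2.2 (by positivity) (by positivity)
      rw [Real.exp_nat_mul]
      have h2 : ∏ i, (x i : ℝ) ≤ ∏ _i : Fin l, Real.exp (((v : ℝ) + 1) / H) :=
        prod_le_prod (fun _ _ => by positivity) fun i _ => (mem_W (mem_tup.1 hx i)).2.2
      simpa using h2
  have hsub : F ⊆ Icc 1 ⌊N1⌋₊ := fun n hn =>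
    mem_Icc.2 ⟨(hr n hn).1, Nat.le_floor (hr n hn).2.2⟩
  refine ⟨⌊N1⌋₊, fun n => if n ∈ F then c n else 0, ?_, Nat.floor_le (by linarith), ?_, ?_, ?_⟩
  · exact Nat.le_floor (by exact_mod_cast hN11)
  · intro t
    have h1 := hc t
    rw [Q, h1, ← sum_subset hsub]
    · refine sum_congr rfl fun n hn => ?_
      simp only [if_pos hn]
    · intro n _ hn
      simp only [if_neg hn, zero_mul]
  · intro n hn
    by_cases h : n ∈ F
    · exact (hr n h).2.1
    · exact absurd (if_neg h) hn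
  · have h1 : ∑ n ∈ Icc 1 ⌊N1⌋₊, ‖(if n ∈ F then c n else 0 : ℂ)‖ ^ 2 * (n : ℝ) =
        ∑ n ∈ F, ‖c n‖ ^ 2 * (n : ℝ) := by
      rw [← sum_subset hsub]
      · exact sum_congr rfl fun n hn => by rw [if_pos hn]
      · intro n _ hn
        rw [if_neg hn, norm_zero]
        ring
    rw [h1]
    have h2 : ∀ n ∈ F, ‖c n‖ ^ 2 * (n : ℝ) ≤ 1 / N0 * (gl (W H v) l n : ℝ) ^ 2 := by
      intro n h
      have hr' := hr n h
      have hn0 : (0 : ℝ) < n := hN0pos.trans_le hr'.2.1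
      have h3 := pow_le_pow_left₀ (norm_nonneg _) (hn n h) 2
      calc ‖c n‖ ^ 2 * (n : ℝ) ≤ (gl (W H v) l n / n) ^ 2 * n :=
            mul_le_mul_of_nonneg_right h3 hn0.le
        _ = 1 / n * (gl (W H v) l n : ℝ) ^ 2 := by field_simp
        _ ≤ 1 / N0 * (gl (W H v) l n : ℝ) ^ 2 :=
            mul_le_mul_of_nonneg_right (one_div_le_one_div_of_le hN0pos hr'.2.1) (sq_nonneg _)
    refine (sum_le_sum h2).trans ?_
    rw [← mul_sum]
    have h3 := sum_gl_sq (W := W H v) prime_W (sum_W_le hH hv) l F (N := N1) (by linarith)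
      (fun n hn => ⟨(hr n hn).1, (hr n hn).2.2⟩)
    refine (mul_le_mul_of_nonneg_left h3 (by positivity)).trans ?_
    have h4 : (3 * (3 + (l : ℝ))) ^ l ≤ (12 * l) ^ l := by
      apply pow_le_pow_left₀ (by positivity)
      have : (1 : ℝ) ≤ l := by exact_mod_cast hl
      linarith
    have h5 : N1 ≤ 3 ^ l * (y1 / y0) * N0 := by
      have h6 : Real.exp (l * (((v : ℝ) + 1) / H)) ≤ 3 ^ l * Real.exp (l * ((v : ℝ) / H)) := by
        rw [Real.exp_nat_mul, Real.exp_nat_mul, ← mul_pow]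
        apply pow_le_pow_left₀ (Real.exp_pos _).le
        refine (exp_succ_le hH).trans (mul_le_mul_of_nonneg_right ?_ (Real.exp_pos _).le)
        linarith [Real.exp_one_lt_d9]
      have h7 : 3 ^ l * (y1 / y0) * N0 = 3 ^ l * Real.exp (l * ((v : ℝ) / H)) * y1 := by
        rw [hN0]
        field_simp
      rw [h7, hN1]
      exact mul_le_mul_of_nonneg_right h6 (by linarith)
    calc 1 / N0 * (N1 * (3 * (3 + (l : ℝ))) ^ l)
        ≤ 1 / N0 * (3 ^ l * (y1 / y0) * N0 * (12 * l) ^ l) := by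
          apply mul_le_mul_of_nonneg_left _ (by positivity)
          exact mul_le_mul h5 h4 (by positivity) (by positivity)
      _ = y1 / y0 * (36 * l) ^ l := by
          have e : (36 * (l : ℝ)) ^ l = 3 ^ l * (12 * l) ^ l := by
            rw [← mul_pow]
            congr 1
            ring
          rw [e]
          field_simp

end MO

open MO

/-- **Row MO**, the pure power. -/
theorem moment0 : Moment0 := by
  refine ⟨36, by norm_num, fun l H v hl hH hv => ?_⟩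
  obtain ⟨N, c, h1, h2, h3, h4, h5⟩ := moment_aux hH hv hl {1} (fun _ => 1) (y0 := 1) (y1 := 1)
    one_pos (by simp) (by simp) le_rfl
  refine ⟨N, c, h1, by simpa using h2, fun t => ?_, fun n hn => by simpa using h4 n hn, by
    simpa using h5⟩
  rw [← h3 t]
  simp [nt]

/-- **Row MO**, with the polynomial `A`. -/
theorem moment : Moment := by
  refine ⟨72, by norm_num, fun l H v Y hl hH hv hY => ?_⟩
  obtain ⟨N, c, h1, h2, h3, h4, h5⟩ := moment_aux hH hv hl (Ioc ⌊Y⌋₊ ⌊2 * Y⌋₊)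
    (fun m => ((lam m / m : ℝ) : ℂ)) (y0 := Y) (y1 := 2 * Y) (by linarith)
    (fun m hm => by
      have h := mem_Ioc.1 hm
      have h1 := (Nat.floor_lt (by linarith)).1 h.1
      exact ⟨by omega, h1.le, (Nat.le_floor_iff (by linarith)).1 h.2⟩)
    (fun m _ => by
      rw [norm_real, Real.norm_eq_abs, abs_div, lam, abs_pow, abs_neg, abs_one, one_pow,
        Nat.abs_cast])
    (by linarith)
  refine ⟨N, c, h1, by linarith, fun t => ?_, h4, ?_⟩
  · rw [← h3 t]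
    rfl
  · refine h5.trans ?_
    have e : 2 * Y / Y = 2 := by field_simp
    have e2 : (72 * (l : ℝ)) ^ l = 2 ^ l * (36 * l) ^ l := by
      rw [← mul_pow]
      congr 1
      ring
    rw [e, e2]
    apply mul_le_mul_of_nonneg_right _ (by positivity)
    have h6 := pow_le_pow_right₀ (show (1 : ℝ) ≤ 2 by norm_num) hl
    simpa using h6

end Pool.Agent.MRL
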