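import Pool.Agent.Lib.MRL.MODefs

/-! TANK MR (MP_bf4c7f), row SJ: the set `T_j \ T_{j-1}` (helper64). -/

set_option autoImplicit false

namespace Pool.Agent.MRL

open Finset MeasureTheory

namespace SJ

theorem norm_nt (n : ℕ) (t : ℝ) : ‖nt n t‖ = 1 := by
  unfold nt
  rw [← Complex.ofReal_neg, Complex.norm_exp_ofReal_mul_I]

theorem cont_nt (n : ℕ) : Continuous (nt n) := by
  unfold nt
  fun_prop

theorem cont_A (Y : ℝ) : Continuous (A Y) := by
  unfold A
  exact continuous_finsetSum _ fun m _ => continuous_const.mul (cont_nt m)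

theorem cont_Q (H v : ℕ) : Continuous (Q H v) := by
  unfold Q
  exact continuous_finsetSum _ fun m _ => continuous_const.mul (cont_nt m)

theorem cont_S (X : ℝ) (H v1 v2 : ℕ) : Continuous (S X H v1 v2) := by
  unfold S
  exact continuous_finsetSum _ fun v _ => (cont_Q H v).mul (cont_A _)

theorem bdd_A (Y : ℝ) : ∃ B, ∀ t, ‖A Y t‖ ≤ B := by
  refine ⟨∑ m ∈ Ioc ⌊Y⌋₊ ⌊2 * Y⌋₊, ‖((lam m / m : ℝ) : ℂ)‖, fun t => ?_⟩
  unfold A
  refine (norm_sum_le _ _).trans (sum_le_sum fun m _ => ?_)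
  rw [norm_mul, norm_nt, mul_one]

theorem bdd_Q (H v : ℕ) : ∃ B, ∀ t, ‖Q H v t‖ ≤ B := by
  refine ⟨∑ m ∈ W H v, ‖((1 / m : ℝ) : ℂ)‖, fun t => ?_⟩
  unfold Q
  refine (norm_sum_le _ _).trans (sum_le_sum fun m _ => ?_)
  rw [norm_mul, norm_nt, mul_one]

theorem g_nonneg (T t : ℝ) : 0 ≤ g T t := (Real.exp_pos _).le

theorem g_cont (T : ℝ) : Continuous (g T) := by
  unfold g
  fun_prop

theorem g_int {T : ℝ} (hT : 0 < T) : Integrable (g T) := by
  have h := integrable_exp_neg_mul_sq (b := 1 / T ^ 2) (by positivity)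
  refine h.congr (Filter.Eventually.of_forall fun t => ?_)
  unfold g
  field_simp

theorem int_sq {T : ℝ} (hT : 0 < T) {f : ℝ → ℂ} (hf : Continuous f)
    (hb : ∃ B, ∀ t, ‖f t‖ ≤ B) : Integrable fun t => ‖f t‖ ^ 2 * g T t := by
  obtain ⟨B, hB⟩ := hb
  refine (g_int hT).bdd_mul (c := B ^ 2) ?_ ?_
  · exact (hf.norm.pow 2).aestronglyMeasurable
  · refine Filter.Eventually.of_forall fun t => ?_
    rw [norm_pow, norm_norm]
    exact pow_le_pow_left₀ (norm_nonneg _) (hB t) 2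

theorem bdd_pow_mul {f h : ℝ → ℂ} (l : ℕ) (hf : ∃ B, ∀ t, ‖f t‖ ≤ B)
    (hh : ∃ B, ∀ t, ‖h t‖ ≤ B) : ∃ B, ∀ t, ‖f t ^ l * h t‖ ≤ B := by
  obtain ⟨B, hB⟩ := hf
  obtain ⟨B', hB'⟩ := hh
  refine ⟨B ^ l * B', fun t => ?_⟩
  rw [norm_mul, norm_pow]
  have hB0 : 0 ≤ B := (norm_nonneg _).trans (hB t)
  exact mul_le_mul (pow_le_pow_left₀ (norm_nonneg _) (hB t) l) (hB' t) (norm_nonneg _)
    (by positivity)

theorem bdd_mul {f h : ℝ → ℂ} (hf : ∃ B, ∀ t, ‖f t‖ ≤ B)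
    (hh : ∃ B, ∀ t, ‖h t‖ ≤ B) : ∃ B, ∀ t, ‖f t * h t‖ ≤ B := by
  obtain ⟨B, hB⟩ := bdd_pow_mul 1 hf hh
  exact ⟨B, fun t => by simpa using hB t⟩

theorem bdd_S (X : ℝ) (H v1 v2 : ℕ) : ∃ B, ∀ t, ‖S X H v1 v2 t‖ ≤ B := by
  have h : ∀ v : ℕ, ∃ B, ∀ t, ‖Q H v t * A (X * Real.exp (-((v : ℝ) / H))) t‖ ≤ B :=
    fun v => bdd_mul (bdd_Q H v) (bdd_A _)
  choose B hB using h
  refine ⟨∑ v ∈ Ico v1 v2, B v, fun t => ?_⟩
  unfold S
  exact (norm_sum_le _ _).trans (sum_le_sum fun v _ => hB v t)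

theorem meas_good (H v1 v2 : ℕ) (α : ℝ) : MeasurableSet {t : ℝ | Good H v1 v2 α t} := by
  have : {t : ℝ | Good H v1 v2 α t} =
      ⋂ v ∈ Ico v1 v2, {t : ℝ | ‖Q H v t‖ ≤ Real.exp (-(α * v / H))} := by
    ext t
    simp [Good]
  rw [this]
  exact Finset.measurableSet_biInter _ fun v _ =>
    (isClosed_le (cont_Q H v).norm continuous_const).measurableSet

/-- The mean value of `Q^l A`. -/
theorem mv_moment (hMV : MeanValue) (hMO : Moment) : ∃ C : ℝ, 1 ≤ C ∧
    ∀ (l H v : ℕ) (Y T : ℝ), 1 ≤ l → 1 ≤ H → H ≤ v → 1 ≤ Y → 0 < T →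
      T ≤ Real.exp (l * ((v : ℝ) / H)) * Y →
      ∫ t : ℝ, ‖Q H v t ^ l * A Y t‖ ^ 2 * g T t ≤ C * (C * l) ^ l := by
  obtain ⟨C1, hC1, h1⟩ := hMV
  obtain ⟨C2, hC2, h2⟩ := hMO
  -- `C1 (T + N) / N0 ≤ 3 C1 e^l`
  refine ⟨max (max 1 (3 * C1)) (Real.exp 1 * C2), (le_max_left _ _).trans (le_max_left _ _), ?_⟩
  intro l H v Y T hl hH hv hY hT hTY
  obtain ⟨N, c, hN1, hN, hid, hsupp, hsum⟩ := h2 l H v Y hl hH hv hY
  set N0 : ℝ := Real.exp (l * ((v : ℝ) / H)) * Y with hN0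
  have hN0p : 0 < N0 := by positivity
  have hHr : (0 : ℝ) < H := by exact_mod_cast hH
  have hHr1 : (1 : ℝ) ≤ H := by exact_mod_cast hH
  have hl0 : (1 : ℝ) ≤ l := by exact_mod_cast hl
  -- the sum of squares
  have hsq : ∑ n ∈ Icc 1 N, ‖c n‖ ^ 2 ≤ (C2 * l) ^ l / N0 := by
    rw [le_div_iff₀ hN0p, sum_mul]
    refine le_trans (sum_le_sum fun n _ => ?_) hsum
    by_cases hc : c n = 0
    · simp [hc]
    · exact mul_le_mul_of_nonneg_left (hsupp n hc) (by positivity)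
  have hN2 : (N : ℝ) ≤ 2 * Real.exp l * N0 := by
    refine hN.trans ?_
    have h3 : (l : ℝ) * (((v : ℝ) + 1) / H) = l * ((v : ℝ) / H) + l / H := by
      field_simp
    rw [h3, Real.exp_add, hN0]
    have h4 : Real.exp ((l : ℝ) / H) ≤ Real.exp l :=
      Real.exp_le_exp.mpr (div_le_self (by positivity) hHr1)
    have h5 : 0 ≤ Real.exp (l * ((v : ℝ) / H)) * Y := hN0p.le
    nlinarith [mul_le_mul_of_nonneg_left h4 h5]
  have hT2 : T ≤ Real.exp l * N0 := by
    refine hTY.trans ?_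
    have : (1 : ℝ) ≤ Real.exp l := Real.one_le_exp (by positivity)
    nlinarith
  have hmv := h1 N T c hN1 hT
  have heq : ∫ t : ℝ, ‖Q H v t ^ l * A Y t‖ ^ 2 * g T t =
      ∫ t : ℝ, ‖∑ n ∈ Icc 1 N, c n * nt n t‖ ^ 2 * g T t := by
    congr 1
    ext t
    rw [hid t]
  rw [heq]
  refine hmv.trans ?_
  have hM0 : 0 ≤ (C2 * l) ^ l := by positivity
  have h6 : C1 * (T + N) * ∑ n ∈ Icc 1 N, ‖c n‖ ^ 2 ≤
      C1 * (3 * Real.exp l * N0) * ((C2 * l) ^ l / N0) := by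
    apply mul_le_mul
    · exact mul_le_mul_of_nonneg_left (by linarith) hC1.le
    · exact hsq
    · exact sum_nonneg fun n _ => by positivity
    · positivity
  refine h6.trans ?_
  have h7 : C1 * (3 * Real.exp l * N0) * ((C2 * l) ^ l / N0) =
      3 * C1 * (Real.exp 1 * C2 * l) ^ l := by
    have h8 : Real.exp (l : ℝ) = Real.exp 1 ^ l := by
      rw [← Real.exp_nat_mul, mul_one]
    rw [h8, mul_assoc (Real.exp 1), mul_pow (Real.exp 1)]
    field_simp
  rw [h7]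
  have h9 : 3 * C1 ≤ max (max 1 (3 * C1)) (Real.exp 1 * C2) :=
    (le_max_right _ _).trans (le_max_left _ _)
  have h10 : Real.exp 1 * C2 ≤ max (max 1 (3 * C1)) (Real.exp 1 * C2) := le_max_right _ _
  apply mul_le_mul h9
  · apply pow_le_pow_left₀ (by positivity)
    exact mul_le_mul_of_nonneg_right h10 (by positivity)
  · positivity
  · exact le_trans (by positivity) h9

/-- Cauchy–Schwarz and `Good`. -/
theorem S_sq_le {X : ℝ} {H v1 v2 : ℕ} {α t : ℝ} (hG : Good H v1 v2 α t) :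
    ‖S X H v1 v2 t‖ ^ 2 ≤ ((Ico v1 v2).card : ℝ) * ∑ v ∈ Ico v1 v2,
      Real.exp (-(2 * α * v / H)) * ‖A (X * Real.exp (-((v : ℝ) / H))) t‖ ^ 2 := by
  unfold S
  have h1 : ‖∑ v ∈ Ico v1 v2, Q H v t * A (X * Real.exp (-((v : ℝ) / H))) t‖ ≤
      ∑ v ∈ Ico v1 v2, Real.exp (-(α * v / H)) * ‖A (X * Real.exp (-((v : ℝ) / H))) t‖ := by
    refine (norm_sum_le _ _).trans (sum_le_sum fun v hv => ?_)
    rw [norm_mul]
    exact mul_le_mul_of_nonneg_right (hG v hv) (norm_nonneg _)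
  have h2 := pow_le_pow_left₀ (norm_nonneg _) h1 2
  refine h2.trans ((sq_sum_le_card_mul_sum_sq).trans (le_of_eq ?_))
  congr 1
  refine sum_congr rfl fun v _ => ?_
  rw [mul_pow, ← Real.exp_nat_mul]
  congr 2
  push_cast
  ring

/-- On the complement of `Good'` some `Q'` is large. -/
theorem one_le_of_not_good {H v1 v2 : ℕ} {α t : ℝ} (hG : ¬ Good H v1 v2 α t) (l : ℕ → ℕ) :
    1 ≤ ∑ v ∈ Ico v1 v2, Real.exp (2 * l v * (α * v / H)) * ‖Q H v t ^ l v‖ ^ 2 := by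
  unfold Good at hG
  push Not at hG
  obtain ⟨v, hv, hlt⟩ := hG
  have h1 : 1 ≤ Real.exp (2 * l v * (α * v / H)) * ‖Q H v t ^ l v‖ ^ 2 := by
    have h2 : Real.exp (-(α * v / H)) ^ (2 * l v) ≤ ‖Q H v t‖ ^ (2 * l v) :=
      pow_le_pow_left₀ (Real.exp_pos _).le hlt.le _
    rw [norm_pow, ← pow_mul, mul_comm (l v) 2]
    refine le_trans (le_of_eq ?_) (mul_le_mul_of_nonneg_left h2 (Real.exp_pos _).le)
    rw [← Real.exp_nat_mul, ← Real.exp_add]
    rw [eq_comm, Real.exp_eq_one_iff]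
    push_cast
    ring
  exact h1.trans (single_le_sum (f := fun v => Real.exp (2 * l v * (α * v / H)) *
    ‖Q H v t ^ l v‖ ^ 2) (fun v _ => by positivity) hv)

/-- The integral over `E` in terms of the moments. -/
theorem int_le {X T : ℝ} {H' v1' v2' H v1 v2 : ℕ} {α' α : ℝ} (hT : 0 < T) (l : ℕ → ℕ → ℕ) :
    ∫ t in {t : ℝ | Good H v1 v2 α t ∧ ¬ Good H' v1' v2' α' t}, ‖S X H v1 v2 t‖ ^ 2 * g T t ≤
      ((Ico v1 v2).card : ℝ) * ∑ v ∈ Ico v1 v2, ∑ w ∈ Ico v1' v2',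
        Real.exp (-(2 * α * v / H)) * Real.exp (2 * l v w * (α' * w / H')) *
        ∫ t : ℝ, ‖Q H' w t ^ l v w * A (X * Real.exp (-((v : ℝ) / H))) t‖ ^ 2 * g T t := by
  set E : Set ℝ := {t : ℝ | Good H v1 v2 α t ∧ ¬ Good H' v1' v2' α' t} with hE
  have hEm : MeasurableSet E := (meas_good H v1 v2 α).inter (meas_good H' v1' v2' α').compl
  set F : ℝ → ℝ := fun t => ((Ico v1 v2).card : ℝ) * ∑ v ∈ Ico v1 v2, ∑ w ∈ Ico v1' v2',
    Real.exp (-(2 * α * v / H)) * Real.exp (2 * l v w * (α' * w / H')) *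
      (‖Q H' w t ^ l v w * A (X * Real.exp (-((v : ℝ) / H))) t‖ ^ 2 * g T t) with hF
  have hint : ∀ v w : ℕ, Integrable fun t : ℝ =>
      ‖Q H' w t ^ l v w * A (X * Real.exp (-((v : ℝ) / H))) t‖ ^ 2 * g T t := fun v w =>
    int_sq hT (((cont_Q H' w).pow _).mul (cont_A _)) (bdd_pow_mul _ (bdd_Q _ _) (bdd_A _))
  have hFi : Integrable F := by
    refine Integrable.const_mul ?_ _
    refine integrable_finsetSum _ fun v _ => ?_
    refine integrable_finsetSum _ fun w _ => ?_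
    exact (hint v w).const_mul _
  have hFint : ∫ t : ℝ, F t = ((Ico v1 v2).card : ℝ) * ∑ v ∈ Ico v1 v2, ∑ w ∈ Ico v1' v2',
        Real.exp (-(2 * α * v / H)) * Real.exp (2 * l v w * (α' * w / H')) *
        ∫ t : ℝ, ‖Q H' w t ^ l v w * A (X * Real.exp (-((v : ℝ) / H))) t‖ ^ 2 * g T t := by
    rw [hF, integral_const_mul, integral_finsetSum]
    · congr 1
      refine sum_congr rfl fun v _ => ?_
      rw [integral_finsetSum]
      · refine sum_congr rfl fun w _ => ?_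
        rw [integral_const_mul]
      · intro w _
        exact (hint v w).const_mul _
    · intro v _
      refine integrable_finsetSum _ fun w _ => ?_
      exact (hint v w).const_mul _
  rw [← hFint]
  have hF0 : ∀ t, 0 ≤ F t := by
    intro t
    simp only [hF]
    refine mul_nonneg (by positivity) (sum_nonneg fun v _ => sum_nonneg fun w _ => ?_)
    have := g_nonneg T t
    positivity
  have h1 : ∫ t in E, ‖S X H v1 v2 t‖ ^ 2 * g T t ≤ ∫ t in E, F t := by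
    refine setIntegral_mono_on (int_sq hT (cont_S X H v1 v2) (bdd_S X H v1 v2)).integrableOn
      hFi.integrableOn hEm ?_
    intro t ht
    have h2 := S_sq_le (X := X) ht.1
    have h3 : ∀ v ∈ Ico v1 v2, ‖A (X * Real.exp (-((v : ℝ) / H))) t‖ ^ 2 ≤
        ∑ w ∈ Ico v1' v2', Real.exp (2 * l v w * (α' * w / H')) *
          ‖Q H' w t ^ l v w * A (X * Real.exp (-((v : ℝ) / H))) t‖ ^ 2 := by
      intro v _
      have h4 := one_le_of_not_good ht.2 (l v)
      have h5 := mul_le_mul_of_nonneg_right h4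
        (sq_nonneg ‖A (X * Real.exp (-((v : ℝ) / H))) t‖)
      rw [one_mul, sum_mul] at h5
      refine h5.trans (le_of_eq ?_)
      refine sum_congr rfl fun w _ => ?_
      rw [norm_mul, mul_pow, mul_assoc]
    have h6 : ‖S X H v1 v2 t‖ ^ 2 ≤ ((Ico v1 v2).card : ℝ) * ∑ v ∈ Ico v1 v2,
        Real.exp (-(2 * α * v / H)) * ∑ w ∈ Ico v1' v2', Real.exp (2 * l v w * (α' * w / H')) *
          ‖Q H' w t ^ l v w * A (X * Real.exp (-((v : ℝ) / H))) t‖ ^ 2 := by
      refine h2.trans (mul_le_mul_of_nonneg_left (sum_le_sum fun v hv => ?_) (by positivity))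
      exact mul_le_mul_of_nonneg_left (h3 v hv) (Real.exp_pos _).le
    have h7 := mul_le_mul_of_nonneg_right h6 (g_nonneg T t)
    refine h7.trans (le_of_eq ?_)
    simp only [hF]
    rw [mul_assoc, sum_mul]
    congr 1
    refine sum_congr rfl fun v _ => ?_
    rw [mul_sum, sum_mul]
    refine sum_congr rfl fun w _ => ?_
    ring
  exact h1.trans (setIntegral_le_integral hFi (Filter.Eventually.of_forall hF0))

/-- The bound for one term. -/
theorem term_le {C α α' a b A1 B1 B2 V : ℝ} {l : ℕ} (hC : 1 ≤ C) (hα' : 0 ≤ α')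
    (hD : α' < α) (hα : α ≤ 1) (hB1 : 1 ≤ B1) (hb1 : B1 ≤ b) (hb2 : b ≤ B2)
    (ha1 : A1 ≤ a) (ha2 : a ≤ V) (hA1 : 1 ≤ A1) (h1 : 12 * B2 ≤ (α - α') * A1)
    (h3 : Real.log (C * V + C) ≤ (α - α') / 2 * B1)
    (hl1 : 1 ≤ l) (hl2 : (l : ℝ) ≤ a / b + 1) :
    Real.exp (-(2 * α * a)) * Real.exp (2 * l * (α' * b)) * (C * (C * l) ^ l) ≤
      C * Real.exp (-(31 / 24 * ((α - α') * A1))) := by
  have hb0 : 0 < b := by linarith
  have ha0 : 0 < a := by linarith
  have hlr : (1 : ℝ) ≤ l := by exact_mod_cast hl1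
  have hCl : 0 < C * l := by positivity
  have hCl1 : 1 ≤ C * l := by nlinarith
  -- `l b ≤ a + b`
  have hlb : (l : ℝ) * b ≤ a + b := by
    have := mul_le_mul_of_nonneg_right hl2 hb0.le
    rw [add_mul, div_mul_cancel₀ _ hb0.ne', one_mul] at this
    exact this
  have hab : a / b ≤ V := (div_le_self ha0.le (by linarith)).trans ha2
  have hlog : Real.log (C * l) ≤ (α - α') / 2 * B1 := by
    refine le_trans (Real.log_le_log hCl ?_) h3
    nlinarith
  have hlog0 : 0 ≤ Real.log (C * l) := Real.log_nonneg hCl1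
  have hl3 : (l : ℝ) ≤ a / B1 + 1 := by
    refine hl2.trans ?_
    have : a / b ≤ a / B1 := div_le_div_of_nonneg_left ha0.le (by linarith) hb1
    linarith
  have hllog : (l : ℝ) * Real.log (C * l) ≤ (α - α') / 2 * a + (α - α') * A1 / 24 := by
    have h5 : (l : ℝ) * Real.log (C * l) ≤ (a / B1 + 1) * ((α - α') / 2 * B1) :=
      mul_le_mul hl3 hlog hlog0 (by positivity)
    have h6 : (a / B1 + 1) * ((α - α') / 2 * B1) = (α - α') / 2 * a + (α - α') / 2 * B1 := by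
      field_simp
    have h7 : (α - α') / 2 * B1 ≤ (α - α') * A1 / 24 := by
      have h8 : 12 * B1 ≤ (α - α') * A1 := by linarith
      have h9 : (α - α') * (12 * B1) ≤ 1 * (12 * B1) :=
        mul_le_mul_of_nonneg_right (by linarith) (by linarith)
      linarith
    linarith
  have hpow : (C * l) ^ l = Real.exp (l * Real.log (C * l)) := by
    rw [Real.exp_nat_mul, Real.exp_log hCl]
  have h10 : Real.exp (-(2 * α * a)) * Real.exp (2 * l * (α' * b)) * (C * (C * l) ^ l) =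
      C * Real.exp (-(2 * α * a) + 2 * l * (α' * b) + l * Real.log (C * l)) := by
    rw [hpow, Real.exp_add, Real.exp_add]
    ring
  rw [h10]
  refine mul_le_mul_of_nonneg_left (Real.exp_le_exp.mpr ?_) (by linarith)
  have h11 : 2 * (l : ℝ) * (α' * b) ≤ 2 * α' * (a + b) := by
    have := mul_le_mul_of_nonneg_left hlb (by linarith : (0 : ℝ) ≤ 2 * α')
    linarith
  have h12 : 2 * α' * b ≤ (α - α') * A1 / 6 := by
    have h13 : α' * b ≤ 1 * b := mul_le_mul_of_nonneg_right (by linarith) hb0.le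
    linarith
  have h14 : (α - α') * A1 ≤ (α - α') * a := mul_le_mul_of_nonneg_left ha1 (by linarith)
  nlinarith

end SJ

open SJ in
/-- The row `StepJ`. -/
theorem stepJ (hMV : MeanValue) (hMO : Moment) : StepJ := by
  obtain ⟨C, hC, hmv⟩ := mv_moment hMV hMO
  refine ⟨C, hC, ?_⟩
  intro X T H' v1' v2' H v1 v2 α' α hH' hv1' hv12' hHH hv1 hv12 hα' hD hα h12 hlog2 hlog3 hT hTX
    hX
  have hH : 1 ≤ H := hH'.trans hHH
  have hHr : (0 : ℝ) < H := by exact_mod_cast hH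
  have hH'r : (0 : ℝ) < H' := by exact_mod_cast hH'
  set A1 : ℝ := (v1 : ℝ) / H with hA1
  set B1 : ℝ := (v1' : ℝ) / H' with hB1
  set B2 : ℝ := (v2' : ℝ) / H' with hB2
  have hA1' : 1 ≤ A1 := by
    rw [hA1, le_div_iff₀ hHr, one_mul]
    exact_mod_cast hv1
  have hB1' : 1 ≤ B1 := by
    rw [hB1, le_div_iff₀ hH'r, one_mul]
    exact_mod_cast hv1'
  have hX1 : 1 ≤ √X := (Real.one_le_exp (by positivity)).trans hX
  have hX0 : 0 < X := by
    by_contra h
    rw [Real.sqrt_eq_zero_of_nonpos (not_lt.mp h)] at hX1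
    linarith
  set l : ℕ → ℕ → ℕ := fun v w => ⌈((v : ℝ) / H) / ((w : ℝ) / H')⌉₊ with hl
  have hterm : ∀ v ∈ Ico v1 v2, ∀ w ∈ Ico v1' v2',
      Real.exp (-(2 * α * v / H)) * Real.exp (2 * l v w * (α' * w / H')) *
        ∫ t : ℝ, ‖Q H' w t ^ l v w * A (X * Real.exp (-((v : ℝ) / H))) t‖ ^ 2 * g T t ≤
      C * Real.exp (-(31 / 24 * ((α - α') * A1))) := by
    intro v hv w hw
    rw [mem_Ico] at hv hw
    have ha1 : A1 ≤ (v : ℝ) / H := by
      rw [hA1]
      gcongr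
      exact_mod_cast hv.1
    have ha2 : (v : ℝ) / H ≤ (v2 : ℝ) / H := by
      gcongr
      exact_mod_cast hv.2.le
    have hb1 : B1 ≤ (w : ℝ) / H' := by
      rw [hB1]
      gcongr
      exact_mod_cast hw.1
    have hb2 : (w : ℝ) / H' ≤ B2 := by
      rw [hB2]
      gcongr
      exact_mod_cast hw.2.le
    set a : ℝ := (v : ℝ) / H with ha
    set b : ℝ := (w : ℝ) / H' with hb
    have ha0 : 0 < a := by linarith
    have hb0 : 0 < b := by linarith
    have hl1 : 1 ≤ l v w := Nat.one_le_iff_ne_zero.mpr (Nat.ceil_pos.mpr (by positivity)).ne'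
    have hl2 : (l v w : ℝ) ≤ a / b + 1 := (Nat.ceil_lt_add_one (by positivity)).le
    have hl3 : a / b ≤ l v w := Nat.le_ceil _
    have hY : X * Real.exp (-a) ≥ √X := by
      have h1 : Real.exp a ≤ √X := (Real.exp_le_exp.mpr ha2).trans hX
      rw [Real.exp_neg, ← div_eq_mul_inv, ge_iff_le, le_div_iff₀ (Real.exp_pos _)]
      calc √X * Real.exp a ≤ √X * √X := mul_le_mul_of_nonneg_left h1 (by positivity)
        _ = X := Real.mul_self_sqrt hX0.le
    have hTY : T ≤ Real.exp (l v w * b) * (X * Real.exp (-a)) := by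
      refine hTX.trans ?_
      have h1 : a ≤ l v w * b := by
        rwa [div_le_iff₀ hb0] at hl3
      have h2 : Real.exp a ≤ Real.exp (l v w * b) := Real.exp_le_exp.mpr h1
      have h3 : Real.exp a * Real.exp (-a) = 1 := by
        rw [← Real.exp_add, add_neg_cancel, Real.exp_zero]
      calc X = Real.exp a * (X * Real.exp (-a)) := by
            rw [mul_left_comm, h3, mul_one]
        _ ≤ _ := mul_le_mul_of_nonneg_right h2 (by positivity)
    have h1 := hmv (l v w) H' w (X * Real.exp (-a)) T hl1 hH' (hv1'.trans hw.1)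
      (hX1.trans hY) hT hTY
    have h2 : Real.exp (-(2 * α * v / H)) * Real.exp (2 * l v w * (α' * w / H')) *
        ∫ t : ℝ, ‖Q H' w t ^ l v w * A (X * Real.exp (-a)) t‖ ^ 2 * g T t ≤
        Real.exp (-(2 * α * v / H)) * Real.exp (2 * l v w * (α' * w / H')) *
          (C * (C * l v w) ^ l v w) :=
      mul_le_mul_of_nonneg_left h1 (by positivity)
    refine h2.trans ?_
    have h3 := term_le (C := C) (α := α) (α' := α') (a := a) (b := b) (A1 := A1) (B1 := B1)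
      (B2 := B2) (V := (v2 : ℝ) / H) (l := l v w) hC hα' hD hα hB1' hb1 hb2 ha1 ha2 hA1' h12
      hlog3 hl1 hl2
    have h4 : 2 * α * v / H = 2 * α * a := by
      rw [ha]
      ring
    have h5 : α' * w / H' = α' * b := by
      rw [hb]
      ring
    rw [h4, h5]
    exact h3
  have h1 := int_le (X := X) (T := T) (H' := H') (v1' := v1') (v2' := v2') (H := H) (v1 := v1)
    (v2 := v2) (α' := α') (α := α) hT l
  refine h1.trans ?_
  have h2 : ∑ v ∈ Ico v1 v2, ∑ w ∈ Ico v1' v2',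
        Real.exp (-(2 * α * v / H)) * Real.exp (2 * l v w * (α' * w / H')) *
        ∫ t : ℝ, ‖Q H' w t ^ l v w * A (X * Real.exp (-((v : ℝ) / H))) t‖ ^ 2 * g T t ≤
      ((Ico v1 v2).card : ℝ) * (((Ico v1' v2').card : ℝ) *
        (C * Real.exp (-(31 / 24 * ((α - α') * A1))))) := by
    have h3 : ∀ v ∈ Ico v1 v2, ∑ w ∈ Ico v1' v2',
        Real.exp (-(2 * α * v / H)) * Real.exp (2 * l v w * (α' * w / H')) *
        ∫ t : ℝ, ‖Q H' w t ^ l v w * A (X * Real.exp (-((v : ℝ) / H))) t‖ ^ 2 * g T t ≤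
        ((Ico v1' v2').card : ℝ) * (C * Real.exp (-(31 / 24 * ((α - α') * A1)))) := by
      intro v hv
      have := sum_le_card_nsmul (Ico v1' v2') _ _ (hterm v hv)
      rwa [nsmul_eq_mul] at this
    have := sum_le_card_nsmul (Ico v1 v2) _ _ h3
    rwa [nsmul_eq_mul] at this
  -- the number of terms
  have hV : (v2' : ℝ) ≤ v2 := by
    have h3 : 12 * B2 ≤ A1 := by
      refine h12.trans ?_
      nlinarith
    have h4 : A1 ≤ (v1 : ℝ) / H' := by
      rw [hA1]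
      exact div_le_div_of_nonneg_left (by positivity) hH'r (by exact_mod_cast hHH)
    have h5 : 12 * ((v2' : ℝ) / H') ≤ (v1 : ℝ) / H' := h3.trans h4
    rw [← mul_div_assoc, div_le_div_iff_of_pos_right hH'r] at h5
    have h6 : (v1 : ℝ) ≤ v2 := by exact_mod_cast hv12
    have h7 : (0 : ℝ) ≤ v2' := by positivity
    linarith
  have hc1 : ((Ico v1 v2).card : ℝ) ≤ (v2 : ℝ) + 2 := by
    rw [Nat.card_Ico]
    have : ((v2 - v1 : ℕ) : ℝ) ≤ v2 := by exact_mod_cast Nat.sub_le _ _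
    linarith
  have hc2 : ((Ico v1' v2').card : ℝ) ≤ (v2 : ℝ) + 2 := by
    rw [Nat.card_Ico]
    have : ((v2' - v1' : ℕ) : ℝ) ≤ v2' := by exact_mod_cast Nat.sub_le _ _
    linarith
  have hP : ((v2 : ℝ) + 2) ^ 3 ≤ Real.exp ((α - α') * A1 / 4) := by
    have h3 : ((v2 : ℝ) + 2) ^ 3 = Real.exp (3 * Real.log ((v2 : ℝ) + 2)) := by
      have : (3 : ℝ) = ((3 : ℕ) : ℝ) := by norm_num
      rw [this, Real.exp_nat_mul, Real.exp_log (by positivity)]
    rw [h3]
    exact Real.exp_le_exp.mpr (by linarith)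
  have hE0 : 0 ≤ C * Real.exp (-(31 / 24 * ((α - α') * A1))) := by positivity
  calc ((Ico v1 v2).card : ℝ) * _ ≤ ((Ico v1 v2).card : ℝ) * (((Ico v1 v2).card : ℝ) *
        (((Ico v1' v2').card : ℝ) * (C * Real.exp (-(31 / 24 * ((α - α') * A1)))))) :=
        mul_le_mul_of_nonneg_left h2 (by positivity)
    _ ≤ ((v2 : ℝ) + 2) * (((v2 : ℝ) + 2) *
        (((v2 : ℝ) + 2) * (C * Real.exp (-(31 / 24 * ((α - α') * A1)))))) := by
        gcongr
    _ = ((v2 : ℝ) + 2) ^ 3 * (C * Real.exp (-(31 / 24 * ((α - α') * A1)))) := by ring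
    _ ≤ Real.exp ((α - α') * A1 / 4) * (C * Real.exp (-(31 / 24 * ((α - α') * A1)))) :=
        mul_le_mul_of_nonneg_right hP hE0
    _ = C * Real.exp (-(25 / 24 * ((α - α') * A1))) := by
        rw [mul_left_comm, ← Real.exp_add]
        congr 2
        ring
    _ ≤ C * Real.exp (-((α - α') * v1 / H)) := by
        refine mul_le_mul_of_nonneg_left (Real.exp_le_exp.mpr ?_) (by linarith)
        have h3 : (α - α') * v1 / H = (α - α') * A1 := by
          rw [hA1]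
          ring
        rw [h3]
        have : 0 ≤ (α - α') * A1 := mul_nonneg (by linarith) (by linarith)
        linarith

end Pool.Agent.MRL
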