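import Mathlib

/-! TANK MR (MP_bf4c7f): definitions and the exact statements (Props) of all rows. helper89. -/

set_option autoImplicit false

namespace Pool.Agent.MRL

open Finset

noncomputable section

/-- `λ(n) = (-1)^Ω(n)` as a real number. -/
def lam (n : ℕ) : ℝ := (-1 : ℝ) ^ (ArithmeticFunction.cardFactors n)

/-- `n^{-it}`. -/
def nt (n : ℕ) (t : ℝ) : ℂ := Complex.exp (-((t * Real.log n : ℝ) : ℂ) * Complex.I)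

/-- `A_Y(1+it) = Σ_{Y < m ≤ 2Y} λ(m) m^{-1-it}`. -/
def A (Y t : ℝ) : ℂ := ∑ m ∈ Ioc ⌊Y⌋₊ ⌊2 * Y⌋₊, ((lam m / m : ℝ) : ℂ) * nt m t

/-- the primes `p` with `e^{v/H} < p ≤ e^{(v+1)/H}`. -/
def W (H v : ℕ) : Finset ℕ :=
  (Ioc ⌊Real.exp ((v : ℝ) / H)⌋₊ ⌊Real.exp (((v : ℝ) + 1) / H)⌋₊).filter Nat.Prime

/-- `Q_v(1+it) = Σ_{p ∈ W} p^{-1-it}`. -/
def Q (H v : ℕ) (t : ℝ) : ℂ := ∑ p ∈ W H v, ((1 / p : ℝ) : ℂ) * nt p t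

/-- `Σ 1/p` over the primes `e^{v1/H} < p ≤ e^{v2/H}`. -/
def LL (H v1 v2 : ℕ) : ℝ := ∑ v ∈ Ico v1 v2, ∑ p ∈ W H v, (1 / (p : ℝ))

/-- Gaussian weight `exp(-(t/T)^2)`. -/
def g (T t : ℝ) : ℝ := Real.exp (-(t / T) ^ 2)

/-- the main term `S = Σ_v Q_v(1+it) A_{X e^{-v/H}}(1+it)`. -/
def S (X : ℝ) (H v1 v2 : ℕ) (t : ℝ) : ℂ :=
  ∑ v ∈ Ico v1 v2, Q H v t * A (X * Real.exp (-((v : ℝ) / H))) t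

/-- all prime polynomials of the scale are small at `t`. -/
def Good (H v1 v2 : ℕ) (α t : ℝ) : Prop :=
  ∀ v ∈ Ico v1 v2, ‖Q H v t‖ ≤ Real.exp (-(α * v / H))

/-! ### The statements -/

/-- bounded-`h` Matomäki–Radziwiłł for `λ`, Dirichlet polynomial form. -/
def MRD : Prop := ∀ δ : ℝ, 0 < δ → ∃ h : ℝ, 1 ≤ h ∧ ∃ X0 : ℝ, ∀ X : ℝ, X0 ≤ X → ∀ T : ℝ,
  1 ≤ T → T ≤ X / h → ∫ t : ℝ, ‖A X t‖ ^ 2 * g T t ≤ δ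

/-- runs of length `h` on which `λ` is constant have small density (monotone in `h`). -/
def NoRuns : Prop := ∀ δ : ℝ, 0 < δ → ∃ h : ℕ, ∃ X0 : ℝ, ∀ X : ℝ, X0 ≤ X →
  (((Icc ⌈X⌉₊ ⌊2 * X⌋₊).filter (fun x => ∀ j < h, lam (x + j) = lam x)).card : ℝ) ≤ δ * X

/-- the final theorem. -/
def Final : Prop := ∀ c : ℝ, 0 < c → ∃ t0 : ℝ, ∀ t : ℝ, t0 ≤ t →
  (∃ n : ℕ, t < n ∧ (n : ℝ) < t + c * √t ∧ Even (ArithmeticFunction.cardFactors n)) ∧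
  (∃ n : ℕ, t < n ∧ (n : ℝ) < t + c * √t ∧ Odd (ArithmeticFunction.cardFactors n))

/-- mean value theorem with Gaussian weight. -/
def MeanValue : Prop := ∃ C : ℝ, 0 < C ∧ ∀ (N : ℕ) (T : ℝ) (a : ℕ → ℂ), 1 ≤ N → 0 < T →
  ∫ t : ℝ, ‖∑ n ∈ Icc 1 N, a n * nt n t‖ ^ 2 * g T t ≤ C * (T + N) * ∑ n ∈ Icc 1 N, ‖a n‖ ^ 2

/-- Mertens lower bound for the window sums. -/
def MertensLower : Prop := ∃ c : ℝ, 0 < c ∧ ∃ C : ℝ, ∀ H v1 v2 : ℕ, 1 ≤ H → H ≤ v1 → v1 ≤ v2 →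
  c * Real.log ((v2 : ℝ) / v1) - C ≤ LL H v1 v2

/-- Turán–Kubilius decomposition `A = -(1/L) S + small in mean square`. -/
def Decomp : Prop := ∃ C : ℝ, 0 < C ∧ ∀ (X T : ℝ) (H v1 v2 : ℕ), 1 ≤ H → (H : ℝ) ≤ X →
  v1 ≤ v2 → 1 ≤ LL H v1 v2 → Real.exp ((v2 : ℝ) / H) ≤ √X → 0 < T → T ≤ X →
  ∫ t : ℝ, ‖A X t + ((1 / LL H v1 v2 : ℝ) : ℂ) * S X H v1 v2 t‖ ^ 2 * g T t
    ≤ C * (1 / LL H v1 v2 + 1 / H)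

/-- the set where all `Q_v` of the first scale are small. -/
def StepOne : Prop := ∃ C : ℝ, 0 < C ∧ ∀ (X T : ℝ) (H v1 v2 : ℕ) (α : ℝ), 1 ≤ H → v1 ≤ v2 →
  0 < T → 0 ≤ α → T * Real.exp ((v2 : ℝ) / H) ≤ X → Real.exp ((v2 : ℝ) / H) ≤ √X →
  ∫ t in {t : ℝ | Good H v1 v2 α t}, ‖S X H v1 v2 t‖ ^ 2 * g T t
    ≤ C * (v2 : ℝ) ^ 2 * Real.exp (-(2 * α * v1 / H))

/-- the set `T_j \ T_{j-1}`; primed data = the previous scale. -/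
def StepJ : Prop := ∃ C : ℝ, 1 ≤ C ∧ ∀ (X T : ℝ) (H' v1' v2' H v1 v2 : ℕ) (α' α : ℝ),
  1 ≤ H' → H' ≤ v1' → v1' ≤ v2' → H' ≤ H → H ≤ v1 → v1 ≤ v2 →
  0 ≤ α' → α' < α → α ≤ 1 →
  12 * ((v2' : ℝ) / H') ≤ (α - α') * ((v1 : ℝ) / H) →
  12 * Real.log ((v2 : ℝ) + 2) ≤ (α - α') * ((v1 : ℝ) / H) →
  Real.log (C * ((v2 : ℝ) / H) + C) ≤ (α - α') / 2 * ((v1' : ℝ) / H') →
  0 < T → T ≤ X → Real.exp ((v2 : ℝ) / H) ≤ √X →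
  ∫ t in {t : ℝ | Good H v1 v2 α t ∧ ¬ Good H' v1' v2' α' t}, ‖S X H v1 v2 t‖ ^ 2 * g T t
    ≤ C * Real.exp (-((α - α') * v1 / H))

/-- the exceptional set has few unit intervals. -/
def LargeCount : Prop := ∀ θ : ℝ, 0 < θ → θ ≤ 1 → ∃ X0 : ℝ, ∀ X : ℝ, X0 ≤ X →
  ∀ (H v1 v2 : ℕ) (α : ℝ), 1 ≤ H → H ≤ v1 → v1 ≤ v2 → 0 ≤ α → α ≤ θ / 16 →
  (v2 : ℝ) / H ≤ θ / 16 * Real.log X → 16 / θ * Real.log (Real.log X) ≤ (v1 : ℝ) / H →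
  12 * Real.log ((v2 : ℝ) + 2) ≤ (v1 : ℝ) / H →
  ∀ R : Finset ℤ, (∀ r ∈ R, |(r : ℝ)| ≤ 2 * X) →
    (∀ r ∈ R, ∃ t ∈ Set.Icc (r : ℝ) (r + 1), ¬ Good H v1 v2 α t) →
    (R.card : ℝ) ≤ X ^ θ

/-- prime polynomial on a sparse set (Halász–Montgomery with sieve majorant). -/
def SparsePrimes : Prop := ∀ β : ℝ, 0 < β → β ≤ 1 / 8 → ∃ θ : ℝ, 0 < θ ∧ θ ≤ 1 ∧
  ∃ C : ℝ, 0 < C ∧ ∃ X0 : ℝ, ∀ X : ℝ, X0 ≤ X → ∀ H v : ℕ, 1 ≤ H →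
  X ^ β ≤ Real.exp ((v : ℝ) / H) → Real.exp (((v : ℝ) + 1) / H) ≤ √X →
  ∀ (R : Finset ℤ) (τ : ℤ → ℝ), (∀ r ∈ R, |(r : ℝ)| ≤ 2 * X) → (R.card : ℝ) ≤ X ^ θ →
    (∀ r ∈ R, τ r ∈ Set.Icc (r : ℝ) (r + 1)) →
    ∑ r ∈ R, ‖Q H v (τ r)‖ ^ 2 ≤ C / (Real.log X) ^ 2

/-- exponential sums `Σ n^{-iτ}` with a power saving, `√N ≤ |τ| ≤ N^A`. -/
def VDC : Prop := ∀ A : ℝ, 1 ≤ A → ∃ δ : ℝ, 0 < δ ∧ ∃ C : ℝ, 0 < C ∧ ∀ N N' : ℕ, 1 ≤ N →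
  N' ≤ 2 * N → ∀ τ : ℝ, √N ≤ |τ| → |τ| ≤ (N : ℝ) ^ A →
  ‖∑ n ∈ Ioc N N', nt n τ‖ ≤ C * (N : ℝ) ^ (1 - δ)

/-- `|ζ(1+a+iτ)| ≤ ε log(2+|τ|) + C_ε`. -/
def ZetaUp : Prop := ∀ ε : ℝ, 0 < ε → ∃ C : ℝ, 0 < C ∧ ∀ a τ : ℝ, 0 < a → a ≤ 1 →
  1 / 2 ≤ |τ| → ‖riemannZeta (1 + a + τ * Complex.I)‖ ≤ ε * Real.log (2 + |τ|) + C

/-- the Dirichlet series of `λ` (for `a > 0`). -/
def Fl (a τ : ℝ) : ℂ := ∑' n : ℕ, ((lam n / n * (n : ℝ) ^ (-a) : ℝ) : ℂ) * nt n τ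

/-- bound for the Dirichlet series of `λ` near the line 1. -/
def FlUp : Prop := ∃ C0 : ℝ, 0 < C0 ∧ ∀ ε : ℝ, 0 < ε → ∃ C : ℝ, 0 < C ∧ ∀ a τ : ℝ, 0 < a →
  a ≤ 1 → ‖Fl a τ‖ ≤ C0 * a ^ (-(3 / 4 : ℝ)) * (ε * Real.log (2 + |τ|) + C) ^ (1 / 4 : ℝ)

/-- Halász for `λ(n) n^{-it}`. -/
def Halasz : Prop := ∀ η : ℝ, 0 < η → ∃ x0 : ℝ, ∀ x : ℝ, x0 ≤ x → ∀ t : ℝ, |t| ≤ x ^ 3 →
  ‖∑ n ∈ Icc 1 ⌊x⌋₊, ((lam n : ℝ) : ℂ) * nt n t‖ ≤ η * x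

/-- corollary of `Halasz`. -/
def HalaszA : Prop := ∀ η : ℝ, 0 < η → ∃ Y0 : ℝ, ∀ Y : ℝ, Y0 ≤ Y → ∀ t : ℝ, |t| ≤ Y ^ 3 →
  ‖A Y t‖ ≤ η

/-- one scale. -/
structure Scale where
  H : ℕ
  v1 : ℕ
  v2 : ℕ
  α : ℝ

/-- existence of the scale sequence. -/
def Params : Prop := ∀ K α C : ℝ, 1 ≤ K → 0 < α → α ≤ 1 / 4 → 1 ≤ C → ∃ s : ℕ → Scale,
  (∀ j, 1 ≤ (s j).H ∧ (s j).H ≤ (s j).v1 ∧ (s j).v1 < (s j).v2 ∧ (s j).H ≤ (s (j + 1)).H) ∧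
  (∀ j : ℕ, K * ((j : ℝ) + 1) ^ 2 ≤ (s j).H ∧
    K * ((j : ℝ) + 1) ^ 2 ≤ LL (s j).H (s j).v1 (s j).v2) ∧
  (∀ j, α / 2 ≤ (s j).α ∧ (s j).α < (s (j + 1)).α ∧ (s j).α ≤ α) ∧
  (12 * Real.log (((s 0).v2 : ℝ) + 2) + K ≤ (s 0).α * (((s 0).v1 : ℝ) / (s 0).H)) ∧
  (∀ j : ℕ,
    12 * (((s j).v2 : ℝ) / (s j).H)
      ≤ ((s (j + 1)).α - (s j).α) * (((s (j + 1)).v1 : ℝ) / (s (j + 1)).H) ∧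
    12 * Real.log (((s (j + 1)).v2 : ℝ) + 2)
      ≤ ((s (j + 1)).α - (s j).α) * (((s (j + 1)).v1 : ℝ) / (s (j + 1)).H) ∧
    Real.log (C * (((s (j + 1)).v2 : ℝ) / (s (j + 1)).H) + C)
      ≤ ((s (j + 1)).α - (s j).α) / 2 * (((s j).v1 : ℝ) / (s j).H) ∧
    K + j ≤ ((s (j + 1)).α - (s j).α) * (((s (j + 1)).v1 : ℝ) / (s (j + 1)).H))

end

end Pool.Agent.MRL
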