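import Mathlib

/-!
# Sums of n^(iu) over multiples of D with trapezoid weights
-/

set_option autoImplicit false
open Finset Complex

namespace Pool.Agent.MRL.HM

/-- `x^(iu)`, written with the real logarithm -/
noncomputable def ee (u x : ℝ) : ℂ := cexp (((u * Real.log x : ℝ) : ℂ) * I)

lemma norm_ee (u x : ℝ) : ‖ee u x‖ = 1 := Complex.norm_exp_ofReal_mul_I _

lemma ee_mul (u : ℝ) {x y : ℝ} (hx : 0 < x) (hy : 0 < y) : ee u (x * y) = ee u x * ee u y := by
  unfold ee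
  rw [Real.log_mul hx.ne' hy.ne', ← Complex.exp_add]
  congr 1; push_cast; ring

lemma ee_neg (u x : ℝ) : ee (-u) x = (starRingEnd ℂ) (ee u x) := by
  unfold ee
  rw [← Complex.exp_conj]
  congr 1
  simp

lemma ee_sub (u w x : ℝ) : ee (u - w) x = ee u x * (starRingEnd ℂ) (ee w x) := by
  rw [← ee_neg]
  unfold ee
  rw [← Complex.exp_add]
  congr 1; push_cast; ring

lemma ee_one (u : ℝ) : ee u 1 = 1 := by simp [ee]

lemma cpow_eq_ee (u : ℝ) {n : ℕ} (hn : 0 < n) : (n : ℂ) ^ ((u : ℂ) * I) = ee u n := by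
  unfold ee
  rw [Complex.cpow_def_of_ne_zero (by exact_mod_cast hn.ne')]
  congr 1
  rw [← Complex.natCast_log]
  push_cast; ring

lemma norm_exp_sub (a b : ℝ) : ‖cexp ((a : ℂ) * I) - cexp ((b : ℂ) * I)‖ ≤ |a - b| := by
  have h1 : cexp ((a : ℂ) * I) - cexp ((b : ℂ) * I)
      = cexp ((b : ℂ) * I) * (cexp (I * ((a - b : ℝ) : ℂ)) - 1) := by
    rw [mul_sub, ← Complex.exp_add, mul_one]
    congr 2; push_cast; ring
  rw [h1, norm_mul, Complex.norm_exp_ofReal_mul_I, one_mul]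
  exact Real.norm_exp_I_mul_ofReal_sub_one_le

lemma ee_dist (u x y : ℝ) : ‖ee u x - ee u y‖ ≤ |u| * |Real.log x - Real.log y| := by
  unfold ee
  refine (norm_exp_sub _ _).trans ?_
  rw [← mul_sub, abs_mul]

lemma hasDerivAt_ee (u : ℝ) {x : ℝ} (hx : 0 < x) :
    HasDerivAt (fun y : ℝ => ee u y) (ee u x * (((u / x : ℝ) : ℂ) * I)) x := by
  have h1 : HasDerivAt (fun y : ℝ => u * Real.log y) (u / x) x := by
    have := (Real.hasDerivAt_log hx.ne').const_mul u
    simpa [div_eq_mul_inv] using this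
  have h2 : HasDerivAt (fun y : ℝ => ((u * Real.log y : ℝ) : ℂ) * I) (((u / x : ℝ) : ℂ) * I) x :=
    h1.ofReal_comp.mul_const I
  exact h2.cexp

/-- the antiderivative of `x^(iu)` -/
noncomputable def FF (u x : ℝ) : ℂ := (x : ℂ) * ee u x / (1 + (u : ℂ) * I)

/-- the second antiderivative of `x^(iu)` -/
noncomputable def KK (u x : ℝ) : ℂ := (x : ℂ) ^ 2 * ee u x / ((1 + (u : ℂ) * I) * (2 + (u : ℂ) * I))

lemma one_add_ne (u : ℝ) : (1 + (u : ℂ) * I) ≠ 0 := by
  intro h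
  have := congrArg Complex.re h
  simp at this

lemma two_add_ne (u : ℝ) : (2 + (u : ℂ) * I) ≠ 0 := by
  intro h
  have := congrArg Complex.re h
  simp at this

lemma norm_one_add (u : ℝ) : 1 ≤ ‖(1 + (u : ℂ) * I)‖ := by
  have := Complex.abs_re_le_norm (1 + (u : ℂ) * I)
  simpa using this

lemma norm_one_add' (u : ℝ) : ‖(1 + (u : ℂ) * I)‖ = Real.sqrt (1 + u ^ 2) := by
  rw [Complex.norm_def, Complex.normSq_apply]
  congr 1
  simp
  ring

lemma norm_two_add' (u : ℝ) : ‖(2 + (u : ℂ) * I)‖ = Real.sqrt (4 + u ^ 2) := by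
  rw [Complex.norm_def, Complex.normSq_apply]
  congr 1
  simp
  ring

lemma norm_prod_ge (u : ℝ) : 1 + u ^ 2 ≤ ‖(1 + (u : ℂ) * I) * (2 + (u : ℂ) * I)‖ := by
  rw [norm_mul, norm_one_add', norm_two_add', ← Real.sqrt_mul (by positivity)]
  apply Real.le_sqrt_of_sq_le
  nlinarith [sq_nonneg u]

lemma hasDerivAt_FF (u : ℝ) {x : ℝ} (hx : 0 < x) : HasDerivAt (fun y : ℝ => FF u y) (ee u x) x := by
  have h1 : HasDerivAt (fun y : ℝ => (y : ℂ)) 1 x := by
    simpa using (hasDerivAt_id x).ofReal_comp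
  have h2 := (h1.mul (hasDerivAt_ee u hx)).div_const (1 + (u : ℂ) * I)
  refine h2.congr_deriv ?_
  have hx' : (x : ℂ) ≠ 0 := by exact_mod_cast hx.ne'
  have := one_add_ne u
  push_cast
  field_simp

lemma hasDerivAt_KK (u : ℝ) {x : ℝ} (hx : 0 < x) : HasDerivAt (fun y : ℝ => KK u y) (FF u x) x := by
  have h1 : HasDerivAt (fun y : ℝ => (y : ℂ)) 1 x := by
    simpa using (hasDerivAt_id x).ofReal_comp
  have h2 := ((h1.pow 2).mul (hasDerivAt_ee u hx)).div_const
    ((1 + (u : ℂ) * I) * (2 + (u : ℂ) * I))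
  refine h2.congr_deriv ?_
  have hx' : (x : ℂ) ≠ 0 := by exact_mod_cast hx.ne'
  have := one_add_ne u
  have := two_add_ne u
  unfold FF
  simp only [Pi.pow_apply]
  push_cast
  field_simp

/-- mean value: `G y - G x` against `(y - x) c` -/
lemma mvt {G G' : ℝ → ℂ} {x y : ℝ} (hxy : x ≤ y)
    (hG : ∀ z ∈ Set.Icc x y, HasDerivAt G (G' z) z) (c : ℂ) (B : ℝ)
    (hB : ∀ z ∈ Set.Icc x y, ‖G' z - c‖ ≤ B) :
    ‖G y - G x - ((y - x : ℝ) : ℂ) * c‖ ≤ B * (y - x) := by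
  have h1 : ∀ z ∈ Set.Icc x y, HasDerivWithinAt (fun z : ℝ => G z - (z : ℂ) * c) (G' z - c)
      (Set.Icc x y) z := by
    intro z hz
    have h2 : HasDerivAt (fun y : ℝ => (y : ℂ)) 1 z := by
      simpa using (hasDerivAt_id z).ofReal_comp
    have h3 := (hG z hz).sub (h2.mul_const c)
    rw [one_mul] at h3
    exact h3.hasDerivWithinAt
  have h2 := (convex_Icc x y).norm_image_sub_le_of_norm_hasDerivWithin_le h1 hB
    (Set.left_mem_Icc.2 hxy) (Set.right_mem_Icc.2 hxy)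
  rw [Real.norm_of_nonneg (by linarith)] at h2
  refine le_trans (le_of_eq ?_) h2
  congr 1
  push_cast; ring

lemma FF_step (u : ℝ) {x : ℝ} (hx : 0 < x) :
    ‖FF u (x + 1) - FF u x - ee u (x + 1)‖ ≤ |u| * (Real.log (x + 1) - Real.log x) := by
  have h := mvt (G := FF u) (G' := ee u) (x := x) (y := x + 1) (by linarith)
    (fun z hz => hasDerivAt_FF u (lt_of_lt_of_le hx hz.1)) (ee u (x + 1))
    (|u| * (Real.log (x + 1) - Real.log x)) ?_
  · simpa using h
  · intro z hz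
    refine (ee_dist u z (x + 1)).trans ?_
    have hz0 : 0 < z := lt_of_lt_of_le hx hz.1
    have h1 : Real.log z ≤ Real.log (x + 1) := Real.log_le_log hz0 hz.2
    have h2 : Real.log x ≤ Real.log z := Real.log_le_log hx hz.1
    refine mul_le_mul_of_nonneg_left ?_ (abs_nonneg u)
    rw [abs_of_nonpos (by linarith)]
    linarith

lemma FF_dist (u : ℝ) {x y : ℝ} (hx : 0 < x) (hxy : x ≤ y) : ‖FF u y - FF u x‖ ≤ y - x := by
  have h := mvt (G := FF u) (G' := ee u) (x := x) (y := y) hxy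
    (fun z hz => hasDerivAt_FF u (lt_of_lt_of_le hx hz.1)) 0 1 ?_
  · simpa using h
  · intro z _
    simp [norm_ee]

lemma KK_step (u : ℝ) {x : ℝ} (hx : 0 < x) :
    ‖KK u (x + 1) - KK u x - FF u x‖ ≤ 1 := by
  have h := mvt (G := KK u) (G' := FF u) (x := x) (y := x + 1) (by linarith)
    (fun z hz => hasDerivAt_KK u (lt_of_lt_of_le hx hz.1)) (FF u x) 1 ?_
  · simpa using h
  · intro z hz
    refine (FF_dist u hx hz.1).trans ?_
    linarith [hz.2]

lemma norm_FF (u : ℝ) {x : ℝ} (hx : 0 ≤ x) : ‖FF u x‖ ≤ x := by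
  unfold FF
  rw [norm_div, norm_mul, norm_ee, mul_one, Complex.norm_real, Real.norm_of_nonneg hx]
  exact div_le_self hx (norm_one_add u)

lemma norm_KK (u : ℝ) (x : ℝ) : ‖KK u x‖ ≤ x ^ 2 / (1 + u ^ 2) := by
  unfold KK
  rw [norm_div, norm_mul, norm_ee, mul_one, norm_pow, Complex.norm_real, Real.norm_eq_abs, sq_abs]
  exact div_le_div_of_nonneg_left (by positivity) (by positivity) (norm_prod_ge u)

/-- the sum of `m^(iu)`, `1 ≤ m ≤ N` -/
noncomputable def ZZ (u : ℝ) (N : ℕ) : ℂ := ∑ m ∈ Icc 1 N, ee u m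

lemma norm_ZZ_le (u : ℝ) (N : ℕ) : ‖ZZ u N‖ ≤ N := by
  unfold ZZ
  refine (norm_sum_le _ _).trans ?_
  simp [norm_ee]

lemma ZZ_succ (u : ℝ) (N : ℕ) : ZZ u (N + 1) = ZZ u N + ee u ((N : ℝ) + 1) := by
  unfold ZZ
  rw [Finset.sum_Icc_succ_top (by omega)]
  push_cast; rfl

lemma ZZ_main (u : ℝ) (N : ℕ) : ‖ZZ u N - FF u N‖ ≤ 2 + |u| * Real.log (N + 1) := by
  rcases Nat.eq_zero_or_pos N with rfl | hN
  · simp [ZZ, FF]
  have key : ∀ N : ℕ, 1 ≤ N → ‖ZZ u N - FF u N‖ ≤ 2 + |u| * Real.log N := by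
    intro N hN
    induction N, hN using Nat.le_induction with
    | base =>
      have h1 : ZZ u 1 = 1 := by simp [ZZ, ee_one]
      rw [h1]
      refine (norm_sub_le _ _).trans ?_
      have := norm_FF u (x := ((1 : ℕ) : ℝ)) (by norm_num)
      simp only [norm_one, Nat.cast_one, Real.log_one, mul_zero, add_zero] at this ⊢
      linarith
    | succ N hN ih =>
      have hN' : (0 : ℝ) < N := by exact_mod_cast hN
      have h1 := FF_step u hN'
      have h2 : ZZ u (N + 1) - FF u ((N + 1 : ℕ) : ℝ)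
          = (ZZ u N - FF u N) - (FF u ((N : ℝ) + 1) - FF u N - ee u ((N : ℝ) + 1)) := by
        rw [ZZ_succ]; push_cast; ring
      rw [h2]
      refine (norm_sub_le _ _).trans ?_
      push_cast
      nlinarith
  refine (key N hN).trans ?_
  have : Real.log N ≤ Real.log ((N : ℝ) + 1) :=
    Real.log_le_log (by exact_mod_cast hN) (by linarith)
  nlinarith [abs_nonneg u]

/-- the sum over multiples of `D` up to `y` -/
noncomputable def SD (D : ℕ) (u : ℝ) (y : ℕ) : ℂ := ∑ n ∈ (Icc 1 y).filter (fun n => D ∣ n), ee u n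

lemma SD_eq (D : ℕ) (hD : 0 < D) (u : ℝ) (y : ℕ) : SD D u y = ee u D * ZZ u (y / D) := by
  unfold SD ZZ
  have h1 : (Icc 1 y).filter (fun n => D ∣ n) = (Icc 1 (y / D)).image (fun m => D * m) := by
    ext n
    simp only [mem_filter, mem_Icc, mem_image]
    constructor
    · rintro ⟨⟨h1, h2⟩, m, rfl⟩
      refine ⟨m, ⟨?_, ?_⟩, rfl⟩
      · rcases Nat.eq_zero_or_pos m with rfl | h
        · simp at h1
        · exact h
      · rw [Nat.le_div_iff_mul_le hD]; linarith [Nat.mul_comm D m]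
    · rintro ⟨m, ⟨h1, h2⟩, rfl⟩
      rw [Nat.le_div_iff_mul_le hD] at h2
      refine ⟨⟨?_, by linarith [Nat.mul_comm D m]⟩, dvd_mul_right D m⟩
      exact Nat.mul_pos hD h1
  rw [h1, Finset.sum_image (by intro a _ b _ h; exact Nat.eq_of_mul_eq_mul_left hD h), Finset.mul_sum]
  refine Finset.sum_congr rfl fun m hm => ?_
  rw [mem_Icc] at hm
  rw [Nat.cast_mul, ee_mul u (by exact_mod_cast hD) (by exact_mod_cast hm.1)]

lemma norm_SD_le (D : ℕ) (hD : 0 < D) (u : ℝ) (y : ℕ) : ‖SD D u y‖ = ‖ZZ u (y / D)‖ := by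
  rw [SD_eq D hD, norm_mul, norm_ee, one_mul]

lemma FF_scale (u : ℝ) (D y : ℝ) (hD : 0 < D) (hy : 0 ≤ y) :
    ee u D * FF u (y / D) = FF u y / D := by
  rcases hy.eq_or_lt with rfl | hy
  · simp [FF]
  have h1 : ee u y = ee u D * ee u (y / D) := by
    rw [← ee_mul u hD (by positivity)]; congr 1; field_simp
  unfold FF
  rw [h1]
  have hD' : (D : ℂ) ≠ 0 := by exact_mod_cast hD.ne'
  have := one_add_ne u
  push_cast
  field_simp

lemma SD_main (D : ℕ) (hD : 0 < D) (u : ℝ) (y : ℕ) :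
    ‖SD D u y - FF u y / (D : ℂ)‖ ≤ 3 + |u| * Real.log (y + 1) := by
  have hD' : (0 : ℝ) < D := by exact_mod_cast hD
  rw [SD_eq D hD]
  have h1 : FF u y / (D : ℂ) = ee u D * FF u ((y : ℝ) / D) := by
    rw [FF_scale u D y hD' (by positivity)]; push_cast; rfl
  rw [h1, ← mul_sub, norm_mul, norm_ee, one_mul]
  have h2 : ZZ u (y / D) - FF u ((y : ℝ) / D)
      = (ZZ u (y / D) - FF u ((y / D : ℕ) : ℝ)) + (FF u ((y / D : ℕ) : ℝ) - FF u ((y : ℝ) / D)) := by
    ring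
  rw [h2]
  refine (norm_add_le _ _).trans ?_
  have h3 := ZZ_main u (y / D)
  have h4 : ‖FF u ((y / D : ℕ) : ℝ) - FF u ((y : ℝ) / D)‖ ≤ 1 := by
    have ha : ((y / D : ℕ) : ℝ) ≤ (y : ℝ) / D := Nat.cast_div_le
    have hb : (y : ℝ) / D < ((y / D : ℕ) : ℝ) + 1 := by
      rw [div_lt_iff₀ hD']
      have : y < (y / D + 1) * D := by
        have := Nat.lt_div_mul_add (a := y) hD
        nlinarith
      exact_mod_cast this
    rcases Nat.eq_zero_or_pos (y / D) with h0 | h0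
    · rw [h0] at hb ⊢
      simp only [Nat.cast_zero, zero_add] at hb ⊢
      have e0 : FF u 0 = 0 := by simp [FF]
      rw [e0, zero_sub, norm_neg]
      exact (norm_FF u (by positivity)).trans hb.le
    · rw [norm_sub_rev]
      refine (FF_dist u (by exact_mod_cast h0) ha).trans ?_
      linarith
  have h5 : Real.log (((y / D : ℕ) : ℝ) + 1) ≤ Real.log ((y : ℝ) + 1) := by
    apply Real.log_le_log (by positivity)
    have : ((y / D : ℕ) : ℝ) ≤ y := by exact_mod_cast Nat.div_le_self y D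
    linarith
  have h6 := mul_le_mul_of_nonneg_left h5 (abs_nonneg u)
  linarith

/-- the trapezoid average -/
noncomputable def VD (P D : ℕ) (u : ℝ) : ℂ :=
  (1 / (P : ℂ)) * ∑ j ∈ range P, (SD D u (2 * P + j) - SD D u j)

/-- the main term -/
noncomputable def MM (P : ℕ) (u : ℝ) : ℂ :=
  (1 / (P : ℂ)) * ((KK u (3 * P) - KK u (2 * P)) - (KK u P - KK u 0))

lemma norm_MM (P : ℕ) (hP : 0 < P) (u : ℝ) : ‖MM P u‖ ≤ 14 * P / (1 + u ^ 2) := by
  have hP' : (0 : ℝ) < P := by exact_mod_cast hP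
  unfold MM
  rw [norm_mul]
  have h0 : KK u 0 = 0 := by simp [KK]
  rw [h0, sub_zero]
  have h1 : ‖(KK u (3 * P) - KK u (2 * P)) - KK u P‖ ≤ 14 * P ^ 2 / (1 + u ^ 2) := by
    refine (norm_sub_le _ _).trans ?_
    have a1 := norm_KK u (3 * P)
    have a2 := norm_KK u (2 * P)
    have a3 := norm_KK u P
    have a4 := norm_sub_le (KK u (3 * P)) (KK u (2 * P))
    have e : (14 : ℝ) * P ^ 2 / (1 + u ^ 2)
        = (3 * P) ^ 2 / (1 + u ^ 2) + (2 * P) ^ 2 / (1 + u ^ 2) + (P : ℝ) ^ 2 / (1 + u ^ 2) := by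
      ring
    rw [e]
    linarith
  have h2 : ‖(1 / (P : ℂ))‖ = 1 / P := by
    rw [norm_div, norm_one, Complex.norm_natCast]
  rw [h2]
  refine (mul_le_mul_of_nonneg_left h1 (by positivity)).trans (le_of_eq ?_)
  field_simp

lemma KK_sum (u : ℝ) (a P : ℕ) :
    ‖(∑ j ∈ range P, FF u ((a + j : ℕ) : ℝ)) - (KK u ((a + P : ℕ) : ℝ) - KK u a)‖ ≤ P := by
  induction P with
  | zero => simp
  | succ P ih =>
    rw [Finset.sum_range_succ]
    have h1 : ‖KK u (((a + P : ℕ) : ℝ) + 1) - KK u ((a + P : ℕ) : ℝ) - FF u ((a + P : ℕ) : ℝ)‖ ≤ 1 := by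
      rcases Nat.eq_zero_or_pos (a + P) with h0 | h0
      · rw [h0]
        simp only [Nat.cast_zero, zero_add]
        have e1 : KK u 0 = 0 := by simp [KK]
        have e2 : FF u 0 = 0 := by simp [FF]
        rw [e1, e2, sub_zero, sub_zero]
        refine (norm_KK u 1).trans ?_
        rw [one_pow, div_le_one (by positivity)]
        nlinarith [sq_nonneg u]
      · exact KK_step u (by exact_mod_cast h0)
    have h2 : (∑ j ∈ range P, FF u ((a + j : ℕ) : ℝ)) + FF u ((a + P : ℕ) : ℝ)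
        - (KK u ((a + (P + 1) : ℕ) : ℝ) - KK u a)
        = ((∑ j ∈ range P, FF u ((a + j : ℕ) : ℝ)) - (KK u ((a + P : ℕ) : ℝ) - KK u a))
          - (KK u (((a + P : ℕ) : ℝ) + 1) - KK u ((a + P : ℕ) : ℝ) - FF u ((a + P : ℕ) : ℝ)) := by
      push_cast
      rw [add_assoc]
      ring
    rw [h2]
    refine (norm_sub_le _ _).trans ?_
    have e5 : ((P + 1 : ℕ) : ℝ) = P + 1 := by push_cast; ring
    rw [e5]
    linarith

/-- **The trapezoid sum over the multiples of `D`: main term `MM / D`.** -/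
theorem VD_main (P D : ℕ) (hP : 0 < P) (hD : 0 < D) (u : ℝ) :
    ‖VD P D u - MM P u / (D : ℂ)‖ ≤ 8 + 2 * (|u| * Real.log (3 * P + 1)) := by
  have hP' : (0 : ℝ) < P := by exact_mod_cast hP
  have hD' : (0 : ℝ) < D := by exact_mod_cast hD
  have hD1 : (1 : ℝ) ≤ D := by exact_mod_cast hD
  have hPc : (P : ℂ) ≠ 0 := by exact_mod_cast hP.ne'
  have hDc : (D : ℂ) ≠ 0 := by exact_mod_cast hD.ne'
  have hL : ∀ y : ℕ, y ≤ 3 * P → Real.log ((y : ℝ) + 1) ≤ Real.log (3 * P + 1) := by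
    intro y hy
    apply Real.log_le_log (by positivity)
    have : (y : ℝ) ≤ 3 * P := by exact_mod_cast hy
    linarith
  have e : VD P D u - MM P u / (D : ℂ)
      = (1 / (P : ℂ)) * ((∑ j ∈ range P, ((SD D u (2 * P + j) - FF u ((2 * P + j : ℕ) : ℝ) / (D : ℂ))
          - (SD D u j - FF u (j : ℝ) / (D : ℂ))))
        + (((∑ j ∈ range P, FF u ((2 * P + j : ℕ) : ℝ)) - (KK u ((2 * P + P : ℕ) : ℝ) - KK u ((2 * P : ℕ) : ℝ)))
            - ((∑ j ∈ range P, FF u ((0 + j : ℕ) : ℝ)) - (KK u ((0 + P : ℕ) : ℝ) - KK u ((0 : ℕ) : ℝ)))) / (D : ℂ)) := by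
    unfold VD MM
    simp only [Finset.sum_sub_distrib, ← Finset.sum_div, zero_add]
    have e3 : ((2 * P + P : ℕ) : ℝ) = 3 * P := by push_cast; ring
    rw [e3]
    push_cast
    field_simp
    ring
  rw [e, norm_mul]
  have h2 : ‖(1 / (P : ℂ))‖ = 1 / P := by
    rw [norm_div, norm_one, Complex.norm_natCast]
  rw [h2]
  have h3 : ‖∑ j ∈ range P, ((SD D u (2 * P + j) - FF u ((2 * P + j : ℕ) : ℝ) / (D : ℂ))
          - (SD D u j - FF u (j : ℝ) / (D : ℂ)))‖ ≤ P * (6 + 2 * (|u| * Real.log (3 * P + 1))) := by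
    refine (norm_sum_le _ _).trans ?_
    have : ∀ j ∈ range P, ‖((SD D u (2 * P + j) - FF u ((2 * P + j : ℕ) : ℝ) / (D : ℂ))
          - (SD D u j - FF u (j : ℝ) / (D : ℂ)))‖ ≤ 6 + 2 * (|u| * Real.log (3 * P + 1)) := by
      intro j hj
      rw [mem_range] at hj
      refine (norm_sub_le _ _).trans ?_
      have a1 := SD_main D hD u (2 * P + j)
      have a2 := SD_main D hD u j
      have b1 := mul_le_mul_of_nonneg_left (hL (2 * P + j) (by omega)) (abs_nonneg u)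
      have b2 := mul_le_mul_of_nonneg_left (hL j (by omega)) (abs_nonneg u)
      linarith
    refine (Finset.sum_le_sum this).trans ?_
    rw [Finset.sum_const, Finset.card_range, nsmul_eq_mul]
  have h4 : ‖(((∑ j ∈ range P, FF u ((2 * P + j : ℕ) : ℝ)) - (KK u ((2 * P + P : ℕ) : ℝ) - KK u ((2 * P : ℕ) : ℝ)))
            - ((∑ j ∈ range P, FF u ((0 + j : ℕ) : ℝ)) - (KK u ((0 + P : ℕ) : ℝ) - KK u ((0 : ℕ) : ℝ)))) / (D : ℂ)‖
        ≤ 2 * P := by
    rw [norm_div, Complex.norm_natCast]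
    refine (div_le_self (norm_nonneg _) hD1).trans ?_
    refine (norm_sub_le _ _).trans ?_
    have a1 := KK_sum u (2 * P) P
    have a2 := KK_sum u 0 P
    linarith
  have h5 := (norm_add_le _ _).trans (add_le_add h3 h4)
  refine (mul_le_mul_of_nonneg_left h5 (by positivity)).trans (le_of_eq ?_)
  field_simp
  ring

end Pool.Agent.MRL.HM
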