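import Mathlib
import Pool.Agent.Lib.MRL.HMsum

/-!
# The sieve majorant and its exponential sums
-/

set_option autoImplicit false
open Finset Complex

namespace Pool.Agent.MRL.HM

/-- the trapezoid weight -/
noncomputable def ww (P n : ℕ) : ℝ :=
  (1 / (P : ℝ)) * ∑ j ∈ range P, ((if n ≤ 2 * P + j then (1 : ℝ) else 0) - (if n ≤ j then 1 else 0))

lemma ww_nonneg (P n : ℕ) : 0 ≤ ww P n := by
  unfold ww
  refine mul_nonneg (by positivity) (Finset.sum_nonneg fun j hj => ?_)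
  rw [mem_range] at hj
  by_cases h : n ≤ j
  · rw [if_pos (by omega), if_pos h]; simp
  · rw [if_neg h]
    split_ifs <;> simp

lemma ww_one (P n : ℕ) (hP : 0 < P) (h1 : P ≤ n) (h2 : n ≤ 2 * P) : ww P n = 1 := by
  unfold ww
  have hP' : (P : ℝ) ≠ 0 := by exact_mod_cast hP.ne'
  have : ∀ j ∈ range P, ((if n ≤ 2 * P + j then (1 : ℝ) else 0) - (if n ≤ j then 1 else 0)) = 1 := by
    intro j hj
    rw [mem_range] at hj
    rw [if_pos (by omega), if_neg (by omega)]; norm_num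
  rw [Finset.sum_congr rfl this]
  simp
  field_simp

/-- the sieve weight -/
noncomputable def sw (lam : ℕ → ℝ) (R n : ℕ) : ℝ := ∑ d ∈ (Icc 1 R).filter (fun d => d ∣ n), lam d

lemma sw_sq (lam : ℕ → ℝ) (R n : ℕ) : sw lam R n ^ 2
    = ∑ d ∈ Icc 1 R, ∑ d' ∈ Icc 1 R, lam d * lam d' * (if Nat.lcm d d' ∣ n then 1 else 0) := by
  unfold sw
  rw [Finset.sum_filter, sq, Finset.sum_mul_sum]
  refine Finset.sum_congr rfl fun d _ => Finset.sum_congr rfl fun d' _ => ?_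
  by_cases h1 : d ∣ n
  · by_cases h2 : d' ∣ n
    · rw [if_pos h1, if_pos h2, if_pos (Nat.lcm_dvd h1 h2), mul_one]
    · rw [if_pos h1, if_neg h2, if_neg (fun h => h2 ((Nat.dvd_lcm_right d d').trans h))]
      simp
  · rw [if_neg h1, if_neg (fun h => h1 ((Nat.dvd_lcm_left d d').trans h))]
    simp

/-- the majorant of the primes in `[P, 2P]` -/
noncomputable def nu (lam : ℕ → ℝ) (P R n : ℕ) : ℝ := ww P n * sw lam R n ^ 2

lemma nu_nonneg (lam : ℕ → ℝ) (P R n : ℕ) : 0 ≤ nu lam P R n :=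
  mul_nonneg (ww_nonneg P n) (sq_nonneg _)

lemma nu_prime (lam : ℕ → ℝ) (P R p : ℕ) (hp : p.Prime) (h1 : lam 1 = 1) (hR1 : 1 ≤ R) (hR : R < P)
    (hP1 : P ≤ p) (hP2 : p ≤ 2 * P) : nu lam P R p = 1 := by
  unfold nu
  rw [ww_one P p (by omega) hP1 hP2, one_mul]
  have : (Icc 1 R).filter (fun d => d ∣ p) = {1} := by
    ext d
    simp only [mem_filter, mem_Icc, mem_singleton]
    constructor
    · rintro ⟨⟨h1, h2⟩, h3⟩
      rcases (Nat.dvd_prime hp).1 h3 with h | h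
      · exact h
      · omega
    · rintro rfl
      exact ⟨⟨le_refl _, hR1⟩, one_dvd _⟩
  unfold sw
  rw [this, Finset.sum_singleton, h1, one_pow]

/-- the exponential sum of the majorant -/
noncomputable def VV (lam : ℕ → ℝ) (P R : ℕ) (u : ℝ) : ℂ :=
  ∑ n ∈ Icc 1 (3 * P), (nu lam P R n : ℂ) * ee u n

lemma SD_ind (D : ℕ) (u : ℝ) (P y : ℕ) (hy : y ≤ 3 * P) :
    SD D u y = ∑ n ∈ Icc 1 (3 * P), (if n ≤ y then (1 : ℂ) else 0) * (if D ∣ n then 1 else 0) * ee u n := by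
  unfold SD
  rw [Finset.sum_filter]
  have h1 : Icc 1 y = (Icc 1 (3 * P)).filter (fun n => n ≤ y) := by
    ext n; simp only [mem_filter, mem_Icc]; omega
  rw [h1, Finset.sum_filter]
  refine Finset.sum_congr rfl fun n _ => ?_
  split_ifs <;> simp

lemma VD_ind (P D : ℕ) (u : ℝ) :
    VD P D u = ∑ n ∈ Icc 1 (3 * P), (ww P n : ℂ) * (if D ∣ n then 1 else 0) * ee u n := by
  unfold VD
  have h1 : ∀ j ∈ range P, SD D u (2 * P + j) - SD D u j
      = ∑ n ∈ Icc 1 (3 * P), (((if n ≤ 2 * P + j then (1 : ℂ) else 0) - (if n ≤ j then 1 else 0))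
        * (if D ∣ n then 1 else 0) * ee u n) := by
    intro j hj
    rw [mem_range] at hj
    rw [SD_ind D u P (2 * P + j) (by omega), SD_ind D u P j (by omega), ← Finset.sum_sub_distrib]
    refine Finset.sum_congr rfl fun n _ => ?_
    ring
  rw [Finset.sum_congr rfl h1, Finset.sum_comm, Finset.mul_sum]
  refine Finset.sum_congr rfl fun n _ => ?_
  unfold ww
  rw [← Finset.sum_mul, ← Finset.sum_mul]
  push_cast
  simp only [apply_ite (Complex.ofReal), Complex.ofReal_one, Complex.ofReal_zero]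
  ring

lemma VV_eq (lam : ℕ → ℝ) (P R : ℕ) (u : ℝ) : VV lam P R u
    = ∑ d ∈ Icc 1 R, ∑ d' ∈ Icc 1 R, ((lam d * lam d' : ℝ) : ℂ) * VD P (Nat.lcm d d') u := by
  unfold VV
  simp only [VD_ind, Finset.mul_sum]
  have h1 : ∀ n ∈ Icc 1 (3 * P), (nu lam P R n : ℂ) * ee u n
      = ∑ d ∈ Icc 1 R, ∑ d' ∈ Icc 1 R, ((lam d * lam d' : ℝ) : ℂ)
        * ((ww P n : ℂ) * (if Nat.lcm d d' ∣ n then 1 else 0) * ee u n) := by
    intro n _
    unfold nu
    rw [sw_sq]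
    push_cast
    rw [Finset.mul_sum, Finset.sum_mul]
    refine Finset.sum_congr rfl fun d _ => ?_
    rw [Finset.mul_sum, Finset.sum_mul]
    refine Finset.sum_congr rfl fun d' _ => ?_
    simp only [apply_ite (Complex.ofReal), Complex.ofReal_one, Complex.ofReal_zero]
    ring
  rw [Finset.sum_congr rfl h1, Finset.sum_comm]
  refine Finset.sum_congr rfl fun d _ => ?_
  rw [Finset.sum_comm]

/-- hypotheses on the sieve weights: level `R`, mass `K` -/
structure SW (lam : ℕ → ℝ) (R : ℕ) (K : ℝ) : Prop where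
  one : lam 1 = 1
  abs : ∀ d, |lam d| ≤ 1
  mass : ∑ d ∈ Icc 1 R, ∑ d' ∈ Icc 1 R, lam d * lam d' / (Nat.lcm d d' : ℝ) ≤ K
  nonneg : 0 ≤ ∑ d ∈ Icc 1 R, ∑ d' ∈ Icc 1 R, lam d * lam d' / (Nat.lcm d d' : ℝ)

lemma norm_sum_sum_le (R : ℕ) (f : ℕ → ℕ → ℂ) (B : ℝ)
    (h : ∀ d ∈ Icc 1 R, ∀ d' ∈ Icc 1 R, ‖f d d'‖ ≤ B) :
    ‖∑ d ∈ Icc 1 R, ∑ d' ∈ Icc 1 R, f d d'‖ ≤ (R : ℝ) ^ 2 * B := by
  refine (norm_sum_le _ _).trans ?_
  have h1 : ∀ d ∈ Icc 1 R, ‖∑ d' ∈ Icc 1 R, f d d'‖ ≤ R * B := by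
    intro d hd
    refine (norm_sum_le _ _).trans ?_
    refine (Finset.sum_le_sum (h d hd)).trans ?_
    rw [Finset.sum_const, Nat.card_Icc, nsmul_eq_mul]
    simp
  refine (Finset.sum_le_sum h1).trans ?_
  rw [Finset.sum_const, Nat.card_Icc, nsmul_eq_mul]
  simp only [Nat.add_sub_cancel]
  exact le_of_eq (by ring)

/-- **small frequencies** -/
theorem VV_small {lam : ℕ → ℝ} {R : ℕ} {K : ℝ} (hS : SW lam R K) (P : ℕ) (hP : 0 < P) (u : ℝ) :
    ‖VV lam P R u‖ ≤ K * (14 * P / (1 + u ^ 2))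
      + (R : ℝ) ^ 2 * (8 + 2 * (|u| * Real.log (3 * P + 1))) := by
  rw [VV_eq]
  have e : ∑ d ∈ Icc 1 R, ∑ d' ∈ Icc 1 R, ((lam d * lam d' : ℝ) : ℂ) * VD P (Nat.lcm d d') u
      = ((∑ d ∈ Icc 1 R, ∑ d' ∈ Icc 1 R, lam d * lam d' / (Nat.lcm d d' : ℝ) : ℝ) : ℂ) * MM P u
        + ∑ d ∈ Icc 1 R, ∑ d' ∈ Icc 1 R, ((lam d * lam d' : ℝ) : ℂ)
            * (VD P (Nat.lcm d d') u - MM P u / (Nat.lcm d d' : ℂ)) := by
    push_cast
    rw [Finset.sum_mul, ← Finset.sum_add_distrib]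
    refine Finset.sum_congr rfl fun d _ => ?_
    rw [Finset.sum_mul, ← Finset.sum_add_distrib]
    refine Finset.sum_congr rfl fun d' _ => ?_
    ring
  rw [e]
  refine (norm_add_le _ _).trans (add_le_add ?_ ?_)
  · rw [norm_mul, Complex.norm_real, Real.norm_of_nonneg hS.nonneg]
    exact mul_le_mul hS.mass (norm_MM P hP u) (norm_nonneg _) (hS.nonneg.trans hS.mass)
  · apply norm_sum_sum_le
    intro d hd d' hd'
    rw [mem_Icc] at hd hd'
    rw [norm_mul, Complex.norm_real, Real.norm_eq_abs, abs_mul]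
    have h1 : |lam d| * |lam d'| ≤ 1 := by
      have := mul_le_mul (hS.abs d) (hS.abs d') (abs_nonneg _) zero_le_one
      simpa using this
    have h2 := VD_main P (Nat.lcm d d') hP (Nat.lcm_pos hd.1 hd'.1) u
    refine (mul_le_mul h1 h2 (norm_nonneg _) zero_le_one).trans ?_
    rw [one_mul]

/-- **large frequencies** -/
theorem VV_large {lam : ℕ → ℝ} {R : ℕ} {K : ℝ} (hS : SW lam R K) (P : ℕ) (hP : 0 < P) (u : ℝ) (B : ℝ)
    (hB : ∀ N ≤ 3 * P, ‖ZZ u N‖ ≤ B) : ‖VV lam P R u‖ ≤ (R : ℝ) ^ 2 * (2 * B) := by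
  rw [VV_eq]
  apply norm_sum_sum_le
  intro d hd d' hd'
  rw [mem_Icc] at hd hd'
  have hP' : (0 : ℝ) < P := by exact_mod_cast hP
  rw [norm_mul, Complex.norm_real, Real.norm_eq_abs, abs_mul]
  have h1 : |lam d| * |lam d'| ≤ 1 := by
    have := mul_le_mul (hS.abs d) (hS.abs d') (abs_nonneg _) zero_le_one
    simpa using this
  have hl := Nat.lcm_pos hd.1 hd'.1
  have h2 : ‖VD P (Nat.lcm d d') u‖ ≤ 2 * B := by
    unfold VD
    rw [norm_mul]
    have h3 : ‖(1 / (P : ℂ))‖ = 1 / P := by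
      rw [norm_div, norm_one, Complex.norm_natCast]
    rw [h3]
    have h4 : ‖∑ j ∈ range P, (SD (Nat.lcm d d') u (2 * P + j) - SD (Nat.lcm d d') u j)‖ ≤ P * (2 * B) := by
      refine (norm_sum_le _ _).trans ?_
      have : ∀ j ∈ range P, ‖SD (Nat.lcm d d') u (2 * P + j) - SD (Nat.lcm d d') u j‖ ≤ 2 * B := by
        intro j hj
        rw [mem_range] at hj
        refine (norm_sub_le _ _).trans ?_
        rw [norm_SD_le _ hl, norm_SD_le _ hl]
        have a1 := hB ((2 * P + j) / Nat.lcm d d') ((Nat.div_le_self _ _).trans (by omega))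
        have a2 := hB (j / Nat.lcm d d') ((Nat.div_le_self _ _).trans (by omega))
        linarith
      refine (Finset.sum_le_sum this).trans ?_
      rw [Finset.sum_const, Finset.card_range, nsmul_eq_mul]
    refine (mul_le_mul_of_nonneg_left h4 (by positivity)).trans (le_of_eq ?_)
    field_simp
  refine (mul_le_mul h1 h2 (norm_nonneg _) zero_le_one).trans ?_
  rw [one_mul]

lemma norm_VV_neg (lam : ℕ → ℝ) (P R : ℕ) (u : ℝ) : ‖VV lam P R (-u)‖ = ‖VV lam P R u‖ := by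
  have : VV lam P R (-u) = (starRingEnd ℂ) (VV lam P R u) := by
    unfold VV
    rw [map_sum]
    refine Finset.sum_congr rfl fun n _ => ?_
    rw [map_mul, Complex.conj_ofReal, ee_neg]
  rw [this, Complex.norm_conj]

end Pool.Agent.MRL.HM
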