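import Mathlib
import Pool.Agent.Lib.MRL.HMmaj

/-!
# Duality and well spaced sums
-/

set_option autoImplicit false
open Finset Complex

namespace Pool.Agent.MRL.HM

lemma quad (lam : ℕ → ℝ) (P R : ℕ) (T : Finset ℝ) (K : ℝ)
    (hK : ∀ t ∈ T, ∑ s ∈ T, ‖VV lam P R (t - s)‖ ≤ K) (c : ℝ → ℂ) :
    ∑ n ∈ Icc 1 (3 * P), nu lam P R n * ‖∑ t ∈ T, c t * ee (-t) n‖ ^ 2 ≤ K * ∑ t ∈ T, ‖c t‖ ^ 2 := by
  have h1 : ((∑ n ∈ Icc 1 (3 * P), nu lam P R n * ‖∑ t ∈ T, c t * ee (-t) n‖ ^ 2 : ℝ) : ℂ)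
      = ∑ t ∈ T, ∑ s ∈ T, c t * (starRingEnd ℂ) (c s) * VV lam P R (s - t) := by
    have e : ∀ n ∈ Icc 1 (3 * P), ((nu lam P R n * ‖∑ t ∈ T, c t * ee (-t) n‖ ^ 2 : ℝ) : ℂ)
        = ∑ t ∈ T, ∑ s ∈ T, c t * (starRingEnd ℂ) (c s) * ((nu lam P R n : ℂ) * ee (s - t) n) := by
      intro n _
      push_cast
      rw [← Complex.mul_conj', map_sum, Finset.sum_mul_sum, Finset.mul_sum]
      refine Finset.sum_congr rfl fun t _ => ?_
      rw [Finset.mul_sum]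
      refine Finset.sum_congr rfl fun s _ => ?_
      have h2 : ee (s - t) n = ee (-t) n * (starRingEnd ℂ) (ee (-s) n) := by
        rw [← ee_sub]; congr 1; ring
      rw [h2, map_mul]
      ring
    push_cast [Complex.ofReal_sum] at e ⊢
    rw [Finset.sum_congr rfl e, Finset.sum_comm]
    refine Finset.sum_congr rfl fun t _ => ?_
    rw [Finset.sum_comm]
    refine Finset.sum_congr rfl fun s _ => ?_
    unfold VV
    rw [Finset.mul_sum]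
  have h0 : 0 ≤ ∑ n ∈ Icc 1 (3 * P), nu lam P R n * ‖∑ t ∈ T, c t * ee (-t) n‖ ^ 2 :=
    Finset.sum_nonneg fun n _ => mul_nonneg (nu_nonneg _ _ _ _) (sq_nonneg _)
  have h2 : ∑ n ∈ Icc 1 (3 * P), nu lam P R n * ‖∑ t ∈ T, c t * ee (-t) n‖ ^ 2
      = ‖((∑ n ∈ Icc 1 (3 * P), nu lam P R n * ‖∑ t ∈ T, c t * ee (-t) n‖ ^ 2 : ℝ) : ℂ)‖ := by
    rw [Complex.norm_real, Real.norm_of_nonneg h0]
  rw [h2, h1]
  have hsym : ∀ s t : ℝ, ‖VV lam P R (s - t)‖ = ‖VV lam P R (t - s)‖ := by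
    intro s t
    rw [← norm_VV_neg, neg_sub]
  have h3 : ‖∑ t ∈ T, ∑ s ∈ T, c t * (starRingEnd ℂ) (c s) * VV lam P R (s - t)‖
      ≤ ∑ t ∈ T, ∑ s ∈ T, ((‖c t‖ ^ 2 + ‖c s‖ ^ 2) / 2) * ‖VV lam P R (t - s)‖ := by
    refine (norm_sum_le _ _).trans (Finset.sum_le_sum fun t _ => ?_)
    refine (norm_sum_le _ _).trans (Finset.sum_le_sum fun s _ => ?_)
    rw [norm_mul, norm_mul, Complex.norm_conj, hsym s t]
    refine mul_le_mul_of_nonneg_right ?_ (norm_nonneg _)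
    nlinarith [sq_nonneg (‖c t‖ - ‖c s‖)]
  refine h3.trans ?_
  have h4 : ∑ t ∈ T, ∑ s ∈ T, ((‖c t‖ ^ 2 + ‖c s‖ ^ 2) / 2) * ‖VV lam P R (t - s)‖
      = ∑ t ∈ T, ‖c t‖ ^ 2 * ∑ s ∈ T, ‖VV lam P R (t - s)‖ := by
    have a1 : ∑ t ∈ T, ∑ s ∈ T, ((‖c t‖ ^ 2 + ‖c s‖ ^ 2) / 2) * ‖VV lam P R (t - s)‖
        = (1 / 2) * (∑ t ∈ T, ∑ s ∈ T, ‖c t‖ ^ 2 * ‖VV lam P R (t - s)‖)
          + (1 / 2) * (∑ t ∈ T, ∑ s ∈ T, ‖c s‖ ^ 2 * ‖VV lam P R (t - s)‖) := by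
      rw [Finset.mul_sum, Finset.mul_sum, ← Finset.sum_add_distrib]
      refine Finset.sum_congr rfl fun t _ => ?_
      rw [Finset.mul_sum, Finset.mul_sum, ← Finset.sum_add_distrib]
      refine Finset.sum_congr rfl fun s _ => ?_
      ring
    have a2 : ∑ t ∈ T, ∑ s ∈ T, ‖c s‖ ^ 2 * ‖VV lam P R (t - s)‖
        = ∑ t ∈ T, ∑ s ∈ T, ‖c t‖ ^ 2 * ‖VV lam P R (t - s)‖ := by
      rw [Finset.sum_comm]
      refine Finset.sum_congr rfl fun t _ => Finset.sum_congr rfl fun s _ => ?_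
      rw [hsym s t]
    rw [a1, a2]
    have a3 : ∑ t ∈ T, ∑ s ∈ T, ‖c t‖ ^ 2 * ‖VV lam P R (t - s)‖
        = ∑ t ∈ T, ‖c t‖ ^ 2 * ∑ s ∈ T, ‖VV lam P R (t - s)‖ := by
      refine Finset.sum_congr rfl fun t _ => ?_
      rw [Finset.mul_sum]
    rw [a3]; ring
  rw [h4, Finset.mul_sum]
  refine Finset.sum_le_sum fun t ht => ?_
  rw [mul_comm K]
  exact mul_le_mul_of_nonneg_left (hK t ht) (sq_nonneg _)

theorem dual (lam : ℕ → ℝ) (P R : ℕ) (T : Finset ℝ) (K : ℝ) (hK0 : 0 ≤ K)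
    (hK : ∀ t ∈ T, ∑ s ∈ T, ‖VV lam P R (t - s)‖ ≤ K)
    (S : Finset ℕ) (hS : ∀ p ∈ S, 1 ≤ p ∧ p ≤ 3 * P ∧ 1 ≤ nu lam P R p) (a : ℕ → ℂ) :
    ∑ t ∈ T, ‖∑ p ∈ S, a p * ee (-t) p‖ ^ 2 ≤ K * ∑ p ∈ S, ‖a p‖ ^ 2 := by
  set F : ℝ → ℂ := fun t => ∑ p ∈ S, a p * ee (-t) p with hF
  set X : ℝ := ∑ t ∈ T, ‖F t‖ ^ 2 with hX
  have hX0 : 0 ≤ X := Finset.sum_nonneg fun t _ => sq_nonneg _
  have h1 : (X : ℂ) = ∑ p ∈ S, a p * ∑ t ∈ T, (starRingEnd ℂ) (F t) * ee (-t) p := by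
    rw [hX]
    push_cast
    have : ∀ t ∈ T, ((‖F t‖ : ℂ)) ^ 2 = ∑ p ∈ S, a p * ((starRingEnd ℂ) (F t) * ee (-t) p) := by
      intro t _
      rw [← Complex.mul_conj']
      conv_lhs => rw [hF]
      simp only
      rw [Finset.sum_mul]
      refine Finset.sum_congr rfl fun p _ => ?_
      ring
    rw [Finset.sum_congr rfl this, Finset.sum_comm]
    refine Finset.sum_congr rfl fun p _ => ?_
    rw [Finset.mul_sum]
  have h2 : X ≤ ∑ p ∈ S, ‖a p‖ * ‖∑ t ∈ T, (starRingEnd ℂ) (F t) * ee (-t) p‖ := by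
    have : X = ‖(X : ℂ)‖ := by rw [Complex.norm_real, Real.norm_of_nonneg hX0]
    rw [this, h1]
    refine (norm_sum_le _ _).trans (le_of_eq ?_)
    refine Finset.sum_congr rfl fun p _ => ?_
    rw [norm_mul]
  have h3 : ∑ p ∈ S, ‖∑ t ∈ T, (starRingEnd ℂ) (F t) * ee (-t) p‖ ^ 2 ≤ K * X := by
    have e := quad lam P R T K hK (fun t => (starRingEnd ℂ) (F t))
    have e1 : ∑ t ∈ T, ‖(starRingEnd ℂ) (F t)‖ ^ 2 = X := by
      rw [hX]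
      refine Finset.sum_congr rfl fun t _ => ?_
      rw [Complex.norm_conj]
    rw [e1] at e
    refine le_trans ?_ e
    have hsub : S ⊆ Icc 1 (3 * P) := by
      intro p hp
      rw [mem_Icc]
      exact ⟨(hS p hp).1, (hS p hp).2.1⟩
    refine le_trans ?_ (Finset.sum_le_sum_of_subset_of_nonneg hsub
      (fun n _ _ => mul_nonneg (nu_nonneg _ _ _ _) (sq_nonneg _)))
    refine Finset.sum_le_sum fun p hp => ?_
    exact le_mul_of_one_le_left (sq_nonneg _) (hS p hp).2.2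
  have h4 : X ^ 2 ≤ (∑ p ∈ S, ‖a p‖ ^ 2) * (K * X) := by
    have hcs := Finset.sum_mul_sq_le_sq_mul_sq S (fun p => ‖a p‖)
      (fun p => ‖∑ t ∈ T, (starRingEnd ℂ) (F t) * ee (-t) p‖)
    have h5 : X ^ 2 ≤ (∑ p ∈ S, ‖a p‖ * ‖∑ t ∈ T, (starRingEnd ℂ) (F t) * ee (-t) p‖) ^ 2 :=
      pow_le_pow_left₀ hX0 h2 2
    refine (h5.trans hcs).trans ?_
    exact mul_le_mul_of_nonneg_left h3 (Finset.sum_nonneg fun p _ => sq_nonneg _)
  rcases hX0.eq_or_lt with h0 | h0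
  · rw [← h0]
    exact mul_nonneg hK0 (Finset.sum_nonneg fun p _ => sq_nonneg _)
  · have h6 : X * X ≤ (K * ∑ p ∈ S, ‖a p‖ ^ 2) * X := by nlinarith
    exact le_of_mul_le_mul_right h6 h0

/-- sum over a well spaced set -/
theorem exists_spaced : ∃ C : ℝ, 0 < C ∧ ∀ (T : Finset ℝ),
    (∀ s ∈ T, ∀ t ∈ T, s ≠ t → 1 ≤ |s - t|) → ∀ x : ℝ, ∑ t ∈ T, 1 / (1 + (x - t) ^ 2) ≤ C := by
  have hs : Summable (fun k : ℤ => (if k = 0 then (1 : ℝ) else 0) + 1 / (k : ℝ) ^ 2) := by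
    refine Summable.add ?_ ?_
    · exact summable_of_ne_finset_zero (s := {0}) (fun k hk => by
        rw [Finset.mem_singleton] at hk; rw [if_neg hk])
    · exact (Real.summable_one_div_int_pow (p := 2)).2 (by norm_num)
  have hg : ∀ k : ℤ, 1 / (1 + (k : ℝ) ^ 2) ≤ (if k = 0 then (1 : ℝ) else 0) + 1 / (k : ℝ) ^ 2 := by
    intro k
    by_cases h : k = 0
    · subst h; simp
    · rw [if_neg h, zero_add]
      have : (0 : ℝ) < (k : ℝ) ^ 2 := by positivity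
      exact one_div_le_one_div_of_le this (by linarith)
  have hg0 : ∀ k : ℤ, 0 ≤ (if k = 0 then (1 : ℝ) else 0) + 1 / (k : ℝ) ^ 2 := by
    intro k; split_ifs <;> positivity
  set C := ∑' k : ℤ, ((if k = 0 then (1 : ℝ) else 0) + 1 / (k : ℝ) ^ 2) with hC
  have hC0 : 0 ≤ C := tsum_nonneg hg0
  refine ⟨3 * C + 1, by positivity, fun T hT x => ?_⟩
  have hinj : Set.InjOn (fun t : ℝ => ⌊t - x⌋) (T : Set ℝ) := by
    intro s hs t ht hst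
    by_contra hne
    have h1 := hT s hs t ht hne
    simp only at hst
    have a1 := Int.floor_le (s - x)
    have a2 := Int.lt_floor_add_one (s - x)
    have a3 := Int.floor_le (t - x)
    have a4 := Int.lt_floor_add_one (t - x)
    rw [hst] at a1 a2
    have : |s - t| < 1 := by rw [abs_lt]; constructor <;> linarith
    linarith
  have h1 : ∀ t ∈ T, 1 / (1 + (x - t) ^ 2) ≤ 3 * (1 / (1 + ((⌊t - x⌋ : ℤ) : ℝ) ^ 2)) := by
    intro t _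
    set k := ⌊t - x⌋ with hk
    have a1 : (k : ℝ) ≤ t - x := Int.floor_le (t - x)
    have a2 : t - x < (k : ℝ) + 1 := Int.lt_floor_add_one (t - x)
    rw [mul_one_div, div_le_div_iff₀ (by positivity) (by positivity)]
    have hy : (x - t) ^ 2 = (t - x) ^ 2 := by ring
    rw [hy]
    rcases le_or_gt 0 k with h0 | h0
    · have h0' : (0 : ℝ) ≤ k := by exact_mod_cast h0
      nlinarith
    · have h0' : (k : ℝ) + 1 ≤ 0 := by exact_mod_cast h0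
      have b1 : ((k : ℝ) + 1) ^ 2 ≤ (t - x) ^ 2 := by nlinarith
      nlinarith [sq_nonneg ((k : ℝ) + 3 / 2)]
  refine (Finset.sum_le_sum h1).trans ?_
  rw [← Finset.mul_sum]
  have h2 : ∑ t ∈ T, 1 / (1 + ((⌊t - x⌋ : ℤ) : ℝ) ^ 2)
      = ∑ k ∈ T.image (fun t : ℝ => ⌊t - x⌋), 1 / (1 + (k : ℝ) ^ 2) := by
    rw [Finset.sum_image hinj]
  rw [h2]
  have h3 : ∑ k ∈ T.image (fun t : ℝ => ⌊t - x⌋), 1 / (1 + (k : ℝ) ^ 2) ≤ C := by
    refine (Finset.sum_le_sum fun k _ => hg k).trans ?_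
    exact hs.sum_le_tsum _ (fun k _ => hg0 k)
  linarith

end Pool.Agent.MRL.HM
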