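import Mathlib
import Pool.Agent.Lib.MRL.HMdual
import Pool.Agent.Lib.MRL.Defs
import Pool.Agent.Lib.MP_663568_nul.Sel

/-!
# Halasz - Montgomery over the primes of [P, 2P], without logarithmic loss
-/

set_option autoImplicit false
open Finset Complex

namespace Pool.Agent.MRL.HM

lemma nt_eq_ee (n : ℕ) (t : ℝ) : nt n t = ee (-t) n := by
  unfold nt ee
  congr 1
  push_cast; ring

lemma ZZ_split (u : ℝ) (N : ℕ) :
    ‖ZZ u N‖ ≤ ‖ZZ u (N / 2)‖ + ‖∑ n ∈ Ioc (N / 2) (2 * (N / 2)), ee u n‖ + 1 := by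
  have h1 : ∀ M K : ℕ, M ≤ K → ZZ u K = ZZ u M + ∑ n ∈ Ioc M K, ee u n := by
    intro M K hMK
    unfold ZZ
    rw [← Finset.sum_union]
    · congr 1
      ext n; simp only [mem_union, mem_Icc, mem_Ioc]; omega
    · rw [Finset.disjoint_left]
      intro n h1 h2
      rw [mem_Icc] at h1
      rw [mem_Ioc] at h2
      omega
  have h2 : ‖ZZ u N‖ ≤ ‖ZZ u (2 * (N / 2))‖ + 1 := by
    rw [h1 (2 * (N / 2)) N (by omega)]
    refine (norm_add_le _ _).trans (add_le_add le_rfl ?_)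
    refine (norm_sum_le _ _).trans ?_
    simp only [norm_ee, Finset.sum_const, Nat.card_Ioc, nsmul_eq_mul, mul_one]
    have : N - 2 * (N / 2) ≤ 1 := by omega
    exact_mod_cast this
  rw [h1 (N / 2) (2 * (N / 2)) (by omega)] at h2
  have h3 := norm_add_le (ZZ u (N / 2)) (∑ n ∈ Ioc (N / 2) (2 * (N / 2)), ee u n)
  linarith

lemma ZZ_rec (u : ℝ) (X B : ℝ) (hX : 1 ≤ X) (Q : ℕ) (hB0 : 0 ≤ B)
    (hB : ∀ M : ℕ, X ≤ M → M ≤ Q → ‖∑ n ∈ Ioc M (2 * M), ee u n‖ ≤ B) :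
    ∀ N : ℕ, N ≤ Q → ‖ZZ u N‖ ≤ (Nat.log 2 N : ℝ) * (B + 1) + (2 * X + 2) := by
  intro N
  induction N using Nat.strong_induction_on with
  | _ N ih =>
    intro hN
    rcases lt_or_ge ((N / 2 : ℕ) : ℝ) X with h | h
    · have h1 := norm_ZZ_le u N
      have h2 : (N : ℝ) ≤ 2 * X + 1 := by
        have : (N : ℝ) ≤ 2 * ((N / 2 : ℕ) : ℝ) + 1 := by
          have : N ≤ 2 * (N / 2) + 1 := by omega
          exact_mod_cast this
        linarith
      have : 0 ≤ (Nat.log 2 N : ℝ) * (B + 1) := by positivity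
      linarith
    · have hN2 : 2 ≤ N := by
        by_contra hh
        have : N / 2 = 0 := by omega
        rw [this] at h
        simp at h
        linarith
      have h1 := ih (N / 2) (by omega) (by omega)
      have h2 := hB (N / 2) h (by omega)
      have h3 := ZZ_split u N
      have h4 : Nat.log 2 N = Nat.log 2 (N / 2) + 1 := by
        rw [Nat.log_of_one_lt_of_le (by norm_num) hN2]
      rw [h4]
      push_cast
      nlinarith

/-- sums up to `3P` at frequencies between `2 P^(1/2)` and `P^A` -/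
theorem ZZ_bound (hW : VDC) (A : ℝ) (hA : 1 ≤ A) : ∃ η : ℝ, 0 < η ∧ η ≤ 1 / 4 ∧ ∃ C : ℝ, 0 < C ∧ ∀ (P N : ℕ) (u : ℝ), 2 ≤ P →
    N ≤ 3 * P → 2 * (P : ℝ) ^ (1 / 2 : ℝ) ≤ |u| → |u| ≤ (P : ℝ) ^ A → ‖ZZ u N‖ ≤ C * (P : ℝ) ^ (1 - η) := by
  obtain ⟨η0, hη0, C, hC, hw⟩ := hW (2 * A) (by linarith)
  set η1 : ℝ := min η0 (1 / 4) with hη1
  have hη1p : 0 < η1 := lt_min hη0 (by norm_num)
  have hη1a : η1 ≤ η0 := min_le_left _ _
  have hη1b : η1 ≤ 1 / 4 := min_le_right _ _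
  refine ⟨η1 / 2, by positivity, by linarith, (7 / (Real.log 2 * (η1 / 2))) * (6 * C + 1) + 4, ?_, ?_⟩
  · have : 0 < Real.log 2 := Real.log_pos (by norm_num)
    positivity
  intro P N u hP hN hu1 hu2
  have hPr : (2 : ℝ) ≤ P := by exact_mod_cast hP
  have hP1 : (1 : ℝ) ≤ P := by linarith
  have hP0 : (0 : ℝ) < P := by linarith
  set X : ℝ := (P : ℝ) ^ (1 / 2 : ℝ) with hX
  have hX1 : 1 ≤ X := Real.one_le_rpow hP1 (by norm_num)
  have hXle : X ≤ (P : ℝ) ^ (1 - η1) := Real.rpow_le_rpow_of_exponent_le hP1 (by linarith)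
  set B : ℝ := C * (6 * (P : ℝ) ^ (1 - η1)) with hB
  have hB0 : 0 ≤ B := by positivity
  have hblock : ∀ M : ℕ, X ≤ M → M ≤ 3 * P → ‖∑ n ∈ Ioc M (2 * M), ee u n‖ ≤ B := by
    intro M hM1 hM2
    have hM0 : (1 : ℝ) ≤ M := hX1.trans hM1
    have hM0' : 1 ≤ M := by exact_mod_cast hM0
    have hMP : (M : ℝ) ≤ 3 * P := by exact_mod_cast hM2
    have hsq : √(M : ℝ) ≤ 2 * X := by
      rw [Real.sqrt_le_left (by positivity)]
      have e1 : X ^ 2 = P := by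
        rw [hX, ← Real.rpow_natCast, ← Real.rpow_mul hP0.le]; norm_num
      nlinarith
    have h1 := hw M (2 * M) hM0' le_rfl (-u) (by rw [abs_neg]; exact hsq.trans hu1) (by
      rw [abs_neg]
      refine hu2.trans ?_
      have e1 : (P : ℝ) ^ A = X ^ (2 * A) := by
        rw [hX, ← Real.rpow_mul hP0.le]; congr 1; ring
      rw [e1]
      exact Real.rpow_le_rpow (by linarith) hM1 (by positivity))
    have e2 : ∑ n ∈ Ioc M (2 * M), nt n (-u) = ∑ n ∈ Ioc M (2 * M), ee u n := by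
      refine Finset.sum_congr rfl fun n hn => ?_
      rw [nt_eq_ee, neg_neg]
    rw [e2] at h1
    refine h1.trans ?_
    rw [hB]
    refine mul_le_mul_of_nonneg_left ?_ hC.le
    have b1 : (M : ℝ) ^ (1 - η0) ≤ (M : ℝ) ^ (1 - η1) :=
      Real.rpow_le_rpow_of_exponent_le hM0 (sub_le_sub_left hη1a 1)
    have b2 : (M : ℝ) ^ (1 - η1) ≤ (3 * P : ℝ) ^ (1 - η1) :=
      Real.rpow_le_rpow (by positivity) hMP (by linarith)
    have b3 : (3 * P : ℝ) ^ (1 - η1) = 3 ^ (1 - η1) * (P : ℝ) ^ (1 - η1) :=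
      Real.mul_rpow (by norm_num) hP0.le
    have b4 : (3 : ℝ) ^ (1 - η1) ≤ 3 := by
      have b4 : (3 : ℝ) ^ (1 - η1) ≤ 3 ^ (1 : ℝ) :=
        Real.rpow_le_rpow_of_exponent_le (by norm_num) (by linarith)
      rwa [Real.rpow_one] at b4
    have b5 : (0 : ℝ) ≤ (P : ℝ) ^ (1 - η1) := by positivity
    have b6 : 3 ^ (1 - η1) * (P : ℝ) ^ (1 - η1) ≤ 6 * (P : ℝ) ^ (1 - η1) :=
      mul_le_mul_of_nonneg_right (b4.trans (by norm_num)) b5
    exact b1.trans (b2.trans (b3.le.trans b6))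
  have h1 := ZZ_rec u X B hX1 (3 * P) hB0 hblock N hN
  have hlog2 : 0 < Real.log 2 := Real.log_pos (by norm_num)
  -- logarithm
  have h2 : (Nat.log 2 N : ℝ) ≤ (7 / (Real.log 2 * (η1 / 2))) * (P : ℝ) ^ (η1 / 2) := by
    rcases Nat.eq_zero_or_pos N with rfl | hN0
    · simp; positivity
    have a1 : (2 : ℝ) ^ (Nat.log 2 N) ≤ N := by exact_mod_cast Nat.pow_log_le_self 2 hN0.ne'
    have a2 : (Nat.log 2 N : ℝ) * Real.log 2 ≤ Real.log N := by
      have := Real.log_le_log (by positivity) a1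
      rwa [Real.log_pow] at this
    have a3 : Real.log N ≤ Real.log (3 * P) :=
      Real.log_le_log (by exact_mod_cast hN0) (by exact_mod_cast hN)
    have a4 : Real.log (3 * P) ≤ (3 * P : ℝ) ^ (η1 / 2) / (η1 / 2) :=
      Real.log_le_rpow_div (by positivity) (by positivity)
    have a5 : (3 * P : ℝ) ^ (η1 / 2) ≤ 3 * (P : ℝ) ^ (η1 / 2) := by
      rw [Real.mul_rpow (by norm_num) hP0.le]
      have : (3 : ℝ) ^ (η1 / 2) ≤ 3 ^ (1 : ℝ) :=
        Real.rpow_le_rpow_of_exponent_le (by norm_num) (by linarith)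
      rw [Real.rpow_one] at this
      exact mul_le_mul_of_nonneg_right this (by positivity)
    have a6 : (Nat.log 2 N : ℝ) * Real.log 2 ≤ 3 * (P : ℝ) ^ (η1 / 2) / (η1 / 2) :=
      (a2.trans (a3.trans a4)).trans (div_le_div_of_nonneg_right a5 (by positivity))
    have a7 : (Nat.log 2 N : ℝ) ≤ 3 * (P : ℝ) ^ (η1 / 2) / (η1 / 2) / Real.log 2 := by
      rw [le_div_iff₀ hlog2]; exact a6
    refine a7.trans ?_
    have e : 3 * (P : ℝ) ^ (η1 / 2) / (η1 / 2) / Real.log 2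
        = (3 / (Real.log 2 * (η1 / 2))) * (P : ℝ) ^ (η1 / 2) := by
      field_simp
    rw [e]
    refine mul_le_mul_of_nonneg_right ?_ (by positivity)
    exact div_le_div_of_nonneg_right (by norm_num) (by positivity)
  have hP2 : (P : ℝ) ^ (1 - η1) * (P : ℝ) ^ (η1 / 2) = (P : ℝ) ^ (1 - η1 / 2) := by
    rw [← Real.rpow_add hP0]; congr 1; ring
  have h3 : B + 1 ≤ (6 * C + 1) * (P : ℝ) ^ (1 - η1) := by
    have : (1 : ℝ) ≤ (P : ℝ) ^ (1 - η1) := Real.one_le_rpow hP1 (by linarith)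
    rw [hB]
    nlinarith
  have h4 : 2 * X + 2 ≤ 4 * (P : ℝ) ^ (1 - η1 / 2) := by
    have a1 : X ≤ (P : ℝ) ^ (1 - η1 / 2) := Real.rpow_le_rpow_of_exponent_le hP1 (by linarith)
    linarith
  have h5 : (Nat.log 2 N : ℝ) * (B + 1)
      ≤ ((7 / (Real.log 2 * (η1 / 2))) * (P : ℝ) ^ (η1 / 2)) * ((6 * C + 1) * (P : ℝ) ^ (1 - η1)) :=
    mul_le_mul h2 h3 (by positivity) (by positivity)
  have h6 : ((7 / (Real.log 2 * (η1 / 2))) * (P : ℝ) ^ (η1 / 2)) * ((6 * C + 1) * (P : ℝ) ^ (1 - η1))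
      = (7 / (Real.log 2 * (η1 / 2))) * (6 * C + 1) * (P : ℝ) ^ (1 - η1 / 2) := by
    rw [← hP2]; ring
  rw [h6] at h5
  have : ((7 / (Real.log 2 * (η1 / 2))) * (6 * C + 1) + 4) * (P : ℝ) ^ (1 - η1 / 2)
      = (7 / (Real.log 2 * (η1 / 2))) * (6 * C + 1) * (P : ℝ) ^ (1 - η1 / 2)
        + 4 * (P : ℝ) ^ (1 - η1 / 2) := by ring
  rw [this]
  linarith

end Pool.Agent.MRL.HM
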