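import Mathlib
import Pool.Agent.Lib.MRL.HMfin

/-!
# Halasz - Montgomery over the primes of [P, 2P]: the core inequality
-/

set_option autoImplicit false
open Finset Complex

namespace Pool.Agent.MRL.HM

/-- the quadratic form of the sieve is nonnegative -/
lemma mass_nonneg (lam : ℕ → ℝ) (R : ℕ) :
    0 ≤ ∑ d ∈ Icc 1 R, ∑ d' ∈ Icc 1 R, lam d * lam d' / (Nat.lcm d d' : ℝ) := by
  set N := R.factorial with hN
  have hN0 : 0 < N := Nat.factorial_pos R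
  have hcount : ∀ D : ℕ, 0 < D → D ∣ N →
      ∑ n ∈ Icc 1 N, (if D ∣ n then (1 : ℝ) else 0) = N / D := by
    intro D hD hDN
    have h1 := SD_eq D hD 0 N
    have h2 : SD D 0 N = ((∑ n ∈ Icc 1 N, (if D ∣ n then (1 : ℝ) else 0) : ℝ) : ℂ) := by
      unfold SD
      rw [Finset.sum_filter]
      push_cast
      refine Finset.sum_congr rfl fun n _ => ?_
      simp [ee, apply_ite (Complex.ofReal)]
    have h3 : ee 0 D * ZZ 0 (N / D) = (((N / D : ℕ) : ℝ) : ℂ) := by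
      simp [ee, ZZ]
    rw [h2, h3] at h1
    have h4 : ∑ n ∈ Icc 1 N, (if D ∣ n then (1 : ℝ) else 0) = ((N / D : ℕ) : ℝ) := by
      exact_mod_cast h1
    rw [h4, Nat.cast_div hDN (by exact_mod_cast hD.ne')]
  have h1 : ∑ d ∈ Icc 1 R, ∑ d' ∈ Icc 1 R, lam d * lam d' / (Nat.lcm d d' : ℝ)
      = (1 / (N : ℝ)) * ∑ n ∈ Icc 1 N, sw lam R n ^ 2 := by
    simp only [sw_sq]
    conv_rhs => rw [Finset.sum_comm, Finset.mul_sum]
    refine Finset.sum_congr rfl fun d hd => ?_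
    conv_rhs => rw [Finset.sum_comm, Finset.mul_sum]
    refine Finset.sum_congr rfl fun d' hd' => ?_
    rw [mem_Icc] at hd hd'
    have hl : Nat.lcm d d' ∣ N :=
      Nat.lcm_dvd (Nat.dvd_factorial hd.1 hd.2) (Nat.dvd_factorial hd'.1 hd'.2)
    have hl0 := Nat.lcm_pos hd.1 hd'.1
    rw [← Finset.mul_sum, hcount _ hl0 hl]
    have hN0' : (N : ℝ) ≠ 0 := by exact_mod_cast hN0.ne'
    field_simp
  rw [h1]
  exact mul_nonneg (by positivity) (Finset.sum_nonneg fun n _ => sq_nonneg _)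

theorem hm_core (hW : VDC) (A : ℝ) (hA : 1 ≤ A) : ∃ η : ℝ, 0 < η ∧ ∃ C : ℝ, 0 < C ∧ ∃ P0 : ℕ,
    ∀ P : ℕ, P0 ≤ P → ∀ (T : Finset ℝ), (∀ s ∈ T, ∀ t ∈ T, s ≠ t → 1 ≤ |s - t|) →
    (∀ s ∈ T, ∀ t ∈ T, |s - t| ≤ (P : ℝ) ^ A) → ∀ (S : Finset ℕ),
    (∀ p ∈ S, p.Prime ∧ P ≤ p ∧ p ≤ 2 * P) → ∀ a : ℕ → ℂ,
    ∑ t ∈ T, ‖∑ p ∈ S, a p * ee (-t) p‖ ^ 2
      ≤ C * (P / Real.log P + T.card * (P : ℝ) ^ (1 - η)) * ∑ p ∈ S, ‖a p‖ ^ 2 := by
  obtain ⟨η0, hη0, hη0', C0, hC0, hZ⟩ := ZZ_bound hW A hA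
  obtain ⟨C1, hC1, hsel⟩ := Pool.Agent.Lib.MP_663568_nt.Nul.selberg_weights
  obtain ⟨C2, hC2, hsp⟩ := exists_spaced
  set κ : ℝ := η0 / 4 with hκ
  have hκ0 : 0 < κ := by positivity
  set P0 : ℕ := ⌈(2 : ℝ) ^ (2 / κ)⌉₊ + 3 with hP0
  refine ⟨η0 / 2, by positivity, (14 * C1 * (2 / κ)) * C2 + (72 + 2 * C0), by positivity, P0, ?_⟩
  intro P hP T hT1 hT2 S hS a
  have hP3 : 3 ≤ P := by omega
  have hPr : (3 : ℝ) ≤ P := by exact_mod_cast hP3
  have hP1 : (1 : ℝ) ≤ P := by linarith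
  have hPpos : (0 : ℝ) < P := by linarith
  have hlogP : 0 < Real.log P := Real.log_pos (by linarith)
  have hPκ : (2 : ℝ) ≤ (P : ℝ) ^ (κ / 2) := by
    have h1 : (2 : ℝ) ^ (2 / κ) ≤ P := by
      have : ((⌈(2 : ℝ) ^ (2 / κ)⌉₊ + 3 : ℕ) : ℝ) ≤ P := by exact_mod_cast hP
      push_cast at this
      linarith [Nat.le_ceil ((2 : ℝ) ^ (2 / κ))]
    have h2 : ((2 : ℝ) ^ (2 / κ)) ^ (κ / 2) ≤ (P : ℝ) ^ (κ / 2) :=
      Real.rpow_le_rpow (by positivity) h1 (by positivity)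
    rw [← Real.rpow_mul (by norm_num)] at h2
    have e : 2 / κ * (κ / 2) = 1 := by field_simp
    rwa [e, Real.rpow_one] at h2
  set Y : ℝ := (P : ℝ) ^ (κ / 2) with hY
  have hYY : (P : ℝ) ^ κ = Y ^ 2 := by
    rw [hY, ← Real.rpow_natCast, ← Real.rpow_mul hPpos.le]; congr 1; push_cast; ring
  set R : ℕ := ⌊(P : ℝ) ^ κ⌋₊ with hR
  have hRle : (R : ℝ) ≤ (P : ℝ) ^ κ := Nat.floor_le (by positivity)
  have hRge : Y ≤ R := by
    have h1 : (P : ℝ) ^ κ < R + 1 := Nat.lt_floor_add_one _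
    rw [hYY] at h1
    nlinarith
  have hR2 : 2 ≤ R := by
    have : (2 : ℝ) ≤ R := hPκ.trans hRge
    exact_mod_cast this
  have hRP : R < P := by
    have h1 : (P : ℝ) ^ κ < (P : ℝ) ^ (1 : ℝ) :=
      Real.rpow_lt_rpow_of_exponent_lt (by linarith) (by rw [hκ]; linarith)
    rw [Real.rpow_one] at h1
    exact_mod_cast hRle.trans_lt h1
  have hlogR : κ / 2 * Real.log P ≤ Real.log R := by
    rw [← Real.log_rpow hPpos]
    exact Real.log_le_log (by positivity) hRge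
  obtain ⟨lam, hl1, hl2, hl3, hl4⟩ := hsel 1 R le_rfl hR2
  have hmass : ∑ d ∈ Icc 1 R, ∑ d' ∈ Icc 1 R, lam d * lam d' / (Nat.lcm d d' : ℝ)
      ≤ C1 * (2 / κ) / Real.log P := by
    refine hl4.trans ?_
    simp only [Nat.cast_one, Nat.totient_one, div_one, mul_one]
    have h1 : 0 < κ / 2 * Real.log P := by positivity
    refine (div_le_div_of_nonneg_left hC1.le h1 hlogR).trans (le_of_eq ?_)
    field_simp
  have hSW : SW lam R (C1 * (2 / κ) / Real.log P) := ⟨hl1, hl2, hmass, mass_nonneg lam R⟩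
  have hRsq : (R : ℝ) ^ 2 ≤ (P : ℝ) ^ (η0 / 2) := by
    have h1 : (R : ℝ) ^ 2 ≤ ((P : ℝ) ^ κ) ^ 2 := pow_le_pow_left₀ (by positivity) hRle 2
    refine h1.trans (le_of_eq ?_)
    rw [← Real.rpow_natCast, ← Real.rpow_mul hPpos.le]; congr 1; push_cast; rw [hκ]; ring
  set E : ℝ := (P : ℝ) ^ (1 - η0 / 2) with hE
  have hE0 : 0 ≤ E := by positivity
  -- pointwise bound
  have hV : ∀ u : ℝ, |u| ≤ (P : ℝ) ^ A → ‖VV lam P R u‖
      ≤ (14 * C1 * (2 / κ)) * (P / Real.log P) * (1 / (1 + u ^ 2)) + (72 + 2 * C0) * E := by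
    intro u hu
    rcases le_or_gt (2 * (P : ℝ) ^ (1 / 2 : ℝ)) |u| with h | h
    · have h1 := VV_large hSW P (by omega) u (C0 * (P : ℝ) ^ (1 - η0))
        (fun N hN => hZ P N u (by omega) hN h hu)
      have h2 : (R : ℝ) ^ 2 * (2 * (C0 * (P : ℝ) ^ (1 - η0))) ≤ 2 * C0 * E := by
        have e : (P : ℝ) ^ (η0 / 2) * (P : ℝ) ^ (1 - η0) = E := by
          rw [hE, ← Real.rpow_add hPpos]; congr 1; ring
        have h3 : (R : ℝ) ^ 2 * (P : ℝ) ^ (1 - η0) ≤ E := by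
          rw [← e]; exact mul_le_mul_of_nonneg_right hRsq (by positivity)
        calc (R : ℝ) ^ 2 * (2 * (C0 * (P : ℝ) ^ (1 - η0)))
            = 2 * C0 * ((R : ℝ) ^ 2 * (P : ℝ) ^ (1 - η0)) := by ring
          _ ≤ 2 * C0 * E := mul_le_mul_of_nonneg_left h3 (by positivity)
      have h3 : 0 ≤ (14 * C1 * (2 / κ)) * (P / Real.log P) * (1 / (1 + u ^ 2)) := by positivity
      have h4 : 0 ≤ 72 * E := by positivity
      linarith [h1.trans h2]
    · have h1 := VV_small hSW P (by omega) u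
      have h2 : C1 * (2 / κ) / Real.log P * (14 * P / (1 + u ^ 2))
          = (14 * C1 * (2 / κ)) * (P / Real.log P) * (1 / (1 + u ^ 2)) := by
        field_simp
      have h3 : (R : ℝ) ^ 2 * (8 + 2 * (|u| * Real.log (3 * P + 1))) ≤ 72 * E := by
        have a1 : Real.log (3 * P + 1) ≤ 16 * (P : ℝ) ^ (1 / 8 : ℝ) := by
          have b1 : Real.log (3 * P + 1) ≤ Real.log (4 * P) :=
            Real.log_le_log (by positivity) (by linarith)
          have b2 : Real.log (4 * P) ≤ (4 * P : ℝ) ^ (1 / 8 : ℝ) / (1 / 8) :=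
            Real.log_le_rpow_div (by positivity) (by norm_num)
          have b3 : (4 * P : ℝ) ^ (1 / 8 : ℝ) = 4 ^ (1 / 8 : ℝ) * (P : ℝ) ^ (1 / 8 : ℝ) :=
            Real.mul_rpow (by norm_num) hPpos.le
          have b4 : (4 : ℝ) ^ (1 / 8 : ℝ) ≤ 2 := by
            have : (4 : ℝ) ^ (1 / 8 : ℝ) ≤ 4 ^ (1 / 2 : ℝ) :=
              Real.rpow_le_rpow_of_exponent_le (by norm_num) (by norm_num)
            refine this.trans (le_of_eq ?_)
            rw [← Real.sqrt_eq_rpow, show (4 : ℝ) = 2 ^ 2 by norm_num]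
            exact Real.sqrt_sq (by norm_num)
          have b5 : 0 ≤ (P : ℝ) ^ (1 / 8 : ℝ) := by positivity
          rw [b3] at b2
          nlinarith
        have a2 : |u| * Real.log (3 * P + 1) ≤ 32 * (P : ℝ) ^ (5 / 8 : ℝ) := by
          have c1 : |u| * Real.log (3 * P + 1)
              ≤ (2 * (P : ℝ) ^ (1 / 2 : ℝ)) * (16 * (P : ℝ) ^ (1 / 8 : ℝ)) :=
            mul_le_mul h.le a1 (Real.log_nonneg (by linarith)) (by positivity)
          have c2 : (P : ℝ) ^ (1 / 2 : ℝ) * (P : ℝ) ^ (1 / 8 : ℝ) = (P : ℝ) ^ (5 / 8 : ℝ) := by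
            rw [← Real.rpow_add hPpos]; norm_num
          calc _ ≤ _ := c1
            _ = 32 * ((P : ℝ) ^ (1 / 2 : ℝ) * (P : ℝ) ^ (1 / 8 : ℝ)) := by ring
            _ = _ := by rw [c2]
        have a3 : (1 : ℝ) ≤ (P : ℝ) ^ (5 / 8 : ℝ) := Real.one_le_rpow hP1 (by norm_num)
        have a4 : 8 + 2 * (|u| * Real.log (3 * P + 1)) ≤ 72 * (P : ℝ) ^ (5 / 8 : ℝ) := by
          linarith
        have a5 : (R : ℝ) ^ 2 ≤ (P : ℝ) ^ (1 / 8 : ℝ) :=
          hRsq.trans (Real.rpow_le_rpow_of_exponent_le hP1 (by linarith))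
        have a6 : (P : ℝ) ^ (1 / 8 : ℝ) * (P : ℝ) ^ (5 / 8 : ℝ) ≤ E := by
          rw [← Real.rpow_add hPpos, hE]
          exact Real.rpow_le_rpow_of_exponent_le hP1 (by linarith)
        have a7 : 0 ≤ 8 + 2 * (|u| * Real.log (3 * P + 1)) := by
          have := mul_nonneg (abs_nonneg u) (Real.log_nonneg (by linarith : (1 : ℝ) ≤ 3 * P + 1))
          linarith
        calc (R : ℝ) ^ 2 * (8 + 2 * (|u| * Real.log (3 * P + 1)))
            ≤ (P : ℝ) ^ (1 / 8 : ℝ) * (72 * (P : ℝ) ^ (5 / 8 : ℝ)) :=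
              mul_le_mul a5 a4 a7 (by positivity)
          _ = 72 * ((P : ℝ) ^ (1 / 8 : ℝ) * (P : ℝ) ^ (5 / 8 : ℝ)) := by ring
          _ ≤ 72 * E := by linarith
      rw [h2] at h1
      have h4 : 0 ≤ 2 * C0 * E := by positivity
      linarith
  -- row sums
  set K : ℝ := ((14 * C1 * (2 / κ)) * C2 + (72 + 2 * C0)) * (P / Real.log P + T.card * E) with hK
  have hK0 : 0 ≤ K := by positivity
  have hrow : ∀ t ∈ T, ∑ s ∈ T, ‖VV lam P R (t - s)‖ ≤ K := by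
    intro t ht
    have h1 : ∀ s ∈ T, ‖VV lam P R (t - s)‖
        ≤ (14 * C1 * (2 / κ)) * (P / Real.log P) * (1 / (1 + (t - s) ^ 2)) + (72 + 2 * C0) * E :=
      fun s hs => hV (t - s) (hT2 t ht s hs)
    refine (Finset.sum_le_sum h1).trans ?_
    rw [Finset.sum_add_distrib, ← Finset.mul_sum, Finset.sum_const, nsmul_eq_mul]
    have h2 := hsp T hT1 t
    have h3 : 0 ≤ (14 * C1 * (2 / κ)) * (P / Real.log P) := by positivity
    have h4 := mul_le_mul_of_nonneg_left h2 h3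
    have h5 : 0 ≤ (72 + 2 * C0) * (P / Real.log P) := by positivity
    have h6 : 0 ≤ (14 * C1 * (2 / κ)) * C2 * (T.card * E) := by positivity
    rw [hK]
    nlinarith
  have hfin := dual lam P R T K hK0 hrow S (fun p hp => by
    obtain ⟨h1, h2, h3⟩ := hS p hp
    refine ⟨by omega, by omega, ?_⟩
    rw [nu_prime lam P R p h1 hl1 (by omega) hRP h2 h3]) a
  exact hfin

end Pool.Agent.MRL.HM
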