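import Pool.Agent.Lib.MRL.Defs
import Pool.Agent.Lib.MP_bf4c7f_mr.Gauss

/-! TANK MR, row MV: the mean value theorem with Gaussian weight. -/

set_option autoImplicit false

open Complex Finset MeasureTheory

namespace Pool.Agent.MRL

namespace MV

theorem g_eq {T : ℝ} (t : ℝ) : g T t = Real.exp (-((1 / T) ^ 2 * t ^ 2)) := by
  rw [g]
  congr 1
  rw [div_pow, div_pow, one_pow]
  ring

theorem sum_nt (S : Finset ℕ) (a : ℕ → ℂ) (t : ℝ) :
    ∑ n ∈ S, a n * nt n t = MRG.trig S a (fun n => Real.log n) t := rfl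

/-- **The mean value theorem**, for a finite set of integers in `[1, N]`. -/
theorem mean_value_set (S : Finset ℕ) {N : ℝ} (hN : 1 ≤ N) (hS : ∀ n ∈ S, 1 ≤ n ∧ (n : ℝ) ≤ N)
    {T : ℝ} (hT : 0 < T) (a : ℕ → ℂ) :
    ∫ t : ℝ, ‖∑ n ∈ S, a n * nt n t‖ ^ 2 * g T t ≤
      2 * Real.pi * (T + N) * ∑ n ∈ S, ‖a n‖ ^ 2 := by
  have h := MRG.mean_value (N := 1) (K := N) (s := 1 / T) one_pos (by linarith) (by positivity) S
    (fun n hn => by
      have h1 := hS n hn
      exact ⟨by exact_mod_cast h1.1, by simpa using h1.2⟩) a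
  simp only [sum_nt, g_eq]
  refine h.trans (mul_le_mul_of_nonneg_right ?_ (sum_nonneg fun _ _ => sq_nonneg _))
  have h1 : 1 / (1 / T) = T := by field_simp
  rw [h1, mul_one]
  have h2 : Real.sqrt Real.pi ^ 2 = Real.pi := Real.sq_sqrt Real.pi_pos.le
  have h3 : Real.sqrt Real.pi ≤ 2 * Real.pi := by
    have h4 : (1 : ℝ) ≤ Real.pi := by linarith [Real.pi_gt_three]
    have h5 : Real.sqrt Real.pi ≤ Real.pi := by
      rw [Real.sqrt_le_left (by positivity)]
      nlinarith
    linarith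
  nlinarith [Real.sqrt_nonneg Real.pi, Real.pi_pos]

end MV

/-- **Row MV.** -/
theorem meanValue : MeanValue := by
  refine ⟨2 * Real.pi, by positivity, fun N T a hN hT => ?_⟩
  exact MV.mean_value_set (Icc 1 N) (N := N) (by exact_mod_cast hN) (fun n hn => by
    have h := mem_Icc.1 hn
    exact ⟨h.1, by exact_mod_cast h.2⟩) hT a

end Pool.Agent.MRL
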