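import Pool.Agent.Lib.MRL.Defs

/-! TANK MR, row LC: `MeanValue → LargeCount`. helper14. -/

set_option autoImplicit false

namespace Pool.Agent.MRL.LC

open Finset MeasureTheory

noncomputable section

/-! ### `n^{-it}` -/

theorem nt_mul {m n : ℕ} (hm : m ≠ 0) (hn : n ≠ 0) (t : ℝ) : nt (m * n) t = nt m t * nt n t := by
  unfold nt
  rw [← Complex.exp_add]
  congr 1
  have h : Real.log ((m * n : ℕ) : ℝ) = Real.log m + Real.log n := by
    push_cast
    exact Real.log_mul (by exact_mod_cast hm) (by exact_mod_cast hn)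
  rw [h]
  push_cast
  ring

theorem nt_one (t : ℝ) : nt 1 t = 1 := by
  unfold nt
  simp

theorem norm_nt (n : ℕ) (t : ℝ) : ‖nt n t‖ = 1 := by
  unfold nt
  have h : (-((t * Real.log n : ℝ) : ℂ) * Complex.I) = ((-(t * Real.log n) : ℝ) : ℂ) * Complex.I := by
    push_cast
    ring
  rw [h, Complex.norm_exp_ofReal_mul_I]

theorem hasDerivAt_nt (n : ℕ) (t : ℝ) :
    HasDerivAt (nt n) (-((Real.log n : ℝ) : ℂ) * Complex.I * nt n t) t := by
  unfold nt
  have h1 : HasDerivAt (fun t : ℝ => (-((t * Real.log n : ℝ) : ℂ) * Complex.I))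
      (-((Real.log n : ℝ) : ℂ) * Complex.I) t := by
    have h2 : HasDerivAt (fun t : ℝ => ((t * Real.log n : ℝ) : ℂ)) ((Real.log n : ℝ) : ℂ) t := by
      have h3 : HasDerivAt (fun t : ℝ => t * Real.log n) (Real.log n) t := by
        simpa using (hasDerivAt_id t).mul_const (Real.log n)
      exact h3.ofReal_comp
    exact (h2.neg).mul_const Complex.I
  have h4 := h1.cexp
  convert h4 using 1
  ring

theorem continuous_nt (n : ℕ) : Continuous (nt n) :=
  continuous_iff_continuousAt.2 fun t => (hasDerivAt_nt n t).continuousAt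

/-! ### powers of the prime polynomial -/

theorem mem_W {H v p : ℕ} (hp : p ∈ W H v) :
    p.Prime ∧ Real.exp ((v : ℝ) / H) < p ∧ (p : ℝ) ≤ Real.exp (((v : ℝ) + 1) / H) := by
  unfold W at hp
  rw [mem_filter, mem_Ioc] at hp
  refine ⟨hp.2, ?_, ?_⟩
  · exact (Nat.floor_lt (Real.exp_pos _).le).1 hp.1.1
  · exact (Nat.le_floor_iff (Real.exp_pos _).le).1 hp.1.2

theorem card_W_le (H v : ℕ) (hH : 1 ≤ H) :
    ((W H v).card : ℝ) ≤ 3 * Real.exp ((v : ℝ) / H) := by
  have hH0 : (0 : ℝ) < H := by exact_mod_cast hH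
  have hv0 : (0 : ℝ) ≤ (v : ℝ) / H := by positivity
  have h1 : (W H v).card ≤ ⌊Real.exp (((v : ℝ) + 1) / H)⌋₊ := by
    unfold W
    refine (card_filter_le _ _).trans ?_
    rw [Nat.card_Ioc]
    omega
  have h2 : ((W H v).card : ℝ) ≤ Real.exp (((v : ℝ) + 1) / H) :=
    (Nat.cast_le.2 h1).trans (Nat.floor_le (Real.exp_pos _).le)
  refine h2.trans ?_
  have h3 : ((v : ℝ) + 1) / H = v / H + 1 / H := by ring
  rw [h3, Real.exp_add]
  have h4 : Real.exp (1 / (H : ℝ)) ≤ 3 := by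
    have h5 : (1 : ℝ) / H ≤ 1 := by
      rw [div_le_one hH0]
      exact_mod_cast hH
    have h6 := Real.exp_le_exp.2 h5
    have h7 := Real.exp_one_lt_d9
    linarith
  have h8 := Real.exp_pos ((v : ℝ) / H)
  nlinarith

theorem sum_W_le (H v : ℕ) (hH : 1 ≤ H) : ∑ p ∈ W H v, (1 / (p : ℝ)) ≤ 3 := by
  have h1 : ∑ p ∈ W H v, (1 / (p : ℝ)) ≤ ∑ _p ∈ W H v, Real.exp (-((v : ℝ) / H)) := by
    refine sum_le_sum fun p hp => ?_
    have h2 := (mem_W hp).2.1
    rw [Real.exp_neg, ← one_div]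
    exact one_div_le_one_div_of_le (Real.exp_pos _) h2.le
  rw [sum_const, nsmul_eq_mul] at h1
  refine h1.trans ?_
  have h3 := card_W_le H v hH
  have h4 := Real.exp_pos (-((v : ℝ) / H))
  have h5 : Real.exp ((v : ℝ) / H) * Real.exp (-((v : ℝ) / H)) = 1 := by
    rw [← Real.exp_add]
    simp
  calc ((W H v).card : ℝ) * Real.exp (-((v : ℝ) / H))
      ≤ 3 * Real.exp ((v : ℝ) / H) * Real.exp (-((v : ℝ) / H)) :=
        mul_le_mul_of_nonneg_right h3 h4.le
    _ = 3 := by rw [mul_assoc, h5, mul_one]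

/-- the power `Q^l` as a Dirichlet polynomial. -/
theorem pow_expand (H v : ℕ) (hH : 1 ≤ H) (l : ℕ) : ∃ (s : Finset ℕ) (c : ℕ → ℝ),
    (∀ t, Q H v t ^ l = ∑ n ∈ s, (c n : ℂ) * nt n t) ∧
    (∀ n ∈ s, n ≠ 0 ∧ Real.exp (l * ((v : ℝ) / H)) ≤ n ∧
      (n : ℝ) ≤ Real.exp (l * (((v : ℝ) + 1) / H)) ∧
      ArithmeticFunction.cardFactors n = l) ∧
    (∀ n ∈ s, 0 ≤ c n ∧ c n * n ≤ l.factorial) ∧
    ∑ n ∈ s, c n ≤ 3 ^ l := by
  induction l with
  | zero =>
    refine ⟨{1}, fun _ => 1, ?_, ?_, ?_, ?_⟩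
    · intro t
      simp [nt_one]
    · intro n hn
      rw [mem_singleton] at hn
      subst hn
      simp
    · intro n hn
      rw [mem_singleton] at hn
      subst hn
      simp
    · simp
  | succ l ih =>
    obtain ⟨s, c, h1, h2, h3, h4⟩ := ih
    classical
    set P : Finset (ℕ × ℕ) := s ×ˢ W H v with hP
    refine ⟨P.image fun x => x.1 * x.2,
      fun m => ∑ x ∈ P with x.1 * x.2 = m, c x.1 / x.2, ?_, ?_, ?_, ?_⟩
    · intro t
      rw [pow_succ, h1 t]
      unfold Q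
      rw [sum_mul_sum, ← sum_product']
      have h5 : ∀ m ∈ P.image fun x => x.1 * x.2,
          ((∑ x ∈ P with x.1 * x.2 = m, c x.1 / x.2 : ℝ) : ℂ) * nt m t
          = ∑ x ∈ P with x.1 * x.2 = m,
            (c x.1 : ℂ) * nt x.1 t * (((1 / (x.2 : ℝ) : ℝ) : ℂ) * nt x.2 t) := by
        intro m _
        push_cast
        rw [sum_mul]
        refine sum_congr rfl fun x hx => ?_
        rw [mem_filter, hP, mem_product] at hx
        obtain ⟨⟨hx1, hx2⟩, hx3⟩ := hx
        rw [← hx3, nt_mul (h2 _ hx1).1 (mem_W hx2).1.ne_zero]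
        ring
      rw [sum_congr rfl h5]
      exact (sum_fiberwise_of_maps_to (fun x hx => mem_image_of_mem _ hx) _).symm
    · intro m hm
      rw [mem_image] at hm
      obtain ⟨x, hx, rfl⟩ := hm
      rw [hP, mem_product] at hx
      obtain ⟨hx1, hx2⟩ := hx
      obtain ⟨a1, a2, a3, a4⟩ := h2 _ hx1
      obtain ⟨b1, b2, b3⟩ := mem_W hx2
      refine ⟨mul_ne_zero a1 b1.ne_zero, ?_, ?_, ?_⟩
      · have e : (((l + 1 : ℕ) : ℝ) * ((v : ℝ) / H)) = l * ((v : ℝ) / H) + (v : ℝ) / H := by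
          push_cast
          ring
        rw [e, Real.exp_add]
        push_cast
        exact mul_le_mul a2 b2.le (Real.exp_pos _).le (by positivity)
      · have e : (((l + 1 : ℕ) : ℝ) * (((v : ℝ) + 1) / H)) =
            l * (((v : ℝ) + 1) / H) + ((v : ℝ) + 1) / H := by
          push_cast
          ring
        rw [e, Real.exp_add]
        push_cast
        exact mul_le_mul a3 b3 (by positivity) (Real.exp_pos _).le
      · rw [ArithmeticFunction.cardFactors_mul a1 b1.ne_zero, a4,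
          ArithmeticFunction.cardFactors_apply_prime b1]
    · intro m hm
      have hm' := hm
      rw [mem_image] at hm
      obtain ⟨x0, hx0, hm0⟩ := hm
      have hx00 := hx0
      rw [hP, mem_product] at hx0
      refine ⟨sum_nonneg fun x hx => ?_, ?_⟩
      · rw [mem_filter, hP, mem_product] at hx
        have := (h3 _ hx.1.1).1
        positivity
      · simp only
        rw [sum_mul]
        have h5 : ∀ x ∈ P.filter fun x => x.1 * x.2 = m, c x.1 / x.2 * m ≤ l.factorial := by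
          intro x hx
          rw [mem_filter, hP, mem_product] at hx
          obtain ⟨⟨hx1, hx2⟩, hx3⟩ := hx
          have h6 := (h3 _ hx1).2
          have h7 : (x.2 : ℝ) ≠ 0 := by exact_mod_cast (mem_W hx2).1.ne_zero
          rw [← hx3]
          push_cast
          have h8 : c x.1 / x.2 * ((x.1 : ℝ) * x.2) = c x.1 * x.1 := by
            field_simp
          rw [h8]
          exact h6
        refine (sum_le_sum h5).trans ?_
        rw [sum_const, nsmul_eq_mul]
        have hmne : m ≠ 0 := by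
          rw [← hm0]
          exact mul_ne_zero (h2 _ hx0.1).1 (mem_W hx0.2).1.ne_zero
        have hOm : ArithmeticFunction.cardFactors m = l + 1 := by
          rw [← hm0, ArithmeticFunction.cardFactors_mul (h2 _ hx0.1).1 (mem_W hx0.2).1.ne_zero,
            (h2 _ hx0.1).2.2.2, ArithmeticFunction.cardFactors_apply_prime (mem_W hx0.2).1]
        have h9 : (P.filter fun x => x.1 * x.2 = m).card ≤ m.primeFactors.card := by
          refine card_le_card_of_injOn (fun x => x.2) ?_ ?_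
          · intro x hx
            have hx := mem_coe.1 hx
            rw [mem_filter, hP, mem_product] at hx
            simp only [mem_coe, Nat.mem_primeFactors]
            exact ⟨(mem_W hx.1.2).1, ⟨x.1, by rw [← hx.2]; ring⟩, hmne⟩
          · intro x hx y hy hxy
            have hx := mem_coe.1 hx
            have hy := mem_coe.1 hy
            rw [mem_filter, hP, mem_product] at hx hy
            simp only at hxy
            have h10 : x.1 * x.2 = y.1 * x.2 := by
              rw [hx.2, hxy, hy.2]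
            have h11 : x.1 = y.1 :=
              Nat.eq_of_mul_eq_mul_right (mem_W hx.1.2).1.pos h10
            exact Prod.ext h11 hxy
        have h12 : m.primeFactors.card ≤ l + 1 := by
          rw [← hOm]
          rw [ArithmeticFunction.cardFactors_apply]
          exact List.toFinset_card_le _
        have h13 : ((P.filter fun x => x.1 * x.2 = m).card : ℝ) ≤ (l : ℝ) + 1 := by
          exact_mod_cast h9.trans h12
        rw [Nat.factorial_succ]
        push_cast
        exact mul_le_mul_of_nonneg_right h13 (by positivity)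
    · rw [sum_fiberwise_of_maps_to (fun x hx => mem_image_of_mem _ hx)
        (fun x : ℕ × ℕ => c x.1 / (x.2 : ℝ))]
      have h5 : ∑ x ∈ P, c x.1 / (x.2 : ℝ) = (∑ n ∈ s, c n) * ∑ p ∈ W H v, (1 / (p : ℝ)) := by
        rw [sum_mul_sum, ← sum_product']
        refine sum_congr rfl fun x _ => ?_
        ring
      rw [h5, pow_succ]
      exact mul_le_mul h4 (sum_W_le H v hH) (sum_nonneg fun p _ => by positivity) (by positivity)

/-! ### Sobolev -/

theorem sob {F F' : ℝ → ℝ} (hF : ∀ t, HasDerivAt F (F' t) t) (hc : Continuous F') {r t0 : ℝ}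
    (h : t0 ∈ Set.Icc r (r + 1)) : F t0 ≤ ∫ t in r..(r + 1), (F t + |F' t|) := by
  have hFc : Continuous F := continuous_iff_continuousAt.2 fun t => (hF t).continuousAt
  have hr : r ≤ r + 1 := by linarith
  have hii : ∀ a b : ℝ, IntervalIntegrable F' volume a b := fun a b => hc.intervalIntegrable a b
  have hia : ∀ a b : ℝ, IntervalIntegrable (fun t => |F' t|) volume a b :=
    fun a b => hc.abs.intervalIntegrable a b
  set B : ℝ := ∫ t in r..(r + 1), |F' t| with hB
  have key : ∀ t ∈ Set.Icc r (r + 1), F t0 ≤ F t + B := by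
    intro t ht
    have hmono : ∀ a b : ℝ, a ∈ Set.Icc r (r + 1) → b ∈ Set.Icc r (r + 1) → a ≤ b →
        ∫ u in a..b, |F' u| ≤ B := by
      intro a b ha hb hab
      rw [hB]
      exact intervalIntegral.integral_mono_interval ha.1 hab hb.2
        (Filter.Eventually.of_forall fun u => abs_nonneg _) (hia _ _)
    have habs : ∀ a b : ℝ, a ≤ b → |∫ u in a..b, F' u| ≤ ∫ u in a..b, |F' u| := by
      intro a b hab
      exact intervalIntegral.abs_integral_le_integral_abs hab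
    rcases le_total t t0 with h1 | h1
    · have h2 : ∫ u in t..t0, F' u = F t0 - F t :=
        intervalIntegral.integral_eq_sub_of_hasDerivAt (fun u _ => hF u) (hii _ _)
      have h3 := habs t t0 h1
      have h4 := hmono t t0 ht h h1
      have h5 := le_abs_self (∫ u in t..t0, F' u)
      linarith
    · have h2 : ∫ u in t0..t, F' u = F t - F t0 :=
        intervalIntegral.integral_eq_sub_of_hasDerivAt (fun u _ => hF u) (hii _ _)
      have h3 := habs t0 t h1
      have h4 := hmono t0 t h ht h1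
      have h5 := neg_abs_le (∫ u in t0..t, F' u)
      linarith
  have h6 : ∫ _t in r..(r + 1), F t0 ≤ ∫ t in r..(r + 1), (F t + B) :=
    intervalIntegral.integral_mono_on hr (by simp) ((hFc.add continuous_const).intervalIntegrable _ _)
      key
  have h7 : ∫ _t in r..(r + 1), F t0 = F t0 := by simp
  have h8 : ∫ t in r..(r + 1), (F t + B) = (∫ t in r..(r + 1), F t) + B := by
    rw [intervalIntegral.integral_add (hFc.intervalIntegrable _ _) (by simp)]
    simp
  rw [intervalIntegral.integral_add (hFc.intervalIntegrable _ _) (hia _ _), ← hB]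
  linarith

/-- a Dirichlet polynomial and its derivative. -/
def dp (s : Finset ℕ) (c : ℕ → ℂ) (t : ℝ) : ℂ := ∑ n ∈ s, c n * nt n t

theorem hasDerivAt_dp (s : Finset ℕ) (c : ℕ → ℂ) (t : ℝ) :
    HasDerivAt (dp s c) (dp s (fun n => c n * (-((Real.log n : ℝ) : ℂ) * Complex.I)) t) t := by
  unfold dp
  have h : HasDerivAt (fun t => ∑ n ∈ s, c n * nt n t)
      (∑ n ∈ s, c n * (-((Real.log n : ℝ) : ℂ) * Complex.I * nt n t)) t :=
    HasDerivAt.fun_sum fun n _ => (hasDerivAt_nt n t).const_mul (c n)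
  have e : ∑ n ∈ s, c n * (-((Real.log n : ℝ) : ℂ) * Complex.I) * nt n t =
      ∑ n ∈ s, c n * (-((Real.log n : ℝ) : ℂ) * Complex.I * nt n t) :=
    sum_congr rfl fun n _ => by ring
  rw [e]
  exact h

theorem continuous_dp (s : Finset ℕ) (c : ℕ → ℂ) : Continuous (dp s c) :=
  continuous_iff_continuousAt.2 fun t => (hasDerivAt_dp s c t).continuousAt

theorem norm_dp_le (s : Finset ℕ) (c : ℕ → ℂ) (t : ℝ) : ‖dp s c t‖ ≤ ∑ n ∈ s, ‖c n‖ := by
  unfold dp
  refine (norm_sum_le _ _).trans (sum_le_sum fun n _ => ?_)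
  rw [norm_mul, norm_nt, mul_one]

theorem sob_dp (s : Finset ℕ) (c : ℕ → ℂ) {r t0 : ℝ} (h : t0 ∈ Set.Icc r (r + 1)) :
    ‖dp s c t0‖ ^ 2 ≤ ∫ t in r..(r + 1), (2 * ‖dp s c t‖ ^ 2 +
      ‖dp s (fun n => c n * (-((Real.log n : ℝ) : ℂ) * Complex.I)) t‖ ^ 2) := by
  set d := dp s (fun n => c n * (-((Real.log n : ℝ) : ℂ) * Complex.I)) with hd
  have hdc : Continuous d := continuous_dp _ _
  have hfc : Continuous (dp s c) := continuous_dp _ _
  have h1 : ∀ t, HasDerivAt (fun t => ‖dp s c t‖ ^ 2) (2 * inner ℝ (dp s c t) (d t)) t := by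
    intro t
    exact (hasDerivAt_dp s c t).norm_sq
  have h2 : Continuous fun t => 2 * inner ℝ (dp s c t) (d t) := by
    exact continuous_const.mul (hfc.inner hdc)
  refine (sob h1 h2 h).trans ?_
  refine intervalIntegral.integral_mono_on (by linarith) ?_ ?_ ?_
  · exact (((hfc.norm.pow 2)).add h2.abs).intervalIntegrable _ _
  · exact ((continuous_const.mul (hfc.norm.pow 2)).add (hdc.norm.pow 2)).intervalIntegrable _ _
  · intro t _
    have h3 : |2 * inner ℝ (dp s c t) (d t)| ≤ 2 * (‖dp s c t‖ * ‖d t‖) := by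
      rw [abs_mul, abs_two]
      exact mul_le_mul_of_nonneg_left (abs_real_inner_le_norm _ _) (by norm_num)
    nlinarith [sq_nonneg (‖dp s c t‖ - ‖d t‖)]

theorem integrable_dp (s : Finset ℕ) (c : ℕ → ℂ) {T : ℝ} (hT : 0 < T) :
    Integrable fun t => ‖dp s c t‖ ^ 2 * g T t := by
  have hg : Integrable (fun t : ℝ => Real.exp (-(1 / T ^ 2) * t ^ 2)) :=
    integrable_exp_neg_mul_sq (by positivity)
  have hgg : (fun t : ℝ => g T t) = fun t : ℝ => Real.exp (-(1 / T ^ 2) * t ^ 2) := by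
    funext t
    unfold g
    congr 1
    field_simp
  have hg' : Integrable (fun t : ℝ => g T t) := by
    rw [hgg]
    exact hg
  refine Integrable.bdd_mul (c := (∑ n ∈ s, ‖c n‖) ^ 2) hg' ?_ ?_
  · exact ((continuous_dp s c).norm.pow 2).aestronglyMeasurable
  · refine Filter.Eventually.of_forall fun t => ?_
    rw [Real.norm_eq_abs, abs_of_nonneg (by positivity)]
    exact pow_le_pow_left₀ (norm_nonneg _) (norm_dp_le s c t) 2

/-- sum of local suprema over unit intervals. -/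
theorem sum_sup_le {C : ℝ} (hMV : ∀ (N : ℕ) (T : ℝ) (a : ℕ → ℂ), 1 ≤ N → 0 < T →
    ∫ t : ℝ, ‖∑ n ∈ Icc 1 N, a n * nt n t‖ ^ 2 * g T t ≤ C * (T + N) * ∑ n ∈ Icc 1 N, ‖a n‖ ^ 2)
    (hC : 0 < C) (s : Finset ℕ) (c : ℕ → ℂ) {N : ℕ} (hN : 1 ≤ N) (hs : ∀ n ∈ s, 1 ≤ n ∧ n ≤ N)
    {X : ℝ} (hX : 1 ≤ X) (R : Finset ℤ) (hR : ∀ r ∈ R, |(r : ℝ)| ≤ 2 * X) (τ : ℤ → ℝ)
    (hτ : ∀ r ∈ R, τ r ∈ Set.Icc (r : ℝ) (r + 1)) :
    ∑ r ∈ R, ‖dp s c (τ r)‖ ^ 2 ≤
      3 * C * (3 * X + N) * (2 + (Real.log N) ^ 2) * ∑ n ∈ s, ‖c n‖ ^ 2 := by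
  set d : ℕ → ℂ := fun n => c n * (-((Real.log n : ℝ) : ℂ) * Complex.I) with hd
  set G : ℝ → ℝ := fun t => 2 * ‖dp s c t‖ ^ 2 + ‖dp s d t‖ ^ 2 with hG
  have hG0 : ∀ t, 0 ≤ G t := fun t => by simp only [hG]; positivity
  have hGc : Continuous G :=
    (continuous_const.mul ((continuous_dp s c).norm.pow 2)).add ((continuous_dp s d).norm.pow 2)
  have h3X : (0 : ℝ) < 3 * X := by linarith
  have hi1 := integrable_dp s c h3X
  have hi2 := integrable_dp s d h3X
  have hiG : Integrable fun t => G t * g (3 * X) t := by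
    have : (fun t => G t * g (3 * X) t) =
        fun t => 2 * (‖dp s c t‖ ^ 2 * g (3 * X) t) + ‖dp s d t‖ ^ 2 * g (3 * X) t := by
      funext t
      simp only [hG]
      ring
    rw [this]
    exact (hi1.const_mul 2).add hi2
  have hgpos : ∀ t, 0 < g (3 * X) t := fun t => Real.exp_pos _
  -- each interval
  have h1 : ∀ r ∈ R, ‖dp s c (τ r)‖ ^ 2 ≤
      3 * ∫ t in Set.Ioc (r : ℝ) (r + 1), G t * g (3 * X) t := by
    intro r hr
    have h2 := sob_dp s c (hτ r hr)
    refine h2.trans ?_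
    rw [intervalIntegral.integral_of_le (by linarith), ← integral_const_mul]
    refine setIntegral_mono_on ?_ ?_ measurableSet_Ioc ?_
    · exact (hGc.integrableOn_Icc).mono_set Set.Ioc_subset_Icc_self
    · exact (hiG.const_mul 3).integrableOn
    · intro t ht
      have h4 : |t| ≤ 3 * X := by
        have h5 := abs_le.1 (hR r hr)
        rw [abs_le]
        constructor
        · linarith [ht.1]
        · linarith [ht.2]
      have h6 : (t / (3 * X)) ^ 2 ≤ 1 := by
        rw [div_pow, div_le_one (by positivity)]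
        exact sq_le_sq' (by linarith [(abs_le.1 h4).1]) (abs_le.1 h4).2
      have h7 : 1 ≤ 3 * g (3 * X) t := by
        unfold g
        have h8 : Real.exp (-1) ≤ Real.exp (-(t / (3 * X)) ^ 2) := by
          apply Real.exp_le_exp.2
          have : (-(t / (3 * X)) ^ 2) = -((t / (3 * X)) ^ 2) := by ring
          linarith
        have h9 : (1 : ℝ) / 3 ≤ Real.exp (-1) := by
          rw [Real.exp_neg, ← one_div]
          apply one_div_le_one_div_of_le (Real.exp_pos _)
          linarith [Real.exp_one_lt_d9]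
        linarith
      calc 2 * ‖dp s c t‖ ^ 2 + ‖dp s d t‖ ^ 2 = G t * 1 := by simp only [hG, mul_one]
        _ ≤ G t * (3 * g (3 * X) t) := mul_le_mul_of_nonneg_left h7 (hG0 t)
        _ = 3 * (G t * g (3 * X) t) := by ring
  have h10 : ∑ r ∈ R, ‖dp s c (τ r)‖ ^ 2 ≤ 3 * ∫ t, G t * g (3 * X) t := by
    refine (sum_le_sum h1).trans ?_
    rw [← mul_sum]
    refine mul_le_mul_of_nonneg_left ?_ (by norm_num)
    rw [← integral_biUnion_finset R (fun r _ => measurableSet_Ioc) ?_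
      (fun r _ => hiG.integrableOn)]
    · exact setIntegral_le_integral hiG
        (Filter.Eventually.of_forall fun t => mul_nonneg (hG0 t) (hgpos t).le)
    · intro i _ j _ hij
      exact Set.pairwise_disjoint_Ioc_intCast ℝ hij
  -- mean values
  have hext : ∀ e : ℕ → ℂ, ∀ t, dp s e t = ∑ n ∈ Icc 1 N, (if n ∈ s then e n else 0) * nt n t := by
    intro e t
    unfold dp
    have h11 : s ⊆ Icc 1 N := fun n hn => mem_Icc.2 (hs n hn)
    rw [← sum_subset h11]
    · refine sum_congr rfl fun n hn => ?_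
      rw [if_pos hn]
    · intro n _ hn
      rw [if_neg hn, zero_mul]
  have hext2 : ∀ e : ℕ → ℂ, ∑ n ∈ Icc 1 N, ‖(if n ∈ s then e n else 0 : ℂ)‖ ^ 2 =
      ∑ n ∈ s, ‖e n‖ ^ 2 := by
    intro e
    have h11 : s ⊆ Icc 1 N := fun n hn => mem_Icc.2 (hs n hn)
    rw [← sum_subset h11]
    · refine sum_congr rfl fun n hn => ?_
      rw [if_pos hn]
    · intro n _ hn
      rw [if_neg hn]
      simp
  have hmv : ∀ e : ℕ → ℂ, ∫ t, ‖dp s e t‖ ^ 2 * g (3 * X) t ≤
      C * (3 * X + N) * ∑ n ∈ s, ‖e n‖ ^ 2 := by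
    intro e
    have h12 := hMV N (3 * X) (fun n => if n ∈ s then e n else 0) hN h3X
    rw [hext2] at h12
    refine le_trans (le_of_eq ?_) h12
    refine integral_congr_ae (Filter.Eventually.of_forall fun t => ?_)
    simp only
    rw [hext e t]
  have h13 : ∫ t, G t * g (3 * X) t = 2 * (∫ t, ‖dp s c t‖ ^ 2 * g (3 * X) t) +
      ∫ t, ‖dp s d t‖ ^ 2 * g (3 * X) t := by
    rw [← integral_const_mul, ← integral_add (hi1.const_mul 2) hi2]
    refine integral_congr_ae (Filter.Eventually.of_forall fun t => ?_)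
    simp only [hG]
    ring
  have hlogN : 0 ≤ Real.log N := Real.log_natCast_nonneg N
  have h14 : ∑ n ∈ s, ‖d n‖ ^ 2 ≤ (Real.log N) ^ 2 * ∑ n ∈ s, ‖c n‖ ^ 2 := by
    rw [mul_sum]
    refine sum_le_sum fun n hn => ?_
    simp only [hd]
    have h15 : ‖c n * (-((Real.log n : ℝ) : ℂ) * Complex.I)‖ = ‖c n‖ * Real.log n := by
      rw [norm_mul, norm_mul, norm_neg, Complex.norm_I, mul_one, Complex.norm_real,
        Real.norm_eq_abs, abs_of_nonneg (Real.log_natCast_nonneg n)]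
    rw [h15, mul_pow]
    have h16 : Real.log n ≤ Real.log N :=
      Real.log_le_log (by exact_mod_cast (hs n hn).1) (by exact_mod_cast (hs n hn).2)
    have h17 : Real.log n ^ 2 ≤ Real.log N ^ 2 :=
      pow_le_pow_left₀ (Real.log_natCast_nonneg n) h16 2
    nlinarith [sq_nonneg ‖c n‖]
  have h18 := hmv c
  have h19 := hmv d
  have h20 : (0 : ℝ) ≤ C * (3 * X + N) := by positivity
  have h21 := mul_le_mul_of_nonneg_left h14 h20
  rw [h13] at h10
  refine h10.trans ?_
  have h22 : 2 * (∫ t, ‖dp s c t‖ ^ 2 * g (3 * X) t) + ∫ t, ‖dp s d t‖ ^ 2 * g (3 * X) t ≤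
      2 * (C * (3 * X + N) * ∑ n ∈ s, ‖c n‖ ^ 2) +
        C * (3 * X + N) * ((Real.log N) ^ 2 * ∑ n ∈ s, ‖c n‖ ^ 2) := by
    linarith
  calc 3 * (2 * (∫ t, ‖dp s c t‖ ^ 2 * g (3 * X) t) + ∫ t, ‖dp s d t‖ ^ 2 * g (3 * X) t)
      ≤ 3 * (2 * (C * (3 * X + N) * ∑ n ∈ s, ‖c n‖ ^ 2) +
        C * (3 * X + N) * ((Real.log N) ^ 2 * ∑ n ∈ s, ‖c n‖ ^ 2)) :=
        mul_le_mul_of_nonneg_left h22 (by norm_num)
    _ = _ := by ring

/-! ### one window -/

theorem count_v {C : ℝ} (hMV : ∀ (N : ℕ) (T : ℝ) (a : ℕ → ℂ), 1 ≤ N → 0 < T →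
    ∫ t : ℝ, ‖∑ n ∈ Icc 1 N, a n * nt n t‖ ^ 2 * g T t ≤ C * (T + N) * ∑ n ∈ Icc 1 N, ‖a n‖ ^ 2)
    (hC : 0 < C) {X : ℝ} (hX : 1 ≤ X) {H v l : ℕ} (hH : 1 ≤ H) {α : ℝ}
    (hl : X ≤ Real.exp (l * ((v : ℝ) / H)))
    (R : Finset ℤ) (hR : ∀ r ∈ R, |(r : ℝ)| ≤ 2 * X) (τ : ℤ → ℝ)
    (hτ : ∀ r ∈ R, τ r ∈ Set.Icc (r : ℝ) (r + 1))
    (hbad : ∀ r ∈ R, Real.exp (-(α * v / H)) ≤ ‖Q H v (τ r)‖) :
    (R.card : ℝ) ≤ Real.exp (2 * α * (l * ((v : ℝ) / H))) *
      (3 * C * (4 * Real.exp l) * (2 + (l * (((v : ℝ) + 1) / H)) ^ 2) *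
        (l.factorial * 3 ^ l)) := by
  obtain ⟨s, c, h1, h2, h3, h4⟩ := pow_expand H v hH l
  have hH0 : (0 : ℝ) < H := by exact_mod_cast hH
  have hH1 : (1 : ℝ) ≤ H := by exact_mod_cast hH
  set E : ℝ := Real.exp (l * ((v : ℝ) / H)) with hE
  have hE0 : 0 < E := Real.exp_pos _
  set N : ℕ := ⌊Real.exp (l * (((v : ℝ) + 1) / H))⌋₊ with hN
  have hN1 : 1 ≤ N := by
    rw [hN, Nat.one_le_floor_iff]
    exact Real.one_le_exp (by positivity)
  have hNle : (N : ℝ) ≤ Real.exp (l * (((v : ℝ) + 1) / H)) := Nat.floor_le (Real.exp_pos _).le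
  have hs : ∀ n ∈ s, 1 ≤ n ∧ n ≤ N := fun n hn =>
    ⟨Nat.one_le_iff_ne_zero.2 (h2 n hn).1, Nat.le_floor (h2 n hn).2.2.1⟩
  have h5 := sum_sup_le hMV hC s (fun n => (c n : ℂ)) hN1 hs hX R hR τ hτ
  have hdp : ∀ t, dp s (fun n => (c n : ℂ)) t = Q H v t ^ l := fun t => (h1 t).symm
  have h6 : (R.card : ℝ) * Real.exp (-(2 * α * (l * ((v : ℝ) / H)))) ≤
      ∑ r ∈ R, ‖dp s (fun n => (c n : ℂ)) (τ r)‖ ^ 2 := by
    rw [← nsmul_eq_mul, ← sum_const]
    refine sum_le_sum fun r hr => ?_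
    rw [hdp, norm_pow, ← pow_mul]
    have h7 := pow_le_pow_left₀ (Real.exp_pos _).le (hbad r hr) (l * 2)
    refine le_trans (le_of_eq ?_) h7
    rw [← Real.exp_nat_mul]
    congr 1
    push_cast
    ring
  have h8 : ∑ n ∈ s, ‖(c n : ℂ)‖ ^ 2 ≤ l.factorial / E * 3 ^ l := by
    have h9 : ∀ n ∈ s, ‖(c n : ℂ)‖ ^ 2 ≤ l.factorial / E * c n := by
      intro n hn
      have a1 := (h3 n hn).1
      have a2 := (h3 n hn).2
      have a3 := (h2 n hn).2.1
      rw [Complex.norm_real, Real.norm_eq_abs, abs_of_nonneg a1, sq]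
      refine mul_le_mul_of_nonneg_right ?_ a1
      rw [le_div_iff₀ hE0]
      exact (mul_le_mul_of_nonneg_left a3 a1).trans a2
    refine (sum_le_sum h9).trans ?_
    rw [← mul_sum]
    exact mul_le_mul_of_nonneg_left h4 (by positivity)
  have hlogN : Real.log N ≤ l * (((v : ℝ) + 1) / H) := by
    rw [← Real.log_exp (l * (((v : ℝ) + 1) / H))]
    exact Real.log_le_log (by exact_mod_cast hN1) hNle
  have hlogN0 : 0 ≤ Real.log N := Real.log_natCast_nonneg N
  have h10 : 2 + (Real.log N) ^ 2 ≤ 2 + (l * (((v : ℝ) + 1) / H)) ^ 2 := by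
    have := pow_le_pow_left₀ hlogN0 hlogN 2
    linarith
  have h11 : (3 * X + N) / E ≤ 4 * Real.exp l := by
    rw [div_le_iff₀ hE0]
    have h12 : (N : ℝ) ≤ E * Real.exp l := by
      refine hNle.trans ?_
      rw [hE, ← Real.exp_add]
      apply Real.exp_le_exp.2
      have h13 : (l : ℝ) * (((v : ℝ) + 1) / H) = l * ((v : ℝ) / H) + l / H := by ring
      rw [h13]
      have h14 : (l : ℝ) / H ≤ l := div_le_self (Nat.cast_nonneg l) hH1
      linarith
    have h15 : (1 : ℝ) ≤ Real.exp l := Real.one_le_exp (Nat.cast_nonneg l)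
    nlinarith
  have h16 : (R.card : ℝ) * Real.exp (-(2 * α * (l * ((v : ℝ) / H)))) ≤
      3 * C * (4 * Real.exp l) * (2 + (l * (((v : ℝ) + 1) / H)) ^ 2) * (l.factorial * 3 ^ l) := by
    refine (h6.trans h5).trans ?_
    have h17 : (0 : ℝ) ≤ 3 * X + N := by positivity
    calc 3 * C * (3 * X + N) * (2 + (Real.log N) ^ 2) * ∑ n ∈ s, ‖(c n : ℂ)‖ ^ 2
        ≤ 3 * C * (3 * X + N) * (2 + (l * (((v : ℝ) + 1) / H)) ^ 2) *
            (l.factorial / E * 3 ^ l) := by
          refine mul_le_mul ?_ h8 (sum_nonneg fun n _ => by positivity) (by positivity)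
          exact mul_le_mul_of_nonneg_left h10 (by positivity)
      _ = 3 * C * ((3 * X + N) / E) * (2 + (l * (((v : ℝ) + 1) / H)) ^ 2) *
            (l.factorial * 3 ^ l) := by
          field_simp
      _ ≤ _ := by
          refine mul_le_mul_of_nonneg_right ?_ (by positivity)
          refine mul_le_mul_of_nonneg_right ?_ (by positivity)
          exact mul_le_mul_of_nonneg_left h11 (by positivity)
  have h18 : Real.exp (2 * α * (l * ((v : ℝ) / H))) *
      Real.exp (-(2 * α * (l * ((v : ℝ) / H)))) = 1 := by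
    rw [← Real.exp_add]
    simp
  have h19 := Real.exp_pos (2 * α * (l * ((v : ℝ) / H)))
  calc (R.card : ℝ) = Real.exp (2 * α * (l * ((v : ℝ) / H))) *
        ((R.card : ℝ) * Real.exp (-(2 * α * (l * ((v : ℝ) / H))))) := by
          rw [mul_left_comm, h18, mul_one]
    _ ≤ _ := mul_le_mul_of_nonneg_left h16 h19.le

theorem count_v' {C θ L : ℝ} (hMV : ∀ (N : ℕ) (T : ℝ) (a : ℕ → ℂ), 1 ≤ N → 0 < T →
    ∫ t : ℝ, ‖∑ n ∈ Icc 1 N, a n * nt n t‖ ^ 2 * g T t ≤ C * (T + N) * ∑ n ∈ Icc 1 N, ‖a n‖ ^ 2)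
    (hC : 0 < C) (hθ : 0 < θ) (hθ1 : θ ≤ 1) (hL : 3 ≤ Real.log L) (hLL : 4 ≤ L) {H v : ℕ}
    (hH : 1 ≤ H) {α : ℝ} (hα1 : α ≤ θ / 16)
    (hv1 : 16 / θ * Real.log L ≤ (v : ℝ) / H) (hv2 : (v : ℝ) / H ≤ θ / 16 * L)
    (R : Finset ℤ) (hR : ∀ r ∈ R, |(r : ℝ)| ≤ 2 * Real.exp L) (τ : ℤ → ℝ)
    (hτ : ∀ r ∈ R, τ r ∈ Set.Icc (r : ℝ) (r + 1))
    (hbad : ∀ r ∈ R, Real.exp (-(α * v / H)) ≤ ‖Q H v (τ r)‖) :
    (R.card : ℝ) ≤ 132 * C * Real.exp (33 / 128 * θ * L + 4 * Real.log L) := by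
  set y : ℝ := (v : ℝ) / H with hy
  have hH0 : (0 : ℝ) < H := by exact_mod_cast hH
  have hH1 : (1 : ℝ) ≤ H := by exact_mod_cast hH
  have hL0 : 0 < L := by linarith
  have hlog0 : 0 < Real.log L := by linarith
  have hy48 : 48 ≤ y := by
    have h1 : 16 ≤ 16 / θ := by
      rw [le_div_iff₀ hθ]
      nlinarith
    nlinarith
  have hy0 : 0 < y := by linarith
  set l : ℕ := ⌈L / y⌉₊ with hl
  have hl1 : L / y ≤ l := Nat.le_ceil _
  have hl2 : (l : ℝ) < L / y + 1 := Nat.ceil_lt_add_one (by positivity)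
  have hly1 : L ≤ l * y := by
    rw [div_le_iff₀ hy0] at hl1
    exact hl1
  have hly2 : l * y ≤ L + y := by
    have := mul_le_mul_of_nonneg_right hl2.le hy0.le
    rw [add_mul, div_mul_cancel₀ _ hy0.ne', one_mul] at this
    exact this
  have hlL : (l : ℝ) ≤ L := by
    have h1 : L / y ≤ L / 48 := div_le_div_of_nonneg_left hL0.le (by norm_num) hy48
    linarith
  have hlog : (l : ℝ) * Real.log L ≤ θ / 16 * L + Real.log L := by
    have h1 : L / y * Real.log L ≤ θ / 16 * L := by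
      rw [div_mul_eq_mul_div, div_le_iff₀ hy0]
      have h2 : θ / 16 * (16 / θ * Real.log L) ≤ θ / 16 * y :=
        mul_le_mul_of_nonneg_left hv1 (by positivity)
      have h3 : θ / 16 * (16 / θ * Real.log L) = Real.log L := by
        field_simp
      rw [h3] at h2
      nlinarith
    nlinarith [mul_le_mul_of_nonneg_right hl2.le hlog0.le]
  have hcount := count_v hMV hC (Real.one_le_exp hL0.le) hH (α := α) (v := v) (l := l)
    (Real.exp_le_exp.2 hly1) R hR τ hτ hbad
  refine hcount.trans ?_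
  -- the factors
  have f1 : Real.exp (2 * α * (l * ((v : ℝ) / H))) ≤ Real.exp (17 / 128 * θ * L) := by
    apply Real.exp_le_exp.2
    have h1 : 2 * α * (l * y) ≤ 2 * (θ / 16) * (L + θ / 16 * L) := by
      apply mul_le_mul (by linarith) (by linarith) (by positivity) (by positivity)
    refine h1.trans ?_
    nlinarith [mul_nonneg hθ.le hL0.le, mul_nonneg (mul_nonneg hθ.le hL0.le) (sub_nonneg.2 hθ1)]
  have f2 : 2 + (l * (((v : ℝ) + 1) / H)) ^ 2 ≤ 11 * Real.exp (2 * Real.log L) := by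
    have h1 : (l : ℝ) * (((v : ℝ) + 1) / H) = l * y + l / H := by
      rw [hy]; ring
    have h2 : (l : ℝ) / H ≤ l := div_le_self (Nat.cast_nonneg l) hH1
    have h3 : (l : ℝ) * (((v : ℝ) + 1) / H) ≤ 3 * L := by
      rw [h1]
      nlinarith
    have h4 : Real.exp (2 * Real.log L) = L ^ 2 := by
      rw [mul_comm, Real.exp_mul, Real.exp_log hL0]
      norm_cast
    rw [h4]
    have h5 : (0 : ℝ) ≤ l * (((v : ℝ) + 1) / H) := by positivity
    nlinarith [pow_le_pow_left₀ h5 h3 2]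
  have f3 : (l.factorial : ℝ) ≤ Real.exp (l * Real.log L) := by
    have h1 : (l.factorial : ℝ) ≤ (l : ℝ) ^ l := by exact_mod_cast Nat.factorial_le_pow l
    refine h1.trans ?_
    rw [mul_comm, Real.exp_mul, Real.exp_log hL0, Real.rpow_natCast]
    exact pow_le_pow_left₀ (Nat.cast_nonneg l) hlL l
  have f4 : (3 : ℝ) ^ l * Real.exp l ≤ Real.exp (l * Real.log L) := by
    have h1 : (3 : ℝ) ≤ Real.exp 2 := by
      have := Real.exp_one_gt_d9
      have h2 : Real.exp 2 = Real.exp 1 * Real.exp 1 := by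
        rw [← Real.exp_add]; norm_num
      rw [h2]
      nlinarith
    have h2 : (3 : ℝ) ^ l ≤ Real.exp (l * 2) := by
      rw [Real.exp_nat_mul]
      exact pow_le_pow_left₀ (by norm_num) h1 l
    calc (3 : ℝ) ^ l * Real.exp l ≤ Real.exp (l * 2) * Real.exp l :=
          mul_le_mul_of_nonneg_right h2 (Real.exp_pos _).le
      _ = Real.exp (l * 3) := by rw [← Real.exp_add]; ring_nf
      _ ≤ _ := Real.exp_le_exp.2 (mul_le_mul_of_nonneg_left hL (Nat.cast_nonneg l))
  have f5 : Real.exp (l * Real.log L) ≤ Real.exp (θ / 16 * L + Real.log L) :=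
    Real.exp_le_exp.2 hlog
  have hrw : 3 * C * (4 * Real.exp l) * (2 + (l * (((v : ℝ) + 1) / H)) ^ 2) *
      (l.factorial * 3 ^ l) = 12 * C * (2 + (l * (((v : ℝ) + 1) / H)) ^ 2) *
      (l.factorial * (3 ^ l * Real.exp l)) := by ring
  rw [hrw]
  have g1 : (l.factorial : ℝ) * (3 ^ l * Real.exp l) ≤
      Real.exp (θ / 16 * L + Real.log L) * Real.exp (θ / 16 * L + Real.log L) :=
    mul_le_mul (f3.trans f5) (f4.trans f5) (by positivity) (by positivity)
  have g2 : 12 * C * (2 + (l * (((v : ℝ) + 1) / H)) ^ 2) * (l.factorial * (3 ^ l * Real.exp l)) ≤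
      12 * C * (11 * Real.exp (2 * Real.log L)) *
        (Real.exp (θ / 16 * L + Real.log L) * Real.exp (θ / 16 * L + Real.log L)) :=
    mul_le_mul (mul_le_mul_of_nonneg_left f2 (by positivity)) g1 (by positivity) (by positivity)
  refine (mul_le_mul f1 g2 (by positivity) (by positivity)).trans (le_of_eq ?_)
  have e1 : Real.exp (17 / 128 * θ * L) * (12 * C * (11 * Real.exp (2 * Real.log L)) *
        (Real.exp (θ / 16 * L + Real.log L) * Real.exp (θ / 16 * L + Real.log L))) =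
      132 * C * (Real.exp (17 / 128 * θ * L) * Real.exp (2 * Real.log L) *
        (Real.exp (θ / 16 * L + Real.log L) * Real.exp (θ / 16 * L + Real.log L))) := by ring
  rw [e1, ← Real.exp_add, ← Real.exp_add, ← Real.exp_add]
  congr 2
  ring

/-- **Row LC.** -/
theorem largeCount (hMV : MeanValue) : LargeCount := by
  obtain ⟨C, hC, hMV⟩ := hMV
  intro θ hθ hθ1
  have ev1 : ∀ᶠ L : ℝ in Filter.atTop, Real.log L ≤ θ / 16 * L := by
    have h := Real.isLittleO_log_id_atTop.bound (c := θ / 16) (by positivity)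
    filter_upwards [h, Filter.eventually_ge_atTop 1] with L h1 h2
    have h3 : (0 : ℝ) ≤ L := by linarith
    rw [id, Real.norm_eq_abs, Real.norm_eq_abs, abs_of_nonneg h3] at h1
    exact (le_abs_self _).trans h1
  have ev2 : ∀ᶠ L : ℝ in Filter.atTop, Real.log (132 * C) ≤ θ / 4 * L := by
    have h : Filter.Tendsto (fun L : ℝ => θ / 4 * L) Filter.atTop Filter.atTop :=
      Filter.Tendsto.const_mul_atTop (by positivity) Filter.tendsto_id
    exact h.eventually_ge_atTop _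
  have ev3 : ∀ᶠ L : ℝ in Filter.atTop, 3 ≤ Real.log L := Real.tendsto_log_atTop.eventually_ge_atTop 3
  obtain ⟨L0, hL0⟩ := Filter.eventually_atTop.1
    (ev1.and (ev2.and (ev3.and (Filter.eventually_ge_atTop 4))))
  refine ⟨Real.exp L0, fun X hX H v1 v2 α hH hHv hv hα hα1 hv2 hv1 hv12 R hR hbad => ?_⟩
  have hX0 : 0 < X := (Real.exp_pos _).trans_le hX
  set L : ℝ := Real.log X with hL
  have hXL : X = Real.exp L := (Real.exp_log hX0).symm
  have hLL0 : L0 ≤ L := by
    rw [hL, Real.le_log_iff_exp_le hX0]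
    exact hX
  obtain ⟨c1, c2, c3, c4⟩ := hL0 L hLL0
  have hLpos : 0 < L := by linarith
  have hH0 : (0 : ℝ) < H := by exact_mod_cast hH
  classical
  -- choose times and windows
  have hch : ∀ r : ℤ, ∃ p : ℝ × ℕ, r ∈ R → p.1 ∈ Set.Icc (r : ℝ) (r + 1) ∧ p.2 ∈ Ico v1 v2 ∧
      Real.exp (-(α * p.2 / H)) ≤ ‖Q H p.2 p.1‖ := by
    intro r
    by_cases hr : r ∈ R
    · obtain ⟨t, ht, hg⟩ := hbad r hr
      unfold Good at hg
      push Not at hg
      obtain ⟨v, hv, hlt⟩ := hg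
      exact ⟨(t, v), fun _ => ⟨ht, hv, hlt.le⟩⟩
    · exact ⟨(0, 0), fun h => absurd h hr⟩
  choose p hp using hch
  have hcard : (R.card : ℝ) = ∑ v ∈ Ico v1 v2, ((R.filter fun r => (p r).2 = v).card : ℝ) := by
    have := card_eq_sum_card_fiberwise (f := fun r => (p r).2) (s := R) (t := Ico v1 v2)
      (fun r hr => (hp r hr).2.1)
    exact_mod_cast this
  have hone : ∀ v ∈ Ico v1 v2, ((R.filter fun r => (p r).2 = v).card : ℝ) ≤
      132 * C * Real.exp (33 / 128 * θ * L + 4 * Real.log L) := by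
    intro v hvm
    rw [mem_Ico] at hvm
    have hvr1 : (v1 : ℝ) ≤ v := by exact_mod_cast hvm.1
    have hvr2 : (v : ℝ) ≤ v2 := by exact_mod_cast hvm.2.le
    have hy1 : (v1 : ℝ) / H ≤ (v : ℝ) / H := div_le_div_of_nonneg_right hvr1 hH0.le
    have hy2 : (v : ℝ) / H ≤ (v2 : ℝ) / H := div_le_div_of_nonneg_right hvr2 hH0.le
    refine count_v' hMV hC hθ hθ1 c3 c4 hH hα1 (hv1.trans hy1) (hy2.trans hv2) _ ?_
      (fun r => (p r).1) ?_ ?_
    · intro r hr
      rw [← hXL]
      exact hR r (mem_filter.1 hr).1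
    · intro r hr
      exact (hp r (mem_filter.1 hr).1).1
    · intro r hr
      have h1 := (hp r (mem_filter.1 hr).1).2.2
      rw [(mem_filter.1 hr).2] at h1
      exact h1
  have h1 : (R.card : ℝ) ≤ v2 * (132 * C * Real.exp (33 / 128 * θ * L + 4 * Real.log L)) := by
    rw [hcard]
    refine (sum_le_sum hone).trans ?_
    rw [sum_const, nsmul_eq_mul, Nat.card_Ico]
    refine mul_le_mul_of_nonneg_right ?_ (by positivity)
    exact_mod_cast Nat.sub_le _ _
  have h2 : (v2 : ℝ) ≤ Real.exp (θ / 192 * L) := by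
    have h3 : (v1 : ℝ) / H ≤ θ / 16 * L := by
      refine le_trans ?_ hv2
      exact div_le_div_of_nonneg_right (by exact_mod_cast hv) hH0.le
    have h4 : Real.log ((v2 : ℝ) + 2) ≤ θ / 192 * L := by linarith
    have h5 : (0 : ℝ) < (v2 : ℝ) + 2 := by positivity
    have h6 := (Real.log_le_iff_le_exp h5).1 h4
    linarith
  have h7 : 132 * C ≤ Real.exp (θ / 4 * L) := (Real.log_le_iff_le_exp (by positivity)).1 c2
  rw [Real.rpow_def_of_pos hX0]
  calc (R.card : ℝ) ≤ v2 * (132 * C * Real.exp (33 / 128 * θ * L + 4 * Real.log L)) := h1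
    _ ≤ Real.exp (θ / 192 * L) * (Real.exp (θ / 4 * L) *
        Real.exp (33 / 128 * θ * L + 4 * Real.log L)) := by
        refine mul_le_mul h2 ?_ (by positivity) (Real.exp_pos _).le
        exact mul_le_mul_of_nonneg_right h7 (Real.exp_pos _).le
    _ = Real.exp (θ / 192 * L + (θ / 4 * L + (33 / 128 * θ * L + 4 * Real.log L))) := by
        rw [← Real.exp_add, ← Real.exp_add]
    _ ≤ Real.exp (Real.log X * θ) := by
        apply Real.exp_le_exp.2
        rw [← hL]
        nlinarith [mul_pos hθ hLpos]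

end

end Pool.Agent.MRL.LC
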