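import Mathlib

/-! ROW KL: the inequality of Kusmin and Landau. -/

set_option autoImplicit false

namespace Pool.Agent.MRL.VD

open Finset

/-- `exp (2 π i t)` -/
noncomputable def ex (t : ℝ) : ℂ := Complex.exp (((2 * Real.pi * t : ℝ) : ℂ) * Complex.I)

private theorem kl_ex_add (a b : ℝ) : ex (a + b) = ex a * ex b := by
  unfold ex
  rw [← Complex.exp_add]
  congr 1
  push_cast
  ring

private theorem kl_norm_ex (a : ℝ) : ‖ex a‖ = 1 := by
  unfold ex
  exact Complex.norm_exp_ofReal_mul_I _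

private theorem kl_ex_int (k : ℤ) : ex k = 1 := by
  unfold ex
  rw [Complex.exp_eq_one_iff]
  exact ⟨k, by push_cast; ring⟩

/-- the coefficient `1/(1 - ex(-d))` -/
private noncomputable def klC (d : ℝ) : ℂ :=
  (((2 * Real.sin (Real.pi * d))⁻¹ : ℝ) : ℂ) *
    (((Real.sin (Real.pi * d) : ℝ) : ℂ) - ((Real.cos (Real.pi * d) : ℝ) : ℂ) * Complex.I)

private theorem kl_norm_sub (u : ℝ) :
    ‖((Real.sin u : ℝ) : ℂ) - ((Real.cos u : ℝ) : ℂ) * Complex.I‖ = 1 := by
  have h : ((Real.sin u : ℝ) : ℂ) - ((Real.cos u : ℝ) : ℂ) * Complex.I =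
      (-Complex.I) * Complex.exp ((u : ℂ) * Complex.I) := by
    rw [Complex.exp_mul_I]
    push_cast
    linear_combination (Complex.sin u) * Complex.I_mul_I
  rw [h, norm_mul, norm_neg, Complex.norm_I, Complex.norm_exp_ofReal_mul_I, one_mul]

private theorem kl_norm_add (u : ℝ) :
    ‖((Real.sin u : ℝ) : ℂ) + ((Real.cos u : ℝ) : ℂ) * Complex.I‖ = 1 := by
  have h : ((Real.sin u : ℝ) : ℂ) + ((Real.cos u : ℝ) : ℂ) * Complex.I =
      Complex.I * Complex.exp (((-u : ℝ) : ℂ) * Complex.I) := by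
    rw [Complex.exp_mul_I]
    push_cast
    rw [Complex.cos_neg, Complex.sin_neg]
    linear_combination (Complex.sin u) * Complex.I_mul_I
  rw [h, norm_mul, Complex.norm_I, Complex.norm_exp_ofReal_mul_I, one_mul]

private theorem kl_norm_C {d : ℝ} (h : 0 < Real.sin (Real.pi * d)) :
    ‖klC d‖ = (2 * Real.sin (Real.pi * d))⁻¹ := by
  unfold klC
  rw [norm_mul, kl_norm_sub, mul_one, Complex.norm_real, Real.norm_of_nonneg (by positivity)]

private theorem kl_norm_one_sub_C {d : ℝ} (h : 0 < Real.sin (Real.pi * d)) :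
    ‖1 - klC d‖ = (2 * Real.sin (Real.pi * d))⁻¹ := by
  have hs : ((Real.sin (Real.pi * d) : ℝ) : ℂ) ≠ 0 := by exact_mod_cast h.ne'
  have h1 : 1 - klC d = (((2 * Real.sin (Real.pi * d))⁻¹ : ℝ) : ℂ) *
    (((Real.sin (Real.pi * d) : ℝ) : ℂ) + ((Real.cos (Real.pi * d) : ℝ) : ℂ) * Complex.I) := by
    unfold klC
    rw [Complex.ofReal_inv, Complex.ofReal_mul]
    field_simp
    push_cast
    ring
  rw [h1, norm_mul, kl_norm_add, mul_one, Complex.norm_real, Real.norm_of_nonneg (by positivity)]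

private theorem kl_C_sub {d e : ℝ} (hd : 0 < Real.sin (Real.pi * d))
    (he : 0 < Real.sin (Real.pi * e)) :
    klC d - klC e = (((Real.cos (Real.pi * e) / Real.sin (Real.pi * e) -
      Real.cos (Real.pi * d) / Real.sin (Real.pi * d)) / 2 : ℝ) : ℂ) * Complex.I := by
  have hs : ((Real.sin (Real.pi * d) : ℝ) : ℂ) ≠ 0 := by exact_mod_cast hd.ne'
  have hs' : ((Real.sin (Real.pi * e) : ℝ) : ℂ) ≠ 0 := by exact_mod_cast he.ne'
  unfold klC
  rw [Complex.ofReal_inv, Complex.ofReal_mul, Complex.ofReal_inv, Complex.ofReal_mul,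
    Complex.ofReal_div, Complex.ofReal_sub, Complex.ofReal_div, Complex.ofReal_div]
  push_cast at hs hs' ⊢
  field_simp
  ring

private theorem kl_C_mul {d : ℝ} (h : 0 < Real.sin (Real.pi * d)) :
    klC d * (1 - ex (-d)) = 1 := by
  have hs : ((Real.sin (Real.pi * d) : ℝ) : ℂ) ≠ 0 := by exact_mod_cast h.ne'
  have h1 : ex (-d) = (((2 * Real.cos (Real.pi * d) ^ 2 - 1 : ℝ)) : ℂ) -
      ((2 * Real.sin (Real.pi * d) * Real.cos (Real.pi * d) : ℝ) : ℂ) * Complex.I := by
    unfold ex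
    rw [Complex.exp_mul_I, ← Complex.ofReal_cos, ← Complex.ofReal_sin,
      show 2 * Real.pi * -d = -(2 * (Real.pi * d)) by ring, Real.cos_neg, Real.sin_neg,
      Real.cos_two_mul, Real.sin_two_mul, Complex.ofReal_neg]
    ring
  have h2 : ((Real.sin (Real.pi * d) : ℝ) : ℂ) ^ 2 + ((Real.cos (Real.pi * d) : ℝ) : ℂ) ^ 2 = 1 := by
    exact_mod_cast Real.sin_sq_add_cos_sq (Real.pi * d)
  rw [h1]
  unfold klC
  generalize Real.sin (Real.pi * d) = a at *
  generalize Real.cos (Real.pi * d) = b at *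
  rw [Complex.ofReal_inv]
  push_cast
  have h3 : (2 * (a : ℂ))⁻¹ * ((a : ℂ) - (b : ℂ) * Complex.I) *
      (1 - (2 * (b : ℂ) ^ 2 - 1 - 2 * (a : ℂ) * (b : ℂ) * Complex.I)) =
      (a : ℂ) ^ 2 + (b : ℂ) ^ 2 := by
    have h4 : (1 - (2 * (b : ℂ) ^ 2 - 1 - 2 * (a : ℂ) * (b : ℂ) * Complex.I)) =
        2 * (a : ℂ) * ((a : ℂ) + (b : ℂ) * Complex.I) := by
      linear_combination (-2) * h2
    rw [h4]
    field_simp
    linear_combination (-(b : ℂ) ^ 2) * Complex.I_sq
  rw [h3, h2]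

private theorem kl_half {y : ℝ} (h0 : 0 < y) (h1 : y < 1) :
    (1 + Real.cos (Real.pi * y)) / Real.sin (Real.pi * y) ≤ 2 / (Real.pi * y) := by
  have hpi := Real.pi_pos
  have hu0 : 0 < Real.pi * y / 2 := by positivity
  have hu1 : Real.pi * y / 2 < Real.pi / 2 := by
    have := mul_lt_mul_of_pos_left h1 hpi
    linarith
  have hs : 0 < Real.sin (Real.pi * y / 2) := Real.sin_pos_of_pos_of_lt_pi hu0 (by linarith)
  have hc : 0 < Real.cos (Real.pi * y / 2) := Real.cos_pos_of_mem_Ioo ⟨by linarith, hu1⟩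
  have ht := Real.lt_tan hu0 hu1
  rw [Real.tan_eq_sin_div_cos, lt_div_iff₀ hc] at ht
  have e1 : Real.cos (Real.pi * y) = 2 * Real.cos (Real.pi * y / 2) ^ 2 - 1 := by
    rw [← Real.cos_two_mul]
    congr 1
    ring
  have e2 : Real.sin (Real.pi * y) = 2 * Real.sin (Real.pi * y / 2) * Real.cos (Real.pi * y / 2) := by
    rw [← Real.sin_two_mul]
    congr 1
    ring
  rw [e1, e2, div_le_div_iff₀ (by positivity) (by positivity)]
  nlinarith [mul_pos hs hc, mul_pos hc hc]

private theorem kl_sin_pos {y : ℝ} (h0 : 0 < y) (h1 : y < 1) : 0 < Real.sin (Real.pi * y) := by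
  have hpi := Real.pi_pos
  refine Real.sin_pos_of_pos_of_lt_pi (by positivity) ?_
  have := mul_lt_mul_of_pos_left h1 hpi
  linarith

private theorem kl_cot_anti {x y : ℝ} (h0 : 0 < x) (hxy : x ≤ y) (h1 : y < 1) :
    Real.cos (Real.pi * y) / Real.sin (Real.pi * y) ≤
      Real.cos (Real.pi * x) / Real.sin (Real.pi * x) := by
  have hpi := Real.pi_pos
  rw [div_le_div_iff₀ (kl_sin_pos (h0.trans_le hxy) h1) (kl_sin_pos h0 (hxy.trans_lt h1))]
  have h2 : 0 ≤ Real.sin (Real.pi * y - Real.pi * x) := by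
    refine Real.sin_nonneg_of_nonneg_of_le_pi ?_ ?_
    · have := mul_le_mul_of_nonneg_left hxy hpi.le
      linarith
    · have h3 : y - x ≤ 1 := by linarith
      have := mul_le_mul_of_nonneg_left h3 hpi.le
      linarith
  rw [Real.sin_sub] at h2
  linarith

private theorem kl_main (g : ℕ → ℝ) (s t : ℕ) (θ : ℝ) (hθ0 : 0 < θ) (hθ1 : θ ≤ 1 / 2)
    (hanti : ∀ l, s < l → l + 1 < t → g (l + 1) - g (l + 2) ≤ g l - g (l + 1))
    (hlo : ∀ l, s < l → l < t → θ ≤ g l - g (l + 1))
    (hhi : ∀ l, s < l → l < t → g l - g (l + 1) ≤ 1 - θ) :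
    ‖∑ l ∈ Ioc s t, ex (g l)‖ ≤ 2 / (Real.pi * θ) := by
  have hpi := Real.pi_pos
  have hpi4 := Real.pi_le_four
  have hbig : 1 ≤ 2 / (Real.pi * θ) := by
    rw [le_div_iff₀ (by positivity)]
    nlinarith
  rcases le_or_gt t s with hts | hst
  · rw [Ioc_eq_empty_of_le hts, sum_empty, norm_zero]
    positivity
  rcases eq_or_lt_of_le (Nat.succ_le_of_lt hst) with h1 | h1
  · have h2 : Ioc s t = {t} := by
      rw [← h1]
      ext l
      simp only [mem_Ioc, mem_singleton, Nat.succ_eq_add_one]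
      omega
    rw [h2, sum_singleton, kl_norm_ex]
    exact hbig
  have hsin : ∀ l, s < l → l < t → 0 < Real.sin (Real.pi * (g l - g (l + 1))) := fun l h2 h3 =>
    kl_sin_pos (hθ0.trans_le (hlo l h2 h3)) (lt_of_le_of_lt (hhi l h2 h3) (by linarith))
  have hstep : ∀ l, s < l → l < t → ex (g l) + klC (g l - g (l + 1)) * ex (g (l + 1)) =
      klC (g l - g (l + 1)) * ex (g l) := by
    intro l h2 h3
    have h4 : ex (g (l + 1)) = ex (g l) * ex (-(g l - g (l + 1))) := by
      rw [← kl_ex_add]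
      congr 1
      ring
    have h5 := kl_C_mul (hsin l h2 h3)
    rw [h4]
    linear_combination (-ex (g l)) * h5
  -- the sums up to s + 1 + k
  have key : ∀ k, s + 1 + k < t →
      ‖∑ l ∈ Ioc s (s + 1 + k), ex (g l) +
        klC (g (s + 1 + k) - g (s + 1 + k + 1)) * ex (g (s + 1 + k + 1))‖ ≤
      (2 * Real.sin (Real.pi * (g (s + 1) - g (s + 1 + 1))))⁻¹ +
        (Real.cos (Real.pi * (g (s + 1 + k) - g (s + 1 + k + 1))) /
          Real.sin (Real.pi * (g (s + 1 + k) - g (s + 1 + k + 1))) -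
        Real.cos (Real.pi * (g (s + 1) - g (s + 1 + 1))) /
          Real.sin (Real.pi * (g (s + 1) - g (s + 1 + 1)))) / 2 := by
    intro k
    induction k with
    | zero =>
      intro hk
      have h2 : Ioc s (s + 1 + 0) = {s + 1} := by
        ext l
        simp only [mem_Ioc, mem_singleton]
        omega
      rw [h2, sum_singleton, add_zero, hstep (s + 1) (by omega) (by omega), norm_mul, kl_norm_ex,
        kl_norm_C (hsin (s + 1) (by omega) (by omega)), sub_self]
      simp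
    | succ k ih =>
      intro hk
      have ih' := ih (by omega)
      have h2 : Ioc s (s + 1 + (k + 1)) = insert (s + 1 + (k + 1)) (Ioc s (s + 1 + k)) := by
        ext l
        simp only [mem_Ioc, mem_insert]
        omega
      have h3 : s + 1 + (k + 1) ∉ Ioc s (s + 1 + k) := by
        simp
      have e1 : s + 1 + k + 1 = s + 1 + (k + 1) := by ring
      rw [e1] at ih'
      have h4 := hstep (s + 1 + (k + 1)) (by omega) (by omega)
      rw [h2, sum_insert h3]
      have h5 : ex (g (s + 1 + (k + 1))) + ∑ l ∈ Ioc s (s + 1 + k), ex (g l) +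
          klC (g (s + 1 + (k + 1)) - g (s + 1 + (k + 1) + 1)) * ex (g (s + 1 + (k + 1) + 1)) =
          (∑ l ∈ Ioc s (s + 1 + k), ex (g l) +
            klC (g (s + 1 + k) - g (s + 1 + (k + 1))) * ex (g (s + 1 + (k + 1)))) +
          (klC (g (s + 1 + (k + 1)) - g (s + 1 + (k + 1) + 1)) -
            klC (g (s + 1 + k) - g (s + 1 + (k + 1)))) * ex (g (s + 1 + (k + 1))) := by
        linear_combination h4
      rw [h5]
      refine (norm_add_le _ _).trans ?_
      have hs1 := hsin (s + 1 + (k + 1)) (by omega) (by omega)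
      have hs2 := hsin (s + 1 + k) (by omega) (by omega)
      rw [e1] at hs2
      have hmono : Real.cos (Real.pi * (g (s + 1 + k) - g (s + 1 + (k + 1)))) /
          Real.sin (Real.pi * (g (s + 1 + k) - g (s + 1 + (k + 1)))) ≤
          Real.cos (Real.pi * (g (s + 1 + (k + 1)) - g (s + 1 + (k + 1) + 1))) /
          Real.sin (Real.pi * (g (s + 1 + (k + 1)) - g (s + 1 + (k + 1) + 1))) := by
        refine kl_cot_anti (hθ0.trans_le (hlo _ (by omega) (by omega))) ?_ ?_
        · have := hanti (s + 1 + k) (by omega) (by omega)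
          have e2 : s + 1 + k + 2 = s + 1 + (k + 1) + 1 := by ring
          rw [e1, e2] at this
          exact this
        · have := hhi (s + 1 + k) (by omega) (by omega)
          rw [e1] at this
          exact lt_of_le_of_lt this (by linarith)
      have h6 : ‖(klC (g (s + 1 + (k + 1)) - g (s + 1 + (k + 1) + 1)) -
            klC (g (s + 1 + k) - g (s + 1 + (k + 1)))) * ex (g (s + 1 + (k + 1)))‖ =
          (Real.cos (Real.pi * (g (s + 1 + (k + 1)) - g (s + 1 + (k + 1) + 1))) /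
          Real.sin (Real.pi * (g (s + 1 + (k + 1)) - g (s + 1 + (k + 1) + 1))) -
          Real.cos (Real.pi * (g (s + 1 + k) - g (s + 1 + (k + 1)))) /
          Real.sin (Real.pi * (g (s + 1 + k) - g (s + 1 + (k + 1))))) / 2 := by
        rw [norm_mul, kl_norm_ex, mul_one, kl_C_sub hs1 hs2, norm_mul, Complex.norm_I, mul_one,
          Complex.norm_real, Real.norm_of_nonpos (by linarith)]
        ring
      rw [h6]
      linarith
  obtain ⟨k, hk⟩ : ∃ k, t = s + 1 + k + 1 := ⟨t - s - 2, by omega⟩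
  subst hk
  have h2 := key k (by omega)
  have h3 : Ioc s (s + 1 + k + 1) = insert (s + 1 + k + 1) (Ioc s (s + 1 + k)) := by
    ext l
    simp only [mem_Ioc, mem_insert]
    omega
  have h4 : s + 1 + k + 1 ∉ Ioc s (s + 1 + k) := by
    simp
  rw [h3, sum_insert h4]
  have h5 : ex (g (s + 1 + k + 1)) + ∑ l ∈ Ioc s (s + 1 + k), ex (g l) =
      (∑ l ∈ Ioc s (s + 1 + k), ex (g l) +
        klC (g (s + 1 + k) - g (s + 1 + k + 1)) * ex (g (s + 1 + k + 1))) +
      (1 - klC (g (s + 1 + k) - g (s + 1 + k + 1))) * ex (g (s + 1 + k + 1)) := by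
    ring
  rw [h5]
  refine (norm_add_le _ _).trans ?_
  rw [norm_mul (1 - _), kl_norm_ex, mul_one, kl_norm_one_sub_C (hsin _ (by omega) (by omega))]
  refine (add_le_add_left h2 _).trans ?_
  -- the two ends
  have ha0 := hlo (s + 1) (by omega) (by omega)
  have ha1 := hhi (s + 1) (by omega) (by omega)
  have hb0 := hlo (s + 1 + k) (by omega) (by omega)
  have hb1 := hhi (s + 1 + k) (by omega) (by omega)
  have hsa := hsin (s + 1) (by omega) (by omega)
  have hsb := hsin (s + 1 + k) (by omega) (by omega)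
  have hA := kl_half (y := 1 - (g (s + 1) - g (s + 1 + 1))) (by linarith) (by linarith)
  have hB := kl_half (y := g (s + 1 + k) - g (s + 1 + k + 1)) (by linarith) (by linarith)
  have eA1 : Real.cos (Real.pi * (1 - (g (s + 1) - g (s + 1 + 1)))) =
      -Real.cos (Real.pi * (g (s + 1) - g (s + 1 + 1))) := by
    rw [mul_sub, mul_one, Real.cos_pi_sub]
  have eA2 : Real.sin (Real.pi * (1 - (g (s + 1) - g (s + 1 + 1)))) =
      Real.sin (Real.pi * (g (s + 1) - g (s + 1 + 1))) := by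
    rw [mul_sub, mul_one, Real.sin_pi_sub]
  rw [eA1, eA2] at hA
  have hA2 : 2 / (Real.pi * (1 - (g (s + 1) - g (s + 1 + 1)))) ≤ 2 / (Real.pi * θ) := by
    refine div_le_div_of_nonneg_left (by norm_num) (by positivity) ?_
    exact mul_le_mul_of_nonneg_left (by linarith) hpi.le
  have hB2 : 2 / (Real.pi * (g (s + 1 + k) - g (s + 1 + k + 1))) ≤ 2 / (Real.pi * θ) := by
    refine div_le_div_of_nonneg_left (by norm_num) (by positivity) ?_
    exact mul_le_mul_of_nonneg_left (by linarith) hpi.le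
  have eq : ∀ a b c d : ℝ, 0 < a → 0 < c →
      (2 * a)⁻¹ + (d / c - b / a) / 2 + (2 * c)⁻¹ = ((1 + -b) / a + (1 + d) / c) / 2 := by
    intro a b c d ha hc
    field_simp
    ring
  rw [eq _ _ _ _ hsa hsb]
  linarith

/-- **Kusmin-Landau**: differences `δ_l = g l - g (l+1)`, `s < l < t`, nonincreasing and in
`[ν + θ, ν + 1 - θ]` with an integer `ν` and `0 < θ ≤ 1/2`.  Proof: `C_l = 1/(1 - ex(-δ_l))`,
`ex (g l) = C_l (ex (g l) - ex (g (l+1)))`, Abel summation, `C_l = 1/2 ∓ (i/2) cot(π δ_l)`; total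
`≤ 1/sin(πθ) + cot(πθ) = cot(πθ/2) ≤ 2/(πθ)`. -/
theorem kusmin_landau (g : ℕ → ℝ) (s t : ℕ) (ν : ℤ) (θ : ℝ) (hθ0 : 0 < θ) (hθ1 : θ ≤ 1 / 2)
    (hanti : ∀ l, s < l → l + 1 < t → g (l + 1) - g (l + 2) ≤ g l - g (l + 1))
    (hlo : ∀ l, s < l → l < t → (ν : ℝ) + θ ≤ g l - g (l + 1))
    (hhi : ∀ l, s < l → l < t → g l - g (l + 1) ≤ ν + 1 - θ) :
    ‖∑ l ∈ Ioc s t, ex (g l)‖ ≤ 2 / (Real.pi * θ) := by
  have h := kl_main (fun l => g l + ν * l) s t θ hθ0 hθ1
    (fun l h1 h2 => by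
      have := hanti l h1 h2
      push_cast
      linarith)
    (fun l h1 h2 => by
      have := hlo l h1 h2
      push_cast
      linarith)
    (fun l h1 h2 => by
      have := hhi l h1 h2
      push_cast
      linarith)
  have h2 : ∀ l : ℕ, ex (g l + ν * l) = ex (g l) := by
    intro l
    rw [kl_ex_add]
    have h3 : ((ν : ℝ) * (l : ℝ)) = (((ν * l : ℤ)) : ℝ) := by push_cast; ring
    rw [h3, kl_ex_int, mul_one]
  simpa only [h2] using h

end Pool.Agent.MRL.VD
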