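import Mathlib
import Pool.Agent.Lib.MRL.Vdc
import Pool.Agent.Lib.MRL.KL

/-!
# Weyl sums for `n ^ (i t)`: iterated differences and the first derivative test
-/

set_option autoImplicit false
open Finset

namespace Pool.Agent.MRL.VD

/-- iterated differences of a sequence -/
def DD : List ℕ → (ℕ → ℝ) → (ℕ → ℝ)
  | [], φ => φ
  | h :: hs, φ => DD hs (fun l => φ (l + h) - φ l)

/-- iterated differences of a function of a real variable -/
def RD : List ℕ → (ℝ → ℝ) → (ℝ → ℝ)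
  | [], F => F
  | h :: hs, F => RD hs (fun y => F (y + h) - F y)

theorem ex_add (a b : ℝ) : ex (a + b) = ex a * ex b := by
  unfold ex
  rw [← Complex.exp_add]
  congr 1
  push_cast
  ring

theorem norm_ex (a : ℝ) : ‖ex a‖ = 1 := by
  unfold ex
  exact Complex.norm_exp_ofReal_mul_I _

theorem conj_ex (a : ℝ) : (starRingEnd ℂ) (ex a) = ex (-a) := by
  unfold ex
  rw [← Complex.exp_conj]
  congr 1
  rw [map_mul, Complex.conj_ofReal, Complex.conj_I]
  push_cast
  ring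

theorem iter (s R L : ℕ) : ∀ (q : ℕ) (e : ℝ) (φ : ℕ → ℝ), 0 < e → e ≤ 1 / 64 →
    32 ≤ (64 * e ^ 2 ^ q) ^ 2 * R → 128 * (R : ℝ) ≤ (64 * e ^ 2 ^ q) ^ 2 * L →
    64 * (s : ℝ) ≤ (64 * e ^ 2 ^ q) ^ 2 * R →
    (∀ hs : List ℕ, hs.length = q → (∀ h ∈ hs, s < h ∧ h ≤ R) →
      ‖∑ l ∈ Icc 1 L, ex (DD hs φ l)‖ ≤ 64 * e ^ 2 ^ q * L) →
    ‖∑ l ∈ Icc 1 L, ex (φ l)‖ ≤ 64 * e * L := by
  intro q
  induction q with
  | zero =>
    intro e φ _ _ _ _ _ h
    have := h [] rfl (by simp)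
    simpa [DD] using this
  | succ q ih =>
    intro e φ he he1 h1 h2 h3 h
    have hle : e ^ 2 ^ (q + 1) ≤ e := by
      have : e ^ 2 ^ (q + 1) ≤ e ^ 1 :=
        pow_le_pow_of_le_one he.le (by linarith) Nat.one_le_two_pow
      simpa using this
    have hpos : 0 < e ^ 2 ^ (q + 1) := by positivity
    have hsq : (64 * e ^ 2 ^ (q + 1)) ^ 2 ≤ (64 * e) ^ 2 := by gcongr
    have hee : (e ^ 2) ^ 2 ^ q = e ^ 2 ^ (q + 1) := by rw [← pow_mul, pow_succ']
    refine vdc (fun l => ex (φ l)) (fun n => (norm_ex _).le) (64 * e) (by positivity)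
      (by linarith) R L (Icc 1 s) (h1.trans (by gcongr)) (h2.trans (by gcongr))
      (by rw [Nat.card_Icc]; simpa using h3.trans (by gcongr)) ?_
    intro r hr hrs
    have hr' := mem_Icc.1 hr
    have hrs' : s < r := by
      by_contra hc
      exact hrs (mem_Icc.2 ⟨hr'.1, by omega⟩)
    have key := ih (e ^ 2) (fun l => φ (l + r) - φ l) (by positivity) (by nlinarith)
      (by rw [hee]; exact h1) (by rw [hee]; exact h2) (by rw [hee]; exact h3) (by
        intro hs hl hh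
        rw [hee]
        exact h (r :: hs) (by simp [hl]) (by
          intro x hx
          rcases List.mem_cons.1 hx with rfl | hx
          · exact ⟨hrs', hr'.2⟩
          · exact hh x hx))
    have e1 : ∑ l ∈ Icc 1 L, ex (φ (l + r)) * (starRingEnd ℂ) (ex (φ l)) =
        ∑ l ∈ Icc 1 L, ex (φ (l + r) - φ l) := by
      refine Finset.sum_congr rfl fun l _ => ?_
      rw [conj_ex, ← ex_add, sub_eq_add_neg]
    show ‖∑ l ∈ Icc 1 L, ex (φ (l + r)) * (starRingEnd ℂ) (ex (φ l))‖ ≤ _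
    rw [e1]
    refine key.trans (le_of_eq ?_)
    ring

theorem dd_shift : ∀ (hs : List ℕ) (φ : ℕ → ℝ) (h l : ℕ),
    DD hs φ (l + h) - DD hs φ l = DD hs (fun l => φ (l + h) - φ l) l
  | [], φ, h, l => rfl
  | a :: hs, φ, h, l => by
    have := dd_shift hs (fun l => φ (l + a) - φ l) h l
    simp only [DD]
    rw [this]
    congr 1
    funext l
    rw [show l + h + a = l + a + h by ring]
    ring

theorem dd_real : ∀ (hs : List ℕ) (φ : ℕ → ℝ) (F : ℝ → ℝ) (c : ℝ) (N : ℕ),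
    (∀ l, φ l = c * F ((N : ℝ) + l)) → ∀ l, DD hs φ l = c * RD hs F ((N : ℝ) + l)
  | [], φ, F, c, N, h, l => h l
  | a :: hs, φ, F, c, N, h, l => by
    refine dd_real hs (fun l => φ (l + a) - φ l) (fun y => F (y + a) - F y) c N ?_ l
    intro l
    rw [h, h]
    push_cast
    rw [← add_assoc]
    ring

theorem rd_mv : ∀ (hs : List ℕ) (Fs : ℕ → ℝ → ℝ),
    (∀ j x, 0 < x → HasDerivAt (Fs j) (Fs (j + 1) x) x) → (∀ h ∈ hs, 0 < h) →
    ∀ x : ℝ, 0 < x → ∃ ξ, x ≤ ξ ∧ ξ ≤ x + (hs.sum : ℕ) ∧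
      RD hs (Fs 0) x = ((hs.prod : ℕ) : ℝ) * Fs hs.length ξ
  | [], Fs, _, _, x, hx => ⟨x, le_rfl, by simp, by simp [RD]⟩
  | a :: hs, Fs, hF, hp, x, hx => by
    have ha : 0 < a := hp a (by simp)
    have haR : (0 : ℝ) < a := by exact_mod_cast ha
    obtain ⟨ξ, h1, h2, h3⟩ := rd_mv hs (fun j y => Fs j (y + a) - Fs j y) (by
      intro j y hy
      have e1 := (hF j (y + a) (by positivity)).comp_add_const y a
      exact e1.sub (hF j y hy)) (fun h hh => hp h (by simp [hh])) x hx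
    have hξ : 0 < ξ := lt_of_lt_of_le hx h1
    obtain ⟨ζ, hζ, hζ'⟩ := exists_hasDerivAt_eq_slope (Fs hs.length) (Fs (hs.length + 1))
      (a := ξ) (b := ξ + a) (by linarith) (by
        intro y hy
        exact (hF _ y (lt_of_lt_of_le hξ hy.1)).continuousAt.continuousWithinAt) (by
        intro y hy
        exact hF _ y (lt_trans hξ hy.1))
    refine ⟨ζ, by linarith [hζ.1], ?_, ?_⟩
    · have := hζ.2
      rw [List.sum_cons, Nat.cast_add]
      linarith
    · have : RD (a :: hs) (Fs 0) x = RD hs (fun y => Fs 0 (y + a) - Fs 0 y) x := rfl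
      rw [this, h3]
      have e2 : Fs hs.length (ξ + a) - Fs hs.length ξ = a * Fs (hs.length + 1) ζ := by
        rw [hζ', add_sub_cancel_left]
        field_simp
      rw [e2, List.prod_cons, Nat.cast_mul, List.length_cons]
      ring

/-- the derivatives of the logarithm -/
noncomputable def LS : ℕ → ℝ → ℝ
  | 0 => Real.log
  | j + 1 => fun x => (-1) ^ j * (j.factorial : ℝ) / x ^ (j + 1)

theorem ls_deriv (j : ℕ) (x : ℝ) (hx : 0 < x) : HasDerivAt (LS j) (LS (j + 1) x) x := by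
  cases j with
  | zero =>
    have := Real.hasDerivAt_log hx.ne'
    simpa [LS] using this
  | succ j =>
    have h1 : HasDerivAt (fun y : ℝ => y ^ (j + 1)) ((j + 1 : ℕ) * x ^ j) x := by
      simpa using hasDerivAt_pow (j + 1) x
    have h2 := (h1.inv (pow_pos hx _).ne').const_mul ((-1) ^ j * (j.factorial : ℝ))
    have e : LS (j + 1) = fun y : ℝ => ((-1) ^ j * (j.factorial : ℝ)) * (y ^ (j + 1))⁻¹ := by
      funext y
      simp [LS, div_eq_mul_inv]
    rw [e]
    refine h2.congr_deriv ?_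
    simp only [LS]
    rw [Nat.factorial_succ]
    push_cast
    field_simp
    ring


theorem dd_log (hs : List ℕ) (hp : ∀ h ∈ hs, 0 < h) (t : ℝ) (N : ℕ) (hN : 1 ≤ N) (l : ℕ) (j : ℕ)
    (hj : hs.length = j + 1) :
    ∃ ξ : ℝ, (N : ℝ) + l ≤ ξ ∧ ξ ≤ (N : ℝ) + l + (hs.sum : ℕ) ∧
      DD hs (fun l => t / (2 * Real.pi) * Real.log (N + l)) l =
        t / (2 * Real.pi) * ((hs.prod : ℕ) * ((-1) ^ j * (j.factorial : ℝ) / ξ ^ (j + 1))) := by
  have hN' : (1 : ℝ) ≤ N := by exact_mod_cast hN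
  obtain ⟨ξ, h1, h2, h3⟩ := rd_mv hs LS ls_deriv hp ((N : ℝ) + l) (by positivity)
  refine ⟨ξ, h1, h2, ?_⟩
  rw [dd_real hs _ Real.log (t / (2 * Real.pi)) N (fun l => rfl) l]
  have : LS 0 = Real.log := rfl
  rw [this, hj] at h3
  rw [h3]
  rfl

theorem prod_bounds (s R : ℕ) : ∀ hs : List ℕ, (∀ h ∈ hs, s < h ∧ h ≤ R) →
    s ^ hs.length ≤ hs.prod ∧ hs.prod ≤ R ^ hs.length ∧ hs.sum ≤ hs.length * R
  | [], _ => by simp
  | a :: hs, h => by
    obtain ⟨h1, h2, h3⟩ := prod_bounds s R hs (fun x hx => h x (by simp [hx]))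
    obtain ⟨h4, h5⟩ := h a (by simp)
    refine ⟨?_, ?_, ?_⟩
    · rw [List.length_cons, List.prod_cons, pow_succ']
      exact Nat.mul_le_mul h4.le h1
    · rw [List.length_cons, List.prod_cons, pow_succ']
      exact Nat.mul_le_mul h5 h2
    · rw [List.length_cons, List.sum_cons, add_mul, one_mul]
      omega

/-- the inner sums by the inequality of Kusmin and Landau, positive case -/
theorem inner_pos (hs : List ℕ) (q s R N L : ℕ) (t : ℝ) (hq : hs.length = q) (hN : 1 ≤ N)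
    (hL : L ≤ N) (hR : R ≤ N) (hs1 : 1 ≤ s) (hsR : s ≤ R) (hh : ∀ h ∈ hs, s < h ∧ h ≤ R)
    (ht : 0 < t * (-1) ^ (q + 1))
    (hup : |t| * R ^ q * q.factorial ≤ Real.pi * N ^ (q + 1)) :
    ‖∑ l ∈ Icc 1 L, ex (DD hs (fun l => t / (2 * Real.pi) * Real.log (N + l)) l)‖ ≤
      4 * ((q + 3) * N) ^ (q + 1) / (q.factorial * |t| * s ^ q) := by
  have hpi := Real.pi_pos
  have hN' : (1 : ℝ) ≤ N := by exact_mod_cast hN
  have hs1' : (1 : ℝ) ≤ s := by exact_mod_cast hs1
  have hsR' : (s : ℝ) ≤ R := by exact_mod_cast hsR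
  have hf : (0 : ℝ) < q.factorial := by exact_mod_cast Nat.factorial_pos q
  have hτ : t * (-1) ^ (q + 1) = |t| := by
    rcases neg_one_pow_eq_or ℝ (q + 1) with h | h
    · rw [h] at ht ⊢
      rw [mul_one] at ht ⊢
      rw [abs_of_pos ht]
    · rw [h] at ht ⊢
      rw [abs_of_neg (by linarith)]
      ring
  have hτ2 : -(t * (-1) ^ q) = |t| := by rw [← hτ, pow_succ]; ring
  have hat : 0 < |t| := hτ ▸ ht
  obtain ⟨hP1, hP2, hP3⟩ := prod_bounds s R hs hh
  rw [hq] at hP1 hP2 hP3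
  have hP1' : (s : ℝ) ^ q ≤ (hs.prod : ℕ) := by exact_mod_cast hP1
  have hP2' : ((hs.prod : ℕ) : ℝ) ≤ (R : ℝ) ^ q := by exact_mod_cast hP2
  have hsum : ((hs.sum : ℕ) : ℝ) ≤ q * N := by
    have : hs.sum ≤ q * N := hP3.trans (Nat.mul_le_mul_left q hR)
    exact_mod_cast this
  have hsq : (0 : ℝ) < (s : ℝ) ^ q := by positivity
  have hPpos : (0 : ℝ) < (hs.prod : ℕ) := lt_of_lt_of_le hsq hP1'
  have hh0 : ∀ h ∈ hs, 0 < h := fun h hx => by have := (hh h hx).1; omega
  set g : ℕ → ℝ := DD hs (fun l => t / (2 * Real.pi) * Real.log (N + l)) with hg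
  set θ : ℝ := |t| * s ^ q * q.factorial / (2 * Real.pi * ((q + 3) * N) ^ (q + 1)) with hθ
  have hD : ∀ l, 0 < l → l < L → θ ≤ g l - g (l + 1) ∧
      g l - g (l + 1) ≤ |t| * R ^ q * q.factorial / (2 * Real.pi * N ^ (q + 1)) := by
    intro l hl0 hl
    have e1 := dd_shift hs (fun l => t / (2 * Real.pi) * Real.log (N + l)) 1 l
    obtain ⟨ξ, h1, h2, h3⟩ := dd_log (1 :: hs) (by
      intro h hx
      rcases List.mem_cons.1 hx with rfl | hx
      · exact one_pos
      · exact hh0 h hx) t N hN l q (by simp [hq])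
    have e2 : g l - g (l + 1) = |t| * (hs.prod : ℕ) * q.factorial / (2 * Real.pi * ξ ^ (q + 1)) := by
      have e3 : g (l + 1) - g l = DD (1 :: hs) (fun l => t / (2 * Real.pi) * Real.log (N + l)) l := e1
      have e4 : g l - g (l + 1) = -(g (l + 1) - g l) := by ring
      rw [e4, e3, h3, ← hτ2, List.prod_cons, one_mul]
      field_simp
    rw [List.sum_cons, Nat.cast_add, Nat.cast_one] at h2
    have hl1 : (l : ℝ) + 1 ≤ N := by
      have : l + 1 ≤ N := by omega
      exact_mod_cast this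
    have hξN : (N : ℝ) ≤ ξ := by
      have : (0 : ℝ) ≤ l := Nat.cast_nonneg l
      linarith
    have hξ2 : ξ ≤ (q + 3) * N := by nlinarith
    have hξ0 : 0 < ξ := by linarith
    rw [e2, hθ]
    constructor
    · gcongr
    · gcongr
  have hhalf : |t| * R ^ q * q.factorial / (2 * Real.pi * N ^ (q + 1)) ≤ 1 / 2 := by
    rw [div_le_iff₀ (by positivity)]
    linarith
  have hθ0 : 0 < θ := by positivity
  have hθ1 : θ ≤ 1 / 2 := by
    refine le_trans ?_ hhalf
    rw [hθ]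
    have : (1 : ℝ) ≤ q + 3 := by
      have : (0 : ℝ) ≤ q := Nat.cast_nonneg q
      linarith
    gcongr
    nlinarith
  have hkl := kusmin_landau g 0 L 0 θ hθ0 hθ1 (by
      intro l _ _
      have e1 := dd_shift (1 :: hs) (fun l => t / (2 * Real.pi) * Real.log (N + l)) 1 l
      have e2 := dd_shift hs (fun l => t / (2 * Real.pi) * Real.log (N + l)) 1 l
      have e3 := dd_shift hs (fun l => t / (2 * Real.pi) * Real.log (N + l)) 1 (l + 1)
      obtain ⟨ξ, h1, h2, h3⟩ := dd_log (1 :: 1 :: hs) (by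
        intro h hx
        rcases List.mem_cons.1 hx with rfl | hx
        · exact one_pos
        rcases List.mem_cons.1 hx with rfl | hx
        · exact one_pos
        · exact hh0 h hx) t N hN l (q + 1) (by simp [hq])
      have e4 : (g (l + 1 + 1) - g (l + 1)) - (g (l + 1) - g l) =
          DD (1 :: 1 :: hs) (fun l => t / (2 * Real.pi) * Real.log (N + l)) l := by
        have a1 : g (l + 1 + 1) - g (l + 1) =
          DD (1 :: hs) (fun l => t / (2 * Real.pi) * Real.log (N + l)) (l + 1) := e3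
        have a2 : g (l + 1) - g l =
          DD (1 :: hs) (fun l => t / (2 * Real.pi) * Real.log (N + l)) l := e2
        rw [a1, a2]
        exact e1
      have hξ0 : 0 < ξ := by
        have : (0 : ℝ) ≤ l := Nat.cast_nonneg l
        linarith
      have e5 : 0 ≤ DD (1 :: 1 :: hs) (fun l => t / (2 * Real.pi) * Real.log (N + l)) l := by
        rw [h3]
        have : t / (2 * Real.pi) * (((1 :: 1 :: hs).prod : ℕ) * ((-1) ^ (q + 1) *
            ((q + 1).factorial : ℝ) / ξ ^ (q + 1 + 1))) =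
            (t * (-1) ^ (q + 1)) * (((1 :: 1 :: hs).prod : ℕ) * ((q + 1).factorial : ℝ)) /
              (2 * Real.pi * ξ ^ (q + 1 + 1)) := by
          field_simp
        rw [this, hτ]
        positivity
      rw [← e4] at e5
      show g (l + 1) - g (l + 2) ≤ g l - g (l + 1)
      have : g (l + 2) = g (l + 1 + 1) := rfl
      linarith) (by
      intro l h1 h2
      have := (hD l h1 h2).1
      push_cast
      linarith) (by
      intro l h1 h2
      have := (hD l h1 h2).2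
      push_cast
      linarith)
  have hI : Icc 1 L = Ioc 0 L := by
    ext x
    simp only [mem_Icc, mem_Ioc]
    omega
  rw [hI]
  refine hkl.trans (le_of_eq ?_)
  rw [hθ]
  field_simp
  ring

theorem dd_neg : ∀ (hs : List ℕ) (φ : ℕ → ℝ) (l : ℕ), DD hs (fun l => -φ l) l = -DD hs φ l
  | [], φ, l => rfl
  | a :: hs, φ, l => by
    have := dd_neg hs (fun l => φ (l + a) - φ l) l
    simp only [DD]
    rw [← this]
    congr 1
    funext l
    ring

theorem norm_sum_ex_neg (S : Finset ℕ) (g : ℕ → ℝ) :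
    ‖∑ l ∈ S, ex (-g l)‖ = ‖∑ l ∈ S, ex (g l)‖ := by
  rw [← RCLike.norm_conj, map_sum]
  congr 1
  refine Finset.sum_congr rfl fun l _ => ?_
  rw [conj_ex, neg_neg]

/-- the inner sums by the inequality of Kusmin and Landau -/
theorem inner (hs : List ℕ) (q s R N L : ℕ) (t : ℝ) (hq : hs.length = q) (hN : 1 ≤ N)
    (hL : L ≤ N) (hR : R ≤ N) (hs1 : 1 ≤ s) (hsR : s ≤ R) (hh : ∀ h ∈ hs, s < h ∧ h ≤ R)
    (ht : t ≠ 0)
    (hup : |t| * R ^ q * q.factorial ≤ Real.pi * N ^ (q + 1)) :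
    ‖∑ l ∈ Icc 1 L, ex (DD hs (fun l => t / (2 * Real.pi) * Real.log (N + l)) l)‖ ≤
      4 * ((q + 3) * N) ^ (q + 1) / (q.factorial * |t| * s ^ q) := by
  have hne : t * (-1) ^ (q + 1) ≠ 0 := mul_ne_zero ht (pow_ne_zero _ (by norm_num))
  rcases lt_or_gt_of_ne hne with h | h
  · have e : (fun l : ℕ => t / (2 * Real.pi) * Real.log (N + l)) =
        fun l : ℕ => -((-t) / (2 * Real.pi) * Real.log (N + l)) := by
      funext l
      ring
    rw [e]
    have e2 : ∀ l, DD hs (fun l : ℕ => -((-t) / (2 * Real.pi) * Real.log (N + l))) l =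
        -DD hs (fun l : ℕ => ((-t) / (2 * Real.pi) * Real.log (N + l))) l := dd_neg hs _
    simp_rw [e2]
    rw [norm_sum_ex_neg]
    have := inner_pos hs q s R N L (-t) hq hN hL hR hs1 hsR hh (by linarith) (by rwa [abs_neg])
    rwa [abs_neg] at this
  · exact inner_pos hs q s R N L t hq hN hL hR hs1 hsR hh h hup

/-- `q` differencing steps and the first derivative test -/
theorem weyl_core (q s R N L : ℕ) (t e : ℝ) (hN : 1 ≤ N)
    (hL : L ≤ N) (hR : R ≤ N) (hs1 : 1 ≤ s) (hsR : s ≤ R) (ht : t ≠ 0)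
    (he0 : 0 < e) (he1 : e ≤ 1 / 64)
    (h1 : 32 ≤ (64 * e ^ 2 ^ q) ^ 2 * R) (h2 : 128 * (R : ℝ) ≤ (64 * e ^ 2 ^ q) ^ 2 * L)
    (h3 : 64 * (s : ℝ) ≤ (64 * e ^ 2 ^ q) ^ 2 * R)
    (hup : |t| * R ^ q * q.factorial ≤ Real.pi * N ^ (q + 1))
    (hlo : 4 * ((q + 3) * N) ^ (q + 1) ≤ 64 * e ^ 2 ^ q * L * (q.factorial * |t| * s ^ q)) :
    ‖∑ l ∈ Icc 1 L, ex (t / (2 * Real.pi) * Real.log (N + l))‖ ≤ 64 * e * L := by
  refine iter s R L q e _ he0 he1 h1 h2 h3 ?_
  intro hs hl hh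
  refine (inner hs q s R N L t hl hN hL hR hs1 hsR hh ht hup).trans ?_
  have hf : (0 : ℝ) < q.factorial := by exact_mod_cast Nat.factorial_pos q
  have hs1' : (1 : ℝ) ≤ s := by exact_mod_cast hs1
  have hat : 0 < |t| := abs_pos.2 ht
  rw [div_le_iff₀ (by positivity)]
  exact hlo

end Pool.Agent.MRL.VD
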