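import Mathlib
import Pool.Agent.Lib.MRL.Defs
import Pool.Agent.Lib.MRL.WeylB

/-!
# Row VD: exponential sums `∑ n ^ (-iτ)` with a power saving
-/

set_option autoImplicit false
open Finset

namespace Pool.Agent.MRL

theorem nt_eq_cpow (n : ℕ) (hn : 1 ≤ n) (t : ℝ) : nt n t = (n : ℂ) ^ (-(t : ℂ) * Complex.I) := by
  have hn0 : (n : ℂ) ≠ 0 := by exact_mod_cast (by omega : n ≠ 0)
  rw [Complex.cpow_def_of_ne_zero hn0, nt, ← Complex.natCast_log]
  congr 1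
  push_cast
  ring

theorem vdc_row : VDC := by
  intro A _
  obtain ⟨η, hη0, hη1, C, hC, h⟩ := VD.weyl A
  refine ⟨η, hη0, 2 * C, by positivity, ?_⟩
  intro N N' hN hN2 τ h1 h2
  have hX1 : (1 : ℝ) ≤ N := by exact_mod_cast hN
  have hX0 : (0 : ℝ) < N := by linarith
  have hpw : (0 : ℝ) < (N : ℝ) ^ (1 - η) := by positivity
  rcases Nat.lt_or_ge N' N with hc | hc
  · rw [Ioc_eq_empty (by omega)]
    simp only [sum_empty, norm_zero]
    positivity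
  have hsN : 0 < √(N : ℝ) := Real.sqrt_pos.2 hX0
  have hτ : 0 < |τ| := lt_of_lt_of_le hsN h1
  have e : ∑ n ∈ Ioc N N', nt n τ = ∑ n ∈ Ioc N N', (n : ℂ) ^ (-(τ : ℂ) * Complex.I) := by
    refine Finset.sum_congr rfl fun n hn => nt_eq_cpow n ?_ τ
    have := (mem_Ioc.1 hn).1
    omega
  rw [e]
  refine (h N N' τ hN hc hN2 (abs_pos.1 hτ) h2).trans ?_
  have h3 : (N : ℝ) / |τ| ≤ (N : ℝ) ^ (1 - η) := by
    calc (N : ℝ) / |τ| ≤ N / √(N : ℝ) := by gcongr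
      _ = (N : ℝ) ^ ((1 : ℝ) / 2) := by
          rw [← Real.sqrt_eq_rpow]
          field_simp
          rw [Real.sq_sqrt hX0.le]
      _ ≤ (N : ℝ) ^ (1 - η) := Real.rpow_le_rpow_of_exponent_le hX1 (by linarith)
  calc C * (N / |τ| + (N : ℝ) ^ (1 - η)) ≤ C * ((N : ℝ) ^ (1 - η) + (N : ℝ) ^ (1 - η)) := by
        gcongr
    _ = 2 * C * (N : ℝ) ^ (1 - η) := by ring

end Pool.Agent.MRL
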