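import Mathlib
import Pool.Agent.Lib.MRL.Defs

/-!
TANK MR, row FL, first part: the Dirichlet series of the Liouville function is
`zeta (2 s) / zeta s`; lower bound for `zeta` near the point `1`.
-/

set_option autoImplicit false

namespace Pool.Agent.MRL.FL

open Finset Filter Topology Complex

theorem lam_mul {m n : ℕ} (hm : m ≠ 0) (hn : n ≠ 0) : lam (m * n) = lam m * lam n := by
  unfold lam
  rw [ArithmeticFunction.cardFactors_mul hm hn, pow_add]

theorem lam_one : lam 1 = 1 := by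
  unfold lam
  simp

theorem lam_prime {p : ℕ} (hp : p.Prime) : lam p = -1 := by
  unfold lam
  rw [ArithmeticFunction.cardFactors_apply_prime hp, pow_one]

theorem abs_lam (n : ℕ) : |lam n| = 1 := by
  unfold lam
  rw [abs_pow, abs_neg, abs_one, one_pow]

/-- `n ↦ λ(n) n^{-s}` as a homomorphism -/
noncomputable def lhom (s : ℂ) : ℕ →*₀ ℂ where
  toFun n := if n = 0 then 0 else (lam n : ℂ) * (n : ℂ) ^ (-s)
  map_zero' := by simp
  map_one' := by simp [lam_one]
  map_mul' := by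
    intro m n
    by_cases hm : m = 0
    · simp [hm]
    by_cases hn : n = 0
    · simp [hn]
    simp only [Nat.mul_eq_zero, hm, hn, or_self, if_false]
    rw [lam_mul hm hn, Nat.cast_mul, Complex.natCast_mul_natCast_cpow]
    push_cast
    ring

theorem lhom_apply (s : ℂ) {n : ℕ} (hn : n ≠ 0) :
    lhom s n = (lam n : ℂ) * (n : ℂ) ^ (-s) := by
  show (if n = 0 then (0 : ℂ) else (lam n : ℂ) * (n : ℂ) ^ (-s)) = _
  rw [if_neg hn]

theorem norm_lhom_le (s : ℂ) (n : ℕ) : ‖lhom s n‖ ≤ ‖(n : ℂ) ^ (-s)‖ := by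
  by_cases hn : n = 0
  · subst hn
    rw [map_zero, norm_zero]
    exact norm_nonneg _
  · rw [lhom_apply s hn, norm_mul, Complex.norm_real, Real.norm_eq_abs, abs_lam, one_mul]

theorem norm_npow {s : ℂ} (hs : 1 < s.re) (n : ℕ) :
    ‖(n : ℂ) ^ (-s)‖ = 1 / (n : ℝ) ^ s.re := by
  rcases Nat.eq_zero_or_pos n with h | h
  · subst h
    have h1 : -s ≠ 0 := by
      intro h0
      have := congrArg Complex.re h0
      simp at this
      linarith
    rw [Nat.cast_zero, Complex.zero_cpow h1, norm_zero, Nat.cast_zero,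
      Real.zero_rpow (by linarith), div_zero]
  · rw [Complex.norm_natCast_cpow_of_pos h, Complex.neg_re, Real.rpow_neg (by positivity), one_div]

theorem summable_npow {s : ℂ} (hs : 1 < s.re) : Summable (fun n : ℕ => ‖(n : ℂ) ^ (-s)‖) := by
  simp_rw [norm_npow hs]
  exact Real.summable_one_div_nat_rpow.mpr hs

theorem summable_lhom {s : ℂ} (hs : 1 < s.re) : Summable (fun n : ℕ => ‖lhom s n‖) :=
  (summable_npow hs).of_nonneg_of_le (fun _ => norm_nonneg _) (norm_lhom_le s)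

theorem tsum_lhom_mul {s : ℂ} (hs : 1 < s.re) :
    (∑' n, lhom s n) * riemannZeta s = riemannZeta (2 * s) := by
  have h1 := EulerProduct.eulerProduct_completely_multiplicative_hasProd (summable_lhom hs)
  have h2 := riemannZeta_eulerProduct_hasProd hs
  have hs2 : 1 < (2 * s).re := by simp; linarith
  have h3 := riemannZeta_eulerProduct_hasProd hs2
  have h4 := h1.mul h2
  refine h4.unique ?_
  convert h3 using 1
  funext p
  have hp := p.2
  have hp0 : (p : ℕ) ≠ 0 := hp.ne_zero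
  rw [lhom_apply s hp0, lam_prime hp]
  have h5 : ((p : ℕ) : ℂ) ^ (-(2 * s)) = ((p : ℕ) : ℂ) ^ (-s) * ((p : ℕ) : ℂ) ^ (-s) := by
    rw [← Complex.cpow_add _ _ (by exact_mod_cast hp0)]
    congr 1
    ring
  rw [h5, ← mul_inv]
  congr 1
  push_cast
  ring

theorem term_eq {a τ : ℝ} (n : ℕ) :
    ((lam n / n * (n : ℝ) ^ (-a) : ℝ) : ℂ) * nt n τ = lhom (1 + a + τ * I) n := by
  rcases Nat.eq_zero_or_pos n with h | h
  · subst h
    simp
  · have hn : (0 : ℝ) < n := by exact_mod_cast h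
    have hn' : (n : ℂ) ≠ 0 := by exact_mod_cast h.ne'
    rw [lhom_apply _ h.ne']
    unfold nt
    have h1 : (n : ℂ) ^ (-(1 + a + τ * I)) =
        ((1 / n * (n : ℝ) ^ (-a) : ℝ) : ℂ) * cexp (-((τ * Real.log n : ℝ) : ℂ) * I) := by
      have e1 : -(1 + (a : ℂ) + τ * I) = -1 + (-(a : ℂ) + -(τ * I)) := by ring
      rw [e1, Complex.cpow_add _ _ hn', Complex.cpow_add _ _ hn', Complex.cpow_neg_one]
      have e2 : (n : ℂ) ^ (-(a : ℂ)) = (((n : ℝ) ^ (-a) : ℝ) : ℂ) := by
        rw [Complex.ofReal_cpow hn.le]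
        push_cast
        rfl
      have e3 : (n : ℂ) ^ (-(τ * I)) = cexp (-((τ * Real.log n : ℝ) : ℂ) * I) := by
        rw [Complex.cpow_def_of_ne_zero hn']
        congr 1
        rw [← Complex.natCast_log]
        push_cast
        ring
      rw [e2, e3]
      push_cast
      ring
    rw [h1]
    push_cast
    ring

/-- the Dirichlet series of `λ` times `ζ(s)` is `ζ(2s)` -/
theorem Fl_eq {a τ : ℝ} (ha : 0 < a) :
    Fl a τ * riemannZeta (1 + a + τ * I) = riemannZeta (2 * (1 + a + τ * I)) := by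
  have hs : 1 < ((1 : ℂ) + a + τ * I).re := by simp; exact ha
  rw [← tsum_lhom_mul hs]
  congr 1
  unfold Fl
  exact tsum_congr fun n => term_eq n

theorem norm_zeta_two_le {w : ℂ} (hw : 2 ≤ w.re) : ‖riemannZeta w‖ ≤ 2 := by
  have h1 : 1 < w.re := by linarith
  rw [zeta_eq_tsum_one_div_nat_cpow h1]
  have h2 : ∀ n : ℕ, ‖(1 : ℂ) / (n : ℂ) ^ w‖ ≤ 1 / (n : ℝ) ^ 2 := by
    intro n
    rcases Nat.eq_zero_or_pos n with h | h
    · subst h
      have : w ≠ 0 := by
        intro h0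
        rw [h0] at h1
        simp at h1
        linarith
      simp [Complex.zero_cpow this]
    · rw [norm_div, norm_one, Complex.norm_natCast_cpow_of_pos h]
      have hn : (1 : ℝ) ≤ n := by exact_mod_cast h
      have h3 : (n : ℝ) ^ (2 : ℝ) ≤ (n : ℝ) ^ w.re := Real.rpow_le_rpow_of_exponent_le hn hw
      rw [Real.rpow_two] at h3
      gcongr
  have h3 := hasSum_zeta_two
  have h4 : ‖∑' n : ℕ, (1 : ℂ) / (n : ℂ) ^ w‖ ≤ ∑' n : ℕ, 1 / (n : ℝ) ^ 2 :=
    tsum_of_norm_bounded h3.summable.hasSum h2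
  rw [h3.tsum_eq] at h4
  have h5 : Real.pi ^ 2 / 6 ≤ 2 := by nlinarith [Real.pi_lt_d2, Real.pi_pos]
  linarith

/-- `|Fl| ≤ 2 / |ζ|` -/
theorem norm_Fl_mul_le {a τ : ℝ} (ha : 0 < a) :
    ‖Fl a τ‖ * ‖riemannZeta (1 + a + τ * I)‖ ≤ 2 := by
  rw [← norm_mul, Fl_eq ha]
  apply norm_zeta_two_le
  simp
  linarith

/-- lower bound for `ζ` near `1` -/
theorem zeta_lower_near_one : ∃ c : ℝ, 0 < c ∧ ∀ a τ : ℝ, 0 < a → a ≤ 1 → |τ| ≤ 1 →
    c ≤ ‖riemannZeta (1 + a + τ * I)‖ := by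
  set F : ℂ → ℂ := Function.update (fun s => (s - 1) * riemannZeta s) 1 1 with hF
  have hcont : Continuous F := by
    rw [continuous_iff_continuousAt]
    intro s
    by_cases hs : s = 1
    · subst hs
      exact continuousAt_update_same.mpr riemannZeta_residue_one
    · rw [hF, continuousAt_update_of_ne hs]
      exact (continuousAt_id.sub continuousAt_const).mul
        (differentiableAt_riemannZeta hs).continuousAt
  set K : Set ℂ := Set.Icc (1 : ℝ) 2 ×ℂ Set.Icc (-1 : ℝ) 1 with hK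
  have hKc : IsCompact K := isCompact_Icc.reProdIm isCompact_Icc
  have hKn : K.Nonempty := ⟨1, by rw [hK, Complex.mem_reProdIm]; simp⟩
  obtain ⟨s0, hs0, hmin⟩ := hKc.exists_isMinOn hKn (continuous_norm.comp hcont).continuousOn
  have hne : ∀ s ∈ K, F s ≠ 0 := by
    intro s hs
    rw [hK, Complex.mem_reProdIm] at hs
    by_cases h1 : s = 1
    · rw [hF, h1, Function.update_self]
      exact one_ne_zero
    · rw [hF, Function.update_of_ne h1]
      exact mul_ne_zero (sub_ne_zero.mpr h1) (riemannZeta_ne_zero_of_one_le_re hs.1.1)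
  have hc : 0 < ‖F s0‖ := norm_pos_iff.mpr (hne s0 hs0)
  refine ⟨‖F s0‖ / 2, by positivity, fun a τ ha ha1 hτ => ?_⟩
  set s : ℂ := 1 + a + τ * I with hs
  have hre : s.re = 1 + a := by rw [hs]; simp
  have him : s.im = τ := by rw [hs]; simp
  have hsK : s ∈ K := by
    rw [hK, Complex.mem_reProdIm, hre, him]
    exact ⟨⟨by linarith, by linarith⟩, abs_le.mp hτ⟩
  have h1 : s ≠ 1 := by
    intro h0
    rw [h0] at hre
    simp at hre
    linarith
  have h2 : ‖F s0‖ ≤ ‖F s‖ := hmin hsK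
  have h3 : ‖F s‖ = ‖s - 1‖ * ‖riemannZeta s‖ := by
    rw [hF, Function.update_of_ne h1, norm_mul]
  have h4 : ‖s - 1‖ ≤ 2 := by
    have e1 : s - 1 = (a : ℂ) + τ * I := by rw [hs]; ring
    rw [e1]
    calc ‖(a : ℂ) + τ * I‖ ≤ ‖(a : ℂ)‖ + ‖(τ : ℂ) * I‖ := norm_add_le _ _
      _ = |a| + |τ| := by simp
      _ ≤ 2 := by rw [abs_of_pos ha]; linarith
  have h5 : ‖F s0‖ ≤ 2 * ‖riemannZeta s‖ := by
    rw [h3] at h2
    exact h2.trans (mul_le_mul_of_nonneg_right h4 (norm_nonneg _))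
  linarith

/-- `|Fl|` is bounded for small `τ` -/
theorem Fl_bdd_near : ∃ C : ℝ, 0 < C ∧ ∀ a τ : ℝ, 0 < a → a ≤ 1 → |τ| ≤ 1 → ‖Fl a τ‖ ≤ C := by
  obtain ⟨c, hc, h⟩ := zeta_lower_near_one
  refine ⟨2 / c, by positivity, fun a τ ha ha1 hτ => ?_⟩
  have h1 := norm_Fl_mul_le (τ := τ) ha
  have h2 := h a τ ha ha1 hτ
  rw [le_div_iff₀ hc]
  exact (mul_le_mul_of_nonneg_left h2 (norm_nonneg _)).trans h1

end Pool.Agent.MRL.FL
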