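import Pool.Agent.Lib.MRL.Defs
import Pool.Agent.Lib.MP_f9aece_nt.PrimeSums

/-! TANK MR, row ML: Mertens' lower bound for the window sums (`mertensLower : MertensLower`, with
`c = 1`), and the matching upper bound `mertens_window_upper`.  helper8. -/

set_option autoImplicit false

namespace Pool.Agent.MRL

open Finset

namespace Mer

/-- `Σ_{p ≤ n} 1/p` -/
noncomputable def P (n : ℕ) : ℝ := ∑ p ∈ (Ioc 0 n).filter Nat.Prime, 1 / (p : ℝ)

/-- `Σ_{p ≤ n} log p / p` -/
noncomputable def L (n : ℕ) : ℝ := ∑ p ∈ (Ioc 0 n).filter Nat.Prime, Real.log p / p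

theorem P_succ (n : ℕ) :
    P (n + 1) = P n + if (n + 1).Prime then 1 / ((n + 1 : ℕ) : ℝ) else 0 := by
  unfold P
  rw [sum_filter, sum_filter, sum_Ioc_succ_top (by omega)]

theorem L_succ (n : ℕ) :
    L (n + 1) = L n + if (n + 1).Prime then Real.log ((n + 1 : ℕ) : ℝ) / ((n + 1 : ℕ) : ℝ) else 0 := by
  unfold L
  rw [sum_filter, sum_filter, sum_Ioc_succ_top (by omega)]

theorem P_mono {m n : ℕ} (h : m ≤ n) : P m ≤ P n := by
  unfold P
  refine sum_le_sum_of_subset_of_nonneg ?_ fun p _ _ => by positivity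
  exact filter_subset_filter _ (Ioc_subset_Ioc_right h)

theorem P_sub {m n : ℕ} (h : m ≤ n) :
    P n - P m = ∑ p ∈ (Ioc m n).filter Nat.Prime, 1 / (p : ℝ) := by
  unfold P
  rw [sub_eq_iff_eq_add, add_comm, sum_filter, sum_filter, sum_filter,
    ← sum_Ioc_consecutive _ (Nat.zero_le m) h]

/-- the upper bound in Mertens' second theorem -/
theorem P_upper {n : ℕ} (hn : 2 ≤ n) :
    P n ≤ Real.log (Real.log n) + 20 := by
  have key : ∀ n : ℕ, 2 ≤ n → P n - L n * (Real.log n)⁻¹ - Real.log (Real.log n)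
      + Real.log 4 * (Real.log n)⁻¹ ≤ 10 := by
    intro n hn
    induction n, hn using Nat.le_induction with
    | base =>
      have h1 : P 2 = 1 / 2 := by
        unfold P
        have : (Ioc 0 2).filter Nat.Prime = {2} := by decide
        rw [this]; simp
      have h0 : 0 ≤ L 2 := sum_nonneg fun p _ => div_nonneg (Real.log_natCast_nonneg p) (by positivity)
      have h2 : (0.6931 : ℝ) < Real.log 2 := by
        have := Real.log_two_gt_d9; norm_num at this ⊢; linarith
      have h3 : Real.log 4 = 2 * Real.log 2 := by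
        rw [show (4 : ℝ) = 2 ^ 2 by norm_num, Real.log_pow]; norm_num
      have h4 : 1 - (Real.log 2)⁻¹ ≤ Real.log (Real.log 2) :=
        Real.one_sub_inv_le_log_of_pos (by linarith)
      have h5 : (Real.log 2)⁻¹ ≤ 2 := by
        rw [inv_le_comm₀ (by linarith) (by norm_num)]; linarith
      have h6 : 0 ≤ L 2 * (Real.log 2)⁻¹ := mul_nonneg h0 (by positivity)
      have h7 : Real.log 4 * (Real.log 2)⁻¹ = 2 := by
        rw [h3]; field_simp
      rw [h1]
      push_cast
      rw [h7]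
      linarith
    | succ n hn ih =>
      have hn2 : (2 : ℝ) ≤ n := by exact_mod_cast hn
      have hl : 0 < Real.log n := Real.log_pos (by linarith)
      have hle : Real.log n ≤ Real.log ((n + 1 : ℕ) : ℝ) := by
        apply Real.log_le_log (by linarith)
        push_cast; linarith
      have hl' : 0 < Real.log ((n + 1 : ℕ) : ℝ) := by linarith
      have h1 : P (n + 1) - L (n + 1) * (Real.log ((n + 1 : ℕ) : ℝ))⁻¹
          = P n - L n * (Real.log ((n + 1 : ℕ) : ℝ))⁻¹ := by
        rw [P_succ, L_succ]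
        split_ifs with hp
        · field_simp
          ring
        · ring
      have h2 : L n ≤ Real.log n + Real.log 4 :=
        Pool.Agent.Lib.MP_f9aece_nt.sum_log_div_le (n := n) (by omega)
      have h3 : 0 ≤ (Real.log n)⁻¹ - (Real.log ((n + 1 : ℕ) : ℝ))⁻¹ := by
        have := inv_anti₀ hl hle
        linarith
      have h4 : 1 - Real.log n / Real.log ((n + 1 : ℕ) : ℝ)
          ≤ Real.log (Real.log ((n + 1 : ℕ) : ℝ)) - Real.log (Real.log n) := by
        have := Real.log_le_sub_one_of_pos (div_pos hl hl')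
        rw [Real.log_div hl.ne' hl'.ne'] at this
        linarith
      have h5 : L n * ((Real.log n)⁻¹ - (Real.log ((n + 1 : ℕ) : ℝ))⁻¹)
          ≤ (Real.log n + Real.log 4) * ((Real.log n)⁻¹ - (Real.log ((n + 1 : ℕ) : ℝ))⁻¹) :=
        mul_le_mul_of_nonneg_right h2 h3
      have h6 : (Real.log n + Real.log 4) * ((Real.log n)⁻¹ - (Real.log ((n + 1 : ℕ) : ℝ))⁻¹)
          = 1 - Real.log n / Real.log ((n + 1 : ℕ) : ℝ)
            + Real.log 4 * (Real.log n)⁻¹ - Real.log 4 * (Real.log ((n + 1 : ℕ) : ℝ))⁻¹ := by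
        field_simp
        ring
      have h7 : P n - L n * (Real.log ((n + 1 : ℕ) : ℝ))⁻¹
          = P n - L n * (Real.log n)⁻¹
            + L n * ((Real.log n)⁻¹ - (Real.log ((n + 1 : ℕ) : ℝ))⁻¹) := by ring
      rw [h1, h7]
      linarith
  have h1 := key n hn
  have hn2 : (2 : ℝ) ≤ n := by exact_mod_cast hn
  have h2 : (0.6931 : ℝ) < Real.log 2 := by
    have := Real.log_two_gt_d9; norm_num at this ⊢; linarith
  have h3 : Real.log 2 ≤ Real.log n := Real.log_le_log (by norm_num) hn2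
  have h4 : L n ≤ Real.log n + Real.log 4 :=
    Pool.Agent.Lib.MP_f9aece_nt.sum_log_div_le (n := n) (by omega)
  have h5 : L n * (Real.log n)⁻¹ ≤ (Real.log n + Real.log 4) * (Real.log n)⁻¹ :=
    mul_le_mul_of_nonneg_right h4 (by positivity)
  have h6 : (Real.log n + Real.log 4) * (Real.log n)⁻¹ = 1 + Real.log 4 * (Real.log n)⁻¹ := by
    have : Real.log n ≠ 0 := by linarith
    field_simp
  linarith

/-- the lower bound in Mertens' second theorem -/
theorem P_lower {n : ℕ} (hn : 2 ≤ n) : Real.log (Real.log n) - 1 ≤ P n := by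
  have h1 := Pool.Agent.Lib.MP_f9aece_nt.sum_inv_primes_ge hn
  refine h1.trans ?_
  unfold P
  have h2 : ∑ p ∈ n.primesBelow, (p : ℝ)⁻¹ = ∑ p ∈ n.primesBelow, 1 / (p : ℝ) :=
    sum_congr rfl fun p _ => by rw [one_div]
  rw [h2]
  refine sum_le_sum_of_subset_of_nonneg ?_ fun p _ _ => by positivity
  intro p hp
  rw [Nat.mem_primesBelow] at hp
  rw [mem_filter, mem_Ioc]
  exact ⟨⟨hp.2.pos, hp.1.le⟩, hp.2⟩

/-- the window sum is a difference of prime sums -/
theorem LL_eq (H v1 v2 : ℕ) (h12 : v1 ≤ v2) :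
    LL H v1 v2 = P ⌊Real.exp ((v2 : ℝ) / H)⌋₊ - P ⌊Real.exp ((v1 : ℝ) / H)⌋₊ := by
  unfold LL
  induction v2, h12 using Nat.le_induction with
  | base => simp
  | succ v hv ih =>
    rw [sum_Ico_succ_top hv, ih]
    have hle : ⌊Real.exp ((v : ℝ) / H)⌋₊ ≤ ⌊Real.exp (((v : ℝ) + 1) / H)⌋₊ := by
      apply Nat.floor_le_floor
      apply Real.exp_le_exp.2
      gcongr
      linarith
    have h1 := P_sub hle
    unfold W
    rw [← h1]
    push_cast
    ring

/-- two-sided: `log (v2/v1) - 23 ≤ LL ≤ log (v2/v1) + 23` -/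
theorem window {H v1 v2 : ℕ} (hH : 1 ≤ H) (h1 : H ≤ v1) (h12 : v1 ≤ v2) :
    Real.log ((v2 : ℝ) / v1) - 23 ≤ LL H v1 v2 ∧ LL H v1 v2 ≤ Real.log ((v2 : ℝ) / v1) + 23 := by
  have hH0 : (0 : ℝ) < H := by exact_mod_cast hH
  have hb : ∀ v : ℕ, H ≤ v → Real.log ((v : ℝ) / H) - 3 ≤ P ⌊Real.exp ((v : ℝ) / H)⌋₊ ∧
      P ⌊Real.exp ((v : ℝ) / H)⌋₊ ≤ Real.log ((v : ℝ) / H) + 20 := by
    intro v hv
    have hv1 : (1 : ℝ) ≤ (v : ℝ) / H := by
      rw [le_div_iff₀ hH0, one_mul]
      exact_mod_cast hv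
    set y : ℝ := (v : ℝ) / H with hy
    have he : (2.7 : ℝ) < Real.exp y := by
      have h1 := Real.exp_one_gt_d9
      have h2 := Real.exp_le_exp.2 hv1
      norm_num at h1 ⊢
      linarith
    have hN : 2 ≤ ⌊Real.exp y⌋₊ := by
      apply Nat.le_floor
      push_cast
      linarith
    have hNr : (2 : ℝ) ≤ (⌊Real.exp y⌋₊ : ℝ) := by exact_mod_cast hN
    have hfl : (⌊Real.exp y⌋₊ : ℝ) ≤ Real.exp y := Nat.floor_le (Real.exp_pos _).le
    have hfu := Nat.lt_floor_add_one (Real.exp y)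
    have hlogN : 0 < Real.log (⌊Real.exp y⌋₊ : ℝ) := Real.log_pos (by linarith)
    have hup : Real.log (⌊Real.exp y⌋₊ : ℝ) ≤ y := by
      have := Real.log_le_log (by linarith) hfl
      rwa [Real.log_exp] at this
    have hlo : y / 4 ≤ Real.log (⌊Real.exp y⌋₊ : ℝ) := by
      have h3 : Real.exp y * (3 / 5 : ℝ) ≤ (⌊Real.exp y⌋₊ : ℝ) := by linarith
      have h4 : y - Real.log (5 / 3) ≤ Real.log (⌊Real.exp y⌋₊ : ℝ) := by
        have := Real.log_le_log (by positivity) h3
        rw [Real.log_mul (Real.exp_pos _).ne' (by norm_num), Real.log_exp] at this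
        have h5 : Real.log (3 / 5 : ℝ) = - Real.log (5 / 3) := by
          rw [← Real.log_inv]; norm_num
        linarith
      have h6 : Real.log (5 / 3 : ℝ) ≤ 2 / 3 := by
        have := Real.log_le_sub_one_of_pos (x := (5 / 3 : ℝ)) (by norm_num)
        linarith
      linarith
    refine ⟨?_, ?_⟩
    · have h7 := P_lower hN
      have h8 : Real.log (y / 4) ≤ Real.log (Real.log (⌊Real.exp y⌋₊ : ℝ)) :=
        Real.log_le_log (by positivity) hlo
      rw [Real.log_div (by linarith) (by norm_num)] at h8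
      have h9 : Real.log (4 : ℝ) ≤ 2 := by
        have h10 : Real.log (4 : ℝ) = 2 * Real.log 2 := by
          rw [show (4 : ℝ) = 2 ^ 2 by norm_num, Real.log_pow]; norm_num
        have := Real.log_two_lt_d9
        norm_num at this
        linarith
      linarith
    · have h7 := P_upper hN
      have h8 := Real.log_le_log hlogN hup
      linarith
  have hv1 : (0 : ℝ) < v1 := by exact_mod_cast lt_of_lt_of_le (by omega) h1
  have hv2 : (0 : ℝ) < v2 := by exact_mod_cast lt_of_lt_of_le (by omega) (h1.trans h12)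
  obtain ⟨a1, a2⟩ := hb v1 h1
  obtain ⟨b1, b2⟩ := hb v2 (h1.trans h12)
  rw [LL_eq H v1 v2 h12]
  rw [Real.log_div hv1.ne' hH0.ne'] at a1 a2
  rw [Real.log_div hv2.ne' hH0.ne'] at b1 b2
  rw [Real.log_div hv2.ne' hv1.ne']
  constructor <;> linarith

end Mer

/-- **Row ML.** -/
theorem mertensLower : MertensLower :=
  ⟨1, one_pos, 23, fun H v1 v2 hH h1 h12 => by
    have := (Mer.window hH h1 h12).1
    linarith⟩

/-- the matching upper bound -/
theorem mertens_window_upper {H v1 v2 : ℕ} (hH : 1 ≤ H) (h1 : H ≤ v1) (h12 : v1 ≤ v2) :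
    LL H v1 v2 ≤ Real.log ((v2 : ℝ) / v1) + 23 :=
  (Mer.window hH h1 h12).2

end Pool.Agent.MRL
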