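import Pool.Agent.Lib.MRL.Defs2

/-! TANK MR, row AN: choice of the last level (`NumJ`). helper2. -/

set_option autoImplicit false

namespace Pool.Agent.MRL

open Finset

/-- the ratios `v2_j / H_j` dominate the ratios `v1_j / H_j`. -/
theorem scale_ratio_le (s : Scale) (h2 : s.v1 < s.v2) :
    (s.v1 : ℝ) / s.H ≤ (s.v2 : ℝ) / s.H := by
  have : (s.v1 : ℝ) ≤ s.v2 := by exact_mod_cast h2.le
  exact div_le_div_of_nonneg_right this (Nat.cast_nonneg _)

theorem one_le_ratio (s : Scale) (h1 : 1 ≤ s.H) (h2 : s.H ≤ s.v1) : 1 ≤ (s.v1 : ℝ) / s.H := by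
  have hH : (0 : ℝ) < s.H := by exact_mod_cast h1
  rw [le_div_iff₀ hH, one_mul]
  exact_mod_cast h2

theorem numJ : NumJ := by
  intro K α C θ s hK hα hα4 hC hθ hθ1 hαθ hs
  obtain ⟨hs1, hs2, hs3, hs4, hs5⟩ := hs
  -- notation
  set r : ℕ → ℝ := fun j => ((s j).v2 : ℝ) / (s j).H with hr
  set u : ℕ → ℝ := fun j => ((s j).v1 : ℝ) / (s j).H with hu
  have hur : ∀ j, u j ≤ r j := fun j => scale_ratio_le (s j) (hs1 j).2.2.1
  have hu1 : ∀ j, 1 ≤ u j := fun j => one_le_ratio (s j) (hs1 j).1 (hs1 j).2.1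
  have hr1 : ∀ j, 1 ≤ r j := fun j => (hu1 j).trans (hur j)
  have hα0 : ∀ j, 0 ≤ (s j).α := fun j => le_trans (by linarith) (hs3 j).1
  have hgap : ∀ j, (s (j + 1)).α - (s j).α ≤ α / 2 := fun j => by
    have h1 := (hs3 (j + 1)).2.2
    have h2 := (hs3 j).1
    linarith
  have hgap0 : ∀ j, 0 < (s (j + 1)).α - (s j).α := fun j => by
    have h1 := (hs3 j).2.1
    linarith
  have hgu : ∀ j, ((s (j + 1)).α - (s j).α) * u (j + 1) ≤ u (j + 1) := fun j => by
    have h1 := hgap j
    have h2 := hu1 (j + 1)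
    nlinarith
  have hstep : ∀ j, 12 * r j ≤ r (j + 1) := fun j => by
    have h1 := (hs5 j).1
    have h2 := hgu j
    have h3 := hur (j + 1)
    have h1' : 12 * r j ≤ ((s (j + 1)).α - (s j).α) * u (j + 1) := h1
    linarith
  have hgrow : ∀ j : ℕ, (j : ℝ) ≤ r j := by
    intro j
    induction j with
    | zero => simpa using (zero_le_one.trans (hr1 0))
    | succ j ih =>
      have h1 := hstep j
      have h2 := hr1 j
      push_cast
      linarith
  -- the logarithmic condition (2)
  have hlog : ∀ j, 12 * Real.log (((s j).v2 : ℝ) + 2) ≤ u j := by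
    intro j
    cases j with
    | zero =>
      have h1 : 12 * Real.log (((s 0).v2 : ℝ) + 2) + K ≤ (s 0).α * u 0 := hs4
      have h2 : (s 0).α * u 0 ≤ u 0 := by
        have h3 := (hs3 0).2.2
        have h4 := hu1 0
        nlinarith [hα0 0]
      linarith
    | succ j =>
      have h1 : 12 * Real.log (((s (j + 1)).v2 : ℝ) + 2)
          ≤ ((s (j + 1)).α - (s j).α) * u (j + 1) := (hs5 j).2.1
      have h2 := hgu j
      linarith
  -- choice of `X0`
  refine ⟨Real.exp (16 / θ * r 0 + (16 / θ) ^ 2), fun X hX => ?_⟩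
  have hθ16 : 0 < 16 / θ := by positivity
  have hθ16' : 16 ≤ 16 / θ := by
    rw [le_div_iff₀ hθ]; nlinarith
  have hXpos : 0 < X := lt_of_lt_of_le (Real.exp_pos _) hX
  have hL : 16 / θ * r 0 + (16 / θ) ^ 2 ≤ Real.log X := by
    rw [Real.le_log_iff_exp_le hXpos]; exact hX
  set L : ℝ := Real.log X with hLdef
  have hr0 : 0 ≤ r 0 := zero_le_one.trans (hr1 0)
  have hL1 : 16 / θ * r 0 ≤ L := by nlinarith [sq_nonneg (16 / θ)]
  have hL2 : (16 / θ) ^ 2 ≤ L := by
    have : 0 ≤ 16 / θ * r 0 := mul_nonneg hθ16.le hr0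
    linarith
  have hL0 : 256 ≤ L := by nlinarith
  have hLpos : 0 < L := by linarith
  have hrL : r 0 ≤ θ / 16 * L := by
    have : θ / 16 * (16 / θ * r 0) ≤ θ / 16 * L :=
      mul_le_mul_of_nonneg_left hL1 (by positivity)
    have h2 : θ / 16 * (16 / θ * r 0) = r 0 := by field_simp
    linarith
  -- the first level above the threshold
  have hex : ∃ j : ℕ, θ / 16 * L < r j := by
    obtain ⟨n, hn⟩ := exists_nat_gt (θ / 16 * L)
    exact ⟨n, hn.trans_le (hgrow n)⟩
  classical
  set N := Nat.find hex with hN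
  have hNspec : θ / 16 * L < r N := Nat.find_spec hex
  have hNmin : ∀ j < N, r j ≤ θ / 16 * L := fun j hj => not_lt.1 (Nat.find_min hex hj)
  have hN0 : N ≠ 0 := by
    intro h0
    rw [h0] at hNspec
    linarith
  obtain ⟨J, hJ⟩ := Nat.exists_eq_succ_of_ne_zero hN0
  have hJN : J + 1 = N := hJ.symm
  refine ⟨J, ?_, hlog J, ?_⟩
  · -- lower bound for `u J`
    have h1 : Real.log (C * r (J + 1) + C) ≤ ((s (J + 1)).α - (s J).α) / 2 * u J :=
      (hs5 J).2.2.1
    have hrJ : θ / 16 * L < r (J + 1) := by rw [hJN]; exact hNspec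
    have hsq : √L ≤ θ / 16 * L := by
      have h2 : 16 / θ ≤ √L := by
        rw [← Real.sqrt_sq hθ16.le]
        exact Real.sqrt_le_sqrt hL2
      have h3 : √L * √L = L := Real.mul_self_sqrt hLpos.le
      have h4 : 0 < √L := Real.sqrt_pos.2 hLpos
      have h5 : 1 ≤ θ / 16 * √L := by
        have : θ / 16 * (16 / θ) ≤ θ / 16 * √L :=
          mul_le_mul_of_nonneg_left h2 (by positivity)
        have h6 : θ / 16 * (16 / θ) = 1 := by field_simp
        linarith
      nlinarith
    have hsqpos : 0 < √L := Real.sqrt_pos.2 hLpos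
    have h2 : Real.log (√L) ≤ Real.log (C * r (J + 1) + C) := by
      apply Real.log_le_log hsqpos
      have h3 : 0 ≤ r (J + 1) := zero_le_one.trans (hr1 _)
      nlinarith
    have h3 : Real.log (√L) = Real.log L / 2 := Real.log_sqrt hLpos.le
    have h4 : ((s (J + 1)).α - (s J).α) / 2 * u J ≤ θ / 64 * u J := by
      apply mul_le_mul_of_nonneg_right _ (zero_le_one.trans (hu1 J))
      have := hgap J
      linarith
    have h5 : Real.log L / 2 ≤ θ / 64 * u J := by linarith
    have hlL : 0 ≤ Real.log L := Real.log_nonneg (by linarith)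
    have h6 : 16 / θ * Real.log L ≤ 32 / θ * Real.log L := by
      apply mul_le_mul_of_nonneg_right _ hlL
      apply div_le_div_of_nonneg_right (by norm_num) hθ.le
    have h7 : 32 / θ * Real.log L ≤ u J := by
      have : 64 / θ * (Real.log L / 2) ≤ 64 / θ * (θ / 64 * u J) :=
        mul_le_mul_of_nonneg_left h5 (by positivity)
      have e1 : 64 / θ * (θ / 64 * u J) = u J := by field_simp
      have e2 : 64 / θ * (Real.log L / 2) = 32 / θ * Real.log L := by ring
      linarith
    exact h6.trans h7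
  · intro j hj
    have hj1 : r j ≤ θ / 16 * L := hNmin j (by omega)
    have hj2 : r j ≤ L / 16 := by
      have : θ / 16 * L ≤ 1 / 16 * L := mul_le_mul_of_nonneg_right (by linarith) hLpos.le
      linarith
    refine ⟨hj1, ?_, ?_⟩
    · have h1 : Real.exp (r j) ≤ Real.exp (L / 2) := Real.exp_le_exp.2 (by linarith)
      have h2 : Real.exp (L / 2) = √X := by
        rw [Real.exp_half, hLdef, Real.exp_log hXpos]
      rw [← h2]
      exact h1
    · have h1 : 12 * Real.log (((s j).v2 : ℝ) + 2) ≤ L / 16 :=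
        (hlog j).trans ((hur j).trans hj2)
      have h2 : Real.log (((s j).v2 : ℝ) + 2) ≤ Real.log X := by
        rw [← hLdef]; linarith
      have hpos : (0 : ℝ) < ((s j).v2 : ℝ) + 2 := by positivity
      have h3 : ((s j).v2 : ℝ) + 2 ≤ X := (Real.log_le_log_iff hpos hXpos).1 h2
      have h4 : ((s j).H : ℝ) ≤ (s j).v2 := by
        exact_mod_cast (hs1 j).2.1.trans (hs1 j).2.2.1.le
      linarith

end Pool.Agent.MRL
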