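import Pool.Agent.Lib.MRL.Defs

/-! TANK MR, row PA: existence of the sequence of scales (`params : MertensLower → Params`).
helper32.  `α_j = α(1 - 1/(2(j+1)))`, `H_j = ⌈K(j+1)^2⌉`, `v1_{j+1} = ⌈H_{j+1} exp(Δ_j y_j / 8)⌉` with
`y_j = v1_j / H_j`, `v2_j = ⌈v1_j exp(K'(j+1)^2)⌉`. -/

set_option autoImplicit false

namespace Pool.Agent.MRL

open Finset

theorem pa_exp2 {z : ℝ} (hz : 0 ≤ z) : z ^ 2 / 2 ≤ Real.exp z := by
  have := Real.quadratic_le_exp_of_nonneg hz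
  nlinarith

theorem pa_exp3 {z : ℝ} (hz : 0 ≤ z) : z ^ 3 / 6 ≤ Real.exp z := by
  have := Real.pow_div_factorial_le_exp z hz 3
  norm_num [Nat.factorial] at this
  linarith

/-- the step data at index `n = j + 1`: with `z = Δ y / 8`. -/
structure PaStep (K K' α C n z Δ : ℝ) : Prop where
  hK : 1 ≤ K
  hK' : 1 ≤ K'
  hα : 0 < α
  hC : 1 ≤ C
  hn : 1 ≤ n
  hΔ : Δ = α / (2 * n * (n + 1))
  hz : 1000 * (K' + K + C + 1 / α) * n ^ 2 ≤ z

namespace PaStep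

variable {K K' α C n z Δ : ℝ}

theorem Δ_pos (h : PaStep K K' α C n z Δ) : 0 < Δ := by
  have h1 := h.hn
  have h2 := h.hα
  rw [h.hΔ]; positivity

theorem n2 (h : PaStep K K' α C n z Δ) : 1 ≤ n ^ 2 := by
  have h1 := h.hn
  nlinarith

theorem zK' (h : PaStep K K' α C n z Δ) : 1000 * (K' * n ^ 2) ≤ z := by
  have h1 := h.hz; have h2 := h.n2; have h3 := h.hK; have h4 := h.hC
  have h5 : 0 < 1 / α := one_div_pos.2 h.hα
  nlinarith [mul_nonneg (by linarith : (0:ℝ) ≤ K + C + 1 / α) (by linarith : (0:ℝ) ≤ n ^ 2)]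

theorem zK (h : PaStep K K' α C n z Δ) : 1000 * (K * n ^ 2) ≤ z := by
  have h1 := h.hz; have h2 := h.n2; have h3 := h.hK'; have h4 := h.hC
  have h5 : 0 < 1 / α := one_div_pos.2 h.hα
  nlinarith [mul_nonneg (by linarith : (0:ℝ) ≤ K' + C + 1 / α) (by linarith : (0:ℝ) ≤ n ^ 2)]

theorem zC (h : PaStep K K' α C n z Δ) : 1000 * (C * n ^ 2) ≤ z := by
  have h1 := h.hz; have h2 := h.n2; have h3 := h.hK'; have h4 := h.hK
  have h5 : 0 < 1 / α := one_div_pos.2 h.hα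
  nlinarith [mul_nonneg (by linarith : (0:ℝ) ≤ K' + K + 1 / α) (by linarith : (0:ℝ) ≤ n ^ 2)]

theorem zα (h : PaStep K K' α C n z Δ) : 1000 * (1 / α * n ^ 2) ≤ z := by
  have h1 := h.hz; have h2 := h.n2; have h3 := h.hK'; have h4 := h.hK; have h6 := h.hC
  have h5 : 0 < 1 / α := one_div_pos.2 h.hα
  nlinarith [mul_nonneg (by linarith : (0:ℝ) ≤ K' + K + C) (by linarith : (0:ℝ) ≤ n ^ 2)]

theorem z_large (h : PaStep K K' α C n z Δ) : 1000 ≤ z := by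
  have h1 := h.zK; have h2 := h.n2; have h3 := h.hK
  nlinarith

theorem zΔ (h : PaStep K K' α C n z Δ) : 1 / Δ ≤ z / 96 := by
  have h1 := h.zα
  have h2 := h.hn
  have h3 := h.hα
  have h4 : 1 / Δ ≤ 4 * (1 / α * n ^ 2) := by
    rw [h.hΔ, one_div_div, div_le_iff₀ h3]
    have : 4 * (1 / α * n ^ 2) * α = 4 * n ^ 2 := by field_simp
    rw [this]
    nlinarith
  have h5 : 0 ≤ 1 / α * n ^ 2 := by positivity
  linarith

/-- the next invariant. -/
theorem next (h : PaStep K K' α C n z Δ) {y' Δ' : ℝ} (hy : Real.exp z ≤ y')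
    (hΔ' : Δ' = α / (2 * (n + 1) * (n + 1 + 1))) :
    PaStep K K' α C (n + 1) (Δ' / 8 * y') Δ' := by
  have hn := h.hn
  have hα := h.hα
  refine ⟨h.hK, h.hK', h.hα, h.hC, by linarith, hΔ', ?_⟩
  have hz0 : 0 < z := by linarith [h.z_large]
  have hzl := h.z_large
  have h1 := h.zα
  have hΔ'0 : 0 < Δ' := by rw [hΔ']; positivity
  -- `Δ' ≥ α / (16 n^2)`... `1 ≤ Δ' z / 24`
  have h2 : 1 ≤ Δ' * (z / 24) := by
    have h3 : 1 / Δ' ≤ z / 24 := by
      have h4 : 1 / Δ' ≤ 16 * (1 / α * n ^ 2) := by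
        rw [hΔ', one_div_div, div_le_iff₀ hα]
        have : 16 * (1 / α * n ^ 2) * α = 16 * n ^ 2 := by field_simp
        rw [this]
        nlinarith
      have h5 : 0 ≤ 1 / α * n ^ 2 := by positivity
      linarith
    rw [div_le_iff₀ hΔ'0] at h3
    linarith
  -- `Δ'/8 y' ≥ Δ'/8 z^3/6 ≥ z^2/2`
  have h3 := pa_exp3 hz0.le
  have h4 : z ^ 2 / 2 ≤ Δ' / 8 * y' := by
    calc z ^ 2 / 2 = 1 * (z ^ 2 / 2) := by ring
      _ ≤ (Δ' * (z / 24)) * (z ^ 2 / 2) := by gcongr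
      _ = Δ' / 8 * (z ^ 3 / 6) := by ring
      _ ≤ Δ' / 8 * y' := by gcongr; linarith
  have h5 : 4 * z ≤ z ^ 2 / 2 := by nlinarith
  have h6 : 1000 * (K' + K + C + 1 / α) * (n + 1) ^ 2 ≤ 4 * (1000 * (K' + K + C + 1 / α) * n ^ 2) := by
    have h7 : (n + 1) ^ 2 ≤ 4 * n ^ 2 := by nlinarith
    have h8 : 0 ≤ 1000 * (K' + K + C + 1 / α) := by
      have := h.hK; have := h.hK'; have := h.hC
      have : 0 < 1 / α := one_div_pos.2 h.hα
      linarith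
    nlinarith [mul_le_mul_of_nonneg_left h7 h8]
  linarith [h.hz]

/-- (5a). -/
theorem a5 (h : PaStep K K' α C n z Δ) {y y' w : ℝ} (hz : z = Δ / 8 * y)
    (hw : w ≤ 2 * y * Real.exp (K' * n ^ 2)) (hy : Real.exp z ≤ y') : 12 * w ≤ Δ * y' := by
  have hΔ := h.Δ_pos
  have hzl := h.z_large
  have hz0 : 0 < z := by linarith
  have h1 : Real.exp (K' * n ^ 2) ≤ Real.exp (z / 2) := by
    apply Real.exp_le_exp.2
    have := h.zK'
    linarith
  have h2 : 1 ≤ Δ * (z / 96) := by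
    have := h.zΔ
    rw [div_le_iff₀ hΔ] at this
    linarith
  have h3 : y = 8 * z / Δ := by rw [hz]; field_simp
  have h4 := pa_exp3 (z := z / 2) (by positivity)
  have h5 : Real.exp z = Real.exp (z / 2) * Real.exp (z / 2) := by
    rw [← Real.exp_add]; congr 1; ring
  have h6 : 0 < Real.exp (z / 2) := Real.exp_pos _
  have h7 : 12 * w ≤ 192 * z / Δ * Real.exp (z / 2) := by
    have hy0 : 0 ≤ y := by rw [h3]; positivity
    calc 12 * w ≤ 12 * (2 * y * Real.exp (K' * n ^ 2)) := by gcongr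
      _ ≤ 12 * (2 * y * Real.exp (z / 2)) := by gcongr
      _ = 192 * z / Δ * Real.exp (z / 2) := by rw [h3]; ring
  -- need `192 z / Δ ≤ Δ exp(z/2)`
  have h8 : 192 * z / Δ ≤ Δ * Real.exp (z / 2) := by
    rw [div_le_iff₀ hΔ]
    -- `Δ^2 exp(z/2) ≥ Δ^2 z^3/48 ≥ 192 z` as `Δ z ≥ 96`
    have h9 : 96 ≤ Δ * z := by linarith
    have h10 : 9216 ≤ (Δ * z) ^ 2 := by nlinarith
    calc 192 * z = 9216 * (z / 48) := by ring
      _ ≤ (Δ * z) ^ 2 * (z / 48) := by gcongr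
      _ = Δ * ((z / 2) ^ 3 / 6) * Δ := by ring
      _ ≤ Δ * Real.exp (z / 2) * Δ := by gcongr
  calc 12 * w ≤ 192 * z / Δ * Real.exp (z / 2) := h7
    _ ≤ Δ * Real.exp (z / 2) * Real.exp (z / 2) := by gcongr
    _ = Δ * Real.exp z := by rw [h5]; ring
    _ ≤ Δ * y' := by gcongr

/-- (5b). -/
theorem b5 (h : PaStep K K' α C n z Δ) {y' u H' : ℝ} (hH' : 0 < H')
    (hH : H' ≤ 2 * K * (n + 1) ^ 2) (hu0 : 0 < u)
    (hu : u ≤ 6 * (H' * y') * Real.exp (K' * (n + 1) ^ 2)) (hy : Real.exp z ≤ y')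
    (hy2 : y' ≤ 2 * Real.exp z) : 12 * Real.log u ≤ Δ * y' := by
  have hΔ := h.Δ_pos
  have hzl := h.z_large
  have hz0 : 0 < z := by linarith
  have hn := h.hn
  have hK := h.hK
  have hK' := h.hK'
  have h1 : u ≤ 12 * H' * Real.exp (z + K' * (n + 1) ^ 2) := by
    calc u ≤ 6 * (H' * y') * Real.exp (K' * (n + 1) ^ 2) := hu
      _ ≤ 6 * (H' * (2 * Real.exp z)) * Real.exp (K' * (n + 1) ^ 2) := by gcongr
      _ = 12 * H' * Real.exp (z + K' * (n + 1) ^ 2) := by rw [Real.exp_add]; ring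
  have h2 : Real.log u ≤ 12 * H' + (z + K' * (n + 1) ^ 2) := by
    calc Real.log u ≤ Real.log (12 * H' * Real.exp (z + K' * (n + 1) ^ 2)) :=
          Real.log_le_log hu0 h1
      _ = Real.log (12 * H') + (z + K' * (n + 1) ^ 2) := by
          rw [Real.log_mul (by positivity) (Real.exp_ne_zero _), Real.log_exp]
      _ ≤ 12 * H' + (z + K' * (n + 1) ^ 2) := by
          have := Real.log_le_sub_one_of_pos (show 0 < 12 * H' by positivity)
          linarith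
  have h7 : (n + 1) ^ 2 ≤ 4 * n ^ 2 := by nlinarith
  have h3 : Real.log u ≤ 2 * z := by
    have h8 := h.zK
    have h9 := h.zK'
    have h10 : H' ≤ 8 * (K * n ^ 2) := by
      calc H' ≤ 2 * K * (n + 1) ^ 2 := hH
        _ ≤ 2 * K * (4 * n ^ 2) := by gcongr
        _ = 8 * (K * n ^ 2) := by ring
    have h11 : K' * (n + 1) ^ 2 ≤ 4 * (K' * n ^ 2) := by
      calc K' * (n + 1) ^ 2 ≤ K' * (4 * n ^ 2) := by gcongr
        _ = 4 * (K' * n ^ 2) := by ring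
    linarith
  have h4 : 1 ≤ Δ * (z / 96) := by
    have := h.zΔ
    rw [div_le_iff₀ hΔ] at this
    linarith
  have h5 := pa_exp2 hz0.le
  calc 12 * Real.log u ≤ 24 * z := by linarith
    _ = 1 * (24 * z) := by ring
    _ ≤ (Δ * (z / 96)) * (24 * z) := by gcongr
    _ = Δ * (z ^ 2 / 4) := by ring
    _ ≤ Δ * y' := by gcongr; nlinarith [sq_nonneg z]

/-- (5c). -/
theorem c5 (h : PaStep K K' α C n z Δ) {y y' w : ℝ} (hz : z = Δ / 8 * y) (hw0 : 1 ≤ w)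
    (hw : w ≤ 2 * y' * Real.exp (K' * (n + 1) ^ 2)) (hy2 : y' ≤ 2 * Real.exp z) :
    Real.log (C * w + C) ≤ Δ / 2 * y := by
  have hΔ := h.Δ_pos
  have hzl := h.z_large
  have hn := h.hn
  have hC := h.hC
  have hK' := h.hK'
  have h1 : C * w + C ≤ 8 * C * Real.exp (z + K' * (n + 1) ^ 2) := by
    calc C * w + C ≤ 2 * C * w := by nlinarith
      _ ≤ 2 * C * (2 * y' * Real.exp (K' * (n + 1) ^ 2)) := by gcongr
      _ ≤ 2 * C * (2 * (2 * Real.exp z) * Real.exp (K' * (n + 1) ^ 2)) := by gcongr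
      _ = 8 * C * Real.exp (z + K' * (n + 1) ^ 2) := by rw [Real.exp_add]; ring
  have h2 : Real.log (C * w + C) ≤ 8 * C + (z + K' * (n + 1) ^ 2) := by
    calc Real.log (C * w + C) ≤ Real.log (8 * C * Real.exp (z + K' * (n + 1) ^ 2)) :=
          Real.log_le_log (by positivity) h1
      _ = Real.log (8 * C) + (z + K' * (n + 1) ^ 2) := by
          rw [Real.log_mul (by positivity) (Real.exp_ne_zero _), Real.log_exp]
      _ ≤ 8 * C + (z + K' * (n + 1) ^ 2) := by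
          have := Real.log_le_sub_one_of_pos (show 0 < 8 * C by positivity)
          linarith
  have h7 : (n + 1) ^ 2 ≤ 4 * n ^ 2 := by nlinarith
  have h8 := h.zC
  have h9 := h.zK'
  have h10 := h.n2
  have h11 : K' * (n + 1) ^ 2 ≤ 4 * (K' * n ^ 2) := by
    calc K' * (n + 1) ^ 2 ≤ K' * (4 * n ^ 2) := by gcongr
      _ = 4 * (K' * n ^ 2) := by ring
  have h12 : C ≤ C * n ^ 2 := by nlinarith
  have h13 : Δ / 2 * y = 4 * z := by rw [hz]; ring
  rw [h13]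
  linarith

/-- (5d). -/
theorem d5 (h : PaStep K K' α C n z Δ) {y' : ℝ} (hy : Real.exp z ≤ y') :
    K + (n - 1) ≤ Δ * y' := by
  have hΔ := h.Δ_pos
  have hzl := h.z_large
  have hz0 : 0 < z := by linarith
  have hn := h.hn
  have hK := h.hK
  have h1 : K + (n - 1) ≤ z := by
    have h2 := h.zK
    have h3 := h.n2
    have h4 : n ≤ n ^ 2 := by nlinarith
    nlinarith [mul_nonneg (by linarith : (0:ℝ) ≤ K - 1) (by linarith : (0:ℝ) ≤ n ^ 2 - 1)]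
  have h4 : 1 ≤ Δ * (z / 96) := by
    have := h.zΔ
    rw [div_le_iff₀ hΔ] at this
    linarith
  have h5 := pa_exp2 hz0.le
  calc K + (n - 1) ≤ z := h1
    _ = 1 * z := by ring
    _ ≤ (Δ * (z / 96)) * z := by gcongr
    _ = Δ * (z ^ 2 / 96) := by ring
    _ ≤ Δ * y' := by gcongr; nlinarith [sq_nonneg z]

end PaStep

/-- row PA. -/
theorem params (hML : MertensLower) : Params := by
  intro K α C hK hα hα4 hC
  obtain ⟨c, hc, CM, hM⟩ := hML
  obtain ⟨K', hK'def⟩ : ∃ K' : ℝ, K' = (K + |CM|) / c + 1 := ⟨_, rfl⟩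
  have hK'1 : 1 ≤ K' := by
    rw [hK'def]
    have : 0 ≤ (K + |CM|) / c := by positivity
    linarith
  have hK'c : K + |CM| ≤ c * K' := by
    rw [hK'def, mul_add, mul_div_cancel₀ _ hc.ne']
    linarith
  obtain ⟨M, hMdef⟩ : ∃ M : ℝ, M = 1000 * (K' + K + C + 1 / α) := ⟨_, rfl⟩
  have hα1 : 0 < 1 / α := one_div_pos.2 hα
  have hM1 : 1000 ≤ M := by rw [hMdef]; nlinarith
  -- the sequences
  obtain ⟨Hs, hHs⟩ : ∃ Hs : ℕ → ℕ, ∀ j, Hs j = ⌈K * ((j : ℝ) + 1) ^ 2⌉₊ := ⟨_, fun _ => rfl⟩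
  obtain ⟨D, hD⟩ : ∃ D : ℕ → ℝ, ∀ j : ℕ, D j = α / (2 * ((j : ℝ) + 1) * ((j : ℝ) + 1 + 1)) :=
    ⟨_, fun _ => rfl⟩
  obtain ⟨V, hV0, hVs⟩ : ∃ V : ℕ → ℕ, V 0 = ⌈(Hs 0 : ℝ) * (32 / α * M)⌉₊ ∧
      ∀ j, V (j + 1) = ⌈(Hs (j + 1) : ℝ) * Real.exp (D j / 8 * ((V j : ℝ) / Hs j))⌉₊ :=
    ⟨fun j => Nat.rec ⌈(Hs 0 : ℝ) * (32 / α * M)⌉₊
      (fun i v => ⌈(Hs (i + 1) : ℝ) * Real.exp (D i / 8 * ((v : ℝ) / Hs i))⌉₊) j,
      rfl, fun _ => rfl⟩
  obtain ⟨V2, hV2⟩ : ∃ V2 : ℕ → ℕ, ∀ j, V2 j = ⌈(V j : ℝ) * Real.exp (K' * ((j : ℝ) + 1) ^ 2)⌉₊ :=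
    ⟨_, fun _ => rfl⟩
  -- bounds for `H`
  have hn1 : ∀ j : ℕ, (1 : ℝ) ≤ (j : ℝ) + 1 := fun j => by
    have : (0 : ℝ) ≤ j := j.cast_nonneg
    linarith
  have hn2 : ∀ j : ℕ, (1 : ℝ) ≤ ((j : ℝ) + 1) ^ 2 := fun j => by
    have := hn1 j
    nlinarith
  have hKn : ∀ j : ℕ, (1 : ℝ) ≤ K * ((j : ℝ) + 1) ^ 2 := fun j => by
    have := hn2 j
    nlinarith
  have hHlow : ∀ j : ℕ, K * ((j : ℝ) + 1) ^ 2 ≤ Hs j := fun j => by
    rw [hHs]; exact Nat.le_ceil _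
  have hHup : ∀ j, (Hs j : ℝ) ≤ 2 * K * ((j : ℝ) + 1) ^ 2 := fun j => by
    rw [hHs]
    have h1 := (Nat.ceil_lt_add_one (show 0 ≤ K * ((j : ℝ) + 1) ^ 2 by positivity)).le
    have h2 := hKn j
    linarith
  have hHr1 : ∀ j, (1 : ℝ) ≤ Hs j := fun j => (hKn j).trans (hHlow j)
  have hH1 : ∀ j, 1 ≤ Hs j := fun j => by exact_mod_cast hHr1 j
  have hHmono : ∀ j, Hs j ≤ Hs (j + 1) := fun j => by
    rw [hHs, hHs]
    apply Nat.ceil_mono
    have := hn1 j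
    push_cast
    gcongr
    linarith
  have hHpos : ∀ j, (0 : ℝ) < Hs j := fun j => by linarith [hHr1 j]
  -- lower and upper bounds for `y_j`
  have hy0 : 32 / α * M ≤ (V 0 : ℝ) / Hs 0 := by
    rw [le_div_iff₀ (hHpos 0), hV0]
    calc 32 / α * M * Hs 0 = Hs 0 * (32 / α * M) := by ring
      _ ≤ _ := Nat.le_ceil _
  have hyl : ∀ j, Real.exp (D j / 8 * ((V j : ℝ) / Hs j)) ≤ (V (j + 1) : ℝ) / Hs (j + 1) :=
    fun j => by
      rw [le_div_iff₀ (hHpos (j + 1)), hVs]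
      calc _ = (Hs (j + 1) : ℝ) * Real.exp (D j / 8 * ((V j : ℝ) / Hs j)) := by ring
        _ ≤ _ := Nat.le_ceil _
  have hDpos : ∀ j, 0 < D j := fun j => by
    rw [hD]
    have := hn1 j
    positivity
  have hyu : ∀ j, (V (j + 1) : ℝ) / Hs (j + 1) ≤ 2 * Real.exp (D j / 8 * ((V j : ℝ) / Hs j)) :=
    fun j => by
      rw [div_le_iff₀ (hHpos (j + 1)), hVs]
      have h1 := (Nat.ceil_lt_add_one
        (show 0 ≤ (Hs (j + 1) : ℝ) * Real.exp (D j / 8 * ((V j : ℝ) / Hs j)) by positivity)).le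
      have h2 : 1 ≤ Real.exp (D j / 8 * ((V j : ℝ) / Hs j)) := by
        apply Real.one_le_exp
        have := hDpos j
        positivity
      have h3 := hHr1 (j + 1)
      nlinarith [mul_le_mul h3 h2 zero_le_one (by linarith)]
  -- the invariant
  have hstep : ∀ j : ℕ, PaStep K K' α C ((j : ℝ) + 1) (D j / 8 * ((V j : ℝ) / Hs j)) (D j) := by
    intro j
    induction j with
    | zero =>
      refine ⟨hK, hK'1, hα, hC, by simp, by rw [hD], ?_⟩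
      have h1 : D 0 = α / 4 := by rw [hD]; norm_num
      rw [h1, ← hMdef]
      calc M * (((0 : ℕ) : ℝ) + 1) ^ 2 = α / 4 / 8 * (32 / α * M) := by
            push_cast; field_simp; norm_num
        _ ≤ α / 4 / 8 * ((V 0 : ℝ) / Hs 0) := by gcongr
    | succ j ih =>
      have h1 := ih.next (y' := (V (j + 1) : ℝ) / Hs (j + 1)) (Δ' := D (j + 1)) (hyl j)
        (by rw [hD]; push_cast; rfl)
      have h2 : (((j + 1 : ℕ) : ℝ) + 1) = (j : ℝ) + 1 + 1 := by push_cast; ring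
      rw [h2]
      exact h1
  -- `y_j ≥ 1`
  have hy1 : ∀ j, (1 : ℝ) ≤ (V j : ℝ) / Hs j := fun j => by
    have h1 := (hstep j).z_large
    have h2 : D j ≤ 1 := by
      rw [hD, div_le_one (by have := hn1 j; positivity)]
      have := hn1 j
      nlinarith
    have h3 : 0 ≤ (V j : ℝ) / Hs j := by positivity
    have h4 := hDpos j
    nlinarith
  have hHV : ∀ j, Hs j ≤ V j := fun j => by
    have h1 := hy1 j
    rw [le_div_iff₀ (hHpos j), one_mul] at h1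
    exact_mod_cast h1
  have hV1 : ∀ j, (1 : ℝ) ≤ V j := fun j => by
    have h1 : (Hs j : ℝ) ≤ V j := by exact_mod_cast hHV j
    linarith [hHr1 j]
  have hE : ∀ j : ℕ, 1 < Real.exp (K' * ((j : ℝ) + 1) ^ 2) := fun j => by
    apply Real.one_lt_exp_iff.2
    have := hn2 j
    positivity
  have hV2l : ∀ j, (V j : ℝ) * Real.exp (K' * ((j : ℝ) + 1) ^ 2) ≤ V2 j := fun j => by
    rw [hV2]; exact Nat.le_ceil _
  have hV2u : ∀ j, (V2 j : ℝ) ≤ 2 * V j * Real.exp (K' * ((j : ℝ) + 1) ^ 2) := fun j => by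
    rw [hV2]
    have h1 := (Nat.ceil_lt_add_one
      (show 0 ≤ (V j : ℝ) * Real.exp (K' * ((j : ℝ) + 1) ^ 2) by positivity)).le
    have h2 := hV1 j
    have h3 := hE j
    nlinarith [mul_le_mul h2 h3.le zero_le_one (by linarith)]
  have hVV2 : ∀ j, V j < V2 j := fun j => by
    have h1 := hV2l j
    have h2 := hE j
    have h3 := hV1 j
    have : (V j : ℝ) < V2 j := by nlinarith
    exact_mod_cast this
  have hV2u' : ∀ j, (V2 j : ℝ) + 2 ≤ 6 * V j * Real.exp (K' * ((j : ℝ) + 1) ^ 2) := fun j => by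
    have h1 := hV2u j
    have h2 : (1 : ℝ) ≤ V2 j := by
      have h3 := hV1 j
      have h4 : (V j : ℝ) < V2 j := by exact_mod_cast hVV2 j
      linarith
    linarith
  have hVeq : ∀ j, (Hs j : ℝ) * ((V j : ℝ) / Hs j) = V j := fun j =>
    mul_div_cancel₀ _ (hHpos j).ne'
  have hV2Hu : ∀ j, (V2 j : ℝ) / Hs j ≤ 2 * ((V j : ℝ) / Hs j) * Real.exp (K' * ((j : ℝ) + 1) ^ 2) :=
    fun j => by
      rw [div_le_iff₀ (hHpos j)]
      calc (V2 j : ℝ) ≤ 2 * V j * Real.exp (K' * ((j : ℝ) + 1) ^ 2) := hV2u j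
        _ = 2 * (Hs j * ((V j : ℝ) / Hs j)) * Real.exp (K' * ((j : ℝ) + 1) ^ 2) := by rw [hVeq]
        _ = _ := by ring
  have hV2H1 : ∀ j, (1 : ℝ) ≤ (V2 j : ℝ) / Hs j := fun j => by
    have h1 : (V j : ℝ) ≤ V2 j := by exact_mod_cast (hVV2 j).le
    calc (1 : ℝ) ≤ (V j : ℝ) / Hs j := hy1 j
      _ ≤ (V2 j : ℝ) / Hs j := by gcongr
  -- the increments of `α_j`
  have hal : ∀ j : ℕ, α * (1 - 1 / (2 * (((j + 1 : ℕ) : ℝ) + 1))) - α * (1 - 1 / (2 * ((j : ℝ) + 1)))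
      = D j := fun j => by
    rw [hD]
    have := hn1 j
    push_cast
    field_simp
    ring
  refine ⟨fun j => ⟨Hs j, V j, V2 j, α * (1 - 1 / (2 * ((j : ℝ) + 1)))⟩, ?_, ?_, ?_, ?_, ?_⟩
  · intro j
    exact ⟨hH1 j, hHV j, hVV2 j, hHmono j⟩
  · intro j
    refine ⟨hHlow j, ?_⟩
    refine le_trans ?_ (hM (Hs j) (V j) (V2 j) (hH1 j) (hHV j) (hVV2 j).le)
    have h1 : K' * ((j : ℝ) + 1) ^ 2 ≤ Real.log ((V2 j : ℝ) / V j) := by
      rw [Real.le_log_iff_exp_le (by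
        have h2 := hV1 j
        have h3 : (V j : ℝ) < V2 j := by exact_mod_cast hVV2 j
        apply div_pos <;> linarith), le_div_iff₀ (by linarith [hV1 j]), mul_comm]
      exact hV2l j
    have h2 : c * (K' * ((j : ℝ) + 1) ^ 2) ≤ c * Real.log ((V2 j : ℝ) / V j) := by gcongr
    have h3 := hn2 j
    have h4 : CM ≤ |CM| := le_abs_self _
    have h5 : (K + |CM|) * ((j : ℝ) + 1) ^ 2 ≤ c * K' * ((j : ℝ) + 1) ^ 2 := by gcongr
    have h6 : |CM| ≤ |CM| * ((j : ℝ) + 1) ^ 2 := by nlinarith [abs_nonneg CM]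
    nlinarith
  · intro j
    have h0 := hn1 j
    have h1 := hal j
    have h2 := hDpos j
    refine ⟨?_, ?_, ?_⟩
    · show α / 2 ≤ α * (1 - 1 / (2 * ((j : ℝ) + 1)))
      have h3 : 1 / (2 * ((j : ℝ) + 1)) ≤ 1 / 2 := by
        apply one_div_le_one_div_of_le (by norm_num)
        linarith
      nlinarith
    · show α * (1 - 1 / (2 * ((j : ℝ) + 1))) < α * (1 - 1 / (2 * (((j + 1 : ℕ) : ℝ) + 1)))
      linarith
    · show α * (1 - 1 / (2 * ((j : ℝ) + 1))) ≤ α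
      have h3 : 0 ≤ 1 / (2 * ((j : ℝ) + 1)) := by positivity
      nlinarith
  · show 12 * Real.log ((V2 0 : ℝ) + 2) + K
      ≤ α * (1 - 1 / (2 * (((0 : ℕ) : ℝ) + 1))) * ((V 0 : ℝ) / Hs 0)
    have hs := hstep 0
    obtain ⟨z, hz⟩ : ∃ z, z = D 0 / 8 * ((V 0 : ℝ) / Hs 0) := ⟨_, rfl⟩
    rw [← hz] at hs
    have h1 : D 0 = α / 4 := by rw [hD]; norm_num
    have h2 : (V 0 : ℝ) / Hs 0 = 32 / α * z := by rw [hz, h1]; field_simp; ring
    have hzl := hs.z_large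
    have h3 : α * (1 - 1 / (2 * (((0 : ℕ) : ℝ) + 1))) * ((V 0 : ℝ) / Hs 0) = 16 * z := by
      rw [h2]; push_cast; field_simp; norm_num
    rw [h3]
    have h4 : (V2 0 : ℝ) + 2 ≤ (6 * Hs 0) * (32 / α) * z * Real.exp (K' * (((0 : ℕ) : ℝ) + 1) ^ 2) := by
      calc (V2 0 : ℝ) + 2 ≤ 6 * V 0 * Real.exp (K' * (((0 : ℕ) : ℝ) + 1) ^ 2) := hV2u' 0
        _ = 6 * (Hs 0 * ((V 0 : ℝ) / Hs 0)) * Real.exp (K' * (((0 : ℕ) : ℝ) + 1) ^ 2) := by
            rw [hVeq]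
        _ = _ := by rw [h2]; ring
    have hz0 : 0 < z := by linarith
    have h5 : z ≤ Real.exp (z / 2) := by
      have := pa_exp2 (z := z / 2) (by linarith)
      nlinarith
    have hH0 := hHpos 0
    have h6 : Real.log ((V2 0 : ℝ) + 2) ≤ 6 * Hs 0 + 32 / α + z / 2 + K' := by
      have h7 : (V2 0 : ℝ) + 2 ≤ (6 * Hs 0) * (32 / α) * Real.exp (z / 2) * Real.exp K' := by
        refine h4.trans ?_
        have : K' * (((0 : ℕ) : ℝ) + 1) ^ 2 = K' := by push_cast; ring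
        rw [this]
        gcongr
      calc Real.log ((V2 0 : ℝ) + 2)
          ≤ Real.log ((6 * Hs 0) * (32 / α) * Real.exp (z / 2) * Real.exp K') :=
            Real.log_le_log (by positivity) h7
        _ = Real.log (6 * Hs 0) + Real.log (32 / α) + z / 2 + K' := by
            rw [Real.log_mul (by positivity) (Real.exp_ne_zero _),
              Real.log_mul (by positivity) (Real.exp_ne_zero _),
              Real.log_mul (by positivity) (by positivity), Real.log_exp, Real.log_exp]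
        _ ≤ 6 * Hs 0 + 32 / α + z / 2 + K' := by
            have h8 := Real.log_le_sub_one_of_pos (show 0 < 6 * (Hs 0 : ℝ) by positivity)
            have h9 := Real.log_le_sub_one_of_pos (show 0 < 32 / α by positivity)
            linarith
    have h8 := hHup 0
    have e0 : (((0 : ℕ) : ℝ) + 1) ^ 2 = 1 := by push_cast; ring
    rw [e0] at h8
    have h9 := hs.zK
    have h10 := hs.zK'
    have h11 := hs.zα
    rw [e0] at h9 h10 h11
    have h12 : 32 / α = 32 * (1 / α) := by ring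
    rw [h12] at h6
    linarith
  · intro j
    have hs := hstep j
    have h0 := hn1 j
    have ej : (((j + 1 : ℕ) : ℝ) + 1) = (j : ℝ) + 1 + 1 := by push_cast; ring
    refine ⟨?_, ?_, ?_, ?_⟩
    · show 12 * ((V2 j : ℝ) / Hs j) ≤ (α * (1 - 1 / (2 * (((j + 1 : ℕ) : ℝ) + 1)))
        - α * (1 - 1 / (2 * ((j : ℝ) + 1)))) * ((V (j + 1) : ℝ) / Hs (j + 1))
      rw [hal]
      exact hs.a5 rfl (hV2Hu j) (hyl j)
    · show 12 * Real.log ((V2 (j + 1) : ℝ) + 2) ≤ (α * (1 - 1 / (2 * (((j + 1 : ℕ) : ℝ) + 1)))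
        - α * (1 - 1 / (2 * ((j : ℝ) + 1)))) * ((V (j + 1) : ℝ) / Hs (j + 1))
      rw [hal]
      have h1 := hHup (j + 1)
      have h2 := hV2u' (j + 1)
      rw [ej] at h1 h2
      refine hs.b5 (hHpos (j + 1)) h1 (by positivity) ?_ (hyl j) (hyu j)
      rw [hVeq]
      exact h2
    · show Real.log (C * ((V2 (j + 1) : ℝ) / Hs (j + 1)) + C)
        ≤ (α * (1 - 1 / (2 * (((j + 1 : ℕ) : ℝ) + 1)))
        - α * (1 - 1 / (2 * ((j : ℝ) + 1)))) / 2 * ((V j : ℝ) / Hs j)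
      rw [hal]
      have h2 := hV2Hu (j + 1)
      rw [ej] at h2
      exact hs.c5 rfl (hV2H1 (j + 1)) h2 (hyu j)
    · show K + (j : ℝ) ≤ (α * (1 - 1 / (2 * (((j + 1 : ℕ) : ℝ) + 1)))
        - α * (1 - 1 / (2 * ((j : ℝ) + 1)))) * ((V (j + 1) : ℝ) / Hs (j + 1))
      rw [hal]
      have h1 := hs.d5 (hyl j)
      linarith

end Pool.Agent.MRL
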