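import Pool.Agent.Lib.MRL.FLa
import Pool.Agent.Lib.MRL.FLb

/-! TANK MR, row FL: `ZetaUp → FlUp`.  helper44 (half b), helper24 (half a). -/

set_option autoImplicit false

namespace Pool.Agent.MRL

open Complex

/-- row FL. -/
theorem flUp (hZ : ZetaUp) : FlUp := by
  refine FL.flUp_of ⟨2, by norm_num, fun a τ ha => FL.norm_Fl_mul_le ha⟩ ?_ hZ
  obtain ⟨c, hc, h⟩ := FL.zeta_lower_near_one
  exact ⟨c⁻¹, by positivity, fun a τ ha ha1 hτ => by rw [inv_inv]; exact h a τ ha ha1 hτ⟩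

end Pool.Agent.MRL
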