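import Pool.Agent.Lib.MRL.HalF
import Pool.Agent.Lib.MRL.Basics

/-! # Row HZ: `FlUp → Halasz` -/

set_option autoImplicit false

namespace Pool.Agent.MRL

open Finset Pool.Agent.MRHal Complex Pool.Agent.MRL.Bas

/-- `λ(n) n^{-it}`, zero at `0`. -/
noncomputable def lt (t : ℝ) (n : ℕ) : ℂ := if n = 0 then 0 else ((lam n : ℝ) : ℂ) * nt n t

theorem lt_zero (t : ℝ) : lt t 0 = 0 := by simp [lt]

theorem lt_pos (t : ℝ) {n : ℕ} (hn : n ≠ 0) : lt t n = ((lam n : ℝ) : ℂ) * nt n t := by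
  rw [lt, if_neg hn]

theorem cm_lt (t : ℝ) : CM (lt t) where
  one := by
    rw [lt_pos t one_ne_zero]
    simp [lam, nt]
  mul := by
    intro m n
    rcases Nat.eq_zero_or_pos m with rfl | hm
    · rw [zero_mul, lt_zero, zero_mul]
    rcases Nat.eq_zero_or_pos n with rfl | hn
    · rw [mul_zero, lt_zero, mul_zero]
    rw [lt_pos t hm.ne', lt_pos t hn.ne', lt_pos t (Nat.mul_ne_zero hm.ne' hn.ne'),
      lam_mul hm.ne' hn.ne', nt_mul hm.ne' hn.ne']
    push_cast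
    ring
  le := by
    intro n
    by_cases hn : n = 0
    · rw [hn, lt_zero]
      simp
    · rw [lt_pos t hn, norm_mul, norm_nt, mul_one, Complex.norm_real, Real.norm_eq_abs, abs_lam]

theorem ls_lt (t a τ : ℝ) : LSeries (lt t) (((1 + a : ℝ) : ℂ) + I * τ) = Fl a (t + τ) := by
  rw [LSeries, Fl]
  refine tsum_congr fun n => ?_
  rw [term_eq (lt_zero t)]
  rcases Nat.eq_zero_or_pos n with rfl | hn
  · simp [bc, lt_zero]
  have hn0 : (0 : ℝ) < n := by exact_mod_cast hn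
  rw [bc, lt_pos t hn.ne', nt_add]
  have h1 : cexp (I * τ * ((-Real.log n : ℝ) : ℂ)) = nt n τ := by
    unfold nt
    congr 1
    push_cast
    ring
  have h2 : (n : ℝ) ^ (-(1 + a)) = (n : ℝ) ^ (-a) / n := by
    rw [show -(1 + a) = -a - 1 by ring, Real.rpow_sub_one hn0.ne']
  rw [h1, h2]
  push_cast
  ring

theorem halasz (hF : FlUp) : Halasz := by
  intro η hη
  obtain ⟨C0, hC0, hF⟩ := hF
  obtain ⟨κ, hκ, X0, hX0⟩ := hal η hη
  set e : ℝ := (κ / C0) ^ 4 with he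
  have he0 : 0 < e := by positivity
  obtain ⟨C, hC, hF⟩ := hF (e / 8) (by positivity)
  refine ⟨max X0 (max (Real.exp 4) (Real.exp (2 * C / e))), fun x hx t ht => ?_⟩
  have hx1 : X0 ≤ x := (le_max_left _ _).trans hx
  have hx2 : Real.exp 4 ≤ x := ((le_max_left _ _).trans (le_max_right _ _)).trans hx
  have hx3 : Real.exp (2 * C / e) ≤ x := ((le_max_right _ _).trans (le_max_right _ _)).trans hx
  have hx5 : (5 : ℝ) ≤ x := by
    have := Real.add_one_le_exp (4 : ℝ)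
    linarith
  have hx0 : 0 < x := by linarith
  set l : ℝ := Real.log x with hl
  have hl4 : 4 ≤ l := by
    rw [hl, Real.le_log_iff_exp_le hx0]
    exact hx2
  have hl0 : 0 < l := by linarith
  have hlC : 2 * C / e ≤ l := by
    rw [hl, Real.le_log_iff_exp_le hx0]
    exact hx3
  have hlx : l ≤ x := by
    have := Real.log_le_sub_one_of_pos hx0
    linarith
  have h := hX0 x hx1 (lt t) (cm_lt t) (fun τ hτ => ?_)
  · have h1 : ps (lt t) x = ∑ n ∈ Icc 1 ⌊x⌋₊, ((lam n : ℝ) : ℂ) * nt n t := by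
      unfold ps
      refine sum_congr rfl fun n hn => ?_
      rw [mem_Icc] at hn
      exact lt_pos t (by omega)
    rwa [h1] at h
  · rw [← hl] at hτ ⊢
    rw [ls_lt]
    have ha0 : 0 < l⁻¹ := by positivity
    have ha1 : l⁻¹ ≤ 1 := inv_le_one_of_one_le₀ (by linarith)
    refine (hF l⁻¹ (t + τ) ha0 ha1).trans ?_
    have h1 : 2 + |t + τ| ≤ x ^ 4 := by
      have h2 : |t + τ| ≤ x ^ 3 + l ^ 2 := (abs_add_le _ _).trans (add_le_add ht hτ)
      have h3 : l ^ 2 ≤ x ^ 2 := by gcongr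
      have h4 : x ^ 2 * 5 ≤ x ^ 3 := by nlinarith [sq_nonneg x]
      have h5 : x ^ 3 * 5 ≤ x ^ 4 := by
        have : 0 < x ^ 3 := by positivity
        nlinarith
      nlinarith [sq_nonneg x]
    have h2 : Real.log (2 + |t + τ|) ≤ 4 * l := by
      have h3 := Real.log_le_log (by positivity) h1
      rw [Real.log_pow] at h3
      push_cast at h3
      exact h3
    have h3 : e / 8 * Real.log (2 + |t + τ|) + C ≤ e * l := by
      rw [div_le_iff₀ he0] at hlC
      have : e / 8 * Real.log (2 + |t + τ|) ≤ e / 8 * (4 * l) := by gcongr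
      linarith
    have h4 : 0 ≤ e / 8 * Real.log (2 + |t + τ|) + C := by
      have : 0 ≤ Real.log (2 + |t + τ|) := Real.log_nonneg (by linarith [abs_nonneg (t + τ)])
      positivity
    have h5 : (e / 8 * Real.log (2 + |t + τ|) + C) ^ (1 / 4 : ℝ) ≤ (κ / C0) * l ^ (1 / 4 : ℝ) := by
      calc (e / 8 * Real.log (2 + |t + τ|) + C) ^ (1 / 4 : ℝ) ≤ (e * l) ^ (1 / 4 : ℝ) :=
            Real.rpow_le_rpow h4 h3 (by norm_num)
        _ = e ^ (1 / 4 : ℝ) * l ^ (1 / 4 : ℝ) := Real.mul_rpow he0.le hl0.le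
        _ = (κ / C0) * l ^ (1 / 4 : ℝ) := by
          rw [he, ← Real.rpow_natCast, ← Real.rpow_mul (by positivity)]
          norm_num
    have h6 : (l⁻¹) ^ (-(3 / 4 : ℝ)) = l ^ (3 / 4 : ℝ) := by
      rw [Real.inv_rpow hl0.le, Real.rpow_neg hl0.le, inv_inv]
    calc C0 * (l⁻¹) ^ (-(3 / 4 : ℝ)) * (e / 8 * Real.log (2 + |t + τ|) + C) ^ (1 / 4 : ℝ)
        ≤ C0 * (l⁻¹) ^ (-(3 / 4 : ℝ)) * ((κ / C0) * l ^ (1 / 4 : ℝ)) := by gcongr
      _ = κ * (l ^ (3 / 4 : ℝ) * l ^ (1 / 4 : ℝ)) := by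
        rw [h6]
        field_simp
      _ = κ * l := by
        rw [← Real.rpow_add hl0]
        norm_num

end Pool.Agent.MRL
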