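import Mathlib
import Pool.Agent.Lib.MRL.Defs
import Pool.Agent.Lib.MRL.WeylB

/-!
# Weyl sums for `(x₀ + l) ^ (i t)`, `N ≤ x₀ ≤ N + 1`, and over arithmetic progressions
-/

set_option autoImplicit false
open Finset

namespace Pool.Agent.MRL.VDT

open Pool.Agent.MRL.VD

theorem dd_real : ∀ (hs : List ℕ) (φ : ℕ → ℝ) (F : ℝ → ℝ) (c : ℝ) (x₀ : ℝ),
    (∀ l, φ l = c * F (x₀ + l)) → ∀ l, DD hs φ l = c * RD hs F (x₀ + l)
  | [], φ, F, c, x₀, h, l => h l
  | a :: hs, φ, F, c, x₀, h, l => by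
    refine dd_real hs (fun l => φ (l + a) - φ l) (fun y => F (y + a) - F y) c x₀ ?_ l
    intro l
    rw [h, h]
    push_cast
    rw [← add_assoc]
    ring

theorem dd_log (hs : List ℕ) (hp : ∀ h ∈ hs, 0 < h) (t : ℝ) (x₀ : ℝ) (hN' : 1 ≤ x₀) (l : ℕ) (j : ℕ)
    (hj : hs.length = j + 1) :
    ∃ ξ : ℝ, x₀ + l ≤ ξ ∧ ξ ≤ x₀ + l + (hs.sum : ℕ) ∧
      DD hs (fun l => t / (2 * Real.pi) * Real.log (x₀ + l)) l =
        t / (2 * Real.pi) * ((hs.prod : ℕ) * ((-1) ^ j * (j.factorial : ℝ) / ξ ^ (j + 1))) := by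
  obtain ⟨ξ, h1, h2, h3⟩ := rd_mv hs LS ls_deriv hp (x₀ + l) (by positivity)
  refine ⟨ξ, h1, h2, ?_⟩
  rw [dd_real hs _ Real.log (t / (2 * Real.pi)) x₀ (fun l => rfl) l]
  have : LS 0 = Real.log := rfl
  rw [this, hj] at h3
  rw [h3]
  rfl

/-- the inner sums by the inequality of Kusmin and Landau, positive case -/
theorem inner_pos (hs : List ℕ) (q s R N L : ℕ) (t x₀ : ℝ) (hx1 : (N : ℝ) ≤ x₀) (hx2 : x₀ ≤ N + 1) (hq : hs.length = q) (hN : 1 ≤ N)
    (hL : L ≤ N) (hR : R ≤ N) (hs1 : 1 ≤ s) (hsR : s ≤ R) (hh : ∀ h ∈ hs, s < h ∧ h ≤ R)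
    (ht : 0 < t * (-1) ^ (q + 1))
    (hup : |t| * R ^ q * q.factorial ≤ Real.pi * N ^ (q + 1)) :
    ‖∑ l ∈ Icc 1 L, ex (DD hs (fun l => t / (2 * Real.pi) * Real.log (x₀ + l)) l)‖ ≤
      4 * ((q + 3) * N) ^ (q + 1) / (q.factorial * |t| * s ^ q) := by
  have hpi := Real.pi_pos
  have hN' : (1 : ℝ) ≤ N := by exact_mod_cast hN
  have hs1' : (1 : ℝ) ≤ s := by exact_mod_cast hs1
  have hsR' : (s : ℝ) ≤ R := by exact_mod_cast hsR
  have hf : (0 : ℝ) < q.factorial := by exact_mod_cast Nat.factorial_pos q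
  have hτ : t * (-1) ^ (q + 1) = |t| := by
    rcases neg_one_pow_eq_or ℝ (q + 1) with h | h
    · rw [h] at ht ⊢
      rw [mul_one] at ht ⊢
      rw [abs_of_pos ht]
    · rw [h] at ht ⊢
      rw [abs_of_neg (by linarith)]
      ring
  have hτ2 : -(t * (-1) ^ q) = |t| := by rw [← hτ, pow_succ]; ring
  have hat : 0 < |t| := hτ ▸ ht
  obtain ⟨hP1, hP2, hP3⟩ := prod_bounds s R hs hh
  rw [hq] at hP1 hP2 hP3
  have hP1' : (s : ℝ) ^ q ≤ (hs.prod : ℕ) := by exact_mod_cast hP1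
  have hP2' : ((hs.prod : ℕ) : ℝ) ≤ (R : ℝ) ^ q := by exact_mod_cast hP2
  have hsum : ((hs.sum : ℕ) : ℝ) ≤ q * N := by
    have : hs.sum ≤ q * N := hP3.trans (Nat.mul_le_mul_left q hR)
    exact_mod_cast this
  have hsq : (0 : ℝ) < (s : ℝ) ^ q := by positivity
  have hPpos : (0 : ℝ) < (hs.prod : ℕ) := lt_of_lt_of_le hsq hP1'
  have hh0 : ∀ h ∈ hs, 0 < h := fun h hx => by have := (hh h hx).1; omega
  set g : ℕ → ℝ := DD hs (fun l => t / (2 * Real.pi) * Real.log (x₀ + l)) with hg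
  set θ : ℝ := |t| * s ^ q * q.factorial / (2 * Real.pi * ((q + 3) * N) ^ (q + 1)) with hθ
  have hD : ∀ l, 0 < l → l < L → θ ≤ g l - g (l + 1) ∧
      g l - g (l + 1) ≤ |t| * R ^ q * q.factorial / (2 * Real.pi * N ^ (q + 1)) := by
    intro l hl0 hl
    have e1 := dd_shift hs (fun l => t / (2 * Real.pi) * Real.log (x₀ + l)) 1 l
    obtain ⟨ξ, h1, h2, h3⟩ := dd_log (1 :: hs) (by
      intro h hx
      rcases List.mem_cons.1 hx with rfl | hx
      · exact one_pos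
      · exact hh0 h hx) t x₀ (hN'.trans hx1) l q (by simp [hq])
    have e2 : g l - g (l + 1) = |t| * (hs.prod : ℕ) * q.factorial / (2 * Real.pi * ξ ^ (q + 1)) := by
      have e3 : g (l + 1) - g l = DD (1 :: hs) (fun l => t / (2 * Real.pi) * Real.log (x₀ + l)) l := e1
      have e4 : g l - g (l + 1) = -(g (l + 1) - g l) := by ring
      rw [e4, e3, h3, ← hτ2, List.prod_cons, one_mul]
      field_simp
    rw [List.sum_cons, Nat.cast_add, Nat.cast_one] at h2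
    have hl1 : (l : ℝ) + 1 ≤ N := by
      have : l + 1 ≤ N := by omega
      exact_mod_cast this
    have hξN : (N : ℝ) ≤ ξ := by
      have : (0 : ℝ) ≤ l := Nat.cast_nonneg l
      linarith
    have hξ2 : ξ ≤ (q + 3) * N := by nlinarith
    have hξ0 : 0 < ξ := by linarith
    rw [e2, hθ]
    constructor
    · gcongr
    · gcongr
  have hhalf : |t| * R ^ q * q.factorial / (2 * Real.pi * N ^ (q + 1)) ≤ 1 / 2 := by
    rw [div_le_iff₀ (by positivity)]
    linarith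
  have hθ0 : 0 < θ := by positivity
  have hθ1 : θ ≤ 1 / 2 := by
    refine le_trans ?_ hhalf
    rw [hθ]
    have : (1 : ℝ) ≤ q + 3 := by
      have : (0 : ℝ) ≤ q := Nat.cast_nonneg q
      linarith
    gcongr
    nlinarith
  have hkl := kusmin_landau g 0 L 0 θ hθ0 hθ1 (by
      intro l _ _
      have e1 := dd_shift (1 :: hs) (fun l => t / (2 * Real.pi) * Real.log (x₀ + l)) 1 l
      have e2 := dd_shift hs (fun l => t / (2 * Real.pi) * Real.log (x₀ + l)) 1 l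
      have e3 := dd_shift hs (fun l => t / (2 * Real.pi) * Real.log (x₀ + l)) 1 (l + 1)
      obtain ⟨ξ, h1, h2, h3⟩ := dd_log (1 :: 1 :: hs) (by
        intro h hx
        rcases List.mem_cons.1 hx with rfl | hx
        · exact one_pos
        rcases List.mem_cons.1 hx with rfl | hx
        · exact one_pos
        · exact hh0 h hx) t x₀ (hN'.trans hx1) l (q + 1) (by simp [hq])
      have e4 : (g (l + 1 + 1) - g (l + 1)) - (g (l + 1) - g l) =
          DD (1 :: 1 :: hs) (fun l => t / (2 * Real.pi) * Real.log (x₀ + l)) l := by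
        have a1 : g (l + 1 + 1) - g (l + 1) =
          DD (1 :: hs) (fun l => t / (2 * Real.pi) * Real.log (x₀ + l)) (l + 1) := e3
        have a2 : g (l + 1) - g l =
          DD (1 :: hs) (fun l => t / (2 * Real.pi) * Real.log (x₀ + l)) l := e2
        rw [a1, a2]
        exact e1
      have hξ0 : 0 < ξ := by
        have : (0 : ℝ) ≤ l := Nat.cast_nonneg l
        linarith
      have e5 : 0 ≤ DD (1 :: 1 :: hs) (fun l => t / (2 * Real.pi) * Real.log (x₀ + l)) l := by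
        rw [h3]
        have : t / (2 * Real.pi) * (((1 :: 1 :: hs).prod : ℕ) * ((-1) ^ (q + 1) *
            ((q + 1).factorial : ℝ) / ξ ^ (q + 1 + 1))) =
            (t * (-1) ^ (q + 1)) * (((1 :: 1 :: hs).prod : ℕ) * ((q + 1).factorial : ℝ)) /
              (2 * Real.pi * ξ ^ (q + 1 + 1)) := by
          field_simp
        rw [this, hτ]
        positivity
      rw [← e4] at e5
      show g (l + 1) - g (l + 2) ≤ g l - g (l + 1)
      have : g (l + 2) = g (l + 1 + 1) := rfl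
      linarith) (by
      intro l h1 h2
      have := (hD l h1 h2).1
      push_cast
      linarith) (by
      intro l h1 h2
      have := (hD l h1 h2).2
      push_cast
      linarith)
  have hI : Icc 1 L = Ioc 0 L := by
    ext x
    simp only [mem_Icc, mem_Ioc]
    omega
  rw [hI]
  refine hkl.trans (le_of_eq ?_)
  rw [hθ]
  field_simp
  ring

/-- the inner sums by the inequality of Kusmin and Landau -/
theorem inner (hs : List ℕ) (q s R N L : ℕ) (t x₀ : ℝ) (hx1 : (N : ℝ) ≤ x₀) (hx2 : x₀ ≤ N + 1) (hq : hs.length = q) (hN : 1 ≤ N)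
    (hL : L ≤ N) (hR : R ≤ N) (hs1 : 1 ≤ s) (hsR : s ≤ R) (hh : ∀ h ∈ hs, s < h ∧ h ≤ R)
    (ht : t ≠ 0)
    (hup : |t| * R ^ q * q.factorial ≤ Real.pi * N ^ (q + 1)) :
    ‖∑ l ∈ Icc 1 L, ex (DD hs (fun l => t / (2 * Real.pi) * Real.log (x₀ + l)) l)‖ ≤
      4 * ((q + 3) * N) ^ (q + 1) / (q.factorial * |t| * s ^ q) := by
  have hne : t * (-1) ^ (q + 1) ≠ 0 := mul_ne_zero ht (pow_ne_zero _ (by norm_num))
  rcases lt_or_gt_of_ne hne with h | h
  · have e : (fun l : ℕ => t / (2 * Real.pi) * Real.log (x₀ + l)) =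
        fun l : ℕ => -((-t) / (2 * Real.pi) * Real.log (x₀ + l)) := by
      funext l
      ring
    rw [e]
    have e2 : ∀ l, DD hs (fun l : ℕ => -((-t) / (2 * Real.pi) * Real.log (x₀ + l))) l =
        -DD hs (fun l : ℕ => ((-t) / (2 * Real.pi) * Real.log (x₀ + l))) l := dd_neg hs _
    simp_rw [e2]
    rw [norm_sum_ex_neg]
    have := inner_pos hs q s R N L (-t) x₀ hx1 hx2 hq hN hL hR hs1 hsR hh (by linarith) (by rwa [abs_neg])
    rwa [abs_neg] at this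
  · exact inner_pos hs q s R N L t x₀ hx1 hx2 hq hN hL hR hs1 hsR hh h hup

/-- `q` differencing steps and the first derivative test -/
theorem weyl_core (q s R N L : ℕ) (t e x₀ : ℝ) (hx1 : (N : ℝ) ≤ x₀) (hx2 : x₀ ≤ N + 1) (hN : 1 ≤ N)
    (hL : L ≤ N) (hR : R ≤ N) (hs1 : 1 ≤ s) (hsR : s ≤ R) (ht : t ≠ 0)
    (he0 : 0 < e) (he1 : e ≤ 1 / 64)
    (h1 : 32 ≤ (64 * e ^ 2 ^ q) ^ 2 * R) (h2 : 128 * (R : ℝ) ≤ (64 * e ^ 2 ^ q) ^ 2 * L)
    (h3 : 64 * (s : ℝ) ≤ (64 * e ^ 2 ^ q) ^ 2 * R)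
    (hup : |t| * R ^ q * q.factorial ≤ Real.pi * N ^ (q + 1))
    (hlo : 4 * ((q + 3) * N) ^ (q + 1) ≤ 64 * e ^ 2 ^ q * L * (q.factorial * |t| * s ^ q)) :
    ‖∑ l ∈ Icc 1 L, ex (t / (2 * Real.pi) * Real.log (x₀ + l))‖ ≤ 64 * e * L := by
  refine iter s R L q e _ he0 he1 h1 h2 h3 ?_
  intro hs hl hh
  refine (inner hs q s R N L t x₀ hx1 hx2 hl hN hL hR hs1 hsR hh ht hup).trans ?_
  have hf : (0 : ℝ) < q.factorial := by exact_mod_cast Nat.factorial_pos q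
  have hs1' : (1 : ℝ) ≤ s := by exact_mod_cast hs1
  have hat : 0 < |t| := abs_pos.2 ht
  rw [div_le_iff₀ (by positivity)]
  exact hlo

/-- the case `|t| > N ^ (3/4)` -/
theorem weyl_big (A : ℝ) (hA : 0 ≤ A) : ∃ η : ℝ, 0 < η ∧ η ≤ 1 / 8 ∧ ∃ K : ℝ, 64 ≤ K ∧ ∀ (N L : ℕ) (t x₀ : ℝ), (N : ℝ) ≤ x₀ → x₀ ≤ N + 1 →
    1 ≤ N → L ≤ N → (N : ℝ) ^ ((3 : ℝ) / 4) < |t| → |t| ≤ (N : ℝ) ^ A → K ≤ (N : ℝ) ^ η →
    (N : ℝ) ^ (1 - η) ≤ L →
    ‖∑ l ∈ Icc 1 L, ex (t / (2 * Real.pi) * Real.log (x₀ + l))‖ ≤ 64 * (N : ℝ) ^ (-η) * L := by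
  set Q : ℕ := ⌈A⌉₊ + 2 with hQ
  set B : ℝ := 1 + 2 ^ Q + Q * 2 ^ (Q + 1) with hB
  have hQ2 : (2 : ℝ) ≤ Q := by
    have : 2 ≤ Q := by omega
    exact_mod_cast this
  have hp0 : (0 : ℝ) < 2 ^ Q := by positivity
  have hB1 : 1 ≤ B := by rw [hB]; nlinarith [pow_succ (2 : ℝ) Q]
  refine ⟨1 / (8 * Q * B), by positivity, ?_, 64 + ((Q : ℝ) + 3) ^ (Q + 1) + (Q.factorial : ℝ), ?_, ?_⟩
  · rw [div_le_div_iff₀ (by positivity) (by norm_num)]
    nlinarith
  · have : (0 : ℝ) < ((Q : ℝ) + 3) ^ (Q + 1) := by positivity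
    have : (0 : ℝ) ≤ (Q.factorial : ℝ) := Nat.cast_nonneg _
    linarith
  intro N L t x₀ hx1 hx2 hN hL ht1 ht2 hK hL2
  set η : ℝ := 1 / (8 * Q * B) with hη
  have hη0 : 0 < η := by positivity
  have hηB : η * B = 1 / (8 * Q) := by rw [hη]; field_simp
  have hηB8 : η * B ≤ 1 / 16 := by
    rw [hηB, div_le_div_iff₀ (by positivity) (by norm_num)]
    nlinarith
  set X : ℝ := (N : ℝ) with hX
  have hX1 : 1 ≤ X := by rw [hX]; exact_mod_cast hN
  have hX0 : 0 < X := by linarith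
  have hKbig : (64 : ℝ) ≤ X ^ η := by
    have : (0 : ℝ) < ((Q : ℝ) + 3) ^ (Q + 1) := by positivity
    have : (0 : ℝ) ≤ (Q.factorial : ℝ) := Nat.cast_nonneg _
    linarith
  have hKQ : ((Q : ℝ) + 3) ^ (Q + 1) ≤ X ^ η := by
    have : (0 : ℝ) ≤ (Q.factorial : ℝ) := Nat.cast_nonneg _
    linarith
  have hKF : (Q.factorial : ℝ) ≤ X ^ η := by
    have : (0 : ℝ) < ((Q : ℝ) + 3) ^ (Q + 1) := by positivity
    linarith
  have hXgt : 1 < X := by
    by_contra hc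
    have : X = 1 := le_antisymm (not_lt.1 hc) hX1
    rw [this, Real.one_rpow] at hKbig
    norm_num at hKbig
  have hlog : 0 < Real.log X := Real.log_pos hXgt
  have hat : 0 < |t| := lt_trans (by positivity) ht1
  -- the exponent of `|t|`
  set a : ℝ := Real.log |t| / Real.log X with ha
  have hta : |t| = X ^ a := by
    rw [Real.rpow_def_of_pos hX0, ha, mul_div_cancel₀ _ hlog.ne', Real.exp_log hat]
  have ha1 : 3 / 4 < a := by
    rw [hta] at ht1
    exact (Real.rpow_lt_rpow_left_iff hXgt).1 ht1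
  have ha2 : a ≤ A := by
    rw [hta] at ht2
    exact (Real.rpow_le_rpow_left_iff hXgt).1 ht2
  set q : ℕ := ⌈a + 1 / 4⌉₊ with hq
  have hq1 : a + 1 / 4 ≤ q := Nat.le_ceil _
  have hq2 : (q : ℝ) < a + 1 / 4 + 1 := Nat.ceil_lt_add_one (by linarith)
  have hq2' : 2 ≤ q := by
    have : (1 : ℝ) < q := by linarith
    have : 1 < q := by exact_mod_cast this
    omega
  have hqQ : q ≤ Q := by
    have h1 : (q : ℝ) < A + 2 := by linarith
    have h2 : A ≤ ⌈A⌉₊ := Nat.le_ceil A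
    have h3 : (q : ℝ) < (Q : ℝ) := by
      rw [hQ]
      push_cast
      linarith
    have : q < Q := by exact_mod_cast h3
    omega
  have hqR : (2 : ℝ) ≤ q := by exact_mod_cast hq2'
  have hqQR : (q : ℝ) ≤ Q := by exact_mod_cast hqQ
  set κ : ℝ := (q - a + 1 / 2) / q with hκ
  have hqκ : q * κ = q - a + 1 / 2 := by rw [hκ]; field_simp
  obtain ⟨hκ1, hκ2⟩ := aux_κ Q q a κ hqQR hqR hqκ hq1 hq2
  -- sizes of the exponents
  obtain ⟨hB2, hB3, hB4⟩ := aux_B Q q (by omega) hqQ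
  have hE1 : η * 2 ^ (q + 1) ≤ κ := by
    have h1 : η * 2 ^ (q + 1) ≤ η * B := mul_le_mul_of_nonneg_left hB2 hη0.le
    have h3 : 1 / (8 * (Q : ℝ)) ≤ 3 / (4 * Q) := by
      rw [div_le_div_iff₀ (by positivity) (by positivity)]
      linarith
    rw [hηB] at h1
    linarith
  have hE2 : η * (1 + 2 ^ (q + 1)) ≤ 1 / 8 := by
    have h1 : η * (1 + 2 ^ (q + 1)) ≤ η * B := mul_le_mul_of_nonneg_left hB3 hη0.le
    linarith
  have hE3 : η * (1 + 2 ^ q + q * 2 ^ (q + 1)) ≤ 1 / 4 := by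
    have h1 : η * (1 + 2 ^ q + q * 2 ^ (q + 1)) ≤ η * B := mul_le_mul_of_nonneg_left hB4 hη0.le
    linarith
  have hη8 : η ≤ 1 / 16 := le_trans (by simpa using mul_le_mul_of_nonneg_left hB1 hη0.le) hηB8
  -- the parameters
  set R : ℕ := ⌊X ^ κ⌋₊ with hR
  have hXκ : 1 ≤ X ^ κ := by
    have : X ^ (0 : ℝ) ≤ X ^ κ := Real.rpow_le_rpow_of_exponent_le hX1 (le_trans (by positivity) hκ1)
    simpa using this
  have hR1 : (R : ℝ) ≤ X ^ κ := Nat.floor_le (by positivity)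
  have hR2 : X ^ κ / 2 ≤ R := by
    have h1 : 1 ≤ R := by
      rw [hR]
      exact Nat.le_floor (by simpa using hXκ)
    have h2 : X ^ κ < R + 1 := Nat.lt_floor_add_one _
    have h3 : (1 : ℝ) ≤ R := by exact_mod_cast h1
    linarith
  set e : ℝ := X ^ (-η) with he
  have he0 : 0 < e := by positivity
  have he1 : e ≤ 1 / 64 := by
    rw [he, Real.rpow_neg hX0.le, ← one_div]
    exact one_div_le_one_div_of_le (by norm_num) hKbig
  have heq : e ^ 2 ^ q = X ^ (-(η * 2 ^ q)) := by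
    rw [he, ← Real.rpow_natCast, ← Real.rpow_mul hX0.le]
    congr 1
    push_cast
    ring
  have heq2 : (64 * e ^ 2 ^ q) ^ 2 = 4096 * X ^ (-(η * 2 ^ (q + 1))) := by
    rw [mul_pow, heq, ← Real.rpow_natCast (X ^ _), ← Real.rpow_mul hX0.le]
    norm_num
    congr 1
    ring
  set v : ℝ := X ^ (-(η * 2 ^ (q + 1))) with hv
  have hv0 : 0 < v := by positivity
  have hv64 : v ≤ 1 / 64 := by
    refine le_trans ?_ he1
    rw [hv, he]
    refine Real.rpow_le_rpow_of_exponent_le hX1 ?_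
    have : (1 : ℝ) ≤ 2 ^ (q + 1) := one_le_pow₀ (by norm_num)
    have : η * 1 ≤ η * 2 ^ (q + 1) := mul_le_mul_of_nonneg_left this hη0.le
    linarith
  have hvκ : 1 ≤ v * X ^ κ := by
    rw [hv, ← Real.rpow_add hX0]
    have : X ^ (0 : ℝ) ≤ X ^ (-(η * 2 ^ (q + 1)) + κ) :=
      Real.rpow_le_rpow_of_exponent_le hX1 (by linarith)
    simpa using this
  set s : ℕ := ⌊64 * v * R⌋₊ with hs
  have hvR : 1 / 2 ≤ v * R := by
    have : v * (X ^ κ / 2) ≤ v * R := mul_le_mul_of_nonneg_left hR2 hv0.le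
    linarith
  have hs0 : (1 : ℝ) ≤ 64 * v * R := by
    rw [mul_assoc]
    linarith
  have hs1 : 1 ≤ s := by
    rw [hs]
    exact Nat.le_floor (by simpa using hs0)
  have hs2 : (s : ℝ) ≤ 64 * v * R := Nat.floor_le (by positivity)
  have hs3 : 32 * v * R ≤ s := by
    have h2 : 64 * v * R < s + 1 := Nat.lt_floor_add_one _
    have h3 : (1 : ℝ) ≤ s := by exact_mod_cast hs1
    linarith
  have hR0 : (0 : ℝ) ≤ R := Nat.cast_nonneg R
  have hsR : s ≤ R := by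
    have : (s : ℝ) ≤ R := by
      have : v * R ≤ 1 / 64 * R := mul_le_mul_of_nonneg_right hv64 hR0
      rw [mul_assoc] at hs2
      linarith
    exact_mod_cast this
  have hRN : R ≤ N := by
    have : (R : ℝ) ≤ X := by
      refine hR1.trans ?_
      have : X ^ κ ≤ X ^ (1 : ℝ) := Real.rpow_le_rpow_of_exponent_le hX1 (by linarith)
      simpa using this
    rw [hX] at this
    exact_mod_cast this
  have hs4 : X ^ (κ - η * 2 ^ (q + 1)) ≤ s := by
    have h1 : X ^ (κ - η * 2 ^ (q + 1)) = v * X ^ κ := by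
      rw [hv, ← Real.rpow_add hX0]
      congr 1
      ring
    rw [h1]
    exact aux_s v _ R s hv0 hR2 hs3 (by positivity)
  refine weyl_core q s R N L t e x₀ hx1 hx2 hN hL hRN hs1 hsR (abs_pos.1 hat) he0 he1 ?_ ?_ ?_ ?_ ?_
  · rw [heq2, mul_assoc]
    linarith
  · rw [heq2]
    have h1 : X ^ κ ≤ v * X ^ (1 - η) := by
      rw [hv, ← Real.rpow_add hX0]
      refine Real.rpow_le_rpow_of_exponent_le hX1 ?_
      linarith
    have h2 : v * X ^ (1 - η) ≤ v * L := by gcongr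
    have h3 : 0 ≤ v * (L : ℝ) := by positivity
    linarith
  · rw [heq2]
    linarith
  · -- upper
    have h1 : (R : ℝ) ^ q ≤ X ^ (q * κ) := by
      have : (R : ℝ) ^ q ≤ (X ^ κ) ^ q := by gcongr
      refine this.trans (le_of_eq ?_)
      rw [← Real.rpow_natCast, ← Real.rpow_mul hX0.le, mul_comm]
    have h2 : (q.factorial : ℝ) ≤ X ^ ((1 : ℝ) / 2) := by
      have h3 : (q.factorial : ℝ) ≤ Q.factorial := by exact_mod_cast Nat.factorial_le hqQ
      have h4 : X ^ η ≤ X ^ ((1 : ℝ) / 2) := Real.rpow_le_rpow_of_exponent_le hX1 (by linarith)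
      linarith
    calc |t| * R ^ q * q.factorial ≤ X ^ a * X ^ (q * κ) * X ^ ((1 : ℝ) / 2) := by
          rw [← hta]
          gcongr
      _ = X ^ ((q : ℝ) + 1) := by
          rw [← Real.rpow_add hX0, ← Real.rpow_add hX0, hqκ]
          congr 1
          ring
      _ = X ^ (q + 1) := by
          rw [← Real.rpow_natCast]
          push_cast
          rfl
      _ ≤ Real.pi * X ^ (q + 1) := by
          have : (0 : ℝ) < X ^ (q + 1) := by positivity
          exact le_mul_of_one_le_left this.le (by linarith [Real.pi_gt_three])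
  · -- lower
    rw [heq]
    have h1 : X ^ (q * κ - q * (η * 2 ^ (q + 1))) ≤ (s : ℝ) ^ q := by
      have : (X ^ (κ - η * 2 ^ (q + 1))) ^ q ≤ (s : ℝ) ^ q := by gcongr
      refine le_trans (le_of_eq ?_) this
      rw [← Real.rpow_natCast (X ^ (κ - η * 2 ^ (q + 1))) q, ← Real.rpow_mul hX0.le]
      congr 1
      ring
    have hf1 : (1 : ℝ) ≤ q.factorial := by exact_mod_cast Nat.factorial_pos q
    have h5 : ((q : ℝ) + 3) ^ (q + 1) ≤ X ^ ((1 : ℝ) / 4) := by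
      have a1 : ((q : ℝ) + 3) ^ (q + 1) ≤ ((Q : ℝ) + 3) ^ (q + 1) := by gcongr
      have a2 : ((Q : ℝ) + 3) ^ (q + 1) ≤ ((Q : ℝ) + 3) ^ (Q + 1) :=
        pow_le_pow_right₀ (by linarith) (by omega)
      have a3 : X ^ η ≤ X ^ ((1 : ℝ) / 4) := Real.rpow_le_rpow_of_exponent_le hX1 (by linarith)
      linarith
    have h6 : X ^ ((1 : ℝ) / 4) * X ^ ((q : ℝ) + 1) ≤
        X ^ (-(η * 2 ^ q)) * X ^ (1 - η) * (X ^ a * X ^ (q * κ - q * (η * 2 ^ (q + 1)))) := by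
      rw [← Real.rpow_add hX0, ← Real.rpow_add hX0, ← Real.rpow_add hX0, ← Real.rpow_add hX0]
      refine Real.rpow_le_rpow_of_exponent_le hX1 ?_
      rw [hqκ]
      linarith
    have h7 : X ^ ((q : ℝ) + 1) = X ^ (q + 1) := by
      rw [← Real.rpow_natCast]
      push_cast
      rfl
    calc 4 * ((q + 3) * X) ^ (q + 1) = 4 * (((q : ℝ) + 3) ^ (q + 1) * X ^ (q + 1)) := by
          rw [mul_pow]
      _ ≤ 4 * (X ^ ((1 : ℝ) / 4) * X ^ ((q : ℝ) + 1)) := by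
          rw [h7]
          gcongr
      _ ≤ 4 * (X ^ (-(η * 2 ^ q)) * X ^ (1 - η) * (X ^ a * X ^ (q * κ - q * (η * 2 ^ (q + 1))))) := by
          gcongr
      _ ≤ 64 * (X ^ (-(η * 2 ^ q)) * L * (1 * |t| * s ^ q)) := by
          rw [← hta, one_mul]
          have : 0 ≤ X ^ (-(η * 2 ^ q)) * L * (|t| * s ^ q) := by positivity
          have h8 : X ^ (-(η * 2 ^ q)) * X ^ (1 - η) * (|t| * X ^ (q * κ - q * (η * 2 ^ (q + 1)))) ≤
              X ^ (-(η * 2 ^ q)) * L * (|t| * s ^ q) := by gcongr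
          linarith
      _ ≤ 64 * X ^ (-(η * 2 ^ q)) * L * (q.factorial * |t| * s ^ q) := by
          have : X ^ (-(η * 2 ^ q)) * L * (1 * |t| * s ^ q) ≤
              X ^ (-(η * 2 ^ q)) * L * (q.factorial * |t| * s ^ q) := by gcongr
          linarith


/-- **Module W, general phase.** -/
theorem weylT (A : ℝ) : ∃ η > (0 : ℝ), η ≤ 1 / 8 ∧ ∃ C > (0 : ℝ), ∀ (N L : ℕ) (t x₀ : ℝ), 1 ≤ N →
    L ≤ N → (N : ℝ) ≤ x₀ → x₀ ≤ N + 1 → t ≠ 0 → |t| ≤ (N : ℝ) ^ A →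
    ‖∑ l ∈ Icc 1 L, ex (t / (2 * Real.pi) * Real.log (x₀ + l))‖ ≤
      C * (N / |t| + (N : ℝ) ^ (1 - η)) := by
  obtain ⟨η, hη0, hη1, K, hK, hmain⟩ := weyl_big (max A 0) (le_max_right _ _)
  refine ⟨η, hη0, hη1, K, by linarith, ?_⟩
  intro N L t x₀ hN hLN hx1 hx2 ht htA
  have hX1 : (1 : ℝ) ≤ N := by exact_mod_cast hN
  have hX0 : (0 : ℝ) < N := by linarith
  have hat : 0 < |t| := abs_pos.2 ht
  have hLR : (L : ℝ) ≤ N := by exact_mod_cast hLN
  have htriv : ‖∑ l ∈ Icc 1 L, ex (t / (2 * Real.pi) * Real.log (x₀ + l))‖ ≤ L := by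
    refine (norm_sum_le _ _).trans ?_
    simp [norm_ex]
  have hpw : (0 : ℝ) < (N : ℝ) ^ (1 - η) := by positivity
  have hdiv : 0 < (N : ℝ) / |t| := by positivity
  rcases le_or_gt |t| ((N : ℝ) ^ ((3 : ℝ) / 4)) with h | h
  · have hN34 : (N : ℝ) ^ ((3 : ℝ) / 4) ≤ N := by
      have : (N : ℝ) ^ ((3 : ℝ) / 4) ≤ (N : ℝ) ^ (1 : ℝ) :=
        Real.rpow_le_rpow_of_exponent_le hX1 (by norm_num)
      simpa using this
    have := inner [] 0 1 1 N L t x₀ hx1 hx2 rfl hN hLN hN le_rfl le_rfl (by simp) ht (by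
      simp
      nlinarith [Real.pi_gt_three])
    refine this.trans ?_
    simp only [Nat.cast_zero, zero_add, pow_one, Nat.factorial_zero, Nat.cast_one, one_mul, one_pow,
      mul_one]
    have e : 4 * (3 * (N : ℝ)) / |t| = 12 * (N / |t|) := by ring
    rw [e]
    nlinarith
  · rcases lt_or_ge ((N : ℝ) ^ η) K with hc | hc
    · have e : (N : ℝ) = (N : ℝ) ^ η * (N : ℝ) ^ (1 - η) := by
        rw [← Real.rpow_add hX0]
        simp
      have : (N : ℝ) ≤ K * (N : ℝ) ^ (1 - η) := by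
        calc (N : ℝ) = (N : ℝ) ^ η * (N : ℝ) ^ (1 - η) := e
          _ ≤ K * (N : ℝ) ^ (1 - η) := by gcongr
      have h3 : 0 ≤ K * ((N : ℝ) / |t|) := by positivity
      rw [mul_add]
      linarith
    · rcases lt_or_ge (L : ℝ) ((N : ℝ) ^ (1 - η)) with hl | hl
      · have h3 : 0 ≤ K * ((N : ℝ) / |t|) := by positivity
        rw [mul_add]
        nlinarith
      · have hA' : |t| ≤ (N : ℝ) ^ (max A 0) :=
          htA.trans (Real.rpow_le_rpow_of_exponent_le hX1 (le_max_left _ _))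
        have := hmain N L t x₀ hx1 hx2 hN hLN h hA' hc hl
        refine this.trans ?_
        have e : 64 * (N : ℝ) ^ (-η) * L ≤ 64 * (N : ℝ) ^ (1 - η) := by
          have : (N : ℝ) ^ (1 - η) = (N : ℝ) ^ (-η) * N := by
            rw [sub_eq_neg_add, Real.rpow_add hX0, Real.rpow_one]
          rw [this, mul_assoc]
          gcongr
        refine e.trans ?_
        have h3 : 0 ≤ K * ((N : ℝ) / |t|) := by positivity
        rw [mul_add]
        nlinarith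

end Pool.Agent.MRL.VDT
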