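import Mathlib
import Pool.Agent.Lib.MRL.Defs
import Pool.Agent.Lib.MRL.WeylT

/-!
# Weyl sums `∑ n ^ (-it)` over arithmetic progressions
-/

set_option autoImplicit false
open Finset

namespace Pool.Agent.MRL.VDT

open Pool.Agent.MRL.VD

theorem nt_norm (n : ℕ) (t : ℝ) : ‖nt n t‖ = 1 := by
  unfold nt
  rw [← Complex.ofReal_neg]
  exact Complex.norm_exp_ofReal_mul_I _

theorem nt_eq_ex (n : ℕ) (t : ℝ) : nt n t = ex (-t / (2 * Real.pi) * Real.log n) := by
  have hpi : (Real.pi : ℂ) ≠ 0 := by exact_mod_cast Real.pi_ne_zero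
  unfold nt ex
  congr 1
  push_cast
  field_simp

theorem nt_ap (q b m : ℕ) (hq : 1 ≤ q) (hm : 1 ≤ m) (t : ℝ) :
    nt (q * m + b) t = ex (-t / (2 * Real.pi) * Real.log q) *
      ex (-t / (2 * Real.pi) * Real.log ((b : ℝ) / q + m)) := by
  have hq' : (1 : ℝ) ≤ q := by exact_mod_cast hq
  have hm' : (1 : ℝ) ≤ m := by exact_mod_cast hm
  have hb : (0 : ℝ) ≤ b := Nat.cast_nonneg b
  have h0 : 0 < (b : ℝ) / q + m := by positivity
  rw [nt_eq_ex, ← ex_add, ← mul_add, ← Real.log_mul (by positivity) h0.ne']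
  congr 3
  push_cast
  field_simp
  ring

theorem weyl_ap (A : ℝ) (q : ℕ) (hq : 1 ≤ q) : ∃ η > (0 : ℝ), η ≤ 1 / 8 ∧ ∃ C > (0 : ℝ),
    ∀ (M M' b : ℕ) (t : ℝ), 1 ≤ M → M' ≤ 2 * M → t ≠ 0 → |t| ≤ (M : ℝ) ^ A →
    ‖∑ n ∈ (Ioc M M').filter (fun n => n % q = b), nt n t‖ ≤
      C * (M / |t| + (M : ℝ) ^ (1 - η)) := by
  obtain ⟨η, hη0, hη1, C, hC, h⟩ := weylT (2 * max A 0)
  have hq' : (1 : ℝ) ≤ q := by exact_mod_cast hq
  refine ⟨η, hη0, hη1, C + 9 * q ^ 2 + 2, by positivity, ?_⟩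
  intro M M' b t hM hM2 ht htA
  have hM' : (1 : ℝ) ≤ M := by exact_mod_cast hM
  have hat : 0 < |t| := abs_pos.2 ht
  have hpw1 : (1 : ℝ) ≤ (M : ℝ) ^ (1 - η) := Real.one_le_rpow hM' (by linarith)
  have hdiv : 0 < (M : ℝ) / |t| := by positivity
  -- trivial bound
  rcases Nat.lt_or_ge M (9 * q ^ 2) with hs | hs
  · have h1 : ‖∑ n ∈ (Ioc M M').filter (fun n => n % q = b), nt n t‖ ≤ M := by
      refine (norm_sum_le _ _).trans ?_
      simp only [nt_norm, sum_const, nsmul_eq_mul, mul_one]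
      have : ((Ioc M M').filter (fun n => n % q = b)).card ≤ M := by
        refine (card_filter_le _ _).trans ?_
        rw [Nat.card_Ioc]
        omega
      exact_mod_cast this
    have h2 : (M : ℝ) ≤ 9 * q ^ 2 := by exact_mod_cast hs.le
    have h3 : (9 * (q : ℝ) ^ 2) ≤ (C + 9 * q ^ 2 + 2) * (M : ℝ) ^ (1 - η) := by
      have : (C + 9 * (q : ℝ) ^ 2 + 2) * 1 ≤ (C + 9 * q ^ 2 + 2) * (M : ℝ) ^ (1 - η) := by gcongr
      linarith
    have h4 : 0 ≤ (C + 9 * (q : ℝ) ^ 2 + 2) * (M / |t|) := by positivity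
    rw [mul_add]
    linarith
  rcases Nat.lt_or_ge b q with hb | hb
  swap
  · have : (Ioc M M').filter (fun n => n % q = b) = ∅ := by
      rw [filter_eq_empty_iff]
      intro n _ hn
      have := Nat.mod_lt n hq
      omega
    rw [this]
    simp only [sum_empty, norm_zero]
    positivity
  rcases Nat.lt_or_ge M' M with hMM | hMM
  · rw [Ioc_eq_empty (by omega)]
    simp only [filter_empty, sum_empty, norm_zero]
    positivity
  -- parametrise
  have hqM : 9 * q ≤ M := by nlinarith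
  set m1 : ℕ := (M - b) / q with hm1
  set m2 : ℕ := (M' - b) / q with hm2
  have hpar : ∀ m, M < q * m + b ↔ m1 < m := by
    intro m
    rw [hm1, Nat.div_lt_iff_lt_mul (by omega), mul_comm m q]
    omega
  have hpar2 : ∀ m, q * m + b ≤ M' ↔ m ≤ m2 := by
    intro m
    rw [hm2, Nat.le_div_iff_mul_le (by omega), mul_comm m q]
    omega
  have hset : (Ioc M M').filter (fun n => n % q = b) = (Ioc m1 m2).image (fun m => q * m + b) := by
    ext n
    simp only [mem_filter, mem_Ioc, mem_image]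
    constructor
    · rintro ⟨⟨h1, h2⟩, h3⟩
      have e : q * (n / q) + b = n := by
        have := Nat.div_add_mod n q
        rw [h3] at this
        exact this
      refine ⟨n / q, ⟨(hpar _).1 (by rw [e]; exact h1), (hpar2 _).1 (by rw [e]; exact h2)⟩, e⟩
    · rintro ⟨m, ⟨h1, h2⟩, rfl⟩
      refine ⟨⟨(hpar m).2 h1, (hpar2 m).2 h2⟩, ?_⟩
      rw [Nat.mul_add_mod]
      exact Nat.mod_eq_of_lt hb
  have hm1q : 3 * q ≤ m1 := by
    rw [hm1, Nat.le_div_iff_mul_le (by omega)]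
    have h1 : 3 * q * q + b ≤ M := by nlinarith
    omega
  have hm1pos : 1 ≤ m1 := by omega
  have hMm1 : M < q * (m1 + 1) + b := (hpar _).2 (by omega)
  have hm2m1 : m2 ≤ 2 * m1 + 2 := by
    by_contra hc
    have h1 : q * (2 * m1 + 3) + b ≤ M' := (hpar2 _).2 (by omega)
    nlinarith
  have hsum : ∑ n ∈ (Ioc M M').filter (fun n => n % q = b), nt n t =
      ex (-t / (2 * Real.pi) * Real.log q) *
        ∑ m ∈ Ioc m1 m2, ex (-t / (2 * Real.pi) * Real.log ((b : ℝ) / q + m)) := by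
    rw [hset, sum_image, mul_sum]
    · refine sum_congr rfl fun m hm => ?_
      exact nt_ap q b m hq (by have := (mem_Ioc.1 hm).1; omega) t
    · intro x _ y _ hxy
      have : q * x = q * y := by simpa using hxy
      exact Nat.eq_of_mul_eq_mul_left (by omega) this
  rw [hsum, norm_mul, norm_ex, one_mul]
  have hm12 : m1 ≤ m2 ∨ m2 < m1 := le_or_gt _ _
  rcases hm12 with hle | hlt
  swap
  · rw [Ioc_eq_empty (by omega)]
    simp only [sum_empty, norm_zero]
    positivity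
  -- cut off at most two terms
  set m3 : ℕ := min m2 (2 * m1) with hm3
  have hsplit : ∑ m ∈ Ioc m1 m2, ex (-t / (2 * Real.pi) * Real.log ((b : ℝ) / q + m)) =
      ∑ m ∈ Ioc m1 m3, ex (-t / (2 * Real.pi) * Real.log ((b : ℝ) / q + m)) +
      ∑ m ∈ Ioc m3 m2, ex (-t / (2 * Real.pi) * Real.log ((b : ℝ) / q + m)) := by
    rw [← sum_union (disjoint_left.2 fun x hx hx' => by
      have := (mem_Ioc.1 hx).2
      have := (mem_Ioc.1 hx').1
      omega), Ioc_union_Ioc_eq_Ioc (by omega) (by omega)]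
  have hsmall : ‖∑ m ∈ Ioc m3 m2, ex (-t / (2 * Real.pi) * Real.log ((b : ℝ) / q + m))‖ ≤ 2 := by
    refine (norm_sum_le _ _).trans ?_
    simp only [norm_ex, sum_const, nsmul_eq_mul, mul_one, Nat.card_Ioc]
    have : m2 - m3 ≤ 2 := by omega
    exact_mod_cast this
  have hm1R : (1 : ℝ) ≤ m1 := by exact_mod_cast hm1pos
  have hm1M : (m1 : ℝ) ≤ M := by
    have : m1 ≤ M := by
      rw [hm1]
      exact (Nat.div_le_self _ _).trans (by omega)
    exact_mod_cast this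
  have hMm1' : (M : ℝ) ≤ (m1 : ℝ) ^ 2 := by
    have h1 : M ≤ m1 ^ 2 := by nlinarith
    exact_mod_cast h1
  have htA' : |t| ≤ (m1 : ℝ) ^ (2 * max A 0) := by
    calc |t| ≤ (M : ℝ) ^ A := htA
      _ ≤ (M : ℝ) ^ (max A 0) := Real.rpow_le_rpow_of_exponent_le hM' (le_max_left _ _)
      _ ≤ ((m1 : ℝ) ^ 2) ^ (max A 0) :=
          Real.rpow_le_rpow (by linarith) hMm1' (le_max_right _ _)
      _ = (m1 : ℝ) ^ (2 * max A 0) := by
          rw [← Real.rpow_natCast, ← Real.rpow_mul (by linarith)]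
          norm_num
  have hmain := h m1 (m3 - m1) (-t) ((b : ℝ) / q + m1) hm1pos (by omega) (by
      have : (0 : ℝ) ≤ (b : ℝ) / q := by positivity
      linarith) (by
      have : (b : ℝ) / q ≤ 1 := by
        rw [div_le_one (by positivity)]
        exact_mod_cast hb.le
      linarith) (neg_ne_zero.2 ht) (by rwa [abs_neg])
  have hshift : ∑ m ∈ Ioc m1 m3, ex (-t / (2 * Real.pi) * Real.log ((b : ℝ) / q + m)) =
      ∑ l ∈ Icc 1 (m3 - m1), ex (-t / (2 * Real.pi) * Real.log ((b : ℝ) / q + m1 + l)) := by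
    rw [sum_shift m1 m3 (by omega) (fun m => ex (-t / (2 * Real.pi) * Real.log ((b : ℝ) / q + m)))]
    refine sum_congr rfl fun l _ => ?_
    push_cast
    rw [add_assoc]
  rw [abs_neg, ← hshift] at hmain
  rw [hsplit]
  refine (norm_add_le _ _).trans ?_
  have hfin : C * (m1 / |t| + (m1 : ℝ) ^ (1 - η)) ≤ C * (M / |t| + (M : ℝ) ^ (1 - η)) := by
    have : (m1 : ℝ) ^ (1 - η) ≤ (M : ℝ) ^ (1 - η) :=
      Real.rpow_le_rpow (by linarith) hm1M (by linarith)
    gcongr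
  have h5 : (2 : ℝ) ≤ (9 * q ^ 2 + 2) * (M / |t| + (M : ℝ) ^ (1 - η)) := by
    have h6 : (9 * (q : ℝ) ^ 2 + 2) * 1 ≤ (9 * q ^ 2 + 2) * (M / |t| + (M : ℝ) ^ (1 - η)) := by
      gcongr
      linarith
    have : 0 ≤ 9 * (q : ℝ) ^ 2 := by positivity
    linarith
  calc _ ≤ C * (m1 / |t| + (m1 : ℝ) ^ (1 - η)) + 2 := add_le_add hmain hsmall
    _ ≤ C * (M / |t| + (M : ℝ) ^ (1 - η)) + (9 * q ^ 2 + 2) * (M / |t| + (M : ℝ) ^ (1 - η)) :=
        add_le_add hfin h5
    _ = _ := by ring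

end Pool.Agent.MRL.VDT
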