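import Pool.Agent.Lib.MRL.Basics

/-! TANK MR, row AT: the Gaussian tail (`MeanValue → TailPart`). helper20. -/

set_option autoImplicit false

namespace Pool.Agent.MRL

open Finset MeasureTheory Pool.Agent.MRL.Bas

namespace AT

/-- the mean square of `A_Y` -/
theorem A_mean (h1 : MeanValue) : ∃ C : ℝ, 0 < C ∧ ∀ Y T : ℝ, 1 ≤ Y → 0 < T → T ≤ Y →
    ∫ t : ℝ, ‖A Y t‖ ^ 2 * g T t ≤ C := by
  obtain ⟨C, hC, h⟩ := h1
  refine ⟨6 * C, by positivity, fun Y T hY hT hTY => ?_⟩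
  set N := ⌊2 * Y⌋₊ with hN
  have hN1 : 1 ≤ N := by
    rw [hN, Nat.one_le_floor_iff]
    linarith
  have hNY : (N : ℝ) ≤ 2 * Y := Nat.floor_le (by linarith)
  set a : ℕ → ℂ := fun n => if n ∈ Ioc ⌊Y⌋₊ N then ((lam n / n : ℝ) : ℂ) else 0 with ha
  have hsub : Ioc ⌊Y⌋₊ N ⊆ Icc 1 N := by
    intro n hn
    rw [Finset.mem_Ioc] at hn
    rw [Finset.mem_Icc]
    omega
  have hA : ∀ t, A Y t = ∑ n ∈ Icc 1 N, a n * nt n t := by
    intro t
    unfold A
    rw [← Finset.sum_subset hsub]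
    · refine Finset.sum_congr rfl fun n hn => ?_
      rw [ha]
      simp only [hn, if_true]
    · intro n _ hn
      rw [ha]
      simp only [hn, if_false, zero_mul]
  have h2 := h N T a hN1 hT
  have h3 : ∑ n ∈ Icc 1 N, ‖a n‖ ^ 2 ≤ 2 / Y := by
    have h4 : ∑ n ∈ Icc 1 N, ‖a n‖ ^ 2 = ∑ n ∈ Ioc ⌊Y⌋₊ N, ‖a n‖ ^ 2 := by
      rw [← Finset.sum_subset hsub]
      intro n _ hn
      rw [ha]
      simp only [hn, if_false, norm_zero]
      norm_num
    rw [h4]
    have h5 : ∀ n ∈ Ioc ⌊Y⌋₊ N, ‖a n‖ ^ 2 ≤ 1 / Y ^ 2 := by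
      intro n hn
      have hn' := Finset.mem_Ioc.mp hn
      have hYn : Y < n := (Nat.floor_lt (by linarith)).mp hn'.1
      rw [ha]
      simp only [hn, if_true, Complex.norm_real, Real.norm_eq_abs, abs_div, abs_lam,
        Nat.abs_cast]
      rw [div_pow, one_pow]
      apply one_div_le_one_div_of_le (by positivity)
      exact pow_le_pow_left₀ (by linarith) hYn.le 2
    refine (Finset.sum_le_card_nsmul _ _ _ h5).trans ?_
    rw [nsmul_eq_mul, Nat.card_Ioc]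
    have h6 : ((N - ⌊Y⌋₊ : ℕ) : ℝ) ≤ 2 * Y := by
      calc ((N - ⌊Y⌋₊ : ℕ) : ℝ) ≤ (N : ℝ) := by exact_mod_cast Nat.sub_le _ _
        _ ≤ 2 * Y := hNY
    calc ((N - ⌊Y⌋₊ : ℕ) : ℝ) * (1 / Y ^ 2) ≤ 2 * Y * (1 / Y ^ 2) := by gcongr
      _ = 2 / Y := by field_simp
  simp_rw [hA]
  refine h2.trans ?_
  have h7 : T + N ≤ 3 * Y := by linarith
  have h8 : 0 ≤ ∑ n ∈ Icc 1 N, ‖a n‖ ^ 2 := by positivity
  calc C * (T + N) * ∑ n ∈ Icc 1 N, ‖a n‖ ^ 2 ≤ C * (3 * Y) * (2 / Y) := by gcongr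
    _ = 6 * C := by field_simp; ring

end AT

/-- the Gaussian tail -/
theorem tailPart (h1 : MeanValue) : TailPart := by
  obtain ⟨C, hC, hA⟩ := AT.A_mean h1
  intro δ hδ
  set h : ℝ := 2 + C / δ with hh
  have hCδ : 0 < C / δ := by positivity
  have hh2 : 2 ≤ h := by linarith
  refine ⟨h, by linarith, fun X T hX hT hTX => ?_⟩
  have hTh : T * h ≤ X := (le_div_iff₀ (by linarith)).1 hTX
  have h2T : 2 * T ≤ X := by nlinarith
  have hm := hA X (2 * T) hX (by positivity) h2T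
  have hexp : Real.exp (-h) * C ≤ δ := by
    have e1 : C / δ ≤ Real.exp h := by
      have := Real.add_one_le_exp h
      linarith
    rw [Real.exp_neg, inv_mul_eq_div, div_le_iff₀ (Real.exp_pos _)]
    rw [div_le_iff₀ hδ] at e1
    linarith
  have hmeas : MeasurableSet {t : ℝ | X < |t|} := measurableSet_lt measurable_const measurable_id.abs
  have hpt : ∀ t ∈ {t : ℝ | X < |t|},
      ‖A X t‖ ^ 2 * g T t ≤ Real.exp (-h) * (‖A X t‖ ^ 2 * g (2 * T) t) := by
    intro t ht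
    have ht' : X < |t| := ht
    have hg : g T t ≤ Real.exp (-h) * g (2 * T) t := by
      unfold g
      rw [← Real.exp_add, Real.exp_le_exp]
      have e2 : (t / (2 * T)) ^ 2 = (t / T) ^ 2 / 4 := by
        rw [div_pow, div_pow, mul_pow]
        field_simp
        norm_num
      rw [e2]
      have e3 : h ≤ |t / T| := by
        rw [abs_div, abs_of_pos hT, le_div_iff₀ hT]
        linarith
      have e4 : h ^ 2 ≤ (t / T) ^ 2 := by
        rw [← sq_abs (t / T)]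
        exact pow_le_pow_left₀ (by linarith) e3 2
      nlinarith
    calc ‖A X t‖ ^ 2 * g T t ≤ ‖A X t‖ ^ 2 * (Real.exp (-h) * g (2 * T) t) :=
          mul_le_mul_of_nonneg_left hg (by positivity)
      _ = Real.exp (-h) * (‖A X t‖ ^ 2 * g (2 * T) t) := by ring
  have hi1 : Integrable (fun t => ‖A X t‖ ^ 2 * g T t) := integrable_A hT
  have hi2 : Integrable (fun t => ‖A X t‖ ^ 2 * g (2 * T) t) := integrable_A (by positivity)
  calc ∫ t in {t : ℝ | X < |t|}, ‖A X t‖ ^ 2 * g T t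
      ≤ ∫ t in {t : ℝ | X < |t|}, Real.exp (-h) * (‖A X t‖ ^ 2 * g (2 * T) t) :=
        setIntegral_mono_on hi1.integrableOn (hi2.const_mul _).integrableOn hmeas hpt
    _ ≤ ∫ t, Real.exp (-h) * (‖A X t‖ ^ 2 * g (2 * T) t) := by
        refine setIntegral_le_integral (hi2.const_mul _) (Filter.Eventually.of_forall fun t => ?_)
        have := g_nonneg (2 * T) t
        positivity
    _ = Real.exp (-h) * ∫ t, ‖A X t‖ ^ 2 * g (2 * T) t := integral_const_mul _ _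
    _ ≤ Real.exp (-h) * C := by gcongr
    _ ≤ δ := hexp

end Pool.Agent.MRL
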