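import Pool.Agent.Lib.MRL.Defs

/-! TANK MR: sub-rows of the assembly AS. helper89. -/

set_option autoImplicit false

namespace Pool.Agent.MRL

open Finset

noncomputable section

/-- body of `Params`. -/
def ParamsOK (K α C : ℝ) (s : ℕ → Scale) : Prop :=
  (∀ j, 1 ≤ (s j).H ∧ (s j).H ≤ (s j).v1 ∧ (s j).v1 < (s j).v2 ∧ (s j).H ≤ (s (j + 1)).H) ∧
  (∀ j : ℕ, K * ((j : ℝ) + 1) ^ 2 ≤ (s j).H ∧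
    K * ((j : ℝ) + 1) ^ 2 ≤ LL (s j).H (s j).v1 (s j).v2) ∧
  (∀ j, α / 2 ≤ (s j).α ∧ (s j).α < (s (j + 1)).α ∧ (s j).α ≤ α) ∧
  (12 * Real.log (((s 0).v2 : ℝ) + 2) + K ≤ (s 0).α * (((s 0).v1 : ℝ) / (s 0).H)) ∧
  (∀ j : ℕ,
    12 * (((s j).v2 : ℝ) / (s j).H)
      ≤ ((s (j + 1)).α - (s j).α) * (((s (j + 1)).v1 : ℝ) / (s (j + 1)).H) ∧
    12 * Real.log (((s (j + 1)).v2 : ℝ) + 2)
      ≤ ((s (j + 1)).α - (s j).α) * (((s (j + 1)).v1 : ℝ) / (s (j + 1)).H) ∧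
    Real.log (C * (((s (j + 1)).v2 : ℝ) / (s (j + 1)).H) + C)
      ≤ ((s (j + 1)).α - (s j).α) / 2 * (((s j).v1 : ℝ) / (s j).H) ∧
    K + j ≤ ((s (j + 1)).α - (s j).α) * (((s (j + 1)).v1 : ℝ) / (s (j + 1)).H))

theorem params_iff : Params ↔ ∀ K α C : ℝ, 1 ≤ K → 0 < α → α ≤ 1 / 4 → 1 ≤ C →
    ∃ s : ℕ → Scale, ParamsOK K α C s := Iff.rfl

/-- `Good` for a scale. -/
def Scale.Good (s : Scale) (t : ℝ) : Prop := Pool.Agent.MRL.Good s.H s.v1 s.v2 s.α t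

/-- ROW AC: the union of all good sets up to level `J`. -/
def ChainPart : Prop := ∃ CJ : ℝ, 1 ≤ CJ ∧ ∃ C : ℝ, 0 < C ∧ ∀ (K α : ℝ) (s : ℕ → Scale),
  1 ≤ K → 0 < α → α ≤ 1 / 4 → ParamsOK K α CJ s → ∀ (J : ℕ) (X T : ℝ), 0 < T → T ≤ X →
  T * Real.exp (((s 0).v2 : ℝ) / (s 0).H) ≤ X →
  (∀ j ≤ J, Real.exp (((s j).v2 : ℝ) / (s j).H) ≤ √X ∧ ((s j).H : ℝ) ≤ X) →
  ∫ t in {t : ℝ | ∃ j ≤ J, (s j).Good t}, ‖A X t‖ ^ 2 * g T t ≤ C / K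

/-- ROW AU: small integral over any set covered by few unit intervals. -/
def UPart : Prop := ∀ δ : ℝ, 0 < δ → ∃ θ : ℝ, 0 < θ ∧ θ ≤ 1 ∧ ∃ X0 : ℝ, ∀ X T : ℝ, X0 ≤ X →
  0 < T → T ≤ X → ∀ (E : Set ℝ) (R : Finset ℤ), MeasurableSet E → (∀ t ∈ E, |t| ≤ X) →
  (∀ r ∈ R, |(r : ℝ)| ≤ 2 * X) → (R.card : ℝ) ≤ X ^ θ →
  (∀ t ∈ E, ∃ r ∈ R, t ∈ Set.Icc (r : ℝ) (r + 1)) →
  ∫ t in E, ‖A X t‖ ^ 2 * g T t ≤ δ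

/-- ROW AT: the Gaussian tail. -/
def TailPart : Prop := ∀ δ : ℝ, 0 < δ → ∃ h : ℝ, 1 ≤ h ∧ ∀ X T : ℝ, 1 ≤ X → 0 < T →
  T ≤ X / h → ∫ t in {t : ℝ | X < |t|}, ‖A X t‖ ^ 2 * g T t ≤ δ

/-- ROW AN: choice of the last level. -/
def NumJ : Prop := ∀ (K α C θ : ℝ) (s : ℕ → Scale), 1 ≤ K → 0 < α → α ≤ 1 / 4 → 1 ≤ C →
  0 < θ → θ ≤ 1 → α ≤ θ / 16 → ParamsOK K α C s → ∃ X0 : ℝ, ∀ X : ℝ, X0 ≤ X → ∃ J : ℕ,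
    16 / θ * Real.log (Real.log X) ≤ ((s J).v1 : ℝ) / (s J).H ∧
    12 * Real.log (((s J).v2 : ℝ) + 2) ≤ ((s J).v1 : ℝ) / (s J).H ∧
    (∀ j ≤ J, ((s j).v2 : ℝ) / (s j).H ≤ θ / 16 * Real.log X ∧
      Real.exp (((s j).v2 : ℝ) / (s j).H) ≤ √X ∧ ((s j).H : ℝ) ≤ X)

end

end Pool.Agent.MRL
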