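import Pool.Agent.Lib.MRL.S1
import Pool.Agent.Lib.MRL.Defs2

/-! TANK MR, row AU: the mean square of `A` over a set covered by few unit intervals. helper71. -/

set_option autoImplicit false

namespace Pool.Agent.MRL

open Finset MeasureTheory

namespace AU

theorem exists_bound_dsum (s : Finset ℕ) (a : ℕ → ℂ) : ∃ B : ℝ, 0 ≤ B ∧
    ∀ t, ‖∑ n ∈ s, a n * nt n t‖ ≤ B :=
  ⟨∑ n ∈ s, ‖a n‖, by positivity, norm_dsum_le s a⟩

theorem exists_bound_S (X : ℝ) (H v1 v2 : ℕ) : ∃ B : ℝ, 0 ≤ B ∧ ∀ t, ‖S X H v1 v2 t‖ ≤ B := by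
  have hQ : ∀ v : ℕ, ∃ B : ℝ, 0 ≤ B ∧ ∀ t, ‖Q H v t‖ ≤ B := fun v =>
    exists_bound_dsum (W H v) (fun p => ((1 / p : ℝ) : ℂ))
  have hA : ∀ v : ℕ, ∃ B : ℝ, 0 ≤ B ∧ ∀ t, ‖A (X * Real.exp (-((v : ℝ) / H))) t‖ ≤ B := fun v =>
    exists_bound_dsum _ (fun m => ((lam m / m : ℝ) : ℂ))
  choose BQ hBQ0 hBQ using hQ
  choose BA hBA0 hBA using hA
  refine ⟨∑ v ∈ Ico v1 v2, BQ v * BA v,
    Finset.sum_nonneg fun v _ => mul_nonneg (hBQ0 v) (hBA0 v), fun t => ?_⟩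
  unfold S
  refine (norm_sum_le _ _).trans (Finset.sum_le_sum fun v _ => ?_)
  rw [norm_mul]
  exact mul_le_mul (hBQ v t) (hBA v t) (norm_nonneg _) (hBQ0 v)

theorem exists_bound_A (Y : ℝ) : ∃ B : ℝ, 0 ≤ B ∧ ∀ t, ‖A Y t‖ ≤ B :=
  exists_bound_dsum _ (fun m => ((lam m / m : ℝ) : ℂ))

/-- a bounded continuous complex function is square integrable with weight `g` -/
theorem integrable_sq {T : ℝ} (hT : 0 < T) {f : ℝ → ℂ} (hf : Continuous f) {B : ℝ}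
    (hB0 : 0 ≤ B) (hB : ∀ t, ‖f t‖ ≤ B) : Integrable fun t => ‖f t‖ ^ 2 * g T t := by
  refine integrable_mul_g hT (B := B ^ 2) (hf.norm.pow 2) fun t => ?_
  rw [abs_of_nonneg (by positivity)]
  exact pow_le_pow_left₀ (norm_nonneg _) (hB t) 2

/-- integral over a set covered by unit intervals -/
theorem int_Q_le {H v : ℕ} {B : ℝ} (R : Finset ℤ)
    (hR : ∀ τ : ℤ → ℝ, (∀ r ∈ R, τ r ∈ Set.Icc (r : ℝ) (r + 1)) →
      ∑ r ∈ R, ‖Q H v (τ r)‖ ^ 2 ≤ B)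
    (E : Set ℝ) (hE : MeasurableSet E) (hcov : ∀ t ∈ E, ∃ r ∈ R, t ∈ Set.Icc (r : ℝ) (r + 1)) :
    ∫ t in E, ‖Q H v t‖ ^ 2 ≤ B := by
  have hmax : ∀ r : ℤ, ∃ x ∈ Set.Icc (r : ℝ) (r + 1),
      ∀ t ∈ Set.Icc (r : ℝ) (r + 1), ‖Q H v t‖ ≤ ‖Q H v x‖ := by
    intro r
    have h := isCompact_Icc.exists_isMaxOn (s := Set.Icc (r : ℝ) (r + 1))
      ⟨r, Set.left_mem_Icc.mpr (by linarith)⟩ ((continuous_Q H v).norm.continuousOn)
    obtain ⟨x, hx, hmax⟩ := h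
    exact ⟨x, hx, fun t ht => hmax ht⟩
  choose τ hτ hτmax using hmax
  set G : ℝ → ℝ := fun t => ∑ r ∈ R, (Set.Icc (r : ℝ) (r + 1)).indicator
    (fun _ => ‖Q H v (τ r)‖ ^ 2) t with hG
  have hG0 : ∀ t, 0 ≤ G t := fun t =>
    Finset.sum_nonneg fun r _ => Set.indicator_nonneg (fun _ _ => by positivity) _
  have hGi : ∀ r ∈ R, Integrable ((Set.Icc (r : ℝ) (r + 1)).indicator
      (fun _ => ‖Q H v (τ r)‖ ^ 2)) := by
    intro r _
    rw [integrable_indicator_iff measurableSet_Icc]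
    exact integrableOn_const (by simp)
  have hGint : Integrable G := integrable_finsetSum _ hGi
  have hpt : ∀ t ∈ E, ‖Q H v t‖ ^ 2 ≤ G t := by
    intro t ht
    obtain ⟨r, hr, htr⟩ := hcov t ht
    calc ‖Q H v t‖ ^ 2 ≤ ‖Q H v (τ r)‖ ^ 2 :=
          pow_le_pow_left₀ (norm_nonneg _) (hτmax r t htr) 2
      _ = (Set.Icc (r : ℝ) (r + 1)).indicator (fun _ => ‖Q H v (τ r)‖ ^ 2) t := by
          rw [Set.indicator_of_mem htr]
      _ ≤ G t := Finset.single_le_sum (f := fun r : ℤ => (Set.Icc (r : ℝ) (r + 1)).indicator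
          (fun _ => ‖Q H v (τ r)‖ ^ 2) t)
          (fun r _ => Set.indicator_nonneg (fun _ _ => by positivity) _) hr
  calc ∫ t in E, ‖Q H v t‖ ^ 2 ≤ ∫ t in E, G t := by
        refine integral_mono_of_nonneg ?_ hGint.integrableOn ?_
        · exact Filter.Eventually.of_forall fun t => by positivity
        · exact (ae_restrict_iff' hE).mpr (Filter.Eventually.of_forall hpt)
    _ ≤ ∫ t, G t := setIntegral_le_integral hGint (Filter.Eventually.of_forall hG0)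
    _ = ∑ r ∈ R, ‖Q H v (τ r)‖ ^ 2 := by
        rw [hG, integral_finsetSum _ hGi]
        refine Finset.sum_congr rfl fun r _ => ?_
        rw [integral_indicator measurableSet_Icc, setIntegral_const]
        simp
    _ ≤ B := hR τ fun r _ => hτ r

/-- the mean square of `S` over a set on which all `A` are small and the `Q` have small integral -/
theorem int_S_le {X T : ℝ} {H v1 v2 : ℕ} {η B : ℝ} (hη : 0 ≤ η) (hB : 0 ≤ B)
    (E : Set ℝ) (hE : MeasurableSet E) (hEX : ∀ t ∈ E, |t| ≤ X)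
    (hA : ∀ v ∈ Ico v1 v2, ∀ t ∈ E, ‖A (X * Real.exp (-((v : ℝ) / H))) t‖ ≤ η)
    (hQ : ∀ v ∈ Ico v1 v2, ∫ t in E, ‖Q H v t‖ ^ 2 ≤ B) :
    ∫ t in E, ‖S X H v1 v2 t‖ ^ 2 * g T t ≤ (v2 : ℝ) ^ 2 * η ^ 2 * B := by
  have hsub : E ⊆ Set.Icc (-X) X := fun t ht => abs_le.mp (hEX t ht)
  have hQi : ∀ v ∈ Ico v1 v2, IntegrableOn
      (fun t => (v2 : ℝ) * η ^ 2 * ‖Q H v t‖ ^ 2) E := by
    intro v _
    refine IntegrableOn.mono_set ?_ hsub
    exact (continuous_const.mul ((continuous_Q H v).norm.pow 2)).integrableOn_Icc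
  have hpt : ∀ t ∈ E, ‖S X H v1 v2 t‖ ^ 2 * g T t ≤
      ∑ v ∈ Ico v1 v2, (v2 : ℝ) * η ^ 2 * ‖Q H v t‖ ^ 2 := by
    intro t ht
    have hs : ‖S X H v1 v2 t‖ ^ 2 ≤ ∑ v ∈ Ico v1 v2, (v2 : ℝ) * η ^ 2 * ‖Q H v t‖ ^ 2 := by
      unfold S
      calc ‖∑ v ∈ Ico v1 v2, Q H v t * A (X * Real.exp (-((v : ℝ) / H))) t‖ ^ 2
          ≤ (∑ v ∈ Ico v1 v2, ‖Q H v t * A (X * Real.exp (-((v : ℝ) / H))) t‖) ^ 2 :=
            pow_le_pow_left₀ (norm_nonneg _) (norm_sum_le _ _) 2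
        _ ≤ (Ico v1 v2).card * ∑ v ∈ Ico v1 v2,
              ‖Q H v t * A (X * Real.exp (-((v : ℝ) / H))) t‖ ^ 2 := sq_sum_le_card_mul_sum_sq
        _ ≤ (v2 : ℝ) * ∑ v ∈ Ico v1 v2, η ^ 2 * ‖Q H v t‖ ^ 2 := by
            have hcard : (((Ico v1 v2).card : ℕ) : ℝ) ≤ v2 := by
              rw [Nat.card_Ico]
              exact_mod_cast Nat.sub_le _ _
            refine mul_le_mul hcard (Finset.sum_le_sum fun v hv' => ?_) (by positivity)
              (by positivity)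
            rw [norm_mul, mul_pow, mul_comm]
            exact mul_le_mul_of_nonneg_right
              (pow_le_pow_left₀ (norm_nonneg _) (hA v hv' t ht) 2) (by positivity)
        _ = _ := by
            rw [Finset.mul_sum]
            exact Finset.sum_congr rfl fun v _ => by ring
    calc ‖S X H v1 v2 t‖ ^ 2 * g T t ≤ ‖S X H v1 v2 t‖ ^ 2 * 1 :=
          mul_le_mul_of_nonneg_left (g_le_one T t) (by positivity)
      _ ≤ _ := by rw [mul_one]; exact hs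
  calc ∫ t in E, ‖S X H v1 v2 t‖ ^ 2 * g T t
      ≤ ∫ t in E, ∑ v ∈ Ico v1 v2, (v2 : ℝ) * η ^ 2 * ‖Q H v t‖ ^ 2 := by
        refine integral_mono_of_nonneg ?_ (integrable_finsetSum _ hQi) ?_
        · exact Filter.Eventually.of_forall fun t => by
            have := g_pos T t
            positivity
        · exact (ae_restrict_iff' hE).mpr (Filter.Eventually.of_forall hpt)
    _ = ∑ v ∈ Ico v1 v2, (v2 : ℝ) * η ^ 2 * ∫ t in E, ‖Q H v t‖ ^ 2 := by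
        rw [integral_finsetSum _ hQi]
        exact Finset.sum_congr rfl fun v _ => integral_const_mul _ _
    _ ≤ ∑ v ∈ Ico v1 v2, (v2 : ℝ) * η ^ 2 * B := by
        refine Finset.sum_le_sum fun v hv' => ?_
        exact mul_le_mul_of_nonneg_left (hQ v hv') (by positivity)
    _ = ((v2 - v1 : ℕ) : ℝ) * ((v2 : ℝ) * η ^ 2 * B) := by
        rw [Finset.sum_const, Nat.card_Ico, nsmul_eq_mul]
    _ ≤ (v2 : ℝ) * ((v2 : ℝ) * η ^ 2 * B) := by
        refine mul_le_mul_of_nonneg_right ?_ (by positivity)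
        exact_mod_cast Nat.sub_le _ _
    _ = (v2 : ℝ) ^ 2 * η ^ 2 * B := by ring

/-- from the decomposition to a bound over `E` -/
theorem int_A_le {X T : ℝ} (hT : 0 < T) {H v1 v2 : ℕ} {L D M : ℝ} (hL : 1 ≤ L)
    (E : Set ℝ) (hE : MeasurableSet E)
    (hD : ∫ t : ℝ, ‖A X t + ((1 / L : ℝ) : ℂ) * S X H v1 v2 t‖ ^ 2 * g T t ≤ D)
    (hS : ∫ t in E, ‖S X H v1 v2 t‖ ^ 2 * g T t ≤ M) :
    ∫ t in E, ‖A X t‖ ^ 2 * g T t ≤ 2 * D + 2 * M := by
  obtain ⟨BS, hBS0, hBS⟩ := exists_bound_S X H v1 v2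
  obtain ⟨BA, hBA0, hBA⟩ := exists_bound_A X
  have hL0 : 0 ≤ 1 / L := by positivity
  have hL1 : 1 / L ≤ 1 := by
    rw [div_le_one (by linarith)]
    exact hL
  have hi1 : Integrable fun t => ‖A X t + ((1 / L : ℝ) : ℂ) * S X H v1 v2 t‖ ^ 2 * g T t := by
    refine integrable_sq hT (B := BA + 1 / L * BS)
      ((continuous_A X).add (continuous_const.mul (continuous_S X H v1 v2))) (by positivity) ?_
    intro t
    refine (norm_add_le _ _).trans (add_le_add (hBA t) ?_)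
    rw [norm_mul, Complex.norm_real, Real.norm_eq_abs, abs_of_nonneg hL0]
    exact mul_le_mul_of_nonneg_left (hBS t) hL0
  have hi2 : Integrable fun t => ‖S X H v1 v2 t‖ ^ 2 * g T t :=
    integrable_sq hT (continuous_S X H v1 v2) hBS0 hBS
  have hpt : ∀ t, ‖A X t‖ ^ 2 * g T t ≤
      2 * (‖A X t + ((1 / L : ℝ) : ℂ) * S X H v1 v2 t‖ ^ 2 * g T t) +
        2 * (‖S X H v1 v2 t‖ ^ 2 * g T t) := by
    intro t
    set a := ‖A X t + ((1 / L : ℝ) : ℂ) * S X H v1 v2 t‖ with ha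
    set b := ‖S X H v1 v2 t‖ with hb
    have h1 : ‖A X t‖ ≤ a + b := by
      calc ‖A X t‖ = ‖(A X t + ((1 / L : ℝ) : ℂ) * S X H v1 v2 t) -
            ((1 / L : ℝ) : ℂ) * S X H v1 v2 t‖ := by rw [add_sub_cancel_right]
        _ ≤ a + ‖((1 / L : ℝ) : ℂ) * S X H v1 v2 t‖ := norm_sub_le _ _
        _ ≤ a + b := by
            refine add_le_add le_rfl ?_
            rw [norm_mul, Complex.norm_real, Real.norm_eq_abs, abs_of_nonneg hL0]
            calc 1 / L * ‖S X H v1 v2 t‖ ≤ 1 * ‖S X H v1 v2 t‖ :=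
                  mul_le_mul_of_nonneg_right hL1 (norm_nonneg _)
              _ = b := by rw [one_mul]
    have h2 : ‖A X t‖ ^ 2 ≤ 2 * a ^ 2 + 2 * b ^ 2 := by
      have h3 : ‖A X t‖ ^ 2 ≤ (a + b) ^ 2 := pow_le_pow_left₀ (norm_nonneg _) h1 2
      nlinarith [sq_nonneg (a - b)]
    have h4 := g_pos T t
    calc ‖A X t‖ ^ 2 * g T t ≤ (2 * a ^ 2 + 2 * b ^ 2) * g T t :=
          mul_le_mul_of_nonneg_right h2 h4.le
      _ = _ := by ring
  calc ∫ t in E, ‖A X t‖ ^ 2 * g T t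
      ≤ ∫ t in E, (2 * (‖A X t + ((1 / L : ℝ) : ℂ) * S X H v1 v2 t‖ ^ 2 * g T t) +
        2 * (‖S X H v1 v2 t‖ ^ 2 * g T t)) := by
        refine integral_mono_of_nonneg ?_
          ((hi1.const_mul 2).add (hi2.const_mul 2)).integrableOn ?_
        · exact Filter.Eventually.of_forall fun t => by
            have := g_pos T t
            positivity
        · exact Filter.Eventually.of_forall hpt
    _ = 2 * (∫ t in E, ‖A X t + ((1 / L : ℝ) : ℂ) * S X H v1 v2 t‖ ^ 2 * g T t) +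
        2 * ∫ t in E, ‖S X H v1 v2 t‖ ^ 2 * g T t := by
        rw [integral_add (hi1.const_mul 2).integrableOn (hi2.const_mul 2).integrableOn,
          integral_const_mul, integral_const_mul]
    _ ≤ 2 * D + 2 * M := by
        have h5 : ∫ t in E, ‖A X t + ((1 / L : ℝ) : ℂ) * S X H v1 v2 t‖ ^ 2 * g T t ≤ D := by
          refine (setIntegral_le_integral hi1 (Filter.Eventually.of_forall fun t => ?_)).trans hD
          have := g_pos T t
          positivity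
        linarith

end AU

/-- ROW AU. -/
theorem uPart (hD : Decomp) (hSP : SparsePrimes) (hHA : HalaszA) (hML : MertensLower) :
    UPart := by
  obtain ⟨CD, hCD, hD⟩ := hD
  obtain ⟨c, hc, CM, hML⟩ := hML
  intro δ hδ
  obtain ⟨K, hK⟩ : ∃ K : ℝ, K = 8 * CD / δ + 1 := ⟨_, rfl⟩
  have hK1 : 1 ≤ K := by
    rw [hK]
    have : 0 ≤ 8 * CD / δ := by positivity
    linarith
  obtain ⟨κ, hκ⟩ : ∃ κ : ℝ, κ = (K + |CM|) / c := ⟨_, rfl⟩
  have hκ0 : 0 ≤ κ := by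
    rw [hκ]
    positivity
  obtain ⟨β, hβdef⟩ : ∃ β : ℝ, β = 1 / 8 * Real.exp (-κ) := ⟨_, rfl⟩
  have hβ : 0 < β := by
    rw [hβdef]
    positivity
  have hβ8 : β ≤ 1 / 8 := by
    rw [hβdef]
    have : Real.exp (-κ) ≤ 1 := Real.exp_le_one_iff.mpr (by linarith)
    linarith
  have hβκ : β * Real.exp κ = 1 / 8 := by
    rw [hβdef, mul_assoc, ← Real.exp_add, neg_add_cancel, Real.exp_zero, mul_one]
  obtain ⟨θ, hθ, hθ1, CS, hCS, X1, hSP⟩ := hSP β hβ hβ8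
  obtain ⟨H, hHdef⟩ : ∃ H : ℕ, H = ⌈K⌉₊ := ⟨_, rfl⟩
  have hHK : K ≤ H := by
    rw [hHdef]
    exact Nat.le_ceil _
  have hHr : (1 : ℝ) ≤ H := hK1.trans hHK
  have hH1 : 1 ≤ H := by exact_mod_cast hHr
  have hH0 : (0 : ℝ) < H := by linarith
  obtain ⟨η, hηdef⟩ : ∃ η : ℝ, η = √(4 * δ / ((H : ℝ) ^ 2 * CS)) := ⟨_, rfl⟩
  have hη : 0 < η := by
    rw [hηdef]
    exact Real.sqrt_pos.mpr (by positivity)
  have hη2 : η ^ 2 = 4 * δ / ((H : ℝ) ^ 2 * CS) := by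
    rw [hηdef]
    exact Real.sq_sqrt (by positivity)
  obtain ⟨Y0, hHA⟩ := hHA η hη
  have hlog : Filter.Tendsto Real.log Filter.atTop Filter.atTop := Real.tendsto_log_atTop
  have e1 : ∀ᶠ X : ℝ in Filter.atTop, X1 ≤ X := Filter.eventually_ge_atTop X1
  have e2 : ∀ᶠ X : ℝ in Filter.atTop, 1 ≤ X := Filter.eventually_ge_atTop 1
  have e3 : ∀ᶠ X : ℝ in Filter.atTop, (H : ℝ) ≤ X := Filter.eventually_ge_atTop _
  have e4 : ∀ᶠ X : ℝ in Filter.atTop, 1 / β ≤ Real.log X :=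
    hlog.eventually (Filter.eventually_ge_atTop _)
  have e5 : ∀ᶠ X : ℝ in Filter.atTop, 8 * (2 + Real.exp κ) ≤ Real.log X :=
    hlog.eventually (Filter.eventually_ge_atTop _)
  have e6 : ∀ᶠ X : ℝ in Filter.atTop, Y0 ≤ X ^ (3 / 4 : ℝ) :=
    (tendsto_rpow_atTop (by norm_num : (0 : ℝ) < 3 / 4)).eventually
      (Filter.eventually_ge_atTop _)
  obtain ⟨X0, hX0⟩ := Filter.eventually_atTop.mp
    (e1.and (e2.and (e3.and (e4.and (e5.and e6)))))
  refine ⟨θ, hθ, hθ1, X0, ?_⟩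
  intro X T hX hT hTX E R hE hEX hRX hRc hcov
  obtain ⟨hX1, hX2, hX3, hX4, hX5, hX6⟩ := hX0 X hX
  have hXpos : 0 < X := by linarith
  obtain ⟨l, hl⟩ : ∃ l : ℝ, l = Real.log X := ⟨_, rfl⟩
  rw [← hl] at hX4 hX5
  have hl0 : 0 < l := by
    have := Real.exp_pos κ
    linarith
  have hβl : 1 ≤ β * l := by
    rw [div_le_iff₀ hβ] at hX4
    linarith
  have hexpl : Real.exp l = X := by
    rw [hl]
    exact Real.exp_log hXpos
  obtain ⟨v1, hv1def⟩ : ∃ v1 : ℕ, v1 = ⌈(H : ℝ) * β * l⌉₊ := ⟨_, rfl⟩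
  obtain ⟨v2, hv2def⟩ : ∃ v2 : ℕ, v2 = ⌊(H : ℝ) * l / 4⌋₊ := ⟨_, rfl⟩
  have hv1 : (H : ℝ) * β * l ≤ v1 := by
    rw [hv1def]
    exact Nat.le_ceil _
  have hv1' : (v1 : ℝ) < (H : ℝ) * β * l + 1 := by
    rw [hv1def]
    exact Nat.ceil_lt_add_one (by positivity)
  have hv2 : (v2 : ℝ) ≤ (H : ℝ) * l / 4 := by
    rw [hv2def]
    exact Nat.floor_le (by positivity)
  have hv2' : (H : ℝ) * l / 4 - 1 < v2 := by
    rw [hv2def]
    exact Nat.sub_one_lt_floor _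
  have hHl : 8 * (2 + Real.exp κ) ≤ (H : ℝ) * l := by
    calc 8 * (2 + Real.exp κ) ≤ 1 * l := by linarith
      _ ≤ (H : ℝ) * l := mul_le_mul_of_nonneg_right hHr hl0.le
  have hHv1r : (H : ℝ) ≤ v1 := by
    calc (H : ℝ) = H * 1 := (mul_one _).symm
      _ ≤ H * (β * l) := mul_le_mul_of_nonneg_left hβl hH0.le
      _ = H * β * l := by ring
      _ ≤ v1 := hv1
  have hHv1 : H ≤ v1 := by exact_mod_cast hHv1r
  have hv1pos : (0 : ℝ) < v1 := lt_of_lt_of_le hH0 hHv1r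
  have hv1κ : (v1 : ℝ) * Real.exp κ ≤ v2 := by
    have h1 : (v1 : ℝ) * Real.exp κ ≤ ((H : ℝ) * β * l + 1) * Real.exp κ :=
      mul_le_mul_of_nonneg_right hv1'.le (Real.exp_pos _).le
    have h2 : ((H : ℝ) * β * l + 1) * Real.exp κ = (H : ℝ) * l / 8 + Real.exp κ := by
      calc ((H : ℝ) * β * l + 1) * Real.exp κ
          = (H : ℝ) * l * (β * Real.exp κ) + Real.exp κ := by ring
        _ = (H : ℝ) * l / 8 + Real.exp κ := by rw [hβκ]; ring
    linarith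
  have hexpκ : 1 ≤ Real.exp κ := Real.one_le_exp hκ0
  have hv12r : (v1 : ℝ) ≤ v2 := by
    calc (v1 : ℝ) = v1 * 1 := (mul_one _).symm
      _ ≤ v1 * Real.exp κ := mul_le_mul_of_nonneg_left hexpκ hv1pos.le
      _ ≤ v2 := hv1κ
  have hv12 : v1 ≤ v2 := by exact_mod_cast hv12r
  have hLL : K ≤ LL H v1 v2 := by
    have h1 := hML H v1 v2 hH1 hHv1 hv12
    have h2 : κ ≤ Real.log ((v2 : ℝ) / v1) := by
      rw [Real.le_log_iff_exp_le (div_pos (lt_of_lt_of_le hv1pos hv12r) hv1pos),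
        le_div_iff₀ hv1pos, mul_comm]
      exact hv1κ
    have h3 : c * κ ≤ c * Real.log ((v2 : ℝ) / v1) := mul_le_mul_of_nonneg_left h2 hc.le
    have h4 : c * κ = K + |CM| := by
      rw [hκ]
      field_simp
    have h5 := le_abs_self CM
    linarith
  have hL1 : 1 ≤ LL H v1 v2 := hK1.trans hLL
  have hsqrt : √X = Real.exp (l / 2) := by
    rw [Real.sqrt_eq_rpow, Real.rpow_def_of_pos hXpos, ← hl]
    congr 1
    ring
  have hv2H : (v2 : ℝ) / H ≤ l / 4 := by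
    rw [div_le_iff₀ hH0]
    linarith
  have hexpv2 : Real.exp ((v2 : ℝ) / H) ≤ √X := by
    rw [hsqrt, Real.exp_le_exp]
    linarith
  -- the decomposition
  have hDD := hD X T H v1 v2 hH1 hX3 hv12 hL1 hexpv2 hT hTX
  -- the prime polynomials
  have hQ : ∀ v ∈ Ico v1 v2, ∫ t in E, ‖Q H v t‖ ^ 2 ≤ CS / l ^ 2 := by
    intro v hv
    rw [Finset.mem_Ico] at hv
    have hvr : (v1 : ℝ) ≤ v := by exact_mod_cast hv.1
    have hvr2 : (v : ℝ) + 1 ≤ v2 := by exact_mod_cast hv.2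
    refine AU.int_Q_le R ?_ E hE hcov
    intro τ hτ
    rw [hl]
    refine hSP X hX1 H v hH1 ?_ ?_ R τ hRX hRc hτ
    · rw [Real.rpow_def_of_pos hXpos, ← hl, Real.exp_le_exp, le_div_iff₀ hH0]
      calc l * β * H = (H : ℝ) * β * l := by ring
        _ ≤ v1 := hv1
        _ ≤ v := hvr
    · refine le_trans ?_ hexpv2
      rw [Real.exp_le_exp]
      gcongr
  -- the `A` factors
  have hAA : ∀ v ∈ Ico v1 v2, ∀ t ∈ E, ‖A (X * Real.exp (-((v : ℝ) / H))) t‖ ≤ η := by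
    intro v hv t ht
    rw [Finset.mem_Ico] at hv
    have hvr2 : (v : ℝ) ≤ v2 := by exact_mod_cast hv.2.le
    have hvH : (v : ℝ) / H ≤ l / 4 := (div_le_div_of_nonneg_right hvr2 hH0.le).trans hv2H
    have hY : X ^ (3 / 4 : ℝ) ≤ X * Real.exp (-((v : ℝ) / H)) := by
      rw [Real.rpow_def_of_pos hXpos, ← hl]
      conv_rhs => rw [← hexpl]
      rw [← Real.exp_add, Real.exp_le_exp]
      linarith
    refine hHA _ (hX6.trans hY) t ((hEX t ht).trans ?_)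
    have h34 : (0 : ℝ) ≤ X ^ (3 / 4 : ℝ) := by positivity
    calc X = X ^ (1 : ℝ) := (Real.rpow_one X).symm
      _ ≤ X ^ ((3 / 4 : ℝ) * (3 : ℕ)) := Real.rpow_le_rpow_of_exponent_le hX2 (by norm_num)
      _ = (X ^ (3 / 4 : ℝ)) ^ 3 := by
          rw [Real.rpow_mul hXpos.le, Real.rpow_natCast]
      _ ≤ (X * Real.exp (-((v : ℝ) / H))) ^ 3 := pow_le_pow_left₀ h34 hY 3
  have hS := AU.int_S_le (X := X) (T := T) (H := H) (v1 := v1) (v2 := v2) hη.le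
    (by positivity : 0 ≤ CS / l ^ 2) E hE hEX hAA hQ
  have hfin := AU.int_A_le hT hL1 E hE hDD hS
  refine hfin.trans ?_
  have h1 : CD * (1 / LL H v1 v2 + 1 / H) ≤ δ / 4 := by
    have h2 : 1 / LL H v1 v2 ≤ 1 / K := one_div_le_one_div_of_le (by linarith) hLL
    have h3 : 1 / (H : ℝ) ≤ 1 / K := one_div_le_one_div_of_le (by linarith) hHK
    calc CD * (1 / LL H v1 v2 + 1 / H) ≤ CD * (1 / K + 1 / K) := by gcongr
      _ = 2 * CD / K := by ring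
      _ ≤ δ / 4 := by
          rw [div_le_iff₀ (by linarith), hK]
          have : δ / 4 * (8 * CD / δ + 1) = 2 * CD + δ / 4 := by
            field_simp
            ring
          rw [this]
          linarith
  have h2 : (v2 : ℝ) ^ 2 * η ^ 2 * (CS / l ^ 2) ≤ δ / 4 := by
    have h3 : (v2 : ℝ) ^ 2 ≤ ((H : ℝ) * l / 4) ^ 2 := pow_le_pow_left₀ (by positivity) hv2 2
    calc (v2 : ℝ) ^ 2 * η ^ 2 * (CS / l ^ 2)
        ≤ ((H : ℝ) * l / 4) ^ 2 * η ^ 2 * (CS / l ^ 2) := by gcongr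
      _ = δ / 4 := by
          rw [hη2]
          field_simp
  linarith

end Pool.Agent.MRL
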