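import Pool.Agent.Lib.MRL.Defs

/-! TANK MR, row S1: the set where all prime polynomials of the first scale are small. -/

set_option autoImplicit false

namespace Pool.Agent.MRL

open Finset MeasureTheory

theorem continuous_nt (n : ℕ) : Continuous (nt n) := by
  unfold nt
  fun_prop

theorem norm_nt (n : ℕ) (t : ℝ) : ‖nt n t‖ = 1 := by
  unfold nt
  rw [show -((t * Real.log n : ℝ) : ℂ) * Complex.I = ((-(t * Real.log n) : ℝ) : ℂ) * Complex.I by
    push_cast; ring]
  exact Complex.norm_exp_ofReal_mul_I _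

theorem continuous_Q (H v : ℕ) : Continuous (Q H v) := by
  unfold Q
  exact continuous_finsetSum _ fun p _ => continuous_const.mul (continuous_nt p)

theorem continuous_A (Y : ℝ) : Continuous (A Y) := by
  unfold A
  exact continuous_finsetSum _ fun p _ => continuous_const.mul (continuous_nt p)

theorem continuous_S (X : ℝ) (H v1 v2 : ℕ) : Continuous (S X H v1 v2) := by
  unfold S
  exact continuous_finsetSum _ fun v _ => (continuous_Q H v).mul (continuous_A _)

theorem g_pos (T t : ℝ) : 0 < g T t := Real.exp_pos _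

theorem g_le_one (T t : ℝ) : g T t ≤ 1 := by
  unfold g
  rw [Real.exp_le_one_iff]
  exact neg_nonpos.mpr (sq_nonneg _)

theorem continuous_g (T : ℝ) : Continuous (g T) := by
  unfold g
  fun_prop

theorem integrable_g {T : ℝ} (hT : 0 < T) : Integrable (g T) := by
  have h := integrable_exp_neg_mul_sq (b := 1 / T ^ 2) (by positivity)
  refine h.congr (Filter.Eventually.of_forall fun t => ?_)
  unfold g
  field_simp

/-- a continuous bounded function times the weight is integrable -/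
theorem integrable_mul_g {T : ℝ} (hT : 0 < T) {f : ℝ → ℝ} (hf : Continuous f) {B : ℝ}
    (hB : ∀ t, |f t| ≤ B) : Integrable fun t => f t * g T t := by
  refine (integrable_g hT).bdd_mul (c := B) hf.aestronglyMeasurable ?_
  exact Filter.Eventually.of_forall fun t => by rw [Real.norm_eq_abs]; exact hB t

theorem norm_dsum_le (s : Finset ℕ) (a : ℕ → ℂ) (t : ℝ) :
    ‖∑ n ∈ s, a n * nt n t‖ ≤ ∑ n ∈ s, ‖a n‖ := by
  refine (norm_sum_le _ _).trans (Finset.sum_le_sum fun n _ => ?_)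
  rw [norm_mul, norm_nt, mul_one]

theorem integrable_dsum_sq {T : ℝ} (hT : 0 < T) (s : Finset ℕ) (a : ℕ → ℂ) :
    Integrable fun t => ‖∑ n ∈ s, a n * nt n t‖ ^ 2 * g T t := by
  refine integrable_mul_g hT (B := (∑ n ∈ s, ‖a n‖) ^ 2) ?_ ?_
  · exact ((continuous_finsetSum _ fun p _ => continuous_const.mul (continuous_nt p)).norm).pow 2
  · intro t
    rw [abs_of_nonneg (by positivity)]
    exact pow_le_pow_left₀ (norm_nonneg _) (norm_dsum_le s a t) 2

theorem integrable_A_sq {T : ℝ} (hT : 0 < T) (Y : ℝ) :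
    Integrable fun t => ‖A Y t‖ ^ 2 * g T t := by
  unfold A
  exact integrable_dsum_sq hT _ _

theorem measurableSet_good (H v1 v2 : ℕ) (α : ℝ) : MeasurableSet {t : ℝ | Good H v1 v2 α t} := by
  have h : {t : ℝ | Good H v1 v2 α t} =
      ⋂ v ∈ Ico v1 v2, {t : ℝ | ‖Q H v t‖ ≤ Real.exp (-(α * v / H))} := by
    ext t
    simp [Good]
  rw [h]
  refine Finset.measurableSet_biInter _ fun v _ => ?_
  exact (isClosed_le (continuous_Q H v).norm continuous_const).measurableSet

theorem norm_lam (n : ℕ) : |lam n| = 1 := by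
  unfold lam
  rw [abs_pow, abs_neg, abs_one, one_pow]

/-- the mean square of `A_Y` -/
theorem A_mean (h1 : MeanValue) : ∃ C : ℝ, 0 < C ∧ ∀ Y T : ℝ, 1 ≤ Y → 0 < T → T ≤ Y →
    ∫ t : ℝ, ‖A Y t‖ ^ 2 * g T t ≤ C := by
  obtain ⟨C, hC, h⟩ := h1
  refine ⟨6 * C, by positivity, fun Y T hY hT hTY => ?_⟩
  set N := ⌊2 * Y⌋₊ with hN
  have hN1 : 1 ≤ N := by
    rw [hN, Nat.one_le_floor_iff]
    linarith
  have hNY : (N : ℝ) ≤ 2 * Y := Nat.floor_le (by linarith)
  set a : ℕ → ℂ := fun n => if n ∈ Ioc ⌊Y⌋₊ N then ((lam n / n : ℝ) : ℂ) else 0 with ha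
  have hsub : Ioc ⌊Y⌋₊ N ⊆ Icc 1 N := by
    intro n hn
    rw [Finset.mem_Ioc] at hn
    rw [Finset.mem_Icc]
    omega
  have hA : ∀ t, A Y t = ∑ n ∈ Icc 1 N, a n * nt n t := by
    intro t
    unfold A
    rw [← Finset.sum_subset hsub]
    · refine Finset.sum_congr rfl fun n hn => ?_
      rw [ha]
      simp only [hn, if_true]
    · intro n _ hn
      rw [ha]
      simp only [hn, if_false, zero_mul]
  have h2 := h N T a hN1 hT
  have h3 : ∑ n ∈ Icc 1 N, ‖a n‖ ^ 2 ≤ 2 / Y := by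
    have h4 : ∑ n ∈ Icc 1 N, ‖a n‖ ^ 2 = ∑ n ∈ Ioc ⌊Y⌋₊ N, ‖a n‖ ^ 2 := by
      rw [← Finset.sum_subset hsub]
      intro n _ hn
      rw [ha]
      simp only [hn, if_false, norm_zero]
      norm_num
    rw [h4]
    have h5 : ∀ n ∈ Ioc ⌊Y⌋₊ N, ‖a n‖ ^ 2 ≤ 1 / Y ^ 2 := by
      intro n hn
      have hn' := Finset.mem_Ioc.mp hn
      have hYn : Y < n := (Nat.floor_lt (by linarith)).mp hn'.1
      rw [ha]
      simp only [hn, if_true, Complex.norm_real, Real.norm_eq_abs, abs_div, norm_lam,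
        Nat.abs_cast]
      rw [div_pow, one_pow]
      apply one_div_le_one_div_of_le (by positivity)
      exact pow_le_pow_left₀ (by linarith) hYn.le 2
    refine (Finset.sum_le_card_nsmul _ _ _ h5).trans ?_
    rw [nsmul_eq_mul, Nat.card_Ioc]
    have h6 : ((N - ⌊Y⌋₊ : ℕ) : ℝ) ≤ 2 * Y := by
      calc ((N - ⌊Y⌋₊ : ℕ) : ℝ) ≤ (N : ℝ) := by exact_mod_cast Nat.sub_le _ _
        _ ≤ 2 * Y := hNY
    calc ((N - ⌊Y⌋₊ : ℕ) : ℝ) * (1 / Y ^ 2) ≤ 2 * Y * (1 / Y ^ 2) := by gcongr
      _ = 2 / Y := by field_simp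
  simp_rw [hA]
  refine h2.trans ?_
  have h7 : T + N ≤ 3 * Y := by linarith
  have h8 : 0 ≤ ∑ n ∈ Icc 1 N, ‖a n‖ ^ 2 := by positivity
  calc C * (T + N) * ∑ n ∈ Icc 1 N, ‖a n‖ ^ 2 ≤ C * (3 * Y) * (2 / Y) := by gcongr
    _ = 6 * C := by field_simp; ring

theorem stepOne (h1 : MeanValue) : StepOne := by
  obtain ⟨C, hC, hA⟩ := A_mean h1
  refine ⟨C, hC, fun X T H v1 v2 α hH hv hT hα hTX hX => ?_⟩
  have hHr : (0 : ℝ) < H := by exact_mod_cast hH
  have hX1 : 1 ≤ √X := le_trans (Real.one_le_exp (by positivity)) hX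
  have hX0 : 0 < X := by
    by_contra hneg
    rw [Real.sqrt_eq_zero_of_nonpos (not_lt.mp hneg)] at hX1
    linarith
  -- the pointwise bound
  have hpt : ∀ t ∈ {t : ℝ | Good H v1 v2 α t}, ‖S X H v1 v2 t‖ ^ 2 * g T t ≤
      ∑ v ∈ Ico v1 v2, (v2 : ℝ) * Real.exp (-(2 * α * v1 / H)) *
        (‖A (X * Real.exp (-((v : ℝ) / H))) t‖ ^ 2 * g T t) := by
    intro t ht
    have hs : ‖S X H v1 v2 t‖ ^ 2 ≤ ∑ v ∈ Ico v1 v2, (v2 : ℝ) * Real.exp (-(2 * α * v1 / H)) *
        ‖A (X * Real.exp (-((v : ℝ) / H))) t‖ ^ 2 := by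
      unfold S
      calc ‖∑ v ∈ Ico v1 v2, Q H v t * A (X * Real.exp (-((v : ℝ) / H))) t‖ ^ 2
          ≤ (∑ v ∈ Ico v1 v2, ‖Q H v t * A (X * Real.exp (-((v : ℝ) / H))) t‖) ^ 2 :=
            pow_le_pow_left₀ (norm_nonneg _) (norm_sum_le _ _) 2
        _ ≤ (Ico v1 v2).card * ∑ v ∈ Ico v1 v2,
              ‖Q H v t * A (X * Real.exp (-((v : ℝ) / H))) t‖ ^ 2 := sq_sum_le_card_mul_sum_sq
        _ ≤ (v2 : ℝ) * ∑ v ∈ Ico v1 v2, Real.exp (-(2 * α * v1 / H)) *
              ‖A (X * Real.exp (-((v : ℝ) / H))) t‖ ^ 2 := by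
            have hcard : (((Ico v1 v2).card : ℕ) : ℝ) ≤ v2 := by
              rw [Nat.card_Ico]
              exact_mod_cast Nat.sub_le _ _
            refine mul_le_mul hcard (Finset.sum_le_sum fun v hv' => ?_) (by positivity)
              (by positivity)
            rw [norm_mul, mul_pow]
            refine mul_le_mul_of_nonneg_right ?_ (by positivity)
            have hv1 : v1 ≤ v := (Finset.mem_Ico.mp hv').1
            calc ‖Q H v t‖ ^ 2 ≤ Real.exp (-(α * v / H)) ^ 2 :=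
                  pow_le_pow_left₀ (norm_nonneg _) (ht v hv') 2
              _ = Real.exp (-(2 * α * v / H)) := by
                  rw [← Real.exp_nat_mul]
                  congr 1
                  push_cast
                  ring
              _ ≤ Real.exp (-(2 * α * v1 / H)) := by
                  rw [Real.exp_le_exp, neg_le_neg_iff]
                  have : (v1 : ℝ) ≤ v := by exact_mod_cast hv1
                  gcongr
        _ = _ := by
            rw [Finset.mul_sum]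
            exact Finset.sum_congr rfl fun v _ => by ring
    calc ‖S X H v1 v2 t‖ ^ 2 * g T t ≤ (∑ v ∈ Ico v1 v2, (v2 : ℝ) *
          Real.exp (-(2 * α * v1 / H)) * ‖A (X * Real.exp (-((v : ℝ) / H))) t‖ ^ 2) * g T t :=
          mul_le_mul_of_nonneg_right hs (g_pos T t).le
      _ = _ := by
          rw [Finset.sum_mul]
          exact Finset.sum_congr rfl fun v _ => by ring
  have hint : ∀ v ∈ Ico v1 v2, Integrable fun t => (v2 : ℝ) * Real.exp (-(2 * α * v1 / H)) *
      (‖A (X * Real.exp (-((v : ℝ) / H))) t‖ ^ 2 * g T t) := fun v _ =>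
    (integrable_A_sq hT _).const_mul _
  have hint' : Integrable fun t => ∑ v ∈ Ico v1 v2, (v2 : ℝ) * Real.exp (-(2 * α * v1 / H)) *
      (‖A (X * Real.exp (-((v : ℝ) / H))) t‖ ^ 2 * g T t) := integrable_finsetSum _ hint
  calc ∫ t in {t : ℝ | Good H v1 v2 α t}, ‖S X H v1 v2 t‖ ^ 2 * g T t
      ≤ ∫ t in {t : ℝ | Good H v1 v2 α t}, ∑ v ∈ Ico v1 v2, (v2 : ℝ) *
          Real.exp (-(2 * α * v1 / H)) *
            (‖A (X * Real.exp (-((v : ℝ) / H))) t‖ ^ 2 * g T t) := by
        refine integral_mono_of_nonneg ?_ hint'.integrableOn ?_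
        · exact Filter.Eventually.of_forall fun t => by
            have := g_pos T t
            positivity
        · exact (ae_restrict_iff' (measurableSet_good H v1 v2 α)).mpr
            (Filter.Eventually.of_forall hpt)
    _ ≤ ∫ t, ∑ v ∈ Ico v1 v2, (v2 : ℝ) * Real.exp (-(2 * α * v1 / H)) *
          (‖A (X * Real.exp (-((v : ℝ) / H))) t‖ ^ 2 * g T t) := by
        refine setIntegral_le_integral hint' (Filter.Eventually.of_forall fun t => ?_)
        exact Finset.sum_nonneg fun v _ => by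
          have := g_pos T t
          positivity
    _ = ∑ v ∈ Ico v1 v2, (v2 : ℝ) * Real.exp (-(2 * α * v1 / H)) *
          ∫ t, ‖A (X * Real.exp (-((v : ℝ) / H))) t‖ ^ 2 * g T t := by
        rw [integral_finsetSum _ hint]
        exact Finset.sum_congr rfl fun v _ => integral_const_mul _ _
    _ ≤ ∑ v ∈ Ico v1 v2, (v2 : ℝ) * Real.exp (-(2 * α * v1 / H)) * C := by
        refine Finset.sum_le_sum fun v hv' => ?_
        refine mul_le_mul_of_nonneg_left ?_ (by positivity)
        have hv2 : (v : ℝ) ≤ v2 := by exact_mod_cast (Finset.mem_Ico.mp hv').2.le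
        have hexp : Real.exp ((v : ℝ) / H) ≤ Real.exp ((v2 : ℝ) / H) := by
          rw [Real.exp_le_exp]
          gcongr
        have hinv : X * Real.exp (-((v : ℝ) / H)) = X / Real.exp ((v : ℝ) / H) := by
          rw [Real.exp_neg]
          rfl
        apply hA
        · rw [hinv, le_div_iff₀ (Real.exp_pos _), one_mul]
          calc Real.exp ((v : ℝ) / H) ≤ √X := hexp.trans hX
            _ ≤ √X * √X := by nlinarith
            _ = X := Real.mul_self_sqrt hX0.le
        · exact hT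
        · rw [hinv, le_div_iff₀ (Real.exp_pos _)]
          exact (mul_le_mul_of_nonneg_left hexp hT.le).trans hTX
    _ = ((v2 - v1 : ℕ) : ℝ) * ((v2 : ℝ) * Real.exp (-(2 * α * v1 / H)) * C) := by
        rw [Finset.sum_const, Nat.card_Ico, nsmul_eq_mul]
    _ ≤ (v2 : ℝ) * ((v2 : ℝ) * Real.exp (-(2 * α * v1 / H)) * C) := by
        refine mul_le_mul_of_nonneg_right ?_ (by positivity)
        exact_mod_cast Nat.sub_le _ _
    _ = C * (v2 : ℝ) ^ 2 * Real.exp (-(2 * α * v1 / H)) := by ring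

end Pool.Agent.MRL
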