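import Pool.Agent.Lib.MRL.Defs
import Pool.Agent.Lib.MP_f9aece_nt.EM

/-! TANK MR, row ZU: `VDC → ZetaUp`. helper18. -/

set_option autoImplicit false

namespace Pool.Agent.MRL

open Finset Complex
open Pool.Agent.Lib.MP_f9aece_nt (trap trap_bound' sum_trap summable_trap zeta_eq_of_one_lt
  tail_sum_sq)

noncomputable section

namespace ZU

/-- approximation of `ζ(s)`, `Re s > 1`, by partial sums. -/
theorem zeta_eq_sum_one_lt {s : ℂ} (hs : 1 < s.re) {N : ℕ} (hN : 1 ≤ N) :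
    riemannZeta s = ∑ n ∈ Finset.Icc 1 N, (n : ℂ) ^ (-s) - (N : ℂ) ^ (-s) / 2
      + (N : ℂ) ^ (1 - s) / (s - 1) + ∑' n : ℕ, trap (n + N) s := by
  have hs1 : s ≠ 1 := by
    rintro rfl
    simp at hs
  have h1s : (1 : ℂ) - s ≠ 0 := sub_ne_zero.mpr (Ne.symm hs1)
  have h2s : s - 1 ≠ 0 := sub_ne_zero.mpr hs1
  have h1 := zeta_eq_of_one_lt hs
  have h2 := (summable_trap (by linarith) hs1).sum_add_tsum_nat_add (N - 1)
  have h3 : ∑ n ∈ Finset.range (N - 1), trap (n + 1) s = ∑ n ∈ Finset.Ico 1 N, trap n s := by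
    rw [Finset.sum_Ico_eq_sum_range]
    simp [add_comm]
  have h4 : (fun n : ℕ => trap (n + (N - 1) + 1) s) = fun n : ℕ => trap (n + N) s := by
    funext n
    congr 1
    omega
  rw [h3, h4, sum_trap 1 N hN s] at h2
  rw [h1, ← h2]
  have h5 : Finset.Icc 1 N = insert 1 (Finset.Ioc 1 N) := by
    ext x; simp only [Finset.mem_Icc, Finset.mem_insert, Finset.mem_Ioc]; omega
  rw [h5, Finset.sum_insert (by simp)]
  simp only [Nat.cast_one, Complex.one_cpow]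
  have h6 : (1 : ℂ) / (s - 1) = - (1 / (1 - s)) := by
    rw [← neg_sub 1 s, div_neg]
  have h7 : (N : ℂ) ^ (1 - s) / (s - 1) = - ((N : ℂ) ^ (1 - s) / (1 - s)) := by
    rw [← neg_sub 1 s, div_neg]
  rw [h6, h7]
  ring

/-- Abel summation identity. -/
theorem abel_id (w : ℕ → ℂ) (z : ℕ → ℂ) (K : ℕ) : ∀ M : ℕ, K ≤ M →
    ∑ n ∈ Ioc K M, w n * z n = w (M + 1) * ∑ n ∈ Ioc K M, z n
      + ∑ n ∈ Ioc K M, (w n - w (n + 1)) * ∑ m ∈ Ioc K n, z m := by
  intro M hM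
  induction M, hM using Nat.le_induction with
  | base => simp
  | succ M hM ih =>
    rw [← Finset.insert_Ioc_right_eq_Ioc_add_one hM]
    rw [Finset.sum_insert (by simp), Finset.sum_insert (by simp), Finset.sum_insert (by simp), ih,
      ← Finset.insert_Ioc_right_eq_Ioc_add_one hM, Finset.sum_insert (by simp)]
    ring

/-- Abel summation with decreasing positive weights. -/
theorem abel_bound (w : ℕ → ℝ) (z : ℕ → ℂ) (K M : ℕ) (hM : K ≤ M) (B : ℝ)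
    (hw : ∀ n, K < n → w (n + 1) ≤ w n) (hw0 : ∀ n, K < n → 0 ≤ w n)
    (hB : ∀ n, K ≤ n → n ≤ M → ‖∑ m ∈ Ioc K n, z m‖ ≤ B) :
    ‖∑ n ∈ Ioc K M, (w n : ℂ) * z n‖ ≤ B * w (K + 1) := by
  rw [abel_id (fun n => (w n : ℂ)) z K M hM]
  have hB0 : 0 ≤ B := (norm_nonneg _).trans (hB K le_rfl hM)
  have h1 : ‖((w (M + 1) : ℝ) : ℂ) * ∑ n ∈ Ioc K M, z n‖ ≤ w (M + 1) * B := by
    rw [norm_mul, Complex.norm_real, Real.norm_eq_abs, abs_of_nonneg (hw0 _ (by omega))]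
    exact mul_le_mul_of_nonneg_left (hB M hM le_rfl) (hw0 _ (by omega))
  have h2 : ‖∑ n ∈ Ioc K M, ((w n : ℂ) - (w (n + 1) : ℂ)) * ∑ m ∈ Ioc K n, z m‖
      ≤ ∑ n ∈ Ioc K M, (w n - w (n + 1)) * B := by
    refine (norm_sum_le _ _).trans (Finset.sum_le_sum ?_)
    intro n hn
    rw [Finset.mem_Ioc] at hn
    have e : ((w n : ℂ) - (w (n + 1) : ℂ)) = ((w n - w (n + 1) : ℝ) : ℂ) := by push_cast; ring
    rw [norm_mul, e, Complex.norm_real, Real.norm_eq_abs,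
      abs_of_nonneg (sub_nonneg.mpr (hw n hn.1))]
    exact mul_le_mul_of_nonneg_left (hB n hn.1.le hn.2) (sub_nonneg.mpr (hw n hn.1))
  have h3 : ∀ M, K ≤ M → ∑ n ∈ Ioc K M, (w n - w (n + 1)) * B = (w (K + 1) - w (M + 1)) * B := by
    intro M hM
    induction M, hM using Nat.le_induction with
    | base => simp
    | succ M hM ih =>
      rw [← Finset.insert_Ioc_right_eq_Ioc_add_one hM, Finset.sum_insert (by simp), ih]
      ring
  have h4 := h3 M hM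
  have h5 := norm_add_le (((w (M + 1) : ℝ) : ℂ) * ∑ n ∈ Ioc K M, z n)
    (∑ n ∈ Ioc K M, ((w n : ℂ) - (w (n + 1) : ℂ)) * ∑ m ∈ Ioc K n, z m)
  refine h5.trans ?_
  rw [h4] at h2
  linarith [h1, h2]

/-- `n^{-s}` in terms of `nt`. -/
theorem cpow_eq_nt {n : ℕ} (hn : 1 ≤ n) (a τ : ℝ) :
    (n : ℂ) ^ (-(1 + a + τ * Complex.I)) = (((n : ℝ) ^ (-(1 + a)) : ℝ) : ℂ) * nt n τ := by
  have hn0 : (0 : ℝ) < n := by exact_mod_cast hn
  have hn1 : (n : ℂ) ≠ 0 := by exact_mod_cast hn0.ne'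
  rw [Complex.cpow_def_of_ne_zero hn1, Complex.ofReal_cpow hn0.le, nt,
    Complex.cpow_def_of_ne_zero (by exact_mod_cast hn0.ne'), ← Complex.exp_add]
  congr 1
  have h1 : Complex.log ((n : ℝ) : ℂ) = ((Real.log n : ℝ) : ℂ) := (Complex.ofReal_log hn0.le).symm
  have h2 : Complex.log (n : ℂ) = ((Real.log n : ℝ) : ℂ) := Complex.natCast_log.symm
  rw [h1, h2]
  push_cast
  ring

theorem norm_nt (n : ℕ) (t : ℝ) : ‖nt n t‖ = 1 := by
  rw [nt, ← Complex.ofReal_neg]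
  exact Complex.norm_exp_ofReal_mul_I _

/-- one block, by partial summation. -/
theorem block {a τ B : ℝ} (ha : 0 < a) {K M : ℕ} (hK : 1 ≤ K) (hM : K ≤ M)
    (hB : ∀ n, K ≤ n → n ≤ M → ‖∑ m ∈ Ioc K n, nt m τ‖ ≤ B) :
    ‖∑ n ∈ Ioc K M, (n : ℂ) ^ (-(1 + a + τ * Complex.I))‖ ≤ B / K := by
  have hK0 : (0 : ℝ) < K := by exact_mod_cast hK
  have hB0 : 0 ≤ B := (norm_nonneg _).trans (hB K le_rfl hM)
  have h1 : ∑ n ∈ Ioc K M, (n : ℂ) ^ (-(1 + a + τ * Complex.I))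
      = ∑ n ∈ Ioc K M, (((n : ℝ) ^ (-(1 + a)) : ℝ) : ℂ) * nt n τ := by
    refine Finset.sum_congr rfl fun n hn => ?_
    rw [Finset.mem_Ioc] at hn
    exact cpow_eq_nt (by omega) a τ
  rw [h1]
  refine (abel_bound (fun n => (n : ℝ) ^ (-(1 + a))) (fun n => nt n τ) K M hM B ?_ ?_ hB).trans ?_
  · intro n hn
    have hn0 : (0 : ℝ) < n := by exact_mod_cast (by omega : 0 < n)
    exact Real.rpow_le_rpow_of_nonpos hn0 (by push_cast; linarith) (by linarith)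
  · intro n hn
    positivity
  · rw [div_eq_mul_inv]
    refine mul_le_mul_of_nonneg_left ?_ hB0
    have h2 : ((K + 1 : ℕ) : ℝ) ^ (-(1 + a)) ≤ (K : ℝ) ^ (-(1 : ℝ)) := by
      refine (Real.rpow_le_rpow_of_nonpos hK0 (by push_cast; linarith) (by linarith)).trans ?_
      exact Real.rpow_le_rpow_of_exponent_le (by exact_mod_cast hK) (by linarith)
    rwa [Real.rpow_neg_one] at h2

/-- dyadic summation. -/
theorem dyadic {a τ C δ : ℝ} (ha : 0 < a) (hC : 0 < C) (hδ : 0 < δ) {M N : ℕ} (hM : 1 ≤ M)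
    (h : ∀ K N' : ℕ, M ≤ K → K < N → N' ≤ 2 * K →
      ‖∑ n ∈ Ioc K N', nt n τ‖ ≤ C * (K : ℝ) ^ (1 - δ)) :
    ∀ d K : ℕ, M ≤ K → K < N → N - K ≤ d →
      ‖∑ n ∈ Ioc K N, (n : ℂ) ^ (-(1 + a + τ * Complex.I))‖
        ≤ C / (1 - (2 : ℝ) ^ (-δ)) * (K : ℝ) ^ (-δ) := by
  have h2 : (2 : ℝ) ^ (-δ) < 1 := Real.rpow_lt_one_of_one_lt_of_neg (by norm_num) (by linarith)
  have h3 : (0 : ℝ) < (2 : ℝ) ^ (-δ) := by positivity
  set E : ℝ := C / (1 - (2 : ℝ) ^ (-δ)) with hE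
  have hE0 : 0 < E := div_pos hC (by linarith)
  have hEC : C + E * (2 : ℝ) ^ (-δ) = E := by
    have hne : (1 : ℝ) - (2 : ℝ) ^ (-δ) ≠ 0 := by linarith
    rw [hE, div_mul_eq_mul_div, eq_div_iff hne, add_mul, div_mul_cancel₀ _ hne]
    ring
  have hblock : ∀ K K' : ℕ, M ≤ K → K < N → K ≤ K' → K' ≤ 2 * K →
      ‖∑ n ∈ Ioc K K', (n : ℂ) ^ (-(1 + a + τ * Complex.I))‖ ≤ C * (K : ℝ) ^ (-δ) := by
    intro K K' hMK hKN hKK' hK'
    have hK0 : (0 : ℝ) < K := by exact_mod_cast (by omega : 0 < K)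
    refine (block (B := C * (K : ℝ) ^ (1 - δ)) ha (by omega) hKK' ?_).trans (le_of_eq ?_)
    · intro n _ hn
      exact h K n hMK hKN (by omega)
    · rw [Real.rpow_sub hK0, Real.rpow_one, Real.rpow_neg hK0.le]
      field_simp
  intro d
  induction d with
  | zero =>
    intro K _ hKN hd
    omega
  | succ d ih =>
    intro K hMK hKN hd
    have hK0 : (0 : ℝ) < K := by exact_mod_cast (by omega : 0 < K)
    have hKd : 0 ≤ (K : ℝ) ^ (-δ) := by positivity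
    by_cases hN : N ≤ 2 * K
    · refine (hblock K N hMK hKN hKN.le hN).trans ?_
      refine mul_le_mul_of_nonneg_right ?_ hKd
      nlinarith
    · push Not at hN
      have e : ∑ n ∈ Ioc K N, (n : ℂ) ^ (-(1 + a + τ * Complex.I))
          = ∑ n ∈ Ioc K (2 * K), (n : ℂ) ^ (-(1 + a + τ * Complex.I))
            + ∑ n ∈ Ioc (2 * K) N, (n : ℂ) ^ (-(1 + a + τ * Complex.I)) := by
        rw [← Finset.sum_union]
        · congr 1
          ext x; simp only [Finset.mem_Ioc, Finset.mem_union]; omega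
        · rw [Finset.disjoint_left]
          intro x hx hx'
          simp only [Finset.mem_Ioc] at hx hx'
          omega
      rw [e]
      refine (norm_add_le _ _).trans ?_
      have h4 := hblock K (2 * K) hMK hKN (by omega) le_rfl
      have h5 := ih (2 * K) (by omega) hN (by omega)
      have h6 : (((2 * K : ℕ)) : ℝ) ^ (-δ) = (2 : ℝ) ^ (-δ) * (K : ℝ) ^ (-δ) := by
        push_cast
        rw [Real.mul_rpow (by norm_num) hK0.le]
      rw [h6] at h5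
      calc _ ≤ C * (K : ℝ) ^ (-δ) + E * ((2 : ℝ) ^ (-δ) * (K : ℝ) ^ (-δ)) := add_le_add h4 h5
        _ = (C + E * (2 : ℝ) ^ (-δ)) * (K : ℝ) ^ (-δ) := by ring
        _ = _ := by rw [hEC]

/-- harmonic head. -/
theorem head (a τ : ℝ) (ha : 0 < a) (M : ℕ) :
    ‖∑ n ∈ Icc 1 M, (n : ℂ) ^ (-(1 + a + τ * Complex.I))‖ ≤ 1 + Real.log M := by
  refine (norm_sum_le _ _).trans ?_
  have h1 : ∑ n ∈ Icc 1 M, ‖(n : ℂ) ^ (-(1 + a + τ * Complex.I))‖ ≤ ∑ n ∈ Icc 1 M, ((n : ℝ))⁻¹ := by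
    refine Finset.sum_le_sum fun n hn => ?_
    rw [Finset.mem_Icc] at hn
    have hn1 : (1 : ℝ) ≤ n := by exact_mod_cast hn.1
    rw [cpow_eq_nt hn.1, norm_mul, norm_nt, mul_one, Complex.norm_real, Real.norm_eq_abs,
      abs_of_nonneg (by positivity), ← Real.rpow_neg_one]
    exact Real.rpow_le_rpow_of_exponent_le hn1 (by linarith)
  refine h1.trans ?_
  have h2 := harmonic_le_one_add_log M
  rw [harmonic_eq_sum_Icc] at h2
  push_cast at h2
  exact h2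

/-- the tail and the boundary terms. -/
theorem zeta_sub_le {a τ : ℝ} (ha : 0 < a) (ha1 : a ≤ 1) (hτ : 1 / 2 ≤ |τ|) {N : ℕ} (hN : 1 ≤ N) :
    ‖riemannZeta (1 + a + τ * Complex.I)
        - ∑ n ∈ Finset.Icc 1 N, (n : ℂ) ^ (-(1 + a + τ * Complex.I))‖
      ≤ 5 / 2 + (|τ| + 3) ^ 2 / N := by
  set s : ℂ := 1 + a + τ * Complex.I with hs
  have hre : s.re = 1 + a := by simp [hs]
  have him : s.im = τ := by simp [hs]
  have hs1 : s ≠ 1 := by
    intro h
    have : s.im = 0 := by rw [h]; simp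
    rw [him] at this
    rw [this] at hτ
    norm_num at hτ
  have hN0 : (0 : ℝ) < N := by exact_mod_cast hN
  have hN1 : (1 : ℝ) ≤ N := by exact_mod_cast hN
  rw [zeta_eq_sum_one_lt (by rw [hre]; linarith) hN]
  have e : ∑ n ∈ Finset.Icc 1 N, (n : ℂ) ^ (-s) - (N : ℂ) ^ (-s) / 2
      + (N : ℂ) ^ (1 - s) / (s - 1) + ∑' n : ℕ, trap (n + N) s
      - ∑ n ∈ Finset.Icc 1 N, (n : ℂ) ^ (-s)
      = - ((N : ℂ) ^ (-s) / 2) + (N : ℂ) ^ (1 - s) / (s - 1) + ∑' n : ℕ, trap (n + N) s := by ring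
  rw [e]
  have h1 : ‖- ((N : ℂ) ^ (-s) / 2)‖ ≤ 1 / 2 := by
    rw [norm_neg, norm_div, Complex.norm_natCast_cpow_of_pos hN]
    have : (N : ℝ) ^ (-s).re ≤ 1 := by
      refine Real.rpow_le_one_of_one_le_of_nonpos hN1 ?_
      simp only [Complex.neg_re, hre]; linarith
    simp only [Complex.norm_ofNat]
    linarith
  have h2 : ‖(N : ℂ) ^ (1 - s) / (s - 1)‖ ≤ 2 := by
    rw [norm_div, Complex.norm_natCast_cpow_of_pos hN]
    have h3 : (N : ℝ) ^ (1 - s).re ≤ 1 := by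
      refine Real.rpow_le_one_of_one_le_of_nonpos hN1 ?_
      simp only [Complex.sub_re, Complex.one_re, hre]; linarith
    have h4 : 1 / 2 ≤ ‖s - 1‖ := by
      have h5 : |(s - 1).im| ≤ ‖s - 1‖ := Complex.abs_im_le_norm _
      have h6 : (s - 1).im = τ := by simp [him]
      rw [h6] at h5
      linarith
    rw [div_le_iff₀ (by linarith)]
    linarith
  have hns : ‖s‖ ≤ |τ| + 2 := by
    have := Complex.norm_le_abs_re_add_abs_im s
    rw [hre, him, abs_of_pos (by linarith : 0 < 1 + a)] at this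
    linarith
  have hns1 : ‖s + 1‖ ≤ |τ| + 3 := by
    calc ‖s + 1‖ ≤ ‖s‖ + ‖(1 : ℂ)‖ := norm_add_le _ _
      _ ≤ _ := by rw [norm_one]; linarith
  have hsum : Summable (fun n : ℕ => 1 / ((n + N : ℕ) : ℝ) ^ 2) := by
    exact (summable_nat_add_iff (f := fun n : ℕ => 1 / ((n : ℕ) : ℝ) ^ 2) N).mpr
      (Real.summable_one_div_nat_pow.mpr (by norm_num : 1 < 2))
  have h3 : ‖∑' n : ℕ, trap (n + N) s‖ ≤ (|τ| + 3) ^ 2 / N := by
    calc ‖∑' n : ℕ, trap (n + N) s‖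
        ≤ ∑' n : ℕ, (‖s‖ * ‖s + 1‖ / 2) * (1 / ((n + N : ℕ) : ℝ) ^ 2) :=
          tsum_of_norm_bounded ((hsum.mul_left _).hasSum)
            (fun n => trap_bound' (by omega) (by rw [hre]; linarith) hs1)
      _ = (‖s‖ * ‖s + 1‖ / 2) * ∑' n : ℕ, (1 / ((n + N : ℕ) : ℝ) ^ 2) := tsum_mul_left
      _ ≤ (‖s‖ * ‖s + 1‖ / 2) * (2 / N) := by
          gcongr
          exact tail_sum_sq N hN
      _ ≤ ((|τ| + 3) * (|τ| + 3) / 2) * (2 / N) := by
          gcongr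
          linarith
      _ = _ := by ring
  calc _ ≤ ‖- ((N : ℂ) ^ (-s) / 2) + (N : ℂ) ^ (1 - s) / (s - 1)‖ + ‖∑' n : ℕ, trap (n + N) s‖ :=
        norm_add_le _ _
    _ ≤ (‖- ((N : ℂ) ^ (-s) / 2)‖ + ‖(N : ℂ) ^ (1 - s) / (s - 1)‖) + ‖∑' n : ℕ, trap (n + N) s‖ := by
        gcongr
        exact norm_add_le _ _
    _ ≤ _ := by linarith

end ZU

open ZU in
/-- **Row ZU**: `VDC → ZetaUp`. -/
theorem zetaUp (hV : VDC) : ZetaUp := by
  intro ε hε
  obtain ⟨δ, hδ, C, hC, h⟩ := hV (max 1 (1 / ε)) (le_max_left _ _)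
  have h2 : (2 : ℝ) ^ (-δ) < 1 := Real.rpow_lt_one_of_one_lt_of_neg (by norm_num) (by linarith)
  set E : ℝ := C / (1 - (2 : ℝ) ^ (-δ)) with hE
  have hE0 : 0 < E := div_pos hC (by linarith)
  refine ⟨E + 60, by linarith, ?_⟩
  intro a τ ha ha1 hτ
  have hτ0 : 0 < |τ| := by linarith
  set N : ℕ := ⌈τ ^ 2⌉₊ with hN
  have hτ2 : 0 < τ ^ 2 := by
    rw [← sq_abs]; positivity
  have hN1 : 1 ≤ N := Nat.one_le_iff_ne_zero.mpr (by
    rw [hN]; exact (Nat.ceil_pos.mpr hτ2).ne')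
  have hN0 : (0 : ℝ) < N := by exact_mod_cast hN1
  have hNτ : τ ^ 2 ≤ N := Nat.le_ceil _
  have h3 := zeta_sub_le ha ha1 hτ hN1
  have h4 : (|τ| + 3) ^ 2 / N ≤ 49 := by
    rw [div_le_iff₀ hN0]
    have : (|τ| + 3) ^ 2 ≤ 49 * τ ^ 2 := by
      have h5 : |τ| + 3 ≤ 7 * |τ| := by linarith
      calc (|τ| + 3) ^ 2 ≤ (7 * |τ|) ^ 2 := by gcongr
        _ = 49 * τ ^ 2 := by rw [mul_pow, sq_abs]; norm_num
    linarith
  -- head length
  set y : ℝ := (2 + |τ|) ^ ε with hy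
  have hy1 : 1 ≤ y := Real.one_le_rpow (by linarith) hε.le
  set M : ℕ := ⌈y⌉₊ with hM
  have hM1 : 1 ≤ M := Nat.one_le_iff_ne_zero.mpr (Nat.ceil_pos.mpr (by linarith)).ne'
  have hM0 : (0 : ℝ) < M := by exact_mod_cast hM1
  have hyM : y ≤ M := Nat.le_ceil _
  have hM2 : (M : ℝ) ≤ 2 * y := by
    have := Nat.ceil_lt_add_one (by linarith : 0 ≤ y)
    rw [← hM] at this
    linarith
  have hlogM : Real.log M ≤ 1 + ε * Real.log (2 + |τ|) := by
    calc Real.log M ≤ Real.log (2 * y) := Real.log_le_log hM0 hM2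
      _ = Real.log 2 + ε * Real.log (2 + |τ|) := by
          rw [Real.log_mul (by norm_num) (by linarith), hy, Real.log_rpow (by linarith)]
      _ ≤ _ := by linarith [Real.log_two_lt_d9]
  have hsum : ‖∑ n ∈ Finset.Icc 1 N, (n : ℂ) ^ (-(1 + a + τ * Complex.I))‖
      ≤ 2 + ε * Real.log (2 + |τ|) + E := by
    by_cases hMN : M < N
    · have e : ∑ n ∈ Finset.Icc 1 N, (n : ℂ) ^ (-(1 + a + τ * Complex.I))
          = ∑ n ∈ Finset.Icc 1 M, (n : ℂ) ^ (-(1 + a + τ * Complex.I))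
            + ∑ n ∈ Finset.Ioc M N, (n : ℂ) ^ (-(1 + a + τ * Complex.I)) := by
        rw [← Finset.sum_union]
        · congr 1
          ext x; simp only [Finset.mem_Ioc, Finset.mem_Icc, Finset.mem_union]; omega
        · rw [Finset.disjoint_left]
          intro x hx hx'
          simp only [Finset.mem_Ioc, Finset.mem_Icc] at hx hx'
          omega
      have h5 := head a τ ha M
      have h6 := dyadic (a := a) (τ := τ) (C := C) (δ := δ) ha hC hδ (M := M) (N := N) hM1 ?_ (N - M) M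
        le_rfl hMN le_rfl
      · have h7 : (M : ℝ) ^ (-δ) ≤ 1 :=
          Real.rpow_le_one_of_one_le_of_nonpos (by exact_mod_cast hM1) (by linarith)
        have h8 : E * (M : ℝ) ^ (-δ) ≤ E := by nlinarith
        rw [e]
        refine (norm_add_le _ _).trans ?_
        linarith
      · intro K N' hMK hKN hN'
        have hK1 : 1 ≤ K := by omega
        refine h K N' hK1 hN' τ ?_ ?_
        · have h9 : (K : ℝ) < τ ^ 2 := Nat.lt_ceil.mp hKN
          rw [← sq_abs] at h9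
          exact Real.sqrt_le_iff.mpr ⟨hτ0.le, h9.le⟩
        · have h10 : y ≤ K := hyM.trans (by exact_mod_cast hMK)
          have h11 : (1 : ℝ) ≤ K := by exact_mod_cast hK1
          calc |τ| ≤ 2 + |τ| := by linarith
            _ = ((2 + |τ|) ^ ε) ^ (1 / ε) := by
                rw [← Real.rpow_mul (by linarith)]
                rw [mul_one_div_cancel hε.ne', Real.rpow_one]
            _ ≤ (K : ℝ) ^ (1 / ε) := Real.rpow_le_rpow (by positivity) h10 (by positivity)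
            _ ≤ (K : ℝ) ^ (max 1 (1 / ε)) :=
                Real.rpow_le_rpow_of_exponent_le h11 (le_max_right _ _)
    · push Not at hMN
      have h5 := head a τ ha N
      have h6 : Real.log N ≤ Real.log M := Real.log_le_log hN0 (by exact_mod_cast hMN)
      linarith
  have h12 : ‖riemannZeta (1 + a + τ * Complex.I)‖
      ≤ ‖∑ n ∈ Finset.Icc 1 N, (n : ℂ) ^ (-(1 + a + τ * Complex.I))‖
        + ‖riemannZeta (1 + a + τ * Complex.I)
          - ∑ n ∈ Finset.Icc 1 N, (n : ℂ) ^ (-(1 + a + τ * Complex.I))‖ := by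
    have := norm_add_le (∑ n ∈ Finset.Icc 1 N, (n : ℂ) ^ (-(1 + a + τ * Complex.I)))
      (riemannZeta (1 + a + τ * Complex.I)
          - ∑ n ∈ Finset.Icc 1 N, (n : ℂ) ^ (-(1 + a + τ * Complex.I)))
    rwa [add_sub_cancel] at this
  linarith

end

end Pool.Agent.MRL
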