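import Pool.Agent.Lib.MRL.AC
import Pool.Agent.Lib.MRL.AU
import Pool.Agent.Lib.MRL.AT
import Pool.Agent.Lib.MRL.AN
import Pool.Agent.Lib.MRL.AS
import Pool.Agent.Lib.MRL.DC
import Pool.Agent.Lib.MRL.FL
import Pool.Agent.Lib.MRL.HA
import Pool.Agent.Lib.MRL.HZ
import Pool.Agent.Lib.MRL.LC
import Pool.Agent.Lib.MRL.ML
import Pool.Agent.Lib.MRL.MO0
import Pool.Agent.Lib.MRL.MV
import Pool.Agent.Lib.MRL.NR
import Pool.Agent.Lib.MRL.PA
import Pool.Agent.Lib.MRL.S1
import Pool.Agent.Lib.MRL.SJ
import Pool.Agent.Lib.MRL.SP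
import Pool.Agent.Lib.MRL.VD
import Pool.Agent.Lib.MRL.ZU

/-! TANK MR, assembly: the Matomäki–Radziwiłł theorem for the Liouville function in bounded
windows, without hypotheses. -/

set_option autoImplicit false

namespace Pool.Agent.MRL

theorem top_decomp : Decomp := decomp_of_meanValue meanValue

theorem top_halaszA : HalaszA := halaszA_of_halasz (halasz (flUp (zetaUp vdc_row)))

theorem top_mrd : MRD :=
  mrd (chainPart top_decomp (stepOne meanValue) (stepJ meanValue moment))
    (uPart top_decomp (SP vdc_row) top_halaszA mertensLower)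
    (tailPart meanValue) numJ (LC.largeCount meanValue) (params mertensLower)

theorem top_noRuns : NoRuns := noRuns_of_MRD top_mrd

end Pool.Agent.MRL
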