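import Pool.Agent.Lib.MRL.HalK

set_option autoImplicit false

open Filter Topology MeasureTheory Real Complex
open scoped FourierTransform ComplexConjugate

namespace Pool.Agent.MRHal

/-- The coefficients at `c`. -/
noncomputable def bc (a : ℕ → ℂ) (c : ℝ) (n : ℕ) : ℂ := a n * (((n : ℝ) ^ (-c) : ℝ) : ℂ)

theorem norm_bc (a : ℕ → ℂ) (c : ℝ) (n : ℕ) : ‖bc a c n‖ = ‖a n‖ * (n : ℝ) ^ (-c) := by
  rw [bc, norm_mul, Complex.norm_real, Real.norm_of_nonneg (by positivity)]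

theorem term_eq {a : ℕ → ℂ} (ha0 : a 0 = 0) (c τ : ℝ) (n : ℕ) :
    LSeries.term a (c + I * τ) n = bc a c n * cexp (I * τ * ((-Real.log n : ℝ) : ℂ)) := by
  rcases Nat.eq_zero_or_pos n with rfl | hn
  · simp [bc, ha0]
  rw [LSeries.term_of_ne_zero hn.ne', bc]
  have hn' : (n : ℂ) ≠ 0 := by exact_mod_cast hn.ne'
  have hnr : (0 : ℝ) < n := by exact_mod_cast hn
  rw [div_eq_mul_inv, mul_assoc]
  congr 1
  rw [← Complex.cpow_neg, Complex.cpow_def_of_ne_zero hn', Real.rpow_def_of_pos hnr,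
    Complex.ofReal_exp, ← Complex.exp_add]
  congr 1
  push_cast
  ring

theorem tsum_sq {b : ℕ → ℂ} (hb : Summable fun n => ‖b n‖) (e : ℕ → ℂ) (he : ∀ n, ‖e n‖ = 1) :
    ((‖∑' n, b n * e n‖ ^ 2 : ℝ) : ℂ) =
      ∑' p : ℕ × ℕ, b p.1 * conj (b p.2) * (e p.1 * conj (e p.2)) := by
  have h1 : Summable fun n => ‖b n * e n‖ := by
    refine hb.congr fun n => ?_
    rw [norm_mul, he, mul_one]
  have h2 : Summable fun n => ‖conj (b n * e n)‖ := by
    refine h1.congr fun n => ?_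
    rw [RCLike.norm_conj]
  have h3 := tsum_mul_tsum_of_summable_norm h1 h2
  have h4 : (∑' n, conj (b n * e n)) = conj (∑' n, b n * e n) := by
    rw [Complex.conj_tsum]
  rw [h4, Complex.mul_conj, Complex.normSq_eq_norm_sq] at h3
  rw [h3]
  refine tsum_congr fun p => ?_
  rw [map_mul]
  ring

theorem summable_prod {b : ℕ → ℂ} (hb : Summable fun n => ‖b n‖) :
    Summable fun p : ℕ × ℕ => ‖b p.1 * conj (b p.2)‖ := by
  have h := hb.mul_of_nonneg hb (fun n => norm_nonneg _) (fun n => norm_nonneg _)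
  refine h.congr fun p => ?_
  rw [norm_mul, RCLike.norm_conj]

/-- The left side. -/
theorem hasSum_left {a : ℕ → ℂ} {c : ℝ} (hc : 0 < c) (ha0 : a 0 = 0)
    (ha : Summable fun n => ‖bc a c n‖) :
    HasSum (fun p : ℕ × ℕ => bc a c p.1 * conj (bc a c p.2) *
        ((π / c : ℝ) * lap c (-Real.log p.1 + Real.log p.2)))
      (∫ τ : ℝ, ((‖LSeries a (c + I * τ)‖ ^ 2 * (c ^ 2 + τ ^ 2)⁻¹ : ℝ) : ℂ)) := by
  set F : ℕ × ℕ → ℝ → ℂ := fun p τ => bc a c p.1 * conj (bc a c p.2) *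
    (cexp (I * τ * ((-Real.log p.1 + Real.log p.2 : ℝ) : ℂ)) * (((c ^ 2 + τ ^ 2)⁻¹ : ℝ) : ℂ)) with hF
  have hFn : ∀ p τ, ‖F p τ‖ = ‖bc a c p.1 * conj (bc a c p.2)‖ * (c ^ 2 + τ ^ 2)⁻¹ := by
    intro p τ
    simp only [hF]
    rw [norm_mul, norm_mul (cexp _), norm_cexp_mul, one_mul, Complex.norm_real,
      Real.norm_of_nonneg (by positivity)]
  have hint : ∀ p, Integrable (F p) := by
    intro p
    refine Integrable.const_mul ?_ _
    refine ((integrable_kern hc).ofReal (𝕜 := ℂ)).bdd_mul (c := 1) ?_ ?_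
    · exact (by fun_prop : Continuous fun τ : ℝ =>
        cexp (I * τ * ((-Real.log p.1 + Real.log p.2 : ℝ) : ℂ))).aestronglyMeasurable
    · exact ae_of_all _ fun τ => (norm_cexp_mul _ _).le
  have hsum : Summable fun p => ∫ τ, ‖F p τ‖ := by
    simp_rw [hFn]
    simp_rw [integral_const_mul, integral_kern hc]
    exact (summable_prod ha).mul_right _
  have h := hasSum_integral_of_summable_integral_norm hint hsum
  have h1 : ∀ p, ∫ τ, F p τ = bc a c p.1 * conj (bc a c p.2) *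
      ((π / c : ℝ) * lap c (-Real.log p.1 + Real.log p.2)) := by
    intro p
    simp only [hF]
    rw [integral_const_mul, kernel hc]
  have h2 : ∀ τ, ∑' p, F p τ = ((‖LSeries a (c + I * τ)‖ ^ 2 * (c ^ 2 + τ ^ 2)⁻¹ : ℝ) : ℂ) := by
    intro τ
    have h3 : LSeries a (c + I * τ) =
        ∑' n, bc a c n * cexp (I * τ * ((-Real.log n : ℝ) : ℂ)) := by
      rw [LSeries]
      exact tsum_congr fun n => term_eq ha0 c τ n
    rw [h3, Complex.ofReal_mul, tsum_sq ha _ (fun n => norm_cexp_mul _ _), ← tsum_mul_right]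
    refine tsum_congr fun p => ?_
    simp only [hF]
    have h5 : cexp (I * τ * ((-Real.log p.1 : ℝ) : ℂ)) *
        conj (cexp (I * τ * ((-Real.log p.2 : ℝ) : ℂ))) =
        cexp (I * τ * ((-Real.log p.1 + Real.log p.2 : ℝ) : ℂ)) := by
      rw [← Complex.exp_conj, ← Complex.exp_add]
      congr 1
      simp only [map_mul, Complex.conj_I, Complex.conj_ofReal]
      push_cast
      ring
    rw [h5]
    ring
  simp_rw [h1, h2] at h
  exact h

/-- The partial sums. -/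
noncomputable def ps (a : ℕ → ℂ) (u : ℝ) : ℂ := ∑ n ∈ Finset.Icc 1 ⌊u⌋₊, a n

/-- The integrand of the right side. -/
noncomputable def gint (c : ℝ) (M : ℝ) (u : ℝ) : ℝ := (Set.Ici M).indicator (fun u => u ^ (-1 - 2 * c)) u

theorem gint_integrable {c M : ℝ} (hc : 0 < c) (hM : 0 < M) :
    IntegrableOn (gint c M) (Set.Ioi 0) := by
  unfold gint
  have h : IntegrableOn (fun u : ℝ => u ^ (-1 - 2 * c)) (Set.Ici M) :=
    (integrableOn_Ici_iff_integrableOn_Ioi (by simp)).2 (integrableOn_Ioi_rpow_of_lt (by linarith) hM)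
  exact ((integrable_indicator_iff measurableSet_Ici).2 h).integrableOn

theorem gint_integral {c M : ℝ} (hc : 0 < c) (hM : 0 < M) :
    ∫ u in Set.Ioi (0 : ℝ), gint c M u = M ^ (-(2 * c)) / (2 * c) := by
  unfold gint
  rw [setIntegral_indicator measurableSet_Ici]
  have h1 : Set.Ioi (0 : ℝ) ∩ Set.Ici M = Set.Ici M := by
    ext u
    simp only [Set.mem_inter_iff, Set.mem_Ioi, Set.mem_Ici, and_iff_right_iff_imp]
    intro h
    linarith
  rw [h1, integral_Ici_eq_integral_Ioi, integral_Ioi_rpow_of_lt (by linarith) hM]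
  have h2 : -1 - 2 * c + 1 = -(2 * c) := by ring
  rw [h2, neg_div_neg_eq]

theorem gint_nonneg {c M : ℝ} {u : ℝ} (hu : 0 < u) : 0 ≤ gint c M u := by
  unfold gint
  rw [Set.indicator_apply]
  split_ifs
  · positivity
  · exact le_rfl

theorem ps_sq (a : ℕ → ℂ) (u : ℝ) : ((‖ps a u‖ ^ 2 : ℝ) : ℂ) =
    ∑ p ∈ Finset.Icc 1 ⌊u⌋₊ ×ˢ Finset.Icc 1 ⌊u⌋₊, a p.1 * conj (a p.2) := by
  rw [← Complex.normSq_eq_norm_sq, ← Complex.mul_conj, ps, map_sum, Finset.sum_mul_sum,
    Finset.sum_product]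

/-- The right side. -/
theorem hasSum_right {a : ℕ → ℂ} {c : ℝ} (hc : 0 < c) (ha0 : a 0 = 0)
    (ha : Summable fun n => ‖bc a c n‖) :
    HasSum (fun p : ℕ × ℕ => a p.1 * conj (a p.2) *
        ((((max p.1 p.2 : ℕ) : ℝ) ^ (-(2 * c)) / (2 * c) : ℝ) : ℂ))
      (∫ u in Set.Ioi (0 : ℝ), ((‖ps a u‖ ^ 2 * u ^ (-1 - 2 * c) : ℝ) : ℂ)) := by
  set G : ℕ × ℕ → ℝ → ℂ := fun p u => a p.1 * conj (a p.2) *
    ((gint c ((max p.1 p.2 : ℕ) : ℝ) u : ℝ) : ℂ) with hG
  have hz : ∀ p : ℕ × ℕ, max p.1 p.2 = 0 → a p.1 * conj (a p.2) = 0 := by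
    intro p hp
    have : p.1 = 0 := by omega
    rw [this, ha0, zero_mul]
  have hpos : ∀ p : ℕ × ℕ, max p.1 p.2 ≠ 0 → (0 : ℝ) < ((max p.1 p.2 : ℕ) : ℝ) := by
    intro p hp
    exact_mod_cast Nat.pos_of_ne_zero hp
  have hint : ∀ p, Integrable (G p) (volume.restrict (Set.Ioi 0)) := by
    intro p
    by_cases hp : max p.1 p.2 = 0
    · simp only [hG, hz p hp, zero_mul]
      exact integrable_zero _ _ _
    · exact ((gint_integrable hc (hpos p hp)).ofReal (𝕜 := ℂ)).const_mul _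
  have hval : ∀ p, ∫ u in Set.Ioi (0 : ℝ), G p u = a p.1 * conj (a p.2) *
        ((((max p.1 p.2 : ℕ) : ℝ) ^ (-(2 * c)) / (2 * c) : ℝ) : ℂ) := by
    intro p
    by_cases hp : max p.1 p.2 = 0
    · simp only [hG, hz p hp, zero_mul, integral_zero]
    · simp only [hG]
      rw [integral_const_mul, integral_complex_ofReal, gint_integral hc (hpos p hp)]
  have hnorm : ∀ p, ∫ u in Set.Ioi (0 : ℝ), ‖G p u‖ = ‖a p.1 * conj (a p.2)‖ *
        (((max p.1 p.2 : ℕ) : ℝ) ^ (-(2 * c)) / (2 * c)) := by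
    intro p
    by_cases hp : max p.1 p.2 = 0
    · simp only [hG, hz p hp, zero_mul, norm_zero, integral_zero]
    · simp only [hG]
      rw [← gint_integral hc (hpos p hp), ← integral_const_mul]
      refine setIntegral_congr_fun measurableSet_Ioi fun u hu => ?_
      rw [norm_mul, Complex.norm_real, Real.norm_of_nonneg (gint_nonneg hu)]
  have hsum : Summable fun p => ∫ u in Set.Ioi (0 : ℝ), ‖G p u‖ := by
    simp_rw [hnorm]
    refine Summable.of_nonneg_of_le (fun p => by positivity) (fun p => ?_)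
      ((summable_prod ha).mul_right (1 / (2 * c)))
    by_cases hp : p.1 = 0 ∨ p.2 = 0
    · rcases hp with hp | hp
      · rw [hp, ha0]; simp; positivity
      · rw [hp, ha0]; simp; positivity
    push Not at hp
    have h1 : (0 : ℝ) < p.1 := by exact_mod_cast Nat.pos_of_ne_zero hp.1
    have h2 : (0 : ℝ) < p.2 := by exact_mod_cast Nat.pos_of_ne_zero hp.2
    have h3 : ((max p.1 p.2 : ℕ) : ℝ) ^ (-(2 * c)) ≤ (p.1 : ℝ) ^ (-c) * (p.2 : ℝ) ^ (-c) := by
      have h4 : -(2 * c) = -c + -c := by ring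
      have h5 : (0 : ℝ) < ((max p.1 p.2 : ℕ) : ℝ) := hpos p (by omega)
      rw [h4, Real.rpow_add h5]
      refine mul_le_mul ?_ ?_ (by positivity) (by positivity)
      · exact Real.rpow_le_rpow_of_nonpos h1 (by exact_mod_cast le_max_left _ _) (by linarith)
      · exact Real.rpow_le_rpow_of_nonpos h2 (by exact_mod_cast le_max_right _ _) (by linarith)
    rw [norm_mul, norm_mul, RCLike.norm_conj, RCLike.norm_conj, norm_bc, norm_bc]
    calc ‖a p.1‖ * ‖a p.2‖ * (((max p.1 p.2 : ℕ) : ℝ) ^ (-(2 * c)) / (2 * c))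
        ≤ ‖a p.1‖ * ‖a p.2‖ * (((p.1 : ℝ) ^ (-c) * (p.2 : ℝ) ^ (-c)) / (2 * c)) := by
          gcongr
      _ = _ := by ring
  have h := hasSum_integral_of_summable_integral_norm hint hsum
  simp_rw [hval] at h
  have h2 : ∫ u in Set.Ioi (0 : ℝ), ∑' p, G p u =
      ∫ u in Set.Ioi (0 : ℝ), ((‖ps a u‖ ^ 2 * u ^ (-1 - 2 * c) : ℝ) : ℂ) := by
    refine setIntegral_congr_fun measurableSet_Ioi fun u hu => ?_
    beta_reduce
    rw [Complex.ofReal_mul, ps_sq, Finset.sum_mul]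
    rw [tsum_eq_sum (s := Finset.Icc 1 ⌊u⌋₊ ×ˢ Finset.Icc 1 ⌊u⌋₊)]
    · refine Finset.sum_congr rfl fun p hp => ?_
      rw [Finset.mem_product, Finset.mem_Icc, Finset.mem_Icc] at hp
      simp only [hG, gint]
      rw [Set.indicator_of_mem]
      rw [Set.mem_Ici, ← Nat.le_floor_iff (le_of_lt hu)]
      omega
    · intro p hp
      rw [Finset.mem_product, Finset.mem_Icc, Finset.mem_Icc] at hp
      simp only [hG, gint]
      by_cases h0 : p.1 = 0 ∨ p.2 = 0
      · rcases h0 with h0 | h0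
        · rw [h0, ha0]; simp
        · rw [h0, ha0]; simp
      rw [Set.indicator_of_notMem]
      · simp
      · rw [Set.mem_Ici, ← Nat.le_floor_iff (le_of_lt hu)]
        omega
  rw [h2] at h
  exact h

/-- Parseval. -/
theorem parseval {a : ℕ → ℂ} {c : ℝ} (hc : 0 < c) (ha0 : a 0 = 0)
    (ha : Summable fun n => ‖a n‖ * (n : ℝ) ^ (-c)) :
    ∫ τ : ℝ, ‖LSeries a (c + I * τ)‖ ^ 2 * (c ^ 2 + τ ^ 2)⁻¹ =
      2 * π * ∫ u in Set.Ioi (0 : ℝ), ‖ps a u‖ ^ 2 * u ^ (-1 - 2 * c) := by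
  have ha' : Summable fun n => ‖bc a c n‖ := ha.congr fun n => (norm_bc a c n).symm
  have h1 := hasSum_left hc ha0 ha'
  have h2 := (hasSum_right hc ha0 ha').mul_left ((2 * π : ℝ) : ℂ)
  have h3 : (fun p : ℕ × ℕ => bc a c p.1 * conj (bc a c p.2) *
        ((π / c : ℝ) * lap c (-Real.log p.1 + Real.log p.2))) =
      fun p : ℕ × ℕ => ((2 * π : ℝ) : ℂ) * (a p.1 * conj (a p.2) *
        ((((max p.1 p.2 : ℕ) : ℝ) ^ (-(2 * c)) / (2 * c) : ℝ) : ℂ)) := by
    funext p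
    by_cases hp : p.1 = 0 ∨ p.2 = 0
    · rcases hp with hp | hp
      · rw [hp, bc, ha0]; simp
      · rw [hp, bc, bc, ha0]; simp
    push Not at hp
    have h1 : (0 : ℝ) < p.1 := by exact_mod_cast Nat.pos_of_ne_zero hp.1
    have h2 : (0 : ℝ) < p.2 := by exact_mod_cast Nat.pos_of_ne_zero hp.2
    have h5 : (p.1 : ℝ) ^ (-c) * (p.2 : ℝ) ^ (-c) * Real.exp (-c * |-Real.log p.1 + Real.log p.2|)
        = ((max p.1 p.2 : ℕ) : ℝ) ^ (-(2 * c)) := by
      rcases le_total p.1 p.2 with h | h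
      · have h6 : Real.log p.1 ≤ Real.log p.2 := Real.log_le_log h1 (by exact_mod_cast h)
        rw [max_eq_right h, abs_of_nonneg (by linarith), Real.rpow_def_of_pos h1,
          Real.rpow_def_of_pos h2, Real.rpow_def_of_pos h2, ← Real.exp_add, ← Real.exp_add]
        congr 1
        ring
      · have h6 : Real.log p.2 ≤ Real.log p.1 := Real.log_le_log h2 (by exact_mod_cast h)
        rw [max_eq_left h, abs_of_nonpos (by linarith), Real.rpow_def_of_pos h1,
          Real.rpow_def_of_pos h2, Real.rpow_def_of_pos h1, ← Real.exp_add, ← Real.exp_add]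
        congr 1
        ring
    rw [← h5, bc, bc, lap, map_mul, Complex.conj_ofReal]
    have hc' : (c : ℂ) ≠ 0 := by exact_mod_cast hc.ne'
    push_cast
    field_simp
  rw [h3] at h1
  have h4 := h1.unique h2
  rw [integral_complex_ofReal, integral_complex_ofReal, ← Complex.ofReal_mul] at h4
  exact_mod_cast h4

end Pool.Agent.MRHal
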