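import Mathlib

/-!
# The mean value theorem for Dirichlet polynomials, without logarithm

`mvt`: for every finite set `s` of integers in `[1, M]`, every `a : ℕ → ℂ` and every `T > 0`
`∫_{-T}^{T} |∑_{n ∈ s} a_n n^(-i t)|^2 dt ≤ (5 T + 31 M) ∑_{n ∈ s} |a_n|^2`.

Proof: Gaussian weight and the inequality `|a b| ≤ (|a|^2 + |b|^2)/2`.
-/

set_option autoImplicit false

namespace Pool.Agent.MRL

open Complex MeasureTheory Finset
open scoped Real ComplexConjugate

/-- the Fourier transform of the Gaussian, real form -/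
theorem gauss_ft {T : ℝ} (hT : 0 < T) (x : ℝ) :
    ∫ t : ℝ, cexp (I * x * t) * cexp (-((1 / T ^ 2 : ℝ) : ℂ) * t ^ 2) =
      ((√π * T * rexp (-(T * x) ^ 2 / 4) : ℝ) : ℂ) := by
  have hb : 0 < (((1 / T ^ 2 : ℝ) : ℂ)).re := by
    rw [ofReal_re]; positivity
  rw [fourierIntegral_gaussian hb]
  have h1 : ((π : ℂ) / ((1 / T ^ 2 : ℝ) : ℂ)) ^ (1 / 2 : ℂ) = ((√π * T : ℝ) : ℂ) := by
    have h2 : (π : ℂ) / ((1 / T ^ 2 : ℝ) : ℂ) = ((π * T ^ 2 : ℝ) : ℂ) := by
      push_cast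
      field_simp
    have h3 : (1 / 2 : ℂ) = (((1 / 2 : ℝ)) : ℂ) := by push_cast; rfl
    rw [h2, h3, ← ofReal_cpow (by positivity), ← Real.sqrt_eq_rpow, Real.sqrt_mul (by positivity),
      Real.sqrt_sq hT.le]
  have h4 : -(x : ℂ) ^ 2 / (4 * ((1 / T ^ 2 : ℝ) : ℂ)) = ((-(T * x) ^ 2 / 4 : ℝ) : ℂ) := by
    push_cast
    have : (T : ℂ) ≠ 0 := by exact_mod_cast hT.ne'
    field_simp
  rw [h1, h4, ← ofReal_exp, ← ofReal_mul]

theorem gauss_int {T : ℝ} (hT : 0 < T) (x : ℝ) :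
    Integrable fun t : ℝ => cexp (I * x * t) * cexp (-((1 / T ^ 2 : ℝ) : ℂ) * t ^ 2) := by
  have hb : 0 < (((1 / T ^ 2 : ℝ) : ℂ)).re := by
    rw [ofReal_re]; positivity
  refine (integrable_cexp_neg_mul_sq hb).mono ?_ ?_
  · apply Continuous.aestronglyMeasurable
    fun_prop
  · refine Filter.Eventually.of_forall fun t => ?_
    rw [norm_mul]
    have : ‖cexp (I * x * t)‖ = 1 := by
      rw [Complex.norm_exp]
      simp
    rw [this, one_mul]

/-- a trigonometric polynomial with real frequencies `w n` -/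
noncomputable def tp (s : Finset ℕ) (w : ℕ → ℝ) (a : ℕ → ℂ) (t : ℝ) : ℂ :=
  ∑ n ∈ s, a n * cexp (I * (w n : ℂ) * t)

theorem tp_continuous (s : Finset ℕ) (w : ℕ → ℝ) (a : ℕ → ℂ) : Continuous (tp s w a) := by
  unfold tp
  fun_prop

theorem tp_sq (s : Finset ℕ) (w : ℕ → ℝ) (a : ℕ → ℂ) (t : ℝ) :
    ((‖tp s w a t‖ ^ 2 : ℝ) : ℂ) =
      ∑ n ∈ s, ∑ m ∈ s, a n * conj (a m) * cexp (I * ((w n - w m : ℝ) : ℂ) * t) := by
  have h0 : ((‖tp s w a t‖ ^ 2 : ℝ) : ℂ) = tp s w a t * conj (tp s w a t) := by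
    rw [Complex.mul_conj, Complex.normSq_eq_norm_sq]
  rw [h0]
  unfold tp
  rw [map_sum, Finset.sum_mul_sum]
  refine Finset.sum_congr rfl fun n _ => Finset.sum_congr rfl fun m _ => ?_
  have h1 : conj (cexp (I * (w m : ℂ) * t)) = cexp (-(I * (w m : ℂ) * t)) := by
    rw [← Complex.exp_conj]
    congr 1
    simp
  have h2 : cexp (I * ((w n - w m : ℝ) : ℂ) * t)
      = cexp (I * (w n : ℂ) * t) * cexp (-(I * (w m : ℂ) * t)) := by
    rw [← Complex.exp_add]
    congr 1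
    push_cast
    ring
  rw [map_mul, h1, h2]
  ring

/-- the Gaussian mean square of a trigonometric polynomial -/
theorem gauss_mean {T : ℝ} (hT : 0 < T) (s : Finset ℕ) (w : ℕ → ℝ) (a : ℕ → ℂ) :
    ((∫ t : ℝ, ‖tp s w a t‖ ^ 2 * rexp (-(1 / T ^ 2) * t ^ 2) : ℝ) : ℂ) =
      ∑ n ∈ s, ∑ m ∈ s, a n * conj (a m) *
        ((√π * T * rexp (-(T * (w n - w m)) ^ 2 / 4) : ℝ) : ℂ) := by
  have h00 : ((∫ t : ℝ, ‖tp s w a t‖ ^ 2 * rexp (-(1 / T ^ 2) * t ^ 2) : ℝ) : ℂ) =
      ∫ t : ℝ, (((‖tp s w a t‖ ^ 2 * rexp (-(1 / T ^ 2) * t ^ 2) : ℝ)) : ℂ) :=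
    (integral_ofReal (𝕜 := ℂ)).symm
  rw [h00]
  have h1 : ∀ t : ℝ, (((‖tp s w a t‖ ^ 2 * rexp (-(1 / T ^ 2) * t ^ 2) : ℝ)) : ℂ)
      = ∑ n ∈ s, ∑ m ∈ s, a n * conj (a m) * (cexp (I * ((w n - w m : ℝ) : ℂ) * t) *
        cexp (-((1 / T ^ 2 : ℝ) : ℂ) * t ^ 2)) := by
    intro t
    rw [ofReal_mul, tp_sq, Finset.sum_mul]
    refine Finset.sum_congr rfl fun n _ => ?_
    rw [Finset.sum_mul]
    refine Finset.sum_congr rfl fun m _ => ?_
    rw [mul_assoc]
    congr 2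
    rw [ofReal_exp]
    congr 1
    push_cast
    ring
  have h1' : (fun t : ℝ => (((‖tp s w a t‖ ^ 2 * rexp (-(1 / T ^ 2) * t ^ 2) : ℝ)) : ℂ))
      = fun t : ℝ => ∑ n ∈ s, ∑ m ∈ s, a n * conj (a m) *
        (cexp (I * ((w n - w m : ℝ) : ℂ) * t) * cexp (-((1 / T ^ 2 : ℝ) : ℂ) * t ^ 2)) :=
    funext h1
  rw [h1', integral_finsetSum]
  · refine Finset.sum_congr rfl fun n _ => ?_
    rw [integral_finsetSum]
    · refine Finset.sum_congr rfl fun m _ => ?_
      rw [integral_const_mul, gauss_ft hT]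
    · intro m _
      exact (gauss_int hT _).const_mul _
  · intro n _
    exact integrable_finsetSum _ fun m _ => (gauss_int hT _).const_mul _

/-- Schur's test for the Gaussian mean square -/
theorem gauss_mean_le {T B : ℝ} (hT : 0 < T) (s : Finset ℕ) (w : ℕ → ℝ) (a : ℕ → ℂ)
    (hB : ∀ n ∈ s, ∑ m ∈ s, rexp (-(T * (w n - w m)) ^ 2 / 4) ≤ B) :
    ∫ t : ℝ, ‖tp s w a t‖ ^ 2 * rexp (-(1 / T ^ 2) * t ^ 2) ≤
      √π * T * B * ∑ n ∈ s, ‖a n‖ ^ 2 := by
  set g : ℕ → ℕ → ℝ := fun n m => rexp (-(T * (w n - w m)) ^ 2 / 4) with hg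
  have hgs : ∀ n m, g n m = g m n := by
    intro n m
    simp only [hg]
    congr 1
    ring
  have hg0 : ∀ n m, 0 ≤ g n m := fun n m => (Real.exp_pos _).le
  have hI0 : 0 ≤ ∫ t : ℝ, ‖tp s w a t‖ ^ 2 * rexp (-(1 / T ^ 2) * t ^ 2) :=
    integral_nonneg fun t => by positivity
  have h1 : ∫ t : ℝ, ‖tp s w a t‖ ^ 2 * rexp (-(1 / T ^ 2) * t ^ 2) ≤
      ∑ n ∈ s, ∑ m ∈ s, ‖a n‖ * ‖a m‖ * (√π * T * g n m) := by
    have h2 := gauss_mean hT s w a
    have h3 : ‖((∫ t : ℝ, ‖tp s w a t‖ ^ 2 * rexp (-(1 / T ^ 2) * t ^ 2) : ℝ) : ℂ)‖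
        ≤ ∑ n ∈ s, ∑ m ∈ s, ‖a n‖ * ‖a m‖ * (√π * T * g n m) := by
      rw [h2]
      refine (norm_sum_le _ _).trans (Finset.sum_le_sum fun n _ => ?_)
      refine (norm_sum_le _ _).trans (Finset.sum_le_sum fun m _ => ?_)
      rw [norm_mul, norm_mul, RCLike.norm_conj, Complex.norm_real, Real.norm_of_nonneg]
      have := hg0 n m
      positivity
    rwa [Complex.norm_real, Real.norm_of_nonneg hI0] at h3
  refine h1.trans ?_
  have h4 : ∀ n ∈ s, ∀ m ∈ s, ‖a n‖ * ‖a m‖ * (√π * T * g n m) ≤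
      √π * T * (1 / 2) * (‖a n‖ ^ 2 * g n m) + √π * T * (1 / 2) * (‖a m‖ ^ 2 * g m n) := by
    intro n _ m _
    rw [hgs m n]
    have h5 : ‖a n‖ * ‖a m‖ ≤ (‖a n‖ ^ 2 + ‖a m‖ ^ 2) / 2 := by
      nlinarith [sq_nonneg (‖a n‖ - ‖a m‖)]
    have h6 : 0 ≤ √π * T * g n m := by
      have := hg0 n m
      positivity
    nlinarith [mul_le_mul_of_nonneg_right h5 h6]
  have h7 : ∑ n ∈ s, ∑ m ∈ s, ‖a n‖ * ‖a m‖ * (√π * T * g n m) ≤
      ∑ n ∈ s, ∑ m ∈ s, √π * T * (‖a n‖ ^ 2 * g n m) := by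
    have h8 : ∑ n ∈ s, ∑ m ∈ s, ‖a n‖ * ‖a m‖ * (√π * T * g n m) ≤
        ∑ n ∈ s, ∑ m ∈ s, √π * T * (1 / 2) * (‖a n‖ ^ 2 * g n m) +
        ∑ n ∈ s, ∑ m ∈ s, √π * T * (1 / 2) * (‖a m‖ ^ 2 * g m n) := by
      rw [← Finset.sum_add_distrib]
      refine Finset.sum_le_sum fun n hn => ?_
      rw [← Finset.sum_add_distrib]
      exact Finset.sum_le_sum fun m hm => h4 n hn m hm
    refine h8.trans (le_of_eq ?_)
    rw [Finset.sum_comm (f := fun n m => √π * T * (1 / 2) * (‖a m‖ ^ 2 * g m n)),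
      ← Finset.sum_add_distrib]
    refine Finset.sum_congr rfl fun n _ => ?_
    rw [← Finset.sum_add_distrib]
    refine Finset.sum_congr rfl fun m _ => ?_
    ring
  refine h7.trans ?_
  rw [Finset.mul_sum]
  refine Finset.sum_le_sum fun n hn => ?_
  have h9 : ∑ m ∈ s, √π * T * (‖a n‖ ^ 2 * g n m) = √π * T * ‖a n‖ ^ 2 * ∑ m ∈ s, g n m := by
    rw [Finset.mul_sum]
    exact Finset.sum_congr rfl fun m _ => by ring
  rw [h9]
  have h10 := hB n hn
  have h11 : 0 ≤ √π * T * ‖a n‖ ^ 2 := by positivity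
  nlinarith [mul_le_mul_of_nonneg_left h10 h11]

/-- the mean square over `[-T, T]` is at most `e` times the Gaussian mean square -/
theorem mean_le_gauss {T : ℝ} (hT : 0 < T) (s : Finset ℕ) (w : ℕ → ℝ) (a : ℕ → ℂ) :
    ∫ t in (-T)..T, ‖tp s w a t‖ ^ 2 ≤
      rexp 1 * ∫ t : ℝ, ‖tp s w a t‖ ^ 2 * rexp (-(1 / T ^ 2) * t ^ 2) := by
  have hint : Integrable fun t : ℝ => ‖tp s w a t‖ ^ 2 * rexp (-(1 / T ^ 2) * t ^ 2) := by
    have hb : (0 : ℝ) < 1 / T ^ 2 := by positivity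
    have hbd : ∀ t, ‖tp s w a t‖ ≤ ∑ n ∈ s, ‖a n‖ := by
      intro t
      refine (norm_sum_le _ _).trans (Finset.sum_le_sum fun n _ => ?_)
      rw [norm_mul, Complex.norm_exp]
      simp
    refine ((integrable_exp_neg_mul_sq hb).const_mul ((∑ n ∈ s, ‖a n‖) ^ 2)).mono' ?_ ?_
    · apply Continuous.aestronglyMeasurable
      have := tp_continuous s w a
      fun_prop
    · refine Filter.Eventually.of_forall fun t => ?_
      rw [Real.norm_of_nonneg (by positivity)]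
      refine mul_le_mul_of_nonneg_right ?_ (Real.exp_pos _).le
      exact pow_le_pow_left₀ (norm_nonneg _) (hbd t) 2
  rw [intervalIntegral.integral_of_le (by linarith), ← integral_const_mul]
  have h1 : ∫ t in Set.Ioc (-T) T, ‖tp s w a t‖ ^ 2 ≤
      ∫ t in Set.Ioc (-T) T, rexp 1 * (‖tp s w a t‖ ^ 2 * rexp (-(1 / T ^ 2) * t ^ 2)) := by
    refine setIntegral_mono_on ?_ (hint.const_mul _).integrableOn measurableSet_Ioc ?_
    · apply IntegrableOn.mono_set _ Set.Ioc_subset_Icc_self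
      apply ContinuousOn.integrableOn_Icc
      have := tp_continuous s w a
      fun_prop
    · intro t ht
      have h2 : (1 : ℝ) ≤ rexp 1 * rexp (-(1 / T ^ 2) * t ^ 2) := by
        rw [← Real.exp_add]
        apply Real.one_le_exp
        have h3 : t ^ 2 ≤ T ^ 2 := by
          apply sq_le_sq'
          · linarith [ht.1]
          · exact ht.2
        have h4 : 1 / T ^ 2 * t ^ 2 ≤ 1 := by
          rw [div_mul_eq_mul_div, one_mul, div_le_one (by positivity)]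
          exact h3
        linarith
      have h5 : 0 ≤ ‖tp s w a t‖ ^ 2 := by positivity
      nlinarith [mul_le_mul_of_nonneg_left h2 h5]
  refine h1.trans ?_
  refine setIntegral_le_integral (hint.const_mul _) ?_
  refine Filter.Eventually.of_forall fun t => ?_
  simp only [Pi.zero_apply]
  positivity

/-- the sum of the kernel `1/(1 + (c k)^2)` over positive integers -/
theorem sum_inv_sq {c : ℝ} (hc : 0 < c) (K : ℕ) :
    ∑ k ∈ range K, 1 / (1 + (c * ((k : ℝ) + 1)) ^ 2) ≤ π / (2 * c) := by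
  have hanti : AntitoneOn (fun x : ℝ => 1 / (1 + (c * x) ^ 2)) (Set.Icc 0 (0 + (K : ℝ))) := by
    intro x hx y _ hxy
    have hx0 : 0 ≤ x := hx.1
    apply one_div_le_one_div_of_le (by positivity)
    have : c * x ≤ c * y := mul_le_mul_of_nonneg_left hxy hc.le
    have h0 : 0 ≤ c * x := by positivity
    nlinarith
  have h1 := hanti.sum_le_integral
  have h2 : ∑ k ∈ range K, 1 / (1 + (c * ((k : ℝ) + 1)) ^ 2)
      = ∑ i ∈ range K, (fun x : ℝ => 1 / (1 + (c * x) ^ 2)) (0 + ((i + 1 : ℕ) : ℝ)) := by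
    refine Finset.sum_congr rfl fun k _ => ?_
    simp
  rw [h2]
  refine h1.trans ?_
  have h3 : ∫ x in (0 : ℝ)..(0 + (K : ℝ)), 1 / (1 + (c * x) ^ 2)
      = c⁻¹ * ∫ x in (c * 0)..(c * (0 + (K : ℝ))), 1 / (1 + x ^ 2) := by
    rw [intervalIntegral.integral_comp_mul_left (fun x : ℝ => 1 / (1 + x ^ 2)) hc.ne']
    rfl
  rw [h3, integral_one_div_one_add_sq]
  simp only [mul_zero, Real.arctan_zero, sub_zero]
  have h4 : Real.arctan (c * (0 + (K : ℝ))) ≤ π / 2 := (Real.arctan_lt_pi_div_two _).le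
  calc c⁻¹ * Real.arctan (c * (0 + (K : ℝ))) ≤ c⁻¹ * (π / 2) :=
        mul_le_mul_of_nonneg_left h4 (by positivity)
    _ = π / (2 * c) := by field_simp

theorem exp_neg_le (x : ℝ) (hx : 0 ≤ x) : rexp (-x) ≤ 1 / (1 + x) := by
  rw [Real.exp_neg, inv_eq_one_div]
  apply one_div_le_one_div_of_le (by positivity)
  linarith [Real.add_one_le_exp x]

/-- logarithms of integers at most `M` are spaced by `1/M` -/
theorem log_spacing {m n M : ℕ} (hm : 1 ≤ m) (hmn : m ≤ n) (hn : n ≤ M) :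
    ((n : ℝ) - m) / M ≤ Real.log n - Real.log m := by
  have hm0 : (0 : ℝ) < m := by exact_mod_cast hm
  have hn0 : (0 : ℝ) < n := by exact_mod_cast (lt_of_lt_of_le hm hmn)
  have hM0 : (0 : ℝ) < M := by exact_mod_cast (lt_of_lt_of_le (lt_of_lt_of_le hm hmn) hn)
  have hnm : (0 : ℝ) ≤ (n : ℝ) - m := by
    have : (m : ℝ) ≤ n := by exact_mod_cast hmn
    linarith
  have h1 : Real.log n - Real.log m = -Real.log ((m : ℝ) / n) := by
    rw [Real.log_div hm0.ne' hn0.ne']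
    ring
  have h2 := Real.log_le_sub_one_of_pos (show (0 : ℝ) < (m : ℝ) / n by positivity)
  have h3 : ((n : ℝ) - m) / M ≤ ((n : ℝ) - m) / n := by
    apply div_le_div_of_nonneg_left hnm hn0
    exact_mod_cast hn
  have h4 : ((n : ℝ) - m) / n = 1 - (m : ℝ) / n := by
    field_simp
  rw [h1]
  linarith

/-- the row sums of the Gaussian kernel at the frequencies `- log n` -/
theorem row_sum {T : ℝ} (hT : 0 < T) {M : ℕ} (s : Finset ℕ) (hs : ∀ n ∈ s, 1 ≤ n ∧ n ≤ M)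
    {n : ℕ} (hn : n ∈ s) :
    ∑ m ∈ s, rexp (-(T * (-Real.log n - -Real.log m)) ^ 2 / 4) ≤ 1 + 2 * π * M / T := by
  have hM0 : (0 : ℝ) < M := by
    have := hs n hn
    exact_mod_cast lt_of_lt_of_le this.1 this.2
  set c : ℝ := T / (2 * M) with hc
  have hc0 : 0 < c := by positivity
  have hpt : ∀ m ∈ s, rexp (-(T * (-Real.log n - -Real.log m)) ^ 2 / 4) ≤
      1 / (1 + (c * |(n : ℝ) - m|) ^ 2) := by
    intro m hm
    have h1 : |(n : ℝ) - m| / M ≤ |Real.log n - Real.log m| := by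
      rcases le_total m n with h | h
      · have h2 := log_spacing (hs m hm).1 h (hs n hn).2
        have h3 : (0 : ℝ) ≤ (n : ℝ) - m := by
          have : (m : ℝ) ≤ n := by exact_mod_cast h
          linarith
        rw [abs_of_nonneg h3]
        exact h2.trans (le_abs_self _)
      · have h2 := log_spacing (hs n hn).1 h (hs m hm).2
        have h3 : (n : ℝ) - m ≤ 0 := by
          have : (n : ℝ) ≤ m := by exact_mod_cast h
          linarith
        rw [abs_of_nonpos h3, abs_sub_comm]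
        refine le_trans (le_of_eq ?_) (h2.trans (le_abs_self _))
        ring
    have h4 : (c * |(n : ℝ) - m|) ^ 2 ≤ (T * (-Real.log n - -Real.log m)) ^ 2 / 4 := by
      have h5 : c * |(n : ℝ) - m| ≤ T / 2 * |Real.log n - Real.log m| := by
        calc c * |(n : ℝ) - m| = T / 2 * (|(n : ℝ) - m| / M) := by
              rw [hc]; field_simp
          _ ≤ T / 2 * |Real.log n - Real.log m| :=
              mul_le_mul_of_nonneg_left h1 (by positivity)
      have h6 : 0 ≤ c * |(n : ℝ) - m| := by positivity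
      calc (c * |(n : ℝ) - m|) ^ 2 ≤ (T / 2 * |Real.log n - Real.log m|) ^ 2 :=
            pow_le_pow_left₀ h6 h5 2
        _ = (T * (-Real.log n - -Real.log m)) ^ 2 / 4 := by
            rw [mul_pow, sq_abs]
            ring
    calc rexp (-(T * (-Real.log n - -Real.log m)) ^ 2 / 4)
        = rexp (-((T * (-Real.log n - -Real.log m)) ^ 2 / 4)) := by
          congr 1
          ring
      _ ≤ rexp (-(c * |(n : ℝ) - m|) ^ 2) := by
          apply Real.exp_le_exp.mpr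
          linarith
      _ ≤ 1 / (1 + (c * |(n : ℝ) - m|) ^ 2) := exp_neg_le _ (by positivity)
  refine (Finset.sum_le_sum hpt).trans ?_
  set f : ℕ → ℝ := fun k => 1 / (1 + (c * ((k : ℝ) + 1)) ^ 2) with hf
  have hf0 : ∀ k, 0 ≤ f k := fun k => by simp only [hf]; positivity
  set F : ℕ → ℝ := fun m => 1 / (1 + (c * |(n : ℝ) - m|) ^ 2) with hF
  have hF0 : ∀ k, 0 ≤ F k := fun k => by simp only [hF]; positivity
  have hsplit : ∑ m ∈ s, F m = F n + (∑ m ∈ s.filter (fun m => m < n), F m +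
      ∑ m ∈ s.filter (fun m => n < m), F m) := by
    rw [← Finset.sum_filter_add_sum_filter_not s (fun m => m = n)]
    have e1 : s.filter (fun m => m = n) = {n} := by
      ext m
      simp only [Finset.mem_filter, Finset.mem_singleton]
      constructor
      · exact fun h => h.2
      · rintro rfl; exact ⟨hn, rfl⟩
    rw [e1, Finset.sum_singleton]
    congr 1
    rw [← Finset.sum_filter_add_sum_filter_not (s.filter (fun m => ¬ m = n)) (fun m => m < n)]
    congr 1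
    · refine Finset.sum_congr ?_ fun _ _ => rfl
      ext m
      simp only [Finset.mem_filter]
      constructor
      · rintro ⟨⟨h1, _⟩, h3⟩; exact ⟨h1, h3⟩
      · rintro ⟨h1, h3⟩; exact ⟨⟨h1, h3.ne⟩, h3⟩
    · refine Finset.sum_congr ?_ fun _ _ => rfl
      ext m
      simp only [Finset.mem_filter]
      constructor
      · rintro ⟨⟨h1, h2⟩, h3⟩; exact ⟨h1, by omega⟩
      · rintro ⟨h1, h3⟩; exact ⟨⟨h1, by omega⟩, by omega⟩
  have hFn : F n = 1 := by simp [hF]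
  have hlow : ∑ m ∈ s.filter (fun m => m < n), F m ≤ ∑ k ∈ range M, f k := by
    have e2 : ∑ m ∈ s.filter (fun m => m < n), F m
        = ∑ k ∈ (s.filter (fun m => m < n)).image (fun m => n - m - 1), f k := by
      rw [Finset.sum_image]
      · refine Finset.sum_congr rfl fun m hm => ?_
        have hmn := (Finset.mem_filter.mp hm).2
        simp only [hF, hf]
        have h1 : (((n - m - 1 : ℕ) : ℝ) + 1) = (n : ℝ) - m := by
          have : ((n - m - 1 : ℕ) : ℝ) + 1 = ((n - m - 1 + 1 : ℕ) : ℝ) := by push_cast; ring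
          rw [this, show n - m - 1 + 1 = n - m by omega, Nat.cast_sub hmn.le]
        rw [h1, abs_of_nonneg]
        have : (m : ℝ) ≤ n := by exact_mod_cast hmn.le
        linarith
      · intro x hx y hy hxy
        have h1 := (Finset.mem_filter.mp hx).2
        have h2 := (Finset.mem_filter.mp hy).2
        simp only at hxy
        omega
    rw [e2]
    refine Finset.sum_le_sum_of_subset_of_nonneg ?_ fun k _ _ => hf0 k
    intro k hk
    obtain ⟨m, hm, rfl⟩ := Finset.mem_image.mp hk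
    have h1 := (Finset.mem_filter.mp hm)
    have h2 := hs n hn
    rw [Finset.mem_range]
    omega
  have hhigh : ∑ m ∈ s.filter (fun m => n < m), F m ≤ ∑ k ∈ range M, f k := by
    have e2 : ∑ m ∈ s.filter (fun m => n < m), F m
        = ∑ k ∈ (s.filter (fun m => n < m)).image (fun m => m - n - 1), f k := by
      rw [Finset.sum_image]
      · refine Finset.sum_congr rfl fun m hm => ?_
        have hmn := (Finset.mem_filter.mp hm).2
        simp only [hF, hf]
        have h1 : (((m - n - 1 : ℕ) : ℝ) + 1) = (m : ℝ) - n := by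
          have : ((m - n - 1 : ℕ) : ℝ) + 1 = ((m - n - 1 + 1 : ℕ) : ℝ) := by push_cast; ring
          rw [this, show m - n - 1 + 1 = m - n by omega, Nat.cast_sub hmn.le]
        rw [h1, abs_sub_comm, abs_of_nonneg]
        have : (n : ℝ) ≤ m := by exact_mod_cast hmn.le
        linarith
      · intro x hx y hy hxy
        have h1 := (Finset.mem_filter.mp hx).2
        have h2 := (Finset.mem_filter.mp hy).2
        simp only at hxy
        omega
    rw [e2]
    refine Finset.sum_le_sum_of_subset_of_nonneg ?_ fun k _ _ => hf0 k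
    intro k hk
    obtain ⟨m, hm, rfl⟩ := Finset.mem_image.mp hk
    have h1 := (Finset.mem_filter.mp hm)
    have h2 := hs m h1.1
    rw [Finset.mem_range]
    omega
  have hsum := sum_inv_sq hc0 M
  have hval : π / (2 * c) = π * M / T := by
    rw [hc]; field_simp
  rw [hval] at hsum
  have : ∑ m ∈ s, F m ≤ 1 + 2 * π * M / T := by
    rw [hsplit, hFn]
    have h1 : 2 * π * M / T = π * M / T + π * M / T := by ring
    rw [h1]
    linarith
  exact this

/-- `n^(-it)` in exponential form -/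
theorem cpow_eq {n : ℕ} (hn : 1 ≤ n) (t : ℝ) :
    (n : ℂ) ^ (-(t * I : ℂ)) = cexp (I * ((-Real.log n : ℝ) : ℂ) * t) := by
  have hn0 : (n : ℂ) ≠ 0 := by
    exact_mod_cast (Nat.pos_of_ne_zero (by omega)).ne'
  rw [Complex.cpow_def_of_ne_zero hn0]
  congr 1
  rw [← Complex.natCast_log]
  push_cast
  ring

/-- **Mean value theorem** for Dirichlet polynomials supported in `[1, M]`. -/
theorem mvt {T : ℝ} (hT : 0 < T) {M : ℕ} (s : Finset ℕ) (hs : ∀ n ∈ s, 1 ≤ n ∧ n ≤ M)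
    (a : ℕ → ℂ) :
    ∫ t in (-T)..T, ‖∑ n ∈ s, a n * (n : ℂ) ^ (-(t * I : ℂ))‖ ^ 2 ≤
      (5 * T + 31 * M) * ∑ n ∈ s, ‖a n‖ ^ 2 := by
  have h0 : ∀ t : ℝ, ∑ n ∈ s, a n * (n : ℂ) ^ (-(t * I : ℂ))
      = tp s (fun n => -Real.log n) a t := by
    intro t
    unfold tp
    exact Finset.sum_congr rfl fun n hn => by rw [cpow_eq (hs n hn).1]
  simp_rw [h0]
  refine (mean_le_gauss hT s _ a).trans ?_
  have h1 := gauss_mean_le hT s (fun n => -Real.log n) a (B := 1 + 2 * π * M / T)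
    (fun n hn => row_sum hT s hs hn)
  have h2 : rexp 1 * ∫ t : ℝ, ‖tp s (fun n => -Real.log n) a t‖ ^ 2 *
      rexp (-(1 / T ^ 2) * t ^ 2) ≤
      rexp 1 * (√π * T * (1 + 2 * π * M / T) * ∑ n ∈ s, ‖a n‖ ^ 2) :=
    mul_le_mul_of_nonneg_left h1 (Real.exp_pos _).le
  refine h2.trans ?_
  have h3 : rexp 1 * (√π * T * (1 + 2 * π * M / T) * ∑ n ∈ s, ‖a n‖ ^ 2)
      = (rexp 1 * √π) * (T + 2 * π * M) * ∑ n ∈ s, ‖a n‖ ^ 2 := by
    field_simp
  rw [h3]
  refine mul_le_mul_of_nonneg_right ?_ (Finset.sum_nonneg fun n _ => by positivity)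
  have he : rexp 1 < 2.7182818286 := Real.exp_one_lt_d9
  have hpi : √π ≤ 1.7725 := by
    rw [Real.sqrt_le_left (by norm_num)]
    have := Real.pi_lt_d4
    norm_num at this ⊢
    linarith
  have hepi : rexp 1 * √π ≤ 4.82 := by
    have h4 : 0 ≤ √π := Real.sqrt_nonneg _
    nlinarith [Real.exp_pos 1]
  have hpi2 : π ≤ 3.1416 := by
    have := Real.pi_lt_d4
    linarith
  have hM : (0 : ℝ) ≤ M := Nat.cast_nonneg _
  have h5 : 0 ≤ T + 2 * π * M := by positivity
  calc rexp 1 * √π * (T + 2 * π * M) ≤ 4.82 * (T + 2 * π * M) :=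
        mul_le_mul_of_nonneg_right hepi h5
    _ ≤ 5 * T + 31 * M := by nlinarith [mul_le_mul_of_nonneg_right hpi2 hM]

end Pool.Agent.MRL
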