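import Pool.Agent.Lib.MRL.Defs
import Pool.Agent.Lib.MRL.MVT

/-! TANK MR, row H2: mean square over unit intervals of the Dirichlet series with coefficients
bounded by the von Mangoldt function. helper51. -/

set_option autoImplicit false

namespace Pool.Agent.MRL

open Finset Filter Topology MeasureTheory Chebyshev
open ArithmeticFunction (vonMangoldt)

/-- the Chebyshev constant -/
noncomputable def cC : ℝ := Real.log 4 + 4

theorem cC_pos : 0 < cC := by
  unfold cC; have := Real.log_pos (show (1 : ℝ) < 4 by norm_num); linarith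

theorem sum_vM_le (N : ℕ) : ∑ n ∈ range N, vonMangoldt (n + 1) ≤ cC * N := by
  have h := psi_le_const_mul_self (x := (N : ℝ)) (Nat.cast_nonneg N)
  rw [psi_eq_sum_Icc, Nat.floor_natCast] at h
  have h2 : ∑ n ∈ range N, vonMangoldt (n + 1) ≤ ∑ n ∈ Icc 0 N, vonMangoldt n := by
    rw [← Finset.sum_image (s := range N) (g := fun n => n + 1) (f := fun n => vonMangoldt n)]
    · apply Finset.sum_le_sum_of_subset_of_nonneg
      · intro x hx
        simp only [mem_image, mem_range, mem_Icc] at hx ⊢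
        omega
      · intro i _ _; exact ArithmeticFunction.vonMangoldt_nonneg
    · intro a _ b _ h; simpa using h
  exact h2.trans h

/-- comparison principle: partial sums bounded by `c n`, decreasing nonnegative weights. -/
theorem comp_sum {c : ℝ} (x w : ℕ → ℝ) (hx : ∀ N, ∑ n ∈ range N, x n ≤ c * N)
    (hw : Antitone w) (hw0 : ∀ n, 0 ≤ w n) (N : ℕ) :
    ∑ n ∈ range N, x n * w n ≤ c * ∑ n ∈ range N, w n := by
  have key : ∀ N, ∑ n ∈ range N, x n * w n + (c * N - ∑ n ∈ range N, x n) * w N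
      ≤ c * ∑ n ∈ range N, w n := by
    intro N
    induction N with
    | zero => simp
    | succ N ih =>
      rw [sum_range_succ, sum_range_succ (fun n => w n), mul_add]
      have h1 := hx (N + 1)
      have h2 : w (N + 1) ≤ w N := hw (Nat.le_succ N)
      have h3 : (c * ((N + 1 : ℕ) : ℝ) - ∑ n ∈ range (N + 1), x n) * w (N + 1)
          ≤ (c * ((N + 1 : ℕ) : ℝ) - ∑ n ∈ range (N + 1), x n) * w N :=
        mul_le_mul_of_nonneg_left h2 (by linarith)
      rw [sum_range_succ (fun n => x n)] at h3 ⊢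
      push_cast at h3 ⊢
      nlinarith
  have h1 := key N
  have h2 : 0 ≤ (c * N - ∑ n ∈ range N, x n) * w N :=
    mul_nonneg (by linarith [hx N]) (hw0 N)
  linarith

theorem rpow_tel {s : ℝ} (hs : 0 < s) (m : ℕ) :
    ((m : ℝ) + 2) ^ (-(1 + s)) ≤ (1 / s) * (((m : ℝ) + 1) ^ (-s) - ((m : ℝ) + 2) ^ (-s)) := by
  have hm : (0 : ℝ) < (m : ℝ) + 2 := by positivity
  have hm1 : (0 : ℝ) < (m : ℝ) + 1 := by positivity
  have e1 : ((m : ℝ) + 2) ^ (-(1 + s)) = ((m : ℝ) + 2) ^ (-s) * (1 / ((m : ℝ) + 2)) := by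
    rw [show -(1 + s) = -s - 1 by ring, Real.rpow_sub_one hm.ne']; ring
  have e2 : ((m : ℝ) + 1) ^ (-s)
      = ((m : ℝ) + 2) ^ (-s) * (((m : ℝ) + 1) / ((m : ℝ) + 2)) ^ (-s) := by
    rw [← Real.mul_rpow hm.le (by positivity)]
    congr 1; field_simp
  have e3 : 1 + s * (1 / ((m : ℝ) + 2)) ≤ (((m : ℝ) + 1) / ((m : ℝ) + 2)) ^ (-s) := by
    rw [Real.rpow_def_of_pos (by positivity)]
    have h1 : Real.log (((m : ℝ) + 1) / ((m : ℝ) + 2)) ≤ -(1 / ((m : ℝ) + 2)) := by
      have := Real.log_le_sub_one_of_pos (show 0 < ((m : ℝ) + 1) / ((m : ℝ) + 2) by positivity)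
      have h2 : ((m : ℝ) + 1) / ((m : ℝ) + 2) - 1 = -(1 / ((m : ℝ) + 2)) := by
        field_simp; ring
      linarith
    have h2 : s * (1 / ((m : ℝ) + 2)) ≤ Real.log (((m : ℝ) + 1) / ((m : ℝ) + 2)) * -s := by
      nlinarith
    have := Real.add_one_le_exp (Real.log (((m : ℝ) + 1) / ((m : ℝ) + 2)) * -s)
    linarith
  have hp : 0 < ((m : ℝ) + 2) ^ (-s) := Real.rpow_pos_of_pos hm _
  rw [e1, e2]
  have : ((m : ℝ) + 2) ^ (-s) * (1 / ((m : ℝ) + 2))
      = (1 / s) * (((m : ℝ) + 2) ^ (-s) * (1 + s * (1 / ((m : ℝ) + 2)))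
        - ((m : ℝ) + 2) ^ (-s)) := by
    field_simp; ring
  rw [this]
  apply mul_le_mul_of_nonneg_left _ (by positivity)
  have := mul_le_mul_of_nonneg_left e3 hp.le
  linarith

theorem sum_rpow_le {s : ℝ} (hs : 0 < s) (N : ℕ) :
    ∑ n ∈ range N, ((n : ℝ) + 1) ^ (-(1 + s)) ≤ 1 + 1 / s := by
  have key : ∀ N : ℕ, ∑ n ∈ range (N + 1), ((n : ℝ) + 1) ^ (-(1 + s))
      ≤ 1 + 1 / s - (1 / s) * ((N : ℝ) + 1) ^ (-s) := by
    intro N
    induction N with
    | zero => simp
    | succ N ih =>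
      rw [sum_range_succ]
      have h := rpow_tel hs N
      push_cast
      have e : (N : ℝ) + 1 + 1 = (N : ℝ) + 2 := by ring
      rw [e]
      linarith
  rcases N with _ | N
  · simp; positivity
  · refine (key N).trans ?_
    have : 0 ≤ (1 / s) * ((N : ℝ) + 1) ^ (-s) := by positivity
    linarith

/-- the kernel bound -/
theorem gauss_kernel_le (m n : ℕ) :
    Real.exp (-(Real.log (m + 1) - Real.log (n + 1)) ^ 2 / 4)
      ≤ Real.exp 4 * min (((n : ℝ) + 1) / (m + 1)) (((m : ℝ) + 1) / (n + 1)) ^ 2 := by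
  set x : ℝ := Real.log (m + 1) - Real.log (n + 1) with hx
  have hm : (0 : ℝ) < (m : ℝ) + 1 := by positivity
  have hn : (0 : ℝ) < (n : ℝ) + 1 := by positivity
  have e1 : ((n : ℝ) + 1) / (m + 1) = Real.exp (-x) := by
    rw [hx, neg_sub, ← Real.log_div hn.ne' hm.ne', Real.exp_log (by positivity)]
  have e2 : ((m : ℝ) + 1) / (n + 1) = Real.exp x := by
    rw [hx, ← Real.log_div hm.ne' hn.ne', Real.exp_log (by positivity)]
  rw [e1, e2]
  rcases le_total 0 x with h | h
  · rw [min_eq_left (Real.exp_le_exp.mpr (by linarith)), ← Real.exp_nat_mul, ← Real.exp_add]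
    apply Real.exp_le_exp.mpr
    push_cast
    nlinarith [sq_nonneg (x - 4)]
  · rw [min_eq_right (Real.exp_le_exp.mpr (by linarith)), ← Real.exp_nat_mul, ← Real.exp_add]
    apply Real.exp_le_exp.mpr
    push_cast
    nlinarith [sq_nonneg (x + 4)]

/-- dominating weight -/
noncomputable def wM (a : ℝ) (m n : ℕ) : ℝ :=
  if n ≤ m then ((m : ℝ) + 1) ^ (-(1 + a)) else ((m : ℝ) + 1) ^ 2 * ((n : ℝ) + 1) ^ (-(3 + a))

theorem wM_nonneg (a : ℝ) (m n : ℕ) : 0 ≤ wM a m n := by
  unfold wM; split_ifs <;> positivity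

theorem wM_anti {a : ℝ} (ha : 0 < a) (m : ℕ) : Antitone (wM a m) := by
  apply antitone_nat_of_succ_le
  intro n
  unfold wM
  have hm : (0 : ℝ) < (m : ℝ) + 1 := by positivity
  have hn : (0 : ℝ) < (n : ℝ) + 1 := by positivity
  by_cases h1 : n + 1 ≤ m
  · rw [if_pos h1, if_pos (by omega)]
  · rw [if_neg h1]
    by_cases h2 : n ≤ m
    · rw [if_pos h2]
      have h3 : ((n + 1 : ℕ) : ℝ) + 1 ≥ (m : ℝ) + 1 := by
        have : m ≤ n + 1 := by omega
        have : (m : ℝ) ≤ ((n + 1 : ℕ) : ℝ) := by exact_mod_cast this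
        linarith
      have h4 : (((n + 1 : ℕ) : ℝ) + 1) ^ (-(3 + a)) ≤ ((m : ℝ) + 1) ^ (-(3 + a)) :=
        Real.rpow_le_rpow_of_nonpos hm h3 (by linarith)
      have h5 : ((m : ℝ) + 1) ^ 2 * ((m : ℝ) + 1) ^ (-(3 + a)) = ((m : ℝ) + 1) ^ (-(1 + a)) := by
        rw [← Real.rpow_natCast ((m : ℝ) + 1) 2, ← Real.rpow_add hm]
        congr 1; push_cast; ring
      calc _ ≤ ((m : ℝ) + 1) ^ 2 * ((m : ℝ) + 1) ^ (-(3 + a)) :=
            mul_le_mul_of_nonneg_left h4 (by positivity)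
        _ = _ := h5
    · rw [if_neg h2]
      apply mul_le_mul_of_nonneg_left _ (by positivity)
      apply Real.rpow_le_rpow_of_nonpos hn _ (by linarith)
      push_cast; linarith

theorem sum_wM {a : ℝ} (ha : 0 < a) (m N : ℕ) :
    ∑ n ∈ range N, wM a m n ≤ 3 * ((m : ℝ) + 1) ^ (-a) := by
  have hm : (0 : ℝ) < (m : ℝ) + 1 := by positivity
  have key : ∀ N : ℕ, ∑ n ∈ range N, wM a m n
      ≤ if N ≤ m + 1 then (N : ℝ) * ((m : ℝ) + 1) ^ (-(1 + a))
        else 3 * ((m : ℝ) + 1) ^ (-a) - ((m : ℝ) + 1) ^ (2 - a) * 2 / (N : ℝ) ^ 2 := by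
    intro N
    induction N with
    | zero => simp
    | succ N ih =>
      rw [sum_range_succ]
      by_cases h1 : N + 1 ≤ m + 1
      · rw [if_pos h1]
        rw [if_pos (by omega)] at ih
        have : wM a m N = ((m : ℝ) + 1) ^ (-(1 + a)) := by
          unfold wM; rw [if_pos (by omega)]
        rw [this]; push_cast; linarith
      · rw [if_neg h1]
        have hN1 : m + 1 ≤ N := by omega
        have hN : (0 : ℝ) < (N : ℝ) := by
          have : 0 < N := by omega
          exact_mod_cast this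
        have hw : wM a m N ≤ ((m : ℝ) + 1) ^ (2 - a) / ((N : ℝ) + 1) ^ 3 := by
          unfold wM
          rw [if_neg (by omega)]
          have h2 : ((N : ℝ) + 1) ^ (-(3 + a)) ≤ ((m : ℝ) + 1) ^ (-a) / ((N : ℝ) + 1) ^ 3 := by
            have e : ((N : ℝ) + 1) ^ (-(3 + a)) = ((N : ℝ) + 1) ^ (-a) / ((N : ℝ) + 1) ^ 3 := by
              rw [show -(3 + a) = -a - (3 : ℕ) by push_cast; ring,
                Real.rpow_sub (by positivity), Real.rpow_natCast]
            rw [e]
            apply div_le_div_of_nonneg_right _ (by positivity)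
            apply Real.rpow_le_rpow_of_nonpos hm _ (by linarith)
            have : (m : ℝ) ≤ N := by exact_mod_cast (by omega : m ≤ N)
            linarith
          have h3 : ((m : ℝ) + 1) ^ (2 - a) = ((m : ℝ) + 1) ^ 2 * ((m : ℝ) + 1) ^ (-a) := by
            rw [← Real.rpow_natCast ((m : ℝ) + 1) 2, ← Real.rpow_add hm]
            congr 1
          rw [h3, mul_div_assoc]
          exact mul_le_mul_of_nonneg_left h2 (by positivity)
        have hq : 0 < ((m : ℝ) + 1) ^ (2 - a) := Real.rpow_pos_of_pos hm _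
        have hstep : 1 / ((N : ℝ) + 1) ^ 3 ≤ 2 / (N : ℝ) ^ 2 - 2 / ((N : ℝ) + 1) ^ 2 := by
          rw [div_sub_div _ _ (by positivity) (by positivity), div_le_div_iff₀ (by positivity)
            (by positivity)]
          nlinarith [pow_pos hN 2, pow_pos hN 3, pow_pos hN 4]
        by_cases h2 : N ≤ m + 1
        · have hNm : N = m + 1 := by omega
          rw [if_pos h2] at ih
          have hNm' : (N : ℝ) = (m : ℝ) + 1 := by rw [hNm]; push_cast; ring
          have e1 : (N : ℝ) * ((m : ℝ) + 1) ^ (-(1 + a)) = ((m : ℝ) + 1) ^ (-a) := by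
            rw [hNm', show -(1 + a) = -a - 1 by ring, Real.rpow_sub_one hm.ne']
            field_simp
          have e2 : ((m : ℝ) + 1) ^ (2 - a) * 2 / (N : ℝ) ^ 2 = 2 * ((m : ℝ) + 1) ^ (-a) := by
            have h3 : ((m : ℝ) + 1) ^ (2 - a) = ((m : ℝ) + 1) ^ 2 * ((m : ℝ) + 1) ^ (-a) := by
              rw [← Real.rpow_natCast ((m : ℝ) + 1) 2, ← Real.rpow_add hm]
              congr 1
            rw [h3, hNm']; field_simp
          have h4 : ((m : ℝ) + 1) ^ (2 - a) / ((N : ℝ) + 1) ^ 3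
              ≤ ((m : ℝ) + 1) ^ (2 - a) * 2 / (N : ℝ) ^ 2
                - ((m : ℝ) + 1) ^ (2 - a) * 2 / ((N : ℝ) + 1) ^ 2 := by
            have := mul_le_mul_of_nonneg_left hstep hq.le
            calc _ = ((m : ℝ) + 1) ^ (2 - a) * (1 / ((N : ℝ) + 1) ^ 3) := by ring
              _ ≤ _ := this
              _ = _ := by ring
          push_cast
          linarith
        · rw [if_neg h2] at ih
          have h4 : ((m : ℝ) + 1) ^ (2 - a) / ((N : ℝ) + 1) ^ 3
              ≤ ((m : ℝ) + 1) ^ (2 - a) * 2 / (N : ℝ) ^ 2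
                - ((m : ℝ) + 1) ^ (2 - a) * 2 / ((N : ℝ) + 1) ^ 2 := by
            have := mul_le_mul_of_nonneg_left hstep hq.le
            calc _ = ((m : ℝ) + 1) ^ (2 - a) * (1 / ((N : ℝ) + 1) ^ 3) := by ring
              _ ≤ _ := this
              _ = _ := by ring
          push_cast
          linarith
  refine (key N).trans ?_
  split_ifs with h
  · have h1 : (N : ℝ) ≤ (m : ℝ) + 1 := by exact_mod_cast h
    have e1 : ((m : ℝ) + 1) * ((m : ℝ) + 1) ^ (-(1 + a)) = ((m : ℝ) + 1) ^ (-a) := by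
      rw [show -(1 + a) = -a - 1 by ring, Real.rpow_sub_one hm.ne']
      field_simp
    have h2 : 0 ≤ ((m : ℝ) + 1) ^ (-a) := by positivity
    have h3 : (N : ℝ) * ((m : ℝ) + 1) ^ (-(1 + a))
        ≤ ((m : ℝ) + 1) * ((m : ℝ) + 1) ^ (-(1 + a)) :=
      mul_le_mul_of_nonneg_right h1 (by positivity)
    linarith
  · have : 0 ≤ ((m : ℝ) + 1) ^ (2 - a) * 2 / (N : ℝ) ^ 2 := by positivity
    linarith

theorem weight_le {a : ℝ} (ha : 0 < a) (ha1 : a ≤ 1) (m n : ℕ) :
    ((n : ℝ) + 1) ^ (-(1 + a))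
        * min (((n : ℝ) + 1) / (m + 1)) (((m : ℝ) + 1) / (n + 1)) ^ 2 ≤ wM a m n := by
  have hm : (0 : ℝ) < (m : ℝ) + 1 := by positivity
  have hn : (0 : ℝ) < (n : ℝ) + 1 := by positivity
  unfold wM
  split_ifs with h
  · have hnm : (n : ℝ) + 1 ≤ (m : ℝ) + 1 := by
      have : (n : ℝ) ≤ m := by exact_mod_cast h
      linarith
    calc _ ≤ ((n : ℝ) + 1) ^ (-(1 + a)) * (((n : ℝ) + 1) / (m + 1)) ^ 2 := by
          apply mul_le_mul_of_nonneg_left _ (by positivity)
          exact pow_le_pow_left₀ (by positivity) (min_le_left _ _) 2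
      _ = ((n : ℝ) + 1) ^ (1 - a) / ((m : ℝ) + 1) ^ 2 := by
          rw [div_pow, ← Real.rpow_natCast ((n : ℝ) + 1) 2, ← mul_div_assoc,
            ← Real.rpow_add hn]
          congr 2; push_cast; ring
      _ ≤ ((m : ℝ) + 1) ^ (1 - a) / ((m : ℝ) + 1) ^ 2 := by
          apply div_le_div_of_nonneg_right _ (by positivity)
          exact Real.rpow_le_rpow hn.le hnm (by linarith)
      _ = ((m : ℝ) + 1) ^ (-(1 + a)) := by
          rw [← Real.rpow_natCast ((m : ℝ) + 1) 2, ← Real.rpow_sub hm]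
          congr 1; push_cast; ring
  · calc _ ≤ ((n : ℝ) + 1) ^ (-(1 + a)) * (((m : ℝ) + 1) / (n + 1)) ^ 2 := by
          apply mul_le_mul_of_nonneg_left _ (by positivity)
          exact pow_le_pow_left₀ (by positivity) (min_le_right _ _) 2
      _ = ((m : ℝ) + 1) ^ 2 * ((n : ℝ) + 1) ^ (-(3 + a)) := by
          rw [div_pow, ← Real.rpow_natCast ((n : ℝ) + 1) 2, mul_div_assoc', mul_comm,
            mul_div_assoc, ← Real.rpow_sub hn]
          congr 2; push_cast; ring

/-- the double sum -/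
theorem double_sum {a : ℝ} (ha : 0 < a) (ha1 : a ≤ 1) (N : ℕ) :
    ∑ m ∈ range N, ∑ n ∈ range N,
      (vonMangoldt (m + 1) * ((m : ℝ) + 1) ^ (-(1 + a)))
        * (vonMangoldt (n + 1) * ((n : ℝ) + 1) ^ (-(1 + a)))
        * Real.exp (-(Real.log (m + 1) - Real.log (n + 1)) ^ 2 / 4)
      ≤ 6 * Real.exp 4 * cC ^ 2 / a := by
  have hrow : ∀ m : ℕ, ∑ n ∈ range N,
      (vonMangoldt (n + 1) * ((n : ℝ) + 1) ^ (-(1 + a)))
        * Real.exp (-(Real.log (m + 1) - Real.log (n + 1)) ^ 2 / 4)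
      ≤ 3 * Real.exp 4 * cC * ((m : ℝ) + 1) ^ (-a) := by
    intro m
    calc _ ≤ ∑ n ∈ range N, Real.exp 4 * (vonMangoldt (n + 1) * wM a m n) := by
          apply sum_le_sum
          intro n _
          have h1 := gauss_kernel_le m n
          have h2 := weight_le ha ha1 m n
          have h3 : 0 ≤ vonMangoldt (n + 1) := ArithmeticFunction.vonMangoldt_nonneg
          have h4 : 0 ≤ vonMangoldt (n + 1) * ((n : ℝ) + 1) ^ (-(1 + a)) := by positivity
          calc _ ≤ (vonMangoldt (n + 1) * ((n : ℝ) + 1) ^ (-(1 + a)))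
                * (Real.exp 4 * min (((n : ℝ) + 1) / (m + 1)) (((m : ℝ) + 1) / (n + 1)) ^ 2) :=
                mul_le_mul_of_nonneg_left h1 h4
            _ = Real.exp 4 * (vonMangoldt (n + 1) * (((n : ℝ) + 1) ^ (-(1 + a))
                * min (((n : ℝ) + 1) / (m + 1)) (((m : ℝ) + 1) / (n + 1)) ^ 2)) := by ring
            _ ≤ _ := mul_le_mul_of_nonneg_left (mul_le_mul_of_nonneg_left h2 h3)
                (Real.exp_pos 4).le
      _ = Real.exp 4 * ∑ n ∈ range N, vonMangoldt (n + 1) * wM a m n := by rw [mul_sum]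
      _ ≤ Real.exp 4 * (cC * (3 * ((m : ℝ) + 1) ^ (-a))) := by
          apply mul_le_mul_of_nonneg_left _ (Real.exp_pos 4).le
          refine (comp_sum (fun n => vonMangoldt (n + 1)) (wM a m) sum_vM_le (wM_anti ha m)
            (wM_nonneg a m) N).trans ?_
          exact mul_le_mul_of_nonneg_left (sum_wM ha m N) cC_pos.le
      _ = _ := by ring
  have hanti : Antitone (fun m : ℕ => ((m : ℝ) + 1) ^ (-(1 + 2 * a))) := by
    intro x y hxy
    apply Real.rpow_le_rpow_of_nonpos (by positivity) _ (by linarith)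
    have : (x : ℝ) ≤ y := by exact_mod_cast hxy
    linarith
  calc _ = ∑ m ∈ range N, (vonMangoldt (m + 1) * ((m : ℝ) + 1) ^ (-(1 + a)))
        * ∑ n ∈ range N, (vonMangoldt (n + 1) * ((n : ℝ) + 1) ^ (-(1 + a)))
        * Real.exp (-(Real.log (m + 1) - Real.log (n + 1)) ^ 2 / 4) := by
        apply sum_congr rfl; intro m _
        rw [mul_sum]; apply sum_congr rfl; intro n _; ring
    _ ≤ ∑ m ∈ range N, (vonMangoldt (m + 1) * ((m : ℝ) + 1) ^ (-(1 + a)))
        * (3 * Real.exp 4 * cC * ((m : ℝ) + 1) ^ (-a)) := by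
        apply sum_le_sum; intro m _
        exact mul_le_mul_of_nonneg_left (hrow m)
          (mul_nonneg ArithmeticFunction.vonMangoldt_nonneg (by positivity))
    _ = 3 * Real.exp 4 * cC
        * ∑ m ∈ range N, vonMangoldt (m + 1) * ((m : ℝ) + 1) ^ (-(1 + 2 * a)) := by
        rw [mul_sum]; apply sum_congr rfl; intro m _
        have : ((m : ℝ) + 1) ^ (-(1 + 2 * a))
            = ((m : ℝ) + 1) ^ (-(1 + a)) * ((m : ℝ) + 1) ^ (-a) := by
          rw [← Real.rpow_add (by positivity)]; congr 1; ring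
        rw [this]; ring
    _ ≤ 3 * Real.exp 4 * cC * (cC * (1 + 1 / (2 * a))) := by
        apply mul_le_mul_of_nonneg_left _ (by have := cC_pos; positivity)
        refine (comp_sum (fun n => vonMangoldt (n + 1)) _ sum_vM_le hanti
          (fun n => by positivity) N).trans ?_
        exact mul_le_mul_of_nonneg_left (sum_rpow_le (by positivity) N) cC_pos.le
    _ ≤ 6 * Real.exp 4 * cC ^ 2 / a := by
        have h1 : 1 + 1 / (2 * a) ≤ 2 / a := by
          rw [le_div_iff₀ ha]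
          have : 1 / (2 * a) * a = 1 / 2 := by field_simp
          nlinarith
        have h2 : 0 ≤ 3 * Real.exp 4 * cC ^ 2 := by positivity
        calc _ = 3 * Real.exp 4 * cC ^ 2 * (1 + 1 / (2 * a)) := by ring
          _ ≤ 3 * Real.exp 4 * cC ^ 2 * (2 / a) := mul_le_mul_of_nonneg_left h1 h2
          _ = _ := by ring

theorem anti_w {a : ℝ} (ha : 0 < a) : Antitone (fun m : ℕ => ((m : ℝ) + 1) ^ (-(1 + a))) := by
  intro x y hxy
  apply Real.rpow_le_rpow_of_nonpos (by positivity) _ (by linarith)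
  have : (x : ℝ) ≤ y := by exact_mod_cast hxy
  linarith

/-- `Σ_{n ≤ N} Λ(n) n^{-1-a} ≤ C (1 + 1/a)` -/
theorem sum_vM_rpow {a : ℝ} (ha : 0 < a) (N : ℕ) :
    ∑ n ∈ range N, vonMangoldt (n + 1) * ((n : ℝ) + 1) ^ (-(1 + a)) ≤ cC * (1 + 1 / a) := by
  refine (comp_sum (fun n => vonMangoldt (n + 1)) _ sum_vM_le (anti_w ha)
    (fun n => by positivity) N).trans ?_
  exact mul_le_mul_of_nonneg_left (sum_rpow_le ha N) cC_pos.le

/-- the constant -/
noncomputable def cH : ℝ := Real.exp 1 * (√Real.pi * (6 * Real.exp 4 * cC ^ 2))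

theorem cH_pos : 0 < cH := by
  unfold cH; have := cC_pos; have := Real.pi_pos; positivity

theorem fin_sq {a : ℝ} (ha : 0 < a) (ha1 : a ≤ 1) (c : ℕ → ℂ)
    (hc : ∀ n, ‖c n‖ ≤ vonMangoldt (n + 1) * ((n : ℝ) + 1) ^ (-(1 + a))) (N : ℕ) :
    ∫ t in (-1 : ℝ)..1, ‖tp (range N) (fun n => -Real.log (n + 1)) c t‖ ^ 2 ≤ cH / a := by
  set w : ℕ → ℝ := fun n => -Real.log (n + 1) with hw
  have h1 := mean_le_gauss one_pos (range N) w c
  have h2 := gauss_mean one_pos (range N) w c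
  have h3 : ∫ t : ℝ, ‖tp (range N) w c t‖ ^ 2 * Real.exp (-(1 / 1 ^ 2) * t ^ 2)
      ≤ √Real.pi * (6 * Real.exp 4 * cC ^ 2 / a) := by
    have h4 : ∫ t : ℝ, ‖tp (range N) w c t‖ ^ 2 * Real.exp (-(1 / 1 ^ 2) * t ^ 2)
        = ‖((∫ t : ℝ, ‖tp (range N) w c t‖ ^ 2 * Real.exp (-(1 / 1 ^ 2) * t ^ 2) : ℝ) : ℂ)‖ := by
      rw [Complex.norm_real, Real.norm_of_nonneg]
      exact integral_nonneg (fun t => by positivity)
    rw [h4, h2]
    calc _ ≤ ∑ n ∈ range N, ∑ m ∈ range N, √Real.pi *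
          ((vonMangoldt (n + 1) * ((n : ℝ) + 1) ^ (-(1 + a)))
          * (vonMangoldt (m + 1) * ((m : ℝ) + 1) ^ (-(1 + a)))
          * Real.exp (-(Real.log (n + 1) - Real.log (m + 1)) ^ 2 / 4)) := by
          refine (norm_sum_le _ _).trans (sum_le_sum fun n _ => ?_)
          refine (norm_sum_le _ _).trans (sum_le_sum fun m _ => ?_)
          rw [norm_mul, norm_mul, RCLike.norm_conj, Complex.norm_real,
            Real.norm_of_nonneg (by positivity)]
          have e : (1 : ℝ) * (w n - w m) = -(Real.log (n + 1) - Real.log (m + 1)) := by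
            rw [hw]; ring
          rw [e, neg_sq, mul_one]
          have h5 := mul_le_mul (hc n) (hc m) (norm_nonneg _)
            (mul_nonneg ArithmeticFunction.vonMangoldt_nonneg (by positivity))
          calc _ = √Real.pi * ((‖c n‖ * ‖c m‖)
                * Real.exp (-(Real.log (n + 1) - Real.log (m + 1)) ^ 2 / 4)) := by ring
            _ ≤ _ := by
                apply mul_le_mul_of_nonneg_left _ (Real.sqrt_nonneg _)
                exact mul_le_mul_of_nonneg_right h5 (Real.exp_pos _).le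
      _ = √Real.pi * ∑ n ∈ range N, ∑ m ∈ range N,
          ((vonMangoldt (n + 1) * ((n : ℝ) + 1) ^ (-(1 + a)))
          * (vonMangoldt (m + 1) * ((m : ℝ) + 1) ^ (-(1 + a)))
          * Real.exp (-(Real.log (n + 1) - Real.log (m + 1)) ^ 2 / 4)) := by
          rw [mul_sum]; apply sum_congr rfl; intro n _; rw [mul_sum]
      _ ≤ _ := mul_le_mul_of_nonneg_left (double_sum ha ha1 N) (Real.sqrt_nonneg _)
  refine h1.trans ((mul_le_mul_of_nonneg_left h3 (Real.exp_pos 1).le).trans (le_of_eq ?_))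
  unfold cH; ring

theorem nt_norm (n : ℕ) (t : ℝ) : ‖nt n t‖ = 1 := by
  unfold nt
  rw [← Complex.ofReal_neg, Complex.norm_exp_ofReal_mul_I]

theorem nt_add (n : ℕ) (s t : ℝ) : nt n (s + t) = nt n s * nt n t := by
  unfold nt
  rw [← Complex.exp_add]
  congr 1
  push_cast
  ring

theorem nt_continuous (n : ℕ) : Continuous (nt n) := by
  unfold nt; fun_prop

theorem fin_shift {a : ℝ} (ha : 0 < a) (ha1 : a ≤ 1) (c : ℕ → ℂ)
    (hc : ∀ n, ‖c n‖ ≤ vonMangoldt (n + 1) * ((n : ℝ) + 1) ^ (-(1 + a))) (N : ℕ) (k : ℝ) :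
    ∫ τ in k..(k + 1), ‖∑ n ∈ range N, c n * nt (n + 1) τ‖ ^ 2 ≤ cH / a := by
  have e1 : ∫ τ in k..(k + 1), ‖∑ n ∈ range N, c n * nt (n + 1) τ‖ ^ 2
      = ∫ t in (0 : ℝ)..1, ‖∑ n ∈ range N, c n * nt (n + 1) (k + t)‖ ^ 2 := by
    have := intervalIntegral.integral_comp_add_left
      (fun τ => ‖∑ n ∈ range N, c n * nt (n + 1) τ‖ ^ 2) k (a := 0) (b := 1)
    rw [this, add_zero]
  have e2 : ∀ t : ℝ, ∑ n ∈ range N, c n * nt (n + 1) (k + t)
      = tp (range N) (fun n => -Real.log (n + 1)) (fun n => c n * nt (n + 1) k) t := by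
    intro t
    unfold tp
    apply sum_congr rfl
    intro n _
    rw [nt_add, mul_assoc, mul_assoc]
    congr 2
    unfold nt
    congr 1
    push_cast
    ring
  rw [e1]
  simp_rw [e2]
  have hcont : Continuous fun t : ℝ =>
      ‖tp (range N) (fun n => -Real.log (n + 1)) (fun n => c n * nt (n + 1) k) t‖ ^ 2 :=
    ((tp_continuous _ _ _).norm).pow 2
  refine le_trans ?_ (fin_sq ha ha1 (fun n => c n * nt (n + 1) k) (fun n => by
    rw [norm_mul, nt_norm, mul_one]; exact hc n) N)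
  apply intervalIntegral.integral_mono_interval (by norm_num) (by norm_num) (by norm_num)
  · exact Filter.Eventually.of_forall fun t => by positivity
  · exact hcont.intervalIntegrable _ _

section series

variable {a : ℝ} {b : ℕ → ℂ}

theorem summable_term (ha : 0 < a) (hb : ∀ n, ‖b n‖ ≤ vonMangoldt n) :
    Summable fun n : ℕ => ‖b n‖ * (n : ℝ) ^ (-(1 + a)) := by
  rw [← summable_nat_add_iff 1]
  apply summable_of_sum_range_le (c := cC * (1 + 1 / a))
  · intro n; positivity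
  · intro N
    refine le_trans (sum_le_sum fun n _ => ?_) (sum_vM_rpow ha N)
    push_cast
    exact mul_le_mul_of_nonneg_right (hb (n + 1)) (by positivity)

theorem summable_series (ha : 0 < a) (hb : ∀ n, ‖b n‖ ≤ vonMangoldt n) (τ : ℝ) :
    Summable fun n : ℕ => b n * (((n : ℝ) ^ (-(1 + a)) : ℝ) : ℂ) * nt n τ := by
  apply Summable.of_norm
  refine (summable_term ha hb).congr fun n => ?_
  rw [norm_mul, norm_mul, nt_norm, mul_one, Complex.norm_real,
    Real.norm_of_nonneg (by positivity)]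

theorem series_continuous (ha : 0 < a) (hb : ∀ n, ‖b n‖ ≤ vonMangoldt n) :
    Continuous fun τ : ℝ => ∑' n : ℕ, b n * (((n : ℝ) ^ (-(1 + a)) : ℝ) : ℂ) * nt n τ := by
  apply continuous_tsum (u := fun n : ℕ => ‖b n‖ * (n : ℝ) ^ (-(1 + a)))
  · intro n; exact continuous_const.mul (nt_continuous n)
  · exact summable_term ha hb
  · intro n τ
    rw [norm_mul, norm_mul, nt_norm, mul_one, Complex.norm_real,
      Real.norm_of_nonneg (by positivity)]

/-- **Row H2**: mean square over unit intervals, any coefficients bounded by `Λ`. -/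
theorem h2_gen (ha : 0 < a) (ha1 : a ≤ 1) (hb : ∀ n, ‖b n‖ ≤ vonMangoldt n) (k : ℝ) :
    ∫ τ in k..(k + 1), ‖∑' n : ℕ, b n * (((n : ℝ) ^ (-(1 + a)) : ℝ) : ℂ) * nt n τ‖ ^ 2
      ≤ cH / a := by
  set c : ℕ → ℂ := fun n => b (n + 1) * ((((n : ℝ) + 1) ^ (-(1 + a)) : ℝ) : ℂ) with hcdef
  have hc : ∀ n, ‖c n‖ ≤ vonMangoldt (n + 1) * ((n : ℝ) + 1) ^ (-(1 + a)) := by
    intro n
    rw [hcdef]
    simp only [norm_mul, Complex.norm_real]
    rw [Real.norm_of_nonneg (by positivity)]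
    exact mul_le_mul_of_nonneg_right (hb (n + 1)) (by positivity)
  have hb0 : b 0 = 0 := by
    have := hb 0
    rw [ArithmeticFunction.map_zero] at this
    exact norm_le_zero_iff.mp this
  have hsum : ∀ τ : ℝ, HasSum (fun n : ℕ => c n * nt (n + 1) τ)
      (∑' n : ℕ, b n * (((n : ℝ) ^ (-(1 + a)) : ℝ) : ℂ) * nt n τ) := by
    intro τ
    have h1 := (summable_series ha hb τ).hasSum
    have h2 := (hasSum_nat_add_iff' (f := fun n : ℕ =>
      b n * (((n : ℝ) ^ (-(1 + a)) : ℝ) : ℂ) * nt n τ) 1).mpr h1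
    rw [sum_range_one, hb0, zero_mul, zero_mul, sub_zero] at h2
    have e : (fun n : ℕ => c n * nt (n + 1) τ)
        = fun n : ℕ => b (n + 1) * ((((n + 1 : ℕ) : ℝ) ^ (-(1 + a)) : ℝ) : ℂ) * nt (n + 1) τ := by
      funext n
      rw [hcdef]
      push_cast
      rfl
    rw [e]
    exact h2
  have hlim : Tendsto (fun N : ℕ => ∫ τ in k..(k + 1), ‖∑ n ∈ range N, c n * nt (n + 1) τ‖ ^ 2)
      atTop (𝓝 (∫ τ in k..(k + 1),
        ‖∑' n : ℕ, b n * (((n : ℝ) ^ (-(1 + a)) : ℝ) : ℂ) * nt n τ‖ ^ 2)) := by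
    apply intervalIntegral.tendsto_integral_filter_of_dominated_convergence
      (fun _ => (cC * (1 + 1 / a)) ^ 2)
    · refine Filter.Eventually.of_forall fun N => ?_
      apply Continuous.aestronglyMeasurable
      have : Continuous fun τ : ℝ => ∑ n ∈ range N, c n * nt (n + 1) τ :=
        continuous_finset_sum _ fun n _ => continuous_const.mul (nt_continuous _)
      exact this.norm.pow 2
    · refine Filter.Eventually.of_forall fun N => Filter.Eventually.of_forall fun τ _ => ?_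
      rw [Real.norm_of_nonneg (by positivity)]
      apply pow_le_pow_left₀ (norm_nonneg _)
      refine (norm_sum_le _ _).trans ((sum_le_sum fun n _ => ?_).trans (sum_vM_rpow ha N))
      rw [norm_mul, nt_norm, mul_one]
      exact hc n
    · exact intervalIntegrable_const
    · refine Filter.Eventually.of_forall fun τ _ => ?_
      exact ((hsum τ).tendsto_sum_nat.norm).pow 2
  exact le_of_tendsto' hlim fun N => fin_shift ha ha1 c hc N k

end series

/-- **Row H2** as a statement. -/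
theorem h2 : ∃ C : ℝ, 0 < C ∧ ∀ b : ℕ → ℂ, (∀ n, ‖b n‖ ≤ vonMangoldt n) → ∀ a k : ℝ,
    0 < a → a ≤ 1 →
    ∫ τ in k..(k + 1), ‖∑' n : ℕ, b n * (((n : ℝ) ^ (-(1 + a)) : ℝ) : ℂ) * nt n τ‖ ^ 2
      ≤ C / a :=
  ⟨cH, cH_pos, fun _ hb _ k ha ha1 => h2_gen ha ha1 hb k⟩

end Pool.Agent.MRL
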