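import Pool.Agent.Lib.MRL.HalB

set_option autoImplicit false

open Filter Topology MeasureTheory
open scoped ArithmeticFunction

namespace Pool.Agent.MRHal

variable {f : ℕ → ℂ}

theorem Sn_measurable (a : ℕ → ℂ) : Measurable (fun u => ‖ps a u‖) := (ps_measurable a).norm

/-- A bounded measurable function is integrable on a bounded interval. -/
theorem intOn_of_bdd {φ : ℝ → ℝ} (hφ : Measurable φ) {a b C : ℝ} (hb : ∀ u ∈ Set.Ioc a b, ‖φ u‖ ≤ C) :
    IntegrableOn φ (Set.Ioc a b) := by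
  refine Measure.integrableOn_of_bounded (M := C) (by simp) hφ.aestronglyMeasurable ?_
  rw [ae_restrict_iff' measurableSet_Ioc]
  exact ae_of_all _ hb

theorem Sn_div_le (hf : ∀ n, ‖f n‖ ≤ 1) {u : ℝ} (hu : 0 < u) : ‖ps f u‖ / u ^ 2 ≤ 1 := by
  rcases lt_or_ge u 1 with h | h
  · rw [ps_zero f h]
    simp
  · rw [div_le_one (by positivity)]
    have := ps_norm_le hf hu.le
    nlinarith

theorem J_int (hf : ∀ n, ‖f n‖ ≤ 1) (Y : ℝ) :
    IntegrableOn (fun u => ‖ps f u‖ / u ^ 2) (Set.Ioc 0 Y) := by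
  refine intOn_of_bdd ((Sn_measurable f).div (by fun_prop)) (C := 1) fun u hu => ?_
  simp only [Pi.div_apply]
  rw [Real.norm_of_nonneg (by positivity)]
  exact Sn_div_le hf hu.1

theorem part_le {X η u : ℝ} (hX : 1 ≤ X) (hη1 : η ≤ 1) (hu : 0 < u) :
    ∑ d ∈ Finset.Icc 1 ⌊2 * X⌋₊, ArithmeticFunction.vonMangoldt d * ((d : ℝ) *
      (Set.Ioc (X / d) ((1 + η) * X / d)).indicator (fun u => ‖ps f u‖) u) ≤
      4 * CC * X ^ 2 * (‖ps f u‖ / u ^ 2) := by
  have h2 : ∀ d ∈ Finset.Icc 1 ⌊2 * X⌋₊, ArithmeticFunction.vonMangoldt d * ((d : ℝ) *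
      (Set.Ioc (X / d) ((1 + η) * X / d)).indicator (fun u => ‖ps f u‖) u) ≤
      if d ≤ ⌊2 * X / u⌋₊ then ArithmeticFunction.vonMangoldt d * (2 * X / u * ‖ps f u‖) else 0 := by
    intro d hd
    rw [Finset.mem_Icc] at hd
    have hd0 : (0 : ℝ) < d := by exact_mod_cast hd.1
    by_cases hmem : u ∈ Set.Ioc (X / d) ((1 + η) * X / d)
    · have h3 : (d : ℝ) ≤ 2 * X / u := by
        rw [le_div_iff₀ hu]
        have h4 := hmem.2
        rw [le_div_iff₀ hd0] at h4
        nlinarith
      rw [Set.indicator_of_mem hmem, if_pos (Nat.le_floor h3)]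
      have := @ArithmeticFunction.vonMangoldt_nonneg d
      gcongr
    · rw [Set.indicator_of_notMem hmem, mul_zero, mul_zero]
      split_ifs
      · have := @ArithmeticFunction.vonMangoldt_nonneg d
        positivity
      · exact le_rfl
  refine (Finset.sum_le_sum h2).trans ?_
  rw [← Finset.sum_filter]
  have h5 : ∑ d ∈ (Finset.Icc 1 ⌊2 * X⌋₊).filter (fun d => d ≤ ⌊2 * X / u⌋₊),
      ArithmeticFunction.vonMangoldt d * (2 * X / u * ‖ps f u‖) ≤
      ∑ d ∈ Finset.Icc 1 ⌊2 * X / u⌋₊, ArithmeticFunction.vonMangoldt d * (2 * X / u * ‖ps f u‖) := by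
    refine Finset.sum_le_sum_of_subset_of_nonneg ?_ ?_
    · intro d hd
      rw [Finset.mem_filter, Finset.mem_Icc] at hd
      rw [Finset.mem_Icc]
      omega
    · intro d _ _
      have := @ArithmeticFunction.vonMangoldt_nonneg d
      positivity
  refine h5.trans ?_
  rw [← Finset.sum_mul]
  have h6 : ∑ d ∈ Finset.Icc 1 ⌊2 * X / u⌋₊, ArithmeticFunction.vonMangoldt d ≤ CC * (2 * X / u) :=
    psi_le (by positivity)
  calc _ ≤ (CC * (2 * X / u)) * (2 * X / u * ‖ps f u‖) := by gcongr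
    _ = _ := by
      field_simp
      ring

theorem avg (hf : CM f) {X η : ℝ} (hX : 1 ≤ X) (hη : 0 < η) (hη1 : η ≤ 1) :
    ‖ps f X‖ * Real.log X ≤ 4 * CC / η * X * (∫ u in Set.Ioc 0 (2 * X), ‖ps f u‖ / u ^ 2) +
      (2 * X + (η * X + 1) * Real.log X) := by
  set R : ℝ := 2 * X + (η * X + 1) * Real.log X with hR
  have hX0 : 0 < X := by linarith
  have hlX : 0 ≤ Real.log X := Real.log_nonneg hX
  have hpt : ∀ x ∈ Set.Icc X ((1 + η) * X), ‖ps f X‖ * Real.log X - R ≤
      ∑ d ∈ Finset.Icc 1 ⌊2 * X⌋₊, ArithmeticFunction.vonMangoldt d * ‖ps f (x / d)‖ := by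
    intro x hx
    have hx1 : 1 ≤ x := hX.trans hx.1
    have hx2 : x ≤ 2 * X := hx.2.trans (by nlinarith)
    have h1 : ‖ps f X‖ ≤ ‖ps f x‖ + (η * X + 1) := by
      have h2 := ps_sub hf.le hX0.le hx.1
      have h3 : ‖ps f X‖ ≤ ‖ps f x‖ + ‖ps f x - ps f X‖ := by
        have := norm_sub_norm_le (ps f X) (ps f x)
        rw [norm_sub_rev] at this
        linarith
      have h4 := hx.2
      linarith
    have h2 : ‖ps f X‖ * Real.log X ≤ ‖ps f x‖ * Real.log x + (η * X + 1) * Real.log X := by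
      have h5 : ‖ps f x‖ * Real.log X ≤ ‖ps f x‖ * Real.log x := by
        have := Real.log_le_log hX0 hx.1
        gcongr
      nlinarith
    have h3 := S_log hf.le hx1
    have h4 := N_le hf x
    have h5 : ∑ d ∈ Finset.Icc 1 ⌊x⌋₊, ArithmeticFunction.vonMangoldt d * ‖ps f (x / d)‖ ≤
        ∑ d ∈ Finset.Icc 1 ⌊2 * X⌋₊, ArithmeticFunction.vonMangoldt d * ‖ps f (x / d)‖ := by
      refine Finset.sum_le_sum_of_subset_of_nonneg
        (Finset.Icc_subset_Icc_right (Nat.floor_mono hx2)) fun d _ _ => ?_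
      have := @ArithmeticFunction.vonMangoldt_nonneg d
      positivity
    linarith
  have hint : ∀ d ∈ Finset.Icc 1 ⌊2 * X⌋₊,
      IntervalIntegrable (fun x => ArithmeticFunction.vonMangoldt d * ‖ps f (x / d)‖) volume
        X ((1 + η) * X) := by
    intro d hd
    rw [Finset.mem_Icc] at hd
    have hd0 : (1 : ℝ) ≤ d := by exact_mod_cast hd.1
    refine IntervalIntegrable.const_mul ?_ _
    rw [intervalIntegrable_iff_integrableOn_Ioc_of_le (by nlinarith)]
    refine intOn_of_bdd ((Sn_measurable f).comp (by fun_prop)) (C := 2 * X) fun u hu => ?_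
    have hu0 : 0 < u := hX0.trans hu.1
    have h1 : ‖ps f (u / d)‖ ≤ u / d := ps_norm_le hf.le (by positivity)
    have h2 : u / d ≤ u := div_le_self hu0.le hd0
    have h3 : u ≤ 2 * X := hu.2.trans (by nlinarith)
    simp only [Function.comp_apply, norm_norm]
    linarith
  have hI1 : (η * X) * (‖ps f X‖ * Real.log X - R) ≤
      ∑ d ∈ Finset.Icc 1 ⌊2 * X⌋₊, ∫ x in X..((1 + η) * X),
        ArithmeticFunction.vonMangoldt d * ‖ps f (x / d)‖ := by
    rw [← intervalIntegral.integral_finsetSum hint]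
    have h1 : (η * X) * (‖ps f X‖ * Real.log X - R) =
        ∫ _x in X..((1 + η) * X), (‖ps f X‖ * Real.log X - R) := by
      rw [intervalIntegral.integral_const, smul_eq_mul]
      ring
    rw [h1]
    refine intervalIntegral.integral_mono_on (by nlinarith) intervalIntegrable_const ?_ hpt
    have := IntervalIntegrable.sum _ hint
    refine this.congr fun x _ => ?_
    simp only [Finset.sum_apply]
  have hI2 : ∀ d ∈ Finset.Icc 1 ⌊2 * X⌋₊, (∫ x in X..((1 + η) * X),
        ArithmeticFunction.vonMangoldt d * ‖ps f (x / d)‖) =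
      ∫ u in Set.Ioc 0 (2 * X), ArithmeticFunction.vonMangoldt d * ((d : ℝ) *
        (Set.Ioc (X / d) ((1 + η) * X / d)).indicator (fun u => ‖ps f u‖) u) := by
    intro d hd
    rw [Finset.mem_Icc] at hd
    have hd0 : (1 : ℝ) ≤ d := by exact_mod_cast hd.1
    have hd1 : (0 : ℝ) < d := by linarith
    rw [intervalIntegral.integral_const_mul, integral_const_mul, integral_const_mul,
      intervalIntegral.integral_comp_div (fun u => ‖ps f u‖) hd1.ne', smul_eq_mul,
      intervalIntegral.integral_of_le (by gcongr; nlinarith), setIntegral_indicator measurableSet_Ioc]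
    congr 4
    ext u
    simp only [Set.mem_inter_iff, Set.mem_Ioc]
    constructor
    · rintro ⟨h1, h2⟩
      refine ⟨⟨?_, ?_⟩, h1, h2⟩
      · have : 0 < X / d := by positivity
        linarith
      · refine h2.trans ?_
        rw [div_le_iff₀ hd1]
        nlinarith
    · rintro ⟨_, h⟩
      exact h
  rw [Finset.sum_congr rfl hI2] at hI1
  have hint2 : ∀ d ∈ Finset.Icc 1 ⌊2 * X⌋₊, Integrable (fun u =>
      ArithmeticFunction.vonMangoldt d * ((d : ℝ) *
        (Set.Ioc (X / d) ((1 + η) * X / d)).indicator (fun u => ‖ps f u‖) u))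
      (volume.restrict (Set.Ioc 0 (2 * X))) := by
    intro d _
    refine Integrable.const_mul (Integrable.const_mul ?_ _) _
    refine Integrable.indicator ?_ measurableSet_Ioc
    refine intOn_of_bdd (Sn_measurable f) (C := 2 * X) fun u hu => ?_
    rw [norm_norm]
    exact (ps_norm_le hf.le hu.1.le).trans hu.2
  rw [← integral_finsetSum _ hint2] at hI1
  have hI3 : (∫ u in Set.Ioc 0 (2 * X), ∑ d ∈ Finset.Icc 1 ⌊2 * X⌋₊,
      ArithmeticFunction.vonMangoldt d * ((d : ℝ) *
        (Set.Ioc (X / d) ((1 + η) * X / d)).indicator (fun u => ‖ps f u‖) u)) ≤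
      ∫ u in Set.Ioc 0 (2 * X), 4 * CC * X ^ 2 * (‖ps f u‖ / u ^ 2) := by
    refine setIntegral_mono_on (integrable_finsetSum _ hint2) ((J_int hf.le _).const_mul _)
      measurableSet_Ioc fun u hu => ?_
    exact part_le hX hη1 hu.1
  rw [integral_const_mul] at hI3
  have h := hI1.trans hI3
  set J : ℝ := ∫ u in Set.Ioc 0 (2 * X), ‖ps f u‖ / u ^ 2 with hJ
  have h2 : ‖ps f X‖ * Real.log X - R ≤ 4 * CC / η * X * J := by
    have h3 : (η * X) * (‖ps f X‖ * Real.log X - R) ≤ (η * X) * (4 * CC / η * X * J) := by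
      refine h.trans (le_of_eq ?_)
      field_simp
    exact le_of_mul_le_mul_left h3 (by positivity)
  linarith

end Pool.Agent.MRHal
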