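import Pool.Agent.Lib.MRL.HalC

set_option autoImplicit false

open Filter Topology MeasureTheory Complex
open scoped ArithmeticFunction

namespace Pool.Agent.MRHal

variable {f : ℕ → ℂ}

theorem zsum_summable {β : ℝ} (hβ : 0 < β) : Summable fun n : ℕ => (n : ℝ) ^ (-1 - β) :=
  Real.summable_nat_rpow.2 (by linarith)

theorem zsum_le {β : ℝ} (hβ : 0 < β) : ∑' n : ℕ, (n : ℝ) ^ (-1 - β) ≤ 1 + 1 / β := by
  rw [(zsum_summable hβ).tsum_eq_zero_add]
  have h0 : ((0 : ℕ) : ℝ) ^ (-1 - β) = 0 := by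
    rw [Nat.cast_zero, Real.zero_rpow (by linarith)]
  rw [h0, zero_add]
  have h := ZetaAsymptotics.zeta_limit_aux1 (s := 1 + β) (by linarith)
  have h1 : ∀ n : ℕ, (((n + 1 : ℕ) : ℝ)) ^ (-1 - β) = 1 / ((n : ℝ) + 1) ^ (1 + β) := by
    intro n
    have : -1 - β = -(1 + β) := by ring
    rw [this, Real.rpow_neg (by positivity), one_div]
    push_cast
    rfl
  simp_rw [h1]
  have h2 : 0 ≤ ZetaAsymptotics.termTSum (1 + β) :=
    tsum_nonneg fun n => ZetaAsymptotics.term_nonneg _ _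
  have h3 : 1 / (1 + β - 1) = 1 / β := by
    congr 1
    ring
  rw [h3] at h
  nlinarith

theorem log_rpow_le {α : ℝ} (hα : 0 < α) (n : ℕ) :
    Real.log n * (n : ℝ) ^ (-(1 + α)) ≤ 2 / α * (n : ℝ) ^ (-1 - α / 2) := by
  rcases Nat.eq_zero_or_pos n with rfl | hn
  · rw [Nat.cast_zero, Real.log_zero, zero_mul]
    positivity
  have hn0 : (0 : ℝ) < n := by exact_mod_cast hn
  have h1 := Real.log_le_rpow_div hn0.le (by positivity : 0 < α / 2)
  have h2 : (n : ℝ) ^ (-1 - α / 2) = (n : ℝ) ^ (α / 2) * (n : ℝ) ^ (-(1 + α)) := by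
    rw [← Real.rpow_add hn0]
    congr 1
    ring
  rw [h2]
  calc Real.log n * (n : ℝ) ^ (-(1 + α)) ≤ (n : ℝ) ^ (α / 2) / (α / 2) * (n : ℝ) ^ (-(1 + α)) := by
        gcongr
    _ = _ := by
      field_simp

/-- Coefficients bounded by `log`. -/
theorem sum_of_log {a : ℕ → ℂ} {α : ℝ} (hα : 0 < α) (hα1 : α ≤ 1)
    (ha : ∀ n, ‖a n‖ ≤ Real.log n) :
    (Summable fun n => ‖a n‖ * (n : ℝ) ^ (-(1 + α))) ∧
      ∑' n, ‖a n‖ * (n : ℝ) ^ (-(1 + α)) ≤ 6 / α ^ 2 := by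
  have h1 : ∀ n : ℕ, ‖a n‖ * (n : ℝ) ^ (-(1 + α)) ≤ 2 / α * (n : ℝ) ^ (-1 - α / 2) := by
    intro n
    refine le_trans ?_ (log_rpow_le hα n)
    gcongr
    exact ha n
  have h2 := (zsum_summable (by positivity : 0 < α / 2)).mul_left (2 / α)
  have h3 : Summable fun n => ‖a n‖ * (n : ℝ) ^ (-(1 + α)) :=
    Summable.of_nonneg_of_le (fun n => by positivity) h1 h2
  refine ⟨h3, ?_⟩
  refine (h3.tsum_le_tsum h1 h2).trans ?_
  rw [tsum_mul_left]
  have h4 := zsum_le (by positivity : 0 < α / 2)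
  calc 2 / α * ∑' n : ℕ, (n : ℝ) ^ (-1 - α / 2) ≤ 2 / α * (1 + 1 / (α / 2)) := by gcongr
    _ = (2 * α + 4) / α ^ 2 := by
      field_simp
      ring
    _ ≤ 6 / α ^ 2 := by
      gcongr
      linarith

theorem norm_term {a : ℕ → ℂ} (ha0 : a 0 = 0) (c τ : ℝ) (n : ℕ) :
    ‖LSeries.term a (c + I * τ) n‖ = ‖a n‖ * (n : ℝ) ^ (-c) := by
  rw [term_eq ha0, norm_mul, norm_cexp_mul, mul_one, norm_bc]

theorem lss {a : ℕ → ℂ} (ha0 : a 0 = 0) {c : ℝ}
    (ha : Summable fun n => ‖a n‖ * (n : ℝ) ^ (-c)) (τ : ℝ) : LSeriesSummable a (c + I * τ) := by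
  refine Summable.of_norm ?_
  exact ha.congr fun n => (norm_term ha0 c τ n).symm

theorem ls_norm_le {a : ℕ → ℂ} (ha0 : a 0 = 0) {c : ℝ}
    (ha : Summable fun n => ‖a n‖ * (n : ℝ) ^ (-c)) (τ : ℝ) :
    ‖LSeries a (c + I * τ)‖ ≤ ∑' n, ‖a n‖ * (n : ℝ) ^ (-c) := by
  have h1 : (fun n => ‖a n‖ * (n : ℝ) ^ (-c)) = fun n => ‖LSeries.term a (c + I * τ) n‖ := by
    funext n
    rw [norm_term ha0]
  rw [h1] at ha ⊢
  exact norm_tsum_le_tsum_norm ha

theorem ls_continuous {a : ℕ → ℂ} (ha0 : a 0 = 0) {c : ℝ}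
    (ha : Summable fun n => ‖a n‖ * (n : ℝ) ^ (-c)) :
    Continuous fun τ : ℝ => LSeries a (c + I * τ) := by
  have h1 : (fun τ : ℝ => LSeries a (c + I * τ)) =
      fun τ : ℝ => ∑' n, bc a c n * cexp (I * τ * ((-Real.log n : ℝ) : ℂ)) := by
    funext τ
    rw [LSeries]
    exact tsum_congr fun n => term_eq ha0 c τ n
  rw [h1]
  refine continuous_tsum (u := fun n => ‖a n‖ * (n : ℝ) ^ (-c)) (fun n => by fun_prop) ha ?_
  intro n τ
  rw [norm_mul, norm_cexp_mul, mul_one, norm_bc]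

theorem ls_int {a : ℕ → ℂ} (ha0 : a 0 = 0) {c : ℝ} (hc : 0 < c)
    (ha : Summable fun n => ‖a n‖ * (n : ℝ) ^ (-c)) :
    Integrable fun τ : ℝ => ‖LSeries a (c + I * τ)‖ ^ 2 * (c ^ 2 + τ ^ 2)⁻¹ := by
  have hm := ls_continuous ha0 ha
  refine ((integrable_kern hc).const_mul ((∑' n, ‖a n‖ * (n : ℝ) ^ (-c)) ^ 2)).mono' ?_ ?_
  · refine Measurable.aestronglyMeasurable ?_
    exact (hm.norm.pow 2).measurable.mul (by fun_prop)
  · refine ae_of_all _ fun τ => ?_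
    rw [Real.norm_of_nonneg (by positivity)]
    have := ls_norm_le ha0 ha τ
    gcongr

theorem fl_log (hf : ∀ n, ‖f n‖ ≤ 1) (n : ℕ) : ‖fl f n‖ ≤ Real.log n := by
  unfold fl
  rw [norm_mul, Complex.norm_real, Real.norm_of_nonneg (Real.log_natCast_nonneg n)]
  exact mul_le_of_le_one_left (Real.log_natCast_nonneg n) (hf n)

theorem fL_log (hf : ∀ n, ‖f n‖ ≤ 1) (n : ℕ) : ‖fL f n‖ ≤ Real.log n :=
  (norm_fL hf n).trans ArithmeticFunction.vonMangoldt_le_log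

theorem fl_zero : fl f 0 = 0 := by simp [fl]

theorem fL_zero : fL f 0 = 0 := by simp [fL]

theorem f_summable (hf : ∀ n, ‖f n‖ ≤ 1) {c : ℝ} (hc : 1 < c) (τ : ℝ) :
    LSeriesSummable f (c + I * τ) :=
  LSeriesSummable_of_bounded_of_one_lt_re (m := 1) (fun n _ => hf n) (by simpa using hc)

theorem fl_factor (hf : CM f) {α : ℝ} (hα : 0 < α) (hα1 : α ≤ 1) (τ : ℝ) :
    LSeries (fl f) (((1 + α : ℝ) : ℂ) + I * τ) =
      LSeries (fL f) (((1 + α : ℝ) : ℂ) + I * τ) * LSeries f (((1 + α : ℝ) : ℂ) + I * τ) := by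
  rw [← LSeries_convolution' (lss fL_zero (sum_of_log hα hα1 (fL_log hf.le)).1 τ)
    (f_summable hf.le (by linarith) τ)]
  refine LSeries_congr (fun {n} hn => ?_) _
  rw [LSeries.convolution_def]
  exact fl_eq hf hn

theorem tail_le {c T : ℝ} (hc : 0 < c) (hT : 0 < T) :
    ∫ τ : ℝ, ({τ : ℝ | T < |τ|}.indicator (fun τ => (c ^ 2 + τ ^ 2)⁻¹)) τ ≤ 2 / T := by
  have hset : {τ : ℝ | T < |τ|} = Set.Ioi T ∪ Set.Iio (-T) := by
    ext τ
    simp only [Set.mem_ofPred_eq, Set.mem_union, Set.mem_Ioi, Set.mem_Iio, lt_abs]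
    constructor
    · rintro (h | h)
      · exact Or.inl h
      · exact Or.inr (by linarith)
    · rintro (h | h)
      · exact Or.inl h
      · exact Or.inr (by linarith)
  have hms : MeasurableSet {τ : ℝ | T < |τ|} := by
    rw [hset]
    exact measurableSet_Ioi.union measurableSet_Iio
  rw [integral_indicator hms, hset, setIntegral_union
    (by
      rw [Set.disjoint_left]
      intro x hx hx'
      simp only [Set.mem_Ioi, Set.mem_Iio] at hx hx'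
      linarith) measurableSet_Iio (integrable_kern hc).integrableOn
      (integrable_kern hc).integrableOn]
  have h1 : ∫ τ in Set.Ioi T, (c ^ 2 + τ ^ 2)⁻¹ ≤ 1 / T := by
    have h2 : ∫ τ in Set.Ioi T, τ ^ (-2 : ℝ) = 1 / T := by
      rw [integral_Ioi_rpow_of_lt (by norm_num) hT]
      have h3 : (-2 : ℝ) + 1 = -1 := by norm_num
      rw [h3, Real.rpow_neg_one]
      field_simp
    rw [← h2]
    refine setIntegral_mono_on (integrable_kern hc).integrableOn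
      (integrableOn_Ioi_rpow_of_lt (by norm_num) hT) measurableSet_Ioi fun τ hτ => ?_
    have hτ0 : 0 < τ := hT.trans hτ
    rw [Real.rpow_neg hτ0.le, Real.rpow_two]
    gcongr
    nlinarith
  have h4 : ∫ τ in Set.Iio (-T), (c ^ 2 + τ ^ 2)⁻¹ = ∫ τ in Set.Ioi T, (c ^ 2 + τ ^ 2)⁻¹ := by
    rw [← integral_Iic_eq_integral_Iio, ← integral_comp_neg_Ioi]
    simp
  rw [h4]
  have h5 : 2 / T = 1 / T + 1 / T := by ring
  linarith

/-- The second moment of the `Λ`-series. -/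
theorem L_second (hf : ∀ n, ‖f n‖ ≤ 1) {α : ℝ} (hα : 0 < α) (hα1 : α ≤ 1) :
    ∫ τ : ℝ, ‖LSeries (fL f) (((1 + α : ℝ) : ℂ) + I * τ)‖ ^ 2 * ((1 + α) ^ 2 + τ ^ 2)⁻¹ ≤
      2 * Real.pi * (CC ^ 2 / (2 * α)) := by
  rw [parseval (by linarith) fL_zero (sum_of_log hα hα1 (fL_log hf)).1]
  gcongr
  have h1 : ∫ u in Set.Ioi (1 : ℝ), CC ^ 2 * u ^ (-1 - 2 * α) = CC ^ 2 / (2 * α) := by
    rw [integral_const_mul, integral_Ioi_rpow_of_lt (by linarith) one_pos]
    have h2 : -1 - 2 * α + 1 = -(2 * α) := by ring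
    rw [h2, Real.one_rpow]
    field_simp
  rw [← h1]
  have h3 : Set.Ioi (0 : ℝ) = Set.Ioo 0 1 ∪ Set.Ici 1 := by
    ext u
    simp only [Set.mem_Ioi, Set.mem_union, Set.mem_Ioo, Set.mem_Ici]
    constructor
    · intro h
      rcases lt_or_ge u 1 with h' | h'
      · exact Or.inl ⟨h, h'⟩
      · exact Or.inr h'
    · rintro (h | h)
      · exact h.1
      · linarith
  have h4 : ∀ u ∈ Set.Ioi (0 : ℝ), ‖ps (fL f) u‖ ^ 2 * u ^ (-1 - 2 * (1 + α)) ≤
      (Set.Ici (1 : ℝ)).indicator (fun u => CC ^ 2 * u ^ (-1 - 2 * α)) u := by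
    intro u hu
    have hu0 : 0 < u := hu
    rcases lt_or_ge u 1 with h' | h'
    · rw [ps_zero _ h', Set.indicator_of_notMem (by simpa using h')]
      simp
    · rw [Set.indicator_of_mem (by simpa using h')]
      have h5 := psL_le hf hu0.le
      have h6 : u ^ (-1 - 2 * α) = u ^ 2 * u ^ (-1 - 2 * (1 + α)) := by
        rw [← Real.rpow_two, ← Real.rpow_add hu0]
        congr 1
        ring
      rw [h6]
      calc ‖ps (fL f) u‖ ^ 2 * u ^ (-1 - 2 * (1 + α)) ≤ (CC * u) ^ 2 * u ^ (-1 - 2 * (1 + α)) := by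
            gcongr
        _ = _ := by ring
  have hint : IntegrableOn (fun u : ℝ => CC ^ 2 * u ^ (-1 - 2 * α)) (Set.Ici 1) :=
    (integrableOn_Ici_iff_integrableOn_Ioi (by simp)).2
      ((integrableOn_Ioi_rpow_of_lt (by linarith) one_pos).const_mul _)
  calc ∫ u in Set.Ioi (0 : ℝ), ‖ps (fL f) u‖ ^ 2 * u ^ (-1 - 2 * (1 + α))
      ≤ ∫ u in Set.Ioi (0 : ℝ), (Set.Ici (1 : ℝ)).indicator (fun u => CC ^ 2 * u ^ (-1 - 2 * α)) u := by
        refine integral_mono_of_nonneg ?_ ?_ ?_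
        · rw [EventuallyLE, ae_restrict_iff' measurableSet_Ioi]
          refine ae_of_all _ fun u hu => ?_
          have : (0 : ℝ) < u := hu
          simp only [Pi.zero_apply]
          positivity
        · exact ((integrable_indicator_iff measurableSet_Ici).2 hint).integrableOn
        · rw [EventuallyLE, ae_restrict_iff' measurableSet_Ioi]
          exact ae_of_all _ h4
    _ = ∫ u in Set.Ioi (1 : ℝ), CC ^ 2 * u ^ (-1 - 2 * α) := by
        rw [setIntegral_indicator measurableSet_Ici, ← integral_Ici_eq_integral_Ioi]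
        congr 2
        ext u
        simp only [Set.mem_inter_iff, Set.mem_Ioi, Set.mem_Ici, and_iff_right_iff_imp]
        intro h
        linarith

/-- The `L²` bound for `N`. -/
theorem N_second (hf : CM f) {α M T : ℝ} (hα : 0 < α) (hα1 : α ≤ 1) (hT : 0 < T)
    (hM : ∀ τ : ℝ, |τ| ≤ T → ‖LSeries f (((1 + α : ℝ) : ℂ) + I * τ)‖ ≤ M) :
    ∫ u in Set.Ioi (0 : ℝ), ‖ps (fl f) u‖ ^ 2 * u ^ (-1 - 2 * (1 + α)) ≤
      M ^ 2 * (CC ^ 2 / (2 * α)) + 12 / (α ^ 4 * T) := by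
  have hpi := Real.pi_pos
  have hM0 : 0 ≤ M := (norm_nonneg _).trans (hM 0 (by simpa using hT.le))
  have hms : MeasurableSet {τ : ℝ | T < |τ|} :=
    measurableSet_lt measurable_const continuous_abs.measurable
  have h1 := parseval (a := fl f) (c := 1 + α) (by linarith) fl_zero
    (sum_of_log hα hα1 (fl_log hf.le)).1
  have h2 : ∫ τ : ℝ, ‖LSeries (fl f) (((1 + α : ℝ) : ℂ) + I * τ)‖ ^ 2 * ((1 + α) ^ 2 + τ ^ 2)⁻¹ ≤
      ∫ τ : ℝ, (M ^ 2 * (‖LSeries (fL f) (((1 + α : ℝ) : ℂ) + I * τ)‖ ^ 2 *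
        ((1 + α) ^ 2 + τ ^ 2)⁻¹) + (6 / α ^ 2) ^ 2 *
        ({τ : ℝ | T < |τ|}.indicator (fun τ => ((1 + α) ^ 2 + τ ^ 2)⁻¹)) τ) := by
    refine integral_mono_of_nonneg (ae_of_all _ fun τ => by simp only [Pi.zero_apply]; positivity) ?_ ?_
    · refine Integrable.add ((ls_int fL_zero (by linarith)
        (sum_of_log hα hα1 (fL_log hf.le)).1).const_mul _) (Integrable.const_mul ?_ _)
      exact Integrable.indicator (integrable_kern (by linarith)) hms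
    · refine ae_of_all _ fun τ => ?_
      simp only
      by_cases hτ : T < |τ|
      · rw [Set.indicator_of_mem (by exact hτ)]
        have h3 : ‖LSeries (fl f) (((1 + α : ℝ) : ℂ) + I * τ)‖ ≤ 6 / α ^ 2 :=
          (ls_norm_le fl_zero (sum_of_log hα hα1 (fl_log hf.le)).1 τ).trans
            (sum_of_log hα hα1 (fl_log hf.le)).2
        have h4 : ‖LSeries (fl f) (((1 + α : ℝ) : ℂ) + I * τ)‖ ^ 2 * ((1 + α) ^ 2 + τ ^ 2)⁻¹ ≤
            (6 / α ^ 2) ^ 2 * ((1 + α) ^ 2 + τ ^ 2)⁻¹ := by gcongr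
        have h5 : 0 ≤ M ^ 2 * (‖LSeries (fL f) (((1 + α : ℝ) : ℂ) + I * τ)‖ ^ 2 *
          ((1 + α) ^ 2 + τ ^ 2)⁻¹) := by positivity
        linarith
      · rw [Set.indicator_of_notMem (by exact hτ), mul_zero, add_zero, fl_factor hf hα hα1, norm_mul]
        have h3 := hM τ (not_lt.1 hτ)
        calc (‖LSeries (fL f) (((1 + α : ℝ) : ℂ) + I * τ)‖ *
            ‖LSeries f (((1 + α : ℝ) : ℂ) + I * τ)‖) ^ 2 * ((1 + α) ^ 2 + τ ^ 2)⁻¹
            ≤ (‖LSeries (fL f) (((1 + α : ℝ) : ℂ) + I * τ)‖ * M) ^ 2 *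
              ((1 + α) ^ 2 + τ ^ 2)⁻¹ := by gcongr
          _ = _ := by ring
  rw [integral_add ((ls_int fL_zero (by linarith)
        (sum_of_log hα hα1 (fL_log hf.le)).1).const_mul _)
      (Integrable.const_mul (Integrable.indicator (integrable_kern (by linarith)) hms) _),
    integral_const_mul, integral_const_mul] at h2
  have h3 := L_second hf.le hα hα1
  have h4 := tail_le (c := 1 + α) (by linarith) hT
  rw [h1] at h2
  set I0 := ∫ u in Set.Ioi (0 : ℝ), ‖ps (fl f) u‖ ^ 2 * u ^ (-1 - 2 * (1 + α)) with hI0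
  have h5 : 2 * Real.pi * I0 ≤ M ^ 2 * (2 * Real.pi * (CC ^ 2 / (2 * α))) +
      (6 / α ^ 2) ^ 2 * (2 / T) := by
    refine h2.trans ?_
    gcongr
  have h6 : (6 / α ^ 2) ^ 2 * (2 / T) ≤ 2 * Real.pi * (12 / (α ^ 4 * T)) := by
    have h7 : (6 / α ^ 2) ^ 2 * (2 / T) = 72 / (α ^ 4 * T) := by
      field_simp
      norm_num
    rw [h7]
    have h8 : 2 * Real.pi * (12 / (α ^ 4 * T)) = (24 * Real.pi) / (α ^ 4 * T) := by ring
    rw [h8]
    have := Real.pi_gt_three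
    gcongr
    linarith
  have h7 : 2 * Real.pi * I0 ≤ 2 * Real.pi * (M ^ 2 * (CC ^ 2 / (2 * α)) + 12 / (α ^ 4 * T)) := by
    nlinarith
  exact le_of_mul_le_mul_left h7 (by positivity)

end Pool.Agent.MRHal
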