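import Pool.Agent.Lib.MRL.HalD

set_option autoImplicit false

open Filter Topology MeasureTheory Complex
open scoped ArithmeticFunction

namespace Pool.Agent.MRHal

variable {f : ℕ → ℂ}

theorem inv_int {a b : ℝ} (ha : 0 < a) (hab : a ≤ b) {s : Set ℝ} (hs : s = Set.Ioc a b) :
    ∫ u in s, u⁻¹ = Real.log b - Real.log a := by
  rw [hs, ← intervalIntegral.integral_of_le hab, integral_inv_of_pos ha (ha.trans_le hab),
    Real.log_div (ha.trans_le hab).ne' ha.ne']

theorem ind_int {b Y : ℝ} (hb : 1 ≤ b) (hbY : b ≤ Y) :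
    ∫ u in Set.Ioc (0 : ℝ) Y, (Set.Ioc (1 : ℝ) b).indicator (fun u => u⁻¹) u = Real.log b := by
  rw [setIntegral_indicator measurableSet_Ioc]
  rw [inv_int one_pos hb, Real.log_one, sub_zero]
  ext u
  simp only [Set.mem_inter_iff, Set.mem_Ioc]
  constructor
  · rintro ⟨_, h⟩
    exact h
  · intro h
    exact ⟨⟨by linarith [h.1], h.2.trans hbY⟩, h⟩

theorem ind_integrable {b Y : ℝ} : Integrable
    ((Set.Ioc (1 : ℝ) b).indicator (fun u : ℝ => u⁻¹)) (volume.restrict (Set.Ioc (0 : ℝ) Y)) := by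
  refine intOn_of_bdd (C := 1) (measurable_inv.indicator measurableSet_Ioc) fun u hu => ?_
  by_cases h : u ∈ Set.Ioc 1 b
  · rw [Set.indicator_of_mem h, Real.norm_of_nonneg (inv_nonneg.2 hu.1.le)]
    exact inv_le_one_of_one_le₀ h.1.le
  · rw [Set.indicator_of_notMem h]
    simp

theorem N_trivial (hf : ∀ n, ‖f n‖ ≤ 1) {u : ℝ} (hu : 0 < u) : ‖ps (fl f) u‖ ≤ u ^ 2 := by
  rcases lt_or_ge u 1 with h | h
  · rw [ps_zero _ h]
    simp
    positivity
  unfold ps
  refine (norm_sum_le _ _).trans ?_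
  have h1 : ∀ n ∈ Finset.Icc 1 ⌊u⌋₊, ‖fl f n‖ ≤ u := by
    intro n hn
    rw [Finset.mem_Icc] at hn
    have hn0 : (0 : ℝ) < n := by exact_mod_cast hn.1
    have hnu : (n : ℝ) ≤ u := (Nat.le_floor_iff hu.le).1 hn.2
    have := Real.log_le_sub_one_of_pos hn0
    have := fl_log hf n
    linarith
  refine (Finset.sum_le_sum h1).trans ?_
  simp only [Finset.sum_const, Nat.card_Icc, add_tsub_cancel_right, nsmul_eq_mul]
  have := Nat.floor_le hu.le
  nlinarith

theorem N3_int (hf : ∀ n, ‖f n‖ ≤ 1) {Y : ℝ} :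
    IntegrableOn (fun u => ‖ps (fl f) u‖ ^ 2 / u ^ 3) (Set.Ioc 0 Y) := by
  refine intOn_of_bdd (C := |Y|) (((Sn_measurable (fl f)).pow_const 2).div (by fun_prop))
    fun u hu => ?_
  have hu0 := hu.1
  simp only [Pi.div_apply]
  rw [Real.norm_of_nonneg (by positivity)]
  have h1 := N_trivial hf hu0
  rw [div_le_iff₀ (by positivity)]
  have h2 : u ≤ |Y| := hu.2.trans (le_abs_self Y)
  calc ‖ps (fl f) u‖ ^ 2 ≤ (u ^ 2) ^ 2 := by gcongr
    _ = u * u ^ 3 := by ring
    _ ≤ |Y| * u ^ 3 := by gcongr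

theorem N3_le (hf : ∀ n, ‖f n‖ ≤ 1) {X : ℝ} (hX : Real.exp 1 ≤ X)
    (hint : IntegrableOn (fun u => ‖ps (fl f) u‖ ^ 2 * u ^ (-1 - 2 * (1 + (Real.log X)⁻¹)))
      (Set.Ioi 0)) :
    ∫ u in Set.Ioc 0 (2 * X), ‖ps (fl f) u‖ ^ 2 / u ^ 3 ≤
      Real.exp 4 * ∫ u in Set.Ioi (0 : ℝ), ‖ps (fl f) u‖ ^ 2 *
        u ^ (-1 - 2 * (1 + (Real.log X)⁻¹)) := by
  have he : (2 : ℝ) ≤ Real.exp 1 := by
    have := Real.add_one_le_exp (1 : ℝ)
    linarith
  have hX0 : 0 < X := by linarith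
  have hl : 1 ≤ Real.log X := by
    rw [Real.le_log_iff_exp_le hX0]
    exact hX
  have h2 : Real.log (2 * X) ≤ 2 * Real.log X := by
    rw [Real.log_mul (by norm_num) hX0.ne']
    have := Real.log_le_log (by norm_num) (he.trans hX)
    linarith
  rw [← integral_const_mul]
  calc ∫ u in Set.Ioc 0 (2 * X), ‖ps (fl f) u‖ ^ 2 / u ^ 3
      ≤ ∫ u in Set.Ioc 0 (2 * X), Real.exp 4 * (‖ps (fl f) u‖ ^ 2 *
        u ^ (-1 - 2 * (1 + (Real.log X)⁻¹))) := by
        refine setIntegral_mono_on (N3_int hf) ((hint.mono_set Set.Ioc_subset_Ioi_self).const_mul _)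
          measurableSet_Ioc fun u hu => ?_
        have hu0 : 0 < u := hu.1
        have h3 : (u ^ 3)⁻¹ ≤ Real.exp 4 * u ^ (-1 - 2 * (1 + (Real.log X)⁻¹)) := by
          have h4 : (u ^ 3)⁻¹ = u ^ (2 * (Real.log X)⁻¹) *
              u ^ (-1 - 2 * (1 + (Real.log X)⁻¹)) := by
            rw [← Real.rpow_add hu0, ← Real.rpow_natCast, ← Real.rpow_neg hu0.le]
            congr 1
            push_cast
            ring
          rw [h4]
          gcongr
          calc u ^ (2 * (Real.log X)⁻¹) ≤ (2 * X) ^ (2 * (Real.log X)⁻¹) := by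
                refine Real.rpow_le_rpow hu0.le hu.2 (by positivity)
            _ = Real.exp (Real.log (2 * X) * (2 * (Real.log X)⁻¹)) := by
                rw [Real.rpow_def_of_pos (by linarith)]
            _ ≤ Real.exp 4 := by
                rw [Real.exp_le_exp]
                have h5 : Real.log (2 * X) * (2 * (Real.log X)⁻¹) ≤
                    (2 * Real.log X) * (2 * (Real.log X)⁻¹) := by gcongr
                refine h5.trans (le_of_eq ?_)
                field_simp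
                norm_num
        rw [div_eq_mul_inv]
        calc ‖ps (fl f) u‖ ^ 2 * (u ^ 3)⁻¹ ≤ ‖ps (fl f) u‖ ^ 2 *
            (Real.exp 4 * u ^ (-1 - 2 * (1 + (Real.log X)⁻¹))) := by gcongr
          _ = _ := by ring
    _ ≤ _ := by
        refine setIntegral_mono_set (hint.const_mul _) ?_ ?_
        · rw [EventuallyLE, ae_restrict_iff' measurableSet_Ioi]
          refine ae_of_all _ fun u hu => ?_
          have : (0 : ℝ) < u := hu
          simp only [Pi.zero_apply]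
          positivity
        · exact Set.Ioc_subset_Ioi_self.eventuallyLE

theorem J_le (hf : ∀ n, ‖f n‖ ≤ 1) {X δ lam : ℝ} (hX : Real.exp 1 ≤ X) (hδ : 0 < δ) (hδ1 : δ ≤ 1)
    (hlam : 0 < lam) :
    ∫ u in Set.Ioc 0 (2 * X), ‖ps f u‖ / u ^ 2 ≤ δ * Real.log X + (δ * Real.log X)⁻¹ *
      (lam / 2 * (∫ u in Set.Ioc 0 (2 * X), ‖ps (fl f) u‖ ^ 2 / u ^ 3) +
        ((2 * lam)⁻¹ + 1) * Real.log (2 * X)) := by
  have he : (2 : ℝ) ≤ Real.exp 1 := by
    have := Real.add_one_le_exp (1 : ℝ)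
    linarith
  have hX0 : 0 < X := by linarith
  have hX1 : 1 ≤ X := by linarith
  have hl : 1 ≤ Real.log X := by
    rw [Real.le_log_iff_exp_le hX0]
    exact hX
  set Y : ℝ := X ^ δ with hY
  have hY1 : 1 ≤ Y := Real.one_le_rpow hX1 hδ.le
  have hYX : Y ≤ X := by
    calc Y ≤ X ^ (1 : ℝ) := Real.rpow_le_rpow_of_exponent_le hX1 hδ1
      _ = X := Real.rpow_one X
  have hlY : Real.log Y = δ * Real.log X := Real.log_rpow hX0 δ
  have hdl : 0 < δ * Real.log X := by positivity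
  have hpt : ∀ u ∈ Set.Ioc 0 (2 * X), ‖ps f u‖ / u ^ 2 ≤
      ((Set.Ioc (1 : ℝ) Y).indicator (fun u => u⁻¹) u + (δ * Real.log X)⁻¹ *
        (lam / 2 * (‖ps (fl f) u‖ ^ 2 / u ^ 3) +
          ((2 * lam)⁻¹ + 1) * (Set.Ioc (1 : ℝ) (2 * X)).indicator (fun u => u⁻¹) u)) ∨ u = 1 := by
    intro u hu
    have hu0 : 0 < u := hu.1
    rcases lt_trichotomy u 1 with h | h | h
    · left
      rw [ps_zero _ h, Set.indicator_of_notMem (fun h' => absurd h'.1 (by linarith)),
        Set.indicator_of_notMem (fun h' => absurd h'.1 (by linarith))]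
      simp only [norm_zero, zero_div, zero_add, mul_zero, add_zero]
      positivity
    · right
      exact h
    · left
      rw [Set.indicator_of_mem (show u ∈ Set.Ioc 1 (2 * X) from ⟨h, hu.2⟩)]
      rcases le_or_gt u Y with h' | h'
      · rw [Set.indicator_of_mem (show u ∈ Set.Ioc 1 Y from ⟨h, h'⟩)]
        have h1 : ‖ps f u‖ / u ^ 2 ≤ u⁻¹ := by
          rw [div_le_iff₀ (by positivity)]
          have := ps_norm_le hf hu0.le
          calc ‖ps f u‖ ≤ u := this
            _ = u⁻¹ * u ^ 2 := by field_simp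
        have h2 : 0 ≤ (δ * Real.log X)⁻¹ * (lam / 2 * (‖ps (fl f) u‖ ^ 2 / u ^ 3) +
          ((2 * lam)⁻¹ + 1) * u⁻¹) := by positivity
        linarith
      · rw [Set.indicator_of_notMem (fun h'' => absurd h''.2 (by linarith)), zero_add]
        have h1 : δ * Real.log X ≤ Real.log u := by
          rw [← hlY]
          exact Real.log_le_log (by linarith) h'.le
        have h2 := S_log hf h.le
        have h3 : ‖ps f u‖ * (δ * Real.log X) ≤ ‖ps (fl f) u‖ + u := by
          refine le_trans ?_ h2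
          gcongr
        have h4 : ‖ps (fl f) u‖ ≤ (lam / 2 * (‖ps (fl f) u‖ ^ 2 / u ^ 3) + (2 * lam)⁻¹ * u⁻¹) * u ^ 2 := by
          have h5 : (lam / 2 * (‖ps (fl f) u‖ ^ 2 / u ^ 3) + (2 * lam)⁻¹ * u⁻¹) * u ^ 2 -
              ‖ps (fl f) u‖ = (lam * ‖ps (fl f) u‖ - u) ^ 2 / (2 * lam * u) := by
            field_simp
            ring
          have h6 : 0 ≤ (lam * ‖ps (fl f) u‖ - u) ^ 2 / (2 * lam * u) := by positivity
          linarith
        rw [div_le_iff₀ (by positivity)]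
        have h7 : ‖ps f u‖ ≤ (δ * Real.log X)⁻¹ * (‖ps (fl f) u‖ + u) := by
          rw [inv_mul_eq_div, le_div_iff₀ hdl]
          exact h3
        refine h7.trans ?_
        rw [mul_assoc]
        gcongr
        have h8 : (lam / 2 * (‖ps (fl f) u‖ ^ 2 / u ^ 3) + ((2 * lam)⁻¹ + 1) * u⁻¹) * u ^ 2 =
            (lam / 2 * (‖ps (fl f) u‖ ^ 2 / u ^ 3) + (2 * lam)⁻¹ * u⁻¹) * u ^ 2 + u := by
          field_simp
          ring
        rw [h8]
        linarith
  have hi1 := ind_integrable (b := Y) (Y := 2 * X)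
  have hi2 := ind_integrable (b := 2 * X) (Y := 2 * X)
  have hi3 := N3_int hf (Y := 2 * X)
  have hi4 : Integrable (fun u => lam / 2 * (‖ps (fl f) u‖ ^ 2 / u ^ 3) +
      ((2 * lam)⁻¹ + 1) * (Set.Ioc (1 : ℝ) (2 * X)).indicator (fun u => u⁻¹) u)
      (volume.restrict (Set.Ioc (0 : ℝ) (2 * X))) :=
    (Integrable.const_mul hi3 _).add (hi2.const_mul _)
  calc ∫ u in Set.Ioc 0 (2 * X), ‖ps f u‖ / u ^ 2
      ≤ ∫ u in Set.Ioc 0 (2 * X), ((Set.Ioc (1 : ℝ) Y).indicator (fun u => u⁻¹) u +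
        (δ * Real.log X)⁻¹ * (lam / 2 * (‖ps (fl f) u‖ ^ 2 / u ^ 3) +
          ((2 * lam)⁻¹ + 1) * (Set.Ioc (1 : ℝ) (2 * X)).indicator (fun u => u⁻¹) u)) := by
        refine integral_mono_ae (J_int hf _) (hi1.add (hi4.const_mul _)) ?_
        have h1 : ∀ᵐ u : ℝ ∂(volume.restrict (Set.Ioc (0 : ℝ) (2 * X))), u ≠ 1 := by
          refine ae_restrict_of_ae ?_
          simp [ae_iff]
        have h2 : ∀ᵐ u : ℝ ∂(volume.restrict (Set.Ioc (0 : ℝ) (2 * X))), u ∈ Set.Ioc 0 (2 * X) :=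
          ae_restrict_mem measurableSet_Ioc
        filter_upwards [h1, h2] with u h1 h2
        rcases hpt u h2 with h | h
        · exact h
        · exact absurd h h1
    _ = _ := by
        rw [integral_add hi1 (hi4.const_mul _), integral_const_mul,
          integral_add (Integrable.const_mul hi3 _) (hi2.const_mul _), integral_const_mul,
          integral_const_mul, ind_int hY1 (by linarith), ind_int (by linarith) le_rfl, hlY]

end Pool.Agent.MRHal
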