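import Pool.Agent.Lib.MRL.HalE

/-!
# Halász's theorem, qualitative form, for completely multiplicative functions

`hal`: if `‖F(1 + 1/log X + iτ)‖ ≤ κ log X` for all `|τ| ≤ (log X)^2`, then
`‖∑_{n ≤ X} f n‖ ≤ ε X`, with `κ` and the threshold for `X` depending only on `ε`.
-/

set_option autoImplicit false

open Filter Topology MeasureTheory Complex
open scoped ArithmeticFunction

namespace Pool.Agent.MRHal

variable {f : ℕ → ℂ}

theorem N_ulogu (hf : ∀ n, ‖f n‖ ≤ 1) {u : ℝ} (hu : 1 ≤ u) : ‖ps (fl f) u‖ ≤ u * Real.log u := by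
  have hu0 : 0 < u := by linarith
  unfold ps
  refine (norm_sum_le _ _).trans ?_
  have h1 : ∀ n ∈ Finset.Icc 1 ⌊u⌋₊, ‖fl f n‖ ≤ Real.log u := by
    intro n hn
    rw [Finset.mem_Icc] at hn
    have hn0 : (0 : ℝ) < n := by exact_mod_cast hn.1
    have hnu : (n : ℝ) ≤ u := (Nat.le_floor_iff hu0.le).1 hn.2
    exact (fl_log hf n).trans (Real.log_le_log hn0 hnu)
  refine (Finset.sum_le_sum h1).trans ?_
  simp only [Finset.sum_const, Nat.card_Icc, add_tsub_cancel_right, nsmul_eq_mul]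
  have := Nat.floor_le hu0.le
  have := Real.log_nonneg hu
  gcongr

theorem N_int (hf : ∀ n, ‖f n‖ ≤ 1) {α : ℝ} (hα : 0 < α) :
    IntegrableOn (fun u => ‖ps (fl f) u‖ ^ 2 * u ^ (-1 - 2 * (1 + α))) (Set.Ioi 0) := by
  have hi : IntegrableOn (fun u : ℝ => (2 / α) ^ 2 * u ^ (-1 - α)) (Set.Ici 1) :=
    (integrableOn_Ici_iff_integrableOn_Ioi (by simp)).2
      ((integrableOn_Ioi_rpow_of_lt (by linarith) one_pos).const_mul _)
  have hi2 : IntegrableOn ((Set.Ici (1 : ℝ)).indicator (fun u : ℝ => (2 / α) ^ 2 * u ^ (-1 - α)))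
      (Set.Ioi 0) := ((integrable_indicator_iff measurableSet_Ici).2 hi).integrableOn
  refine Integrable.mono' hi2 ?_ ?_
  · refine Measurable.aestronglyMeasurable ?_
    exact ((Sn_measurable (fl f)).pow_const 2).mul (by fun_prop)
  · rw [ae_restrict_iff' measurableSet_Ioi]
    refine ae_of_all _ fun u hu => ?_
    have hu0 : 0 < u := hu
    rw [Real.norm_of_nonneg (by positivity)]
    rcases lt_or_ge u 1 with h | h
    · rw [ps_zero _ h, Set.indicator_of_notMem (by simpa using h)]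
      simp
    · rw [Set.indicator_of_mem (by simpa using h)]
      have h1 := N_ulogu hf h
      have h2 := Real.log_le_rpow_div hu0.le (by positivity : 0 < α / 2)
      have h3 : ‖ps (fl f) u‖ ≤ u * (u ^ (α / 2) / (α / 2)) := h1.trans (by gcongr)
      have h4 : u ^ (-1 - α) = u ^ 2 * (u ^ (α / 2)) ^ 2 * u ^ (-1 - 2 * (1 + α)) := by
        rw [← Real.rpow_two, ← Real.rpow_natCast (u ^ (α / 2)) 2, ← Real.rpow_mul hu0.le,
          ← Real.rpow_add hu0, ← Real.rpow_add hu0]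
        congr 1
        push_cast
        ring
      rw [h4]
      calc ‖ps (fl f) u‖ ^ 2 * u ^ (-1 - 2 * (1 + α)) ≤
          (u * (u ^ (α / 2) / (α / 2))) ^ 2 * u ^ (-1 - 2 * (1 + α)) := by gcongr
        _ = _ := by
          field_simp

/-- Halász's theorem, qualitative form. -/
theorem hal : ∀ ε : ℝ, 0 < ε → ∃ κ : ℝ, 0 < κ ∧ ∃ X0 : ℝ, ∀ X : ℝ, X0 ≤ X → ∀ f : ℕ → ℂ, CM f →
    (∀ τ : ℝ, |τ| ≤ (Real.log X) ^ 2 →
      ‖LSeries f (((1 + (Real.log X)⁻¹ : ℝ) : ℂ) + I * τ)‖ ≤ κ * Real.log X) →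
    ‖ps f X‖ ≤ ε * X := by
  intro ε hε
  have hCC := CC_pos
  set η : ℝ := min (ε / 4) 1 with hη
  have hη0 : 0 < η := lt_min (by positivity) one_pos
  have hη1 : η ≤ 1 := min_le_right _ _
  have hη2 : η ≤ ε / 4 := min_le_left _ _
  set δ : ℝ := min 1 (ε * η / (16 * CC)) with hδ
  have hδ0 : 0 < δ := lt_min one_pos (by positivity)
  have hδ1 : δ ≤ 1 := min_le_left _ _
  have hδ2 : δ ≤ ε * η / (16 * CC) := min_le_right _ _
  set K1 : ℝ := Real.exp 4 * CC ^ 2 / 4 + 1 with hK1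
  have hK10 : 0 < K1 := by positivity
  set κ : ℝ := ε * η * δ / (32 * CC * K1) with hκ
  have hκ0 : 0 < κ := by positivity
  set K3 : ℝ := 6 * Real.exp 4 / κ + 2 with hK3
  have hK30 : 0 < K3 := by positivity
  set K2 : ℝ := 4 * CC / η * (δ⁻¹ * K3) + 3 with hK2
  have hK20 : 0 < K2 := by positivity
  refine ⟨κ, hκ0, max (Real.exp 1) (Real.exp (8 * K2 / ε)), ?_⟩
  intro X hX f hf hF
  have hXe : Real.exp 1 ≤ X := (le_max_left _ _).trans hX
  have hX2 : Real.exp (8 * K2 / ε) ≤ X := (le_max_right _ _).trans hX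
  have he : (2 : ℝ) ≤ Real.exp 1 := by
    have := Real.add_one_le_exp (1 : ℝ)
    linarith
  have hX0 : 0 < X := by linarith
  have hX1 : 1 ≤ X := by linarith
  set l : ℝ := Real.log X with hl
  have hl1 : 1 ≤ l := by
    rw [hl, Real.le_log_iff_exp_le hX0]
    exact hXe
  have hl0 : 0 < l := by linarith
  have hlX : l ≤ X := by
    have := Real.log_le_sub_one_of_pos hX0
    linarith
  have hlK : 8 * K2 / ε ≤ l := by
    rw [hl, Real.le_log_iff_exp_le hX0]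
    exact hX2
  have hl2 : Real.log (2 * X) ≤ 2 * l := by
    rw [Real.log_mul (by norm_num) hX0.ne']
    have := Real.log_le_log (by norm_num) (he.trans hXe)
    linarith
  have hα0 : 0 < l⁻¹ := by positivity
  have hα1 : l⁻¹ ≤ 1 := inv_le_one_of_one_le₀ hl1
  -- second moment of `N`
  have hN := N_second hf hα0 hα1 (by positivity : 0 < l ^ 2) hF
  have hN' : (∫ u in Set.Ioi (0 : ℝ), ‖ps (fl f) u‖ ^ 2 * u ^ (-1 - 2 * (1 + l⁻¹))) ≤
      κ ^ 2 * CC ^ 2 * l ^ 3 / 2 + 12 * l ^ 2 := by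
    refine hN.trans (le_of_eq ?_)
    field_simp
  have hI := N3_le hf.le hXe (N_int hf.le hα0)
  rw [← hl] at hI
  set I : ℝ := ∫ u in Set.Ioc 0 (2 * X), ‖ps (fl f) u‖ ^ 2 / u ^ 3 with hIdef
  have hI2 : I ≤ Real.exp 4 * (κ ^ 2 * CC ^ 2 * l ^ 3 / 2 + 12 * l ^ 2) := by
    refine hI.trans ?_
    gcongr
  have hJ := J_le hf.le hXe hδ0 hδ1 (by positivity : 0 < 1 / (κ * l))
  rw [← hl, ← hIdef] at hJ
  set J : ℝ := ∫ u in Set.Ioc 0 (2 * X), ‖ps f u‖ / u ^ 2 with hJdef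
  have hJ2 : J ≤ δ * l + δ⁻¹ * (κ * K1 * l + K3) := by
    refine hJ.trans ?_
    have h1 : 1 / (κ * l) / 2 * I + ((2 * (1 / (κ * l)))⁻¹ + 1) * Real.log (2 * X) ≤
        1 / (κ * l) / 2 * (Real.exp 4 * (κ ^ 2 * CC ^ 2 * l ^ 3 / 2 + 12 * l ^ 2)) +
          ((2 * (1 / (κ * l)))⁻¹ + 1) * (2 * l) := by gcongr
    have h2 : 1 / (κ * l) / 2 * (Real.exp 4 * (κ ^ 2 * CC ^ 2 * l ^ 3 / 2 + 12 * l ^ 2)) +
          ((2 * (1 / (κ * l)))⁻¹ + 1) * (2 * l) = κ * K1 * l ^ 2 + K3 * l := by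
      rw [hK1, hK3]
      field_simp
      ring
    rw [h2] at h1
    calc δ * l + (δ * l)⁻¹ * (1 / (κ * l) / 2 * I +
        ((2 * (1 / (κ * l)))⁻¹ + 1) * Real.log (2 * X))
        ≤ δ * l + (δ * l)⁻¹ * (κ * K1 * l ^ 2 + K3 * l) := by gcongr
      _ = _ := by
        field_simp
  have hA := avg hf hX1 hη0 hη1
  rw [← hl, ← hJdef] at hA
  -- the constants
  have hc1 : 4 * CC / η * δ ≤ ε / 4 := by
    calc 4 * CC / η * δ ≤ 4 * CC / η * (ε * η / (16 * CC)) := by gcongr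
      _ = ε / 4 := by
        field_simp
        norm_num
  have hc2 : 4 * CC / η * (δ⁻¹ * (κ * K1)) = ε / 8 := by
    rw [hκ]
    field_simp
    norm_num
  have hfin : ‖ps f X‖ * l ≤ (ε * X) * l := by
    calc ‖ps f X‖ * l ≤ 4 * CC / η * X * J + (2 * X + (η * X + 1) * l) := hA
      _ ≤ 4 * CC / η * X * (δ * l + δ⁻¹ * (κ * K1 * l + K3)) + (2 * X + (η * X * l + X)) := by
        have : (η * X + 1) * l ≤ η * X * l + X := by nlinarith
        gcongr
      _ = X * l * (4 * CC / η * δ + 4 * CC / η * (δ⁻¹ * (κ * K1)) + η) + X * K2 := by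
        rw [hK2]
        ring
      _ ≤ X * l * (ε / 4 + ε / 8 + ε / 4) + X * (ε * l / 8) := by
        have h1 : K2 ≤ ε * l / 8 := by
          rw [div_le_iff₀ hε] at hlK
          linarith
        rw [hc2]
        gcongr
      _ ≤ (ε * X) * l := by
        have : 0 < X * l * ε := by positivity
        nlinarith
  exact le_of_mul_le_mul_right hfin hl0

end Pool.Agent.MRHal
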