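import Mathlib

set_option autoImplicit false

open Filter Topology MeasureTheory Real Complex
open scoped FourierTransform

namespace Pool.Agent.MRHal

/-- Laplace kernel. -/
noncomputable def lap (c : ℝ) (x : ℝ) : ℂ := ((Real.exp (-c * |x|) : ℝ) : ℂ)

theorem lap_continuous (c : ℝ) : Continuous (lap c) := by
  unfold lap
  fun_prop

theorem eq_Iic {c w : ℝ} : ∀ v ∈ Set.Iic (0 : ℝ),
    cexp (↑(-2 * π * inner ℝ v w) * I) • lap c v = cexp ((c - 2 * π * w * I) * v) := by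
  intro v hv
  have hv' : v ≤ 0 := hv
  simp only [lap, abs_of_nonpos hv', smul_eq_mul, Complex.ofReal_exp, ← Complex.exp_add]
  congr 1
  simp
  ring

theorem eq_Ioi {c w : ℝ} : ∀ v ∈ Set.Ioi (0 : ℝ),
    cexp (↑(-2 * π * inner ℝ v w) * I) • lap c v = cexp ((-c - 2 * π * w * I) * v) := by
  intro v hv
  have hv' : 0 ≤ v := le_of_lt hv
  simp only [lap, abs_of_nonneg hv', smul_eq_mul, Complex.ofReal_exp, ← Complex.exp_add]
  congr 1
  simp
  ring

theorem int_Iic {c w : ℝ} (hc : 0 < c) : IntegrableOn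
    (fun v : ℝ => cexp (↑(-2 * π * inner ℝ v w) * I) • lap c v) (Set.Iic 0) := by
  refine (integrableOn_exp_mul_complex_Iic (a := (c - 2 * π * w * I)) (by simpa using hc) 0).congr_fun
    (fun v hv => (eq_Iic v hv).symm) measurableSet_Iic

theorem int_Ioi {c w : ℝ} (hc : 0 < c) : IntegrableOn
    (fun v : ℝ => cexp (↑(-2 * π * inner ℝ v w) * I) • lap c v) (Set.Ioi 0) := by
  refine (integrableOn_exp_mul_complex_Ioi (a := (-c - 2 * π * w * I)) (by simpa using hc) 0).congr_fun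
    (fun v hv => (eq_Ioi v hv).symm) measurableSet_Ioi

theorem fourier_lap {c : ℝ} (hc : 0 < c) (w : ℝ) :
    𝓕 (lap c) w = 2 * c / (c ^ 2 + ((2 * π * w : ℝ) : ℂ) ^ 2) := by
  rw [Real.fourier_eq', ← intervalIntegral.integral_Iic_add_Ioi (int_Iic hc) (int_Ioi hc),
    setIntegral_congr_fun measurableSet_Iic (eq_Iic (c := c) (w := w)),
    setIntegral_congr_fun measurableSet_Ioi (eq_Ioi (c := c) (w := w)),
    integral_exp_mul_complex_Iic (by simpa using hc), integral_exp_mul_complex_Ioi (by simpa using hc)]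
  have hc' : (c : ℂ) ≠ 0 := by exact_mod_cast hc.ne'
  have h1 : (c : ℂ) - 2 * π * w * I ≠ 0 := by
    intro h
    have := congrArg Complex.re h
    simp at this
    exact hc.ne' this
  have h2 : -(c : ℂ) - 2 * π * w * I ≠ 0 := by
    intro h
    have := congrArg Complex.re h
    simp at this
    exact hc.ne' this
  have h3 : (c : ℂ) ^ 2 + ((2 * π * w : ℝ) : ℂ) ^ 2 ≠ 0 := by
    have : (0 : ℝ) < c ^ 2 + (2 * π * w) ^ 2 := by positivity
    exact_mod_cast this.ne'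
  simp only [Complex.ofReal_zero, mul_zero, Complex.exp_zero]
  field_simp
  push_cast
  have hI : I ^ 2 = -1 := Complex.I_sq
  ring_nf
  rw [hI]
  ring

theorem lap_integrable {c : ℝ} (hc : 0 < c) : Integrable (lap c) := by
  have h1 := int_Iic (w := 0) hc
  have h2 := int_Ioi (w := 0) hc
  have h3 := h1.union h2
  rw [Set.Iic_union_Ioi, integrableOn_univ] at h3
  refine h3.congr (ae_of_all _ fun v => ?_)
  simp

theorem integrable_kern {c : ℝ} (hc : 0 < c) : Integrable (fun τ : ℝ => (c ^ 2 + τ ^ 2)⁻¹) := by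
  have h := (integrable_inv_one_add_sq).comp_mul_left' (inv_pos.2 hc).ne'
  refine (h.const_mul (c ^ 2)⁻¹).congr (ae_of_all _ fun τ => ?_)
  simp only
  field_simp

theorem integral_kern {c : ℝ} (hc : 0 < c) : ∫ τ : ℝ, (c ^ 2 + τ ^ 2)⁻¹ = π / c := by
  have h := Measure.integral_comp_mul_left (fun x : ℝ => (1 + x ^ 2)⁻¹) c⁻¹
  rw [integral_univ_inv_one_add_sq] at h
  have h2 : ∀ τ : ℝ, (c ^ 2 + τ ^ 2)⁻¹ = (c ^ 2)⁻¹ * (1 + (c⁻¹ * τ) ^ 2)⁻¹ := by
    intro τ
    field_simp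
  simp_rw [h2]
  rw [integral_const_mul, h]
  simp only [inv_inv, abs_of_pos hc, smul_eq_mul]
  field_simp

theorem norm_cexp_mul (τ x : ℝ) : ‖cexp (I * τ * x)‖ = 1 := by
  rw [Complex.norm_exp]
  simp

theorem fourier_lap_integrable {c : ℝ} (hc : 0 < c) : Integrable (𝓕 (lap c)) := by
  have h1 : Integrable (fun w : ℝ => ((2 * c * (c ^ 2 + (2 * π * w) ^ 2)⁻¹ : ℝ) : ℂ)) := by
    apply Integrable.ofReal
    exact ((integrable_kern hc).comp_mul_left' (by positivity : (2 * π : ℝ) ≠ 0)).const_mul _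
  refine h1.congr (ae_of_all _ fun w => ?_)
  rw [fourier_lap hc]
  push_cast
  rw [div_eq_mul_inv]

/-- The kernel integral. -/
theorem kernel {c : ℝ} (hc : 0 < c) (x : ℝ) :
    ∫ τ : ℝ, cexp (I * τ * x) * (((c ^ 2 + τ ^ 2)⁻¹ : ℝ) : ℂ) = (π / c : ℝ) * lap c x := by
  have h1 := (lap_integrable hc).fourierInv_fourier_eq (fourier_lap_integrable hc)
    (v := x) (lap_continuous c).continuousAt
  rw [Real.fourierInv_eq'] at h1
  have h2 := Measure.integral_comp_mul_left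
    (fun τ : ℝ => cexp (I * τ * x) * (((c ^ 2 + τ ^ 2)⁻¹ : ℝ) : ℂ)) (2 * π)
  have h3 : ∀ w : ℝ, cexp (↑(2 * π * inner ℝ w x) * I) • 𝓕 (lap c) w =
      (2 * c) * (cexp (I * ((2 * π * w : ℝ) : ℂ) * x) *
        (((c ^ 2 + (2 * π * w) ^ 2)⁻¹ : ℝ) : ℂ)) := by
    intro w
    rw [fourier_lap hc, smul_eq_mul]
    have : cexp (↑(2 * π * inner ℝ w x) * I) = cexp (I * ((2 * π * w : ℝ) : ℂ) * x) := by
      congr 1
      simp
      ring
    rw [this]
    push_cast
    rw [div_eq_mul_inv]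
    ring
  simp_rw [h3] at h1
  rw [integral_const_mul, h2] at h1
  have hc' : (c : ℂ) ≠ 0 := by exact_mod_cast hc.ne'
  have hpi : (π : ℂ) ≠ 0 := by exact_mod_cast Real.pi_ne_zero
  rw [← h1, abs_of_pos (by positivity)]
  simp only [Complex.real_smul]
  generalize (∫ τ : ℝ, cexp (I * τ * x) * (((c ^ 2 + τ ^ 2)⁻¹ : ℝ) : ℂ)) = J
  push_cast
  field_simp

end Pool.Agent.MRHal
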