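import Pool.Agent.Lib.MRL.MV

/-! TANK MR, row MO: moments of prime polynomials. -/

set_option autoImplicit false

open Complex Finset MeasureTheory

namespace Pool.Agent.MRL.MO

/-- the tuples of length `l`. -/
def tup (W : Finset ℕ) (l : ℕ) : Finset (Fin l → ℕ) := Fintype.piFinset fun _ => W

theorem mem_tup {W : Finset ℕ} {l : ℕ} {x : Fin l → ℕ} : x ∈ tup W l ↔ ∀ i, x i ∈ W :=
  Fintype.mem_piFinset

theorem sum_tup_succ {β : Type*} [AddCommMonoid β] (W : Finset ℕ) (l : ℕ) (φ : ℕ → β) :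
    ∑ x ∈ tup W (l + 1), φ (∏ i, x i) = ∑ p ∈ W, ∑ x ∈ tup W l, φ (p * ∏ i, x i) := by
  rw [← sum_product' W (tup W l) (fun p x => φ (p * ∏ i, x i))]
  refine sum_bij' (fun x _ => (x 0, Fin.tail x)) (fun y _ => Fin.cons y.1 y.2) ?_ ?_ ?_ ?_ ?_
  · intro x hx
    have h := mem_tup.1 hx
    exact mem_product.2 ⟨h 0, mem_tup.2 fun i => h i.succ⟩
  · intro y hy
    have h := mem_product.1 hy
    refine mem_tup.2 fun i => ?_
    refine Fin.cases ?_ (fun j => ?_) i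
    · exact h.1
    · exact mem_tup.1 h.2 j
  · intro x _
    exact Fin.cons_self_tail x
  · intro y _
    rfl
  · intro x _
    rw [Fin.prod_univ_succ]
    rfl

theorem prod_pos_of_tup {W : Finset ℕ} (hW : ∀ p ∈ W, p.Prime) {l : ℕ} {x : Fin l → ℕ}
    (hx : x ∈ tup W l) : 0 < ∏ i, x i :=
  prod_pos fun i _ => (hW _ (mem_tup.1 hx i)).pos

/-- the sum of the gcd's. -/
theorem gcd_sum {W : Finset ℕ} (hW : ∀ p ∈ W, p.Prime) {S : ℝ}
    (hS : ∑ p ∈ W, 1 / (p : ℝ) ≤ S) (k : ℕ) :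
    ∀ (l q : ℕ), q ≠ 0 → #{p ∈ W | p ∣ q} ≤ k →
      ∑ x ∈ tup W l, ((∏ i, x i).gcd q : ℝ) / ((∏ i, x i : ℕ) : ℝ) ≤ (S + k) ^ l := by
  have hS0 : 0 ≤ S := (sum_nonneg fun p _ => by positivity).trans hS
  intro l
  induction l with
  | zero =>
    intro q _ _
    have e : tup W 0 = {Fin.elim0} := by
      ext x
      simp only [mem_singleton]
      refine ⟨fun _ => Subsingleton.elim _ _, fun _ => mem_tup.2 fun i => i.elim0⟩
    rw [e, sum_singleton]
    simp
  | succ l ih =>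
    intro q hq hk
    rw [sum_tup_succ W l (fun P => ((P.gcd q : ℕ) : ℝ) / (P : ℝ))]
    have h1 : ∀ p ∈ W, ∑ x ∈ tup W l, (((p * ∏ i, x i).gcd q : ℕ) : ℝ) / ((p * ∏ i, x i : ℕ) : ℝ) ≤
        (if p ∣ q then (1 : ℝ) else 0) * (S + k) ^ l + 1 / (p : ℝ) * (S + k) ^ l := by
      intro p hp
      have hpp := hW p hp
      have hp0 : (0 : ℝ) < p := by exact_mod_cast hpp.pos
      have hpow : (0 : ℝ) ≤ (S + k) ^ l := by positivity
      by_cases hd : p ∣ q
      · rw [if_pos hd, one_mul]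
        obtain ⟨r, rfl⟩ := hd
        have hr : r ≠ 0 := by
          rintro rfl
          exact hq (mul_zero _)
        have h2 : ∑ x ∈ tup W l, (((p * ∏ i, x i).gcd (p * r) : ℕ) : ℝ) /
            ((p * ∏ i, x i : ℕ) : ℝ) =
            ∑ x ∈ tup W l, ((∏ i, x i).gcd r : ℝ) / ((∏ i, x i : ℕ) : ℝ) := by
          refine sum_congr rfl fun x hx => ?_
          rw [Nat.gcd_mul_left]
          push_cast
          rw [mul_div_mul_left _ _ hp0.ne']
        rw [h2]
        have h3 := ih r hr (le_trans (card_le_card (fun z hz => by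
          have hz' := mem_filter.1 hz
          exact mem_filter.2 ⟨hz'.1, hz'.2.mul_left p⟩)) hk)
        have h4 : 0 ≤ 1 / (p : ℝ) * (S + k) ^ l := by positivity
        linarith
      · rw [if_neg hd, zero_mul, zero_add]
        have h2 : ∑ x ∈ tup W l, (((p * ∏ i, x i).gcd q : ℕ) : ℝ) /
            ((p * ∏ i, x i : ℕ) : ℝ) =
            1 / (p : ℝ) * ∑ x ∈ tup W l, ((∏ i, x i).gcd q : ℝ) / ((∏ i, x i : ℕ) : ℝ) := by
          rw [mul_sum]
          refine sum_congr rfl fun x hx => ?_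
          rw [Nat.Coprime.gcd_mul_left_cancel _ ((Nat.Prime.coprime_iff_not_dvd hpp).2 hd)]
          push_cast
          have hx0 : ((∏ i, (x i : ℝ))) ≠ 0 := by
            have := prod_pos_of_tup hW hx
            have h5 : (0 : ℝ) < ((∏ i, x i : ℕ) : ℝ) := by exact_mod_cast this
            push_cast at h5
            exact h5.ne'
          field_simp
        rw [h2]
        exact mul_le_mul_of_nonneg_left (ih q hq hk) (by positivity)
    refine (sum_le_sum h1).trans ?_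
    rw [sum_add_distrib, ← sum_mul, ← sum_mul, ← add_mul, pow_succ, mul_comm]
    refine mul_le_mul_of_nonneg_left ?_ (by positivity)
    have h2 : ∑ p ∈ W, (if p ∣ q then (1 : ℝ) else 0) ≤ k := by
      rw [sum_boole]
      exact_mod_cast hk
    linarith

/-- the number of prime divisors in `W` of a product of `l` members. -/
theorem card_dvd_le {W : Finset ℕ} (hW : ∀ p ∈ W, p.Prime) {l : ℕ} {y : Fin l → ℕ}
    (hy : y ∈ tup W l) : #{p ∈ W | p ∣ ∏ i, y i} ≤ l := by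
  have h1 : {p ∈ W | p ∣ ∏ i, y i} ⊆ image y univ := by
    intro p hp
    have h2 := mem_filter.1 hp
    obtain ⟨i, _, hi⟩ := (Prime.dvd_finset_prod_iff (hW p h2.1).prime _).1 h2.2
    have h3 := (Nat.prime_dvd_prime_iff_eq (hW p h2.1) (hW _ (mem_tup.1 hy i))).1 hi
    exact mem_image.2 ⟨i, mem_univ _, h3.symm⟩
  refine (card_le_card h1).trans ?_
  refine card_image_le.trans ?_
  simp

theorem sum_tup_inv (W : Finset ℕ) (l : ℕ) :
    ∑ y ∈ tup W l, 1 / ((∏ i, y i : ℕ) : ℝ) = (∑ p ∈ W, 1 / (p : ℝ)) ^ l := by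
  rw [sum_pow']
  refine sum_congr rfl fun y _ => ?_
  push_cast
  rw [prod_div_distrib, prod_const_one]

/-- `g_l(n)`: the number of tuples whose product divides `n`. -/
def gl (W : Finset ℕ) (l n : ℕ) : ℕ := #{x ∈ tup W l | (∏ i, x i) ∣ n}

/-- **The moment bound.** -/
theorem sum_gl_sq {W : Finset ℕ} (hW : ∀ p ∈ W, p.Prime) {S : ℝ}
    (hS : ∑ p ∈ W, 1 / (p : ℝ) ≤ S) (l : ℕ) (F : Finset ℕ) {N : ℝ} (hN : 0 ≤ N)
    (hF : ∀ n ∈ F, 1 ≤ n ∧ (n : ℝ) ≤ N) :
    ∑ n ∈ F, (gl W l n : ℝ) ^ 2 ≤ N * (S * (S + l)) ^ l := by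
  have hS0 : 0 ≤ S := (sum_nonneg fun p _ => by positivity).trans hS
  have h1 : ∀ n ∈ F, (gl W l n : ℝ) ^ 2 = ∑ x ∈ tup W l, ∑ y ∈ tup W l,
      (if (∏ i, x i) ∣ n ∧ (∏ i, y i) ∣ n then (1 : ℝ) else 0) := by
    intro n _
    have e : (gl W l n : ℝ) = ∑ x ∈ tup W l, (if (∏ i, x i) ∣ n then (1 : ℝ) else 0) := by
      rw [sum_boole]
      rfl
    rw [e, sq, sum_mul_sum]
    refine sum_congr rfl fun x _ => sum_congr rfl fun y _ => ?_
    by_cases h1 : (∏ i, x i) ∣ n <;> by_cases h2 : (∏ i, y i) ∣ n <;> simp [h1, h2]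
  rw [sum_congr rfl h1, sum_comm]
  have h2 : ∀ x ∈ tup W l, ∑ n ∈ F, ∑ y ∈ tup W l,
      (if (∏ i, x i) ∣ n ∧ (∏ i, y i) ∣ n then (1 : ℝ) else 0) ≤
      ∑ y ∈ tup W l, N * (1 / ((∏ i, y i : ℕ) : ℝ) *
        (((∏ i, x i).gcd (∏ i, y i) : ℝ) / ((∏ i, x i : ℕ) : ℝ))) := by
    intro x hx
    rw [sum_comm]
    refine sum_le_sum fun y hy => ?_
    rw [sum_boole]
    have hx0 := prod_pos_of_tup hW hx
    have hy0 := prod_pos_of_tup hW hy
    set P := ∏ i, x i with hP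
    set R := ∏ i, y i with hR
    have hl0 : 0 < P.lcm R := Nat.lcm_pos hx0 hy0
    have h3 : {n ∈ F | P ∣ n ∧ R ∣ n} ⊆ image (fun k => P.lcm R * k) (Icc 1 ⌊N / (P.lcm R : ℕ)⌋₊) := by
      intro n hn
      have hn' := mem_filter.1 hn
      obtain ⟨k, hk⟩ := Nat.lcm_dvd hn'.2.1 hn'.2.2
      have hF' := hF n hn'.1
      refine mem_image.2 ⟨k, mem_Icc.2 ⟨?_, ?_⟩, hk.symm⟩
      · rcases Nat.eq_zero_or_pos k with h | h
        · subst h
          rw [mul_zero] at hk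
          omega
        · exact h
      · apply Nat.le_floor
        rw [le_div_iff₀ (by exact_mod_cast hl0)]
        have : ((P.lcm R * k : ℕ) : ℝ) ≤ N := by
          rw [← hk]
          exact hF'.2
        push_cast at this
        linarith
    have h4 : (#{n ∈ F | P ∣ n ∧ R ∣ n} : ℝ) ≤ N / (P.lcm R : ℕ) := by
      have h5 := (card_le_card h3).trans card_image_le
      rw [Nat.card_Icc, Nat.add_sub_cancel] at h5
      have h6 : (#{n ∈ F | P ∣ n ∧ R ∣ n} : ℝ) ≤ (⌊N / (P.lcm R : ℕ)⌋₊ : ℝ) := by exact_mod_cast h5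
      exact h6.trans (Nat.floor_le (by positivity))
    refine h4.trans (le_of_eq ?_)
    have h7 : ((P.gcd R : ℕ) : ℝ) * ((P.lcm R : ℕ) : ℝ) = P * R := by
      exact_mod_cast Nat.gcd_mul_lcm P R
    have hx1 : (0 : ℝ) < P := by exact_mod_cast hx0
    have hy1 : (0 : ℝ) < R := by exact_mod_cast hy0
    have hl1 : (0 : ℝ) < (P.lcm R : ℕ) := by exact_mod_cast hl0
    rw [div_eq_iff hl1.ne']
    field_simp
    linear_combination (-N) * h7
  refine (sum_le_sum h2).trans ?_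
  rw [sum_comm]
  have h8 : ∀ y ∈ tup W l, ∑ x ∈ tup W l, N * (1 / ((∏ i, y i : ℕ) : ℝ) *
        (((∏ i, x i).gcd (∏ i, y i) : ℝ) / ((∏ i, x i : ℕ) : ℝ))) ≤
      N * (S + l) ^ l * (1 / ((∏ i, y i : ℕ) : ℝ)) := by
    intro y hy
    have h9 := gcd_sum hW hS l l (∏ i, y i) (prod_pos_of_tup hW hy).ne' (card_dvd_le hW hy)
    rw [← mul_sum, ← mul_sum]
    have h10 : N * (1 / ((∏ i, y i : ℕ) : ℝ) * ∑ x ∈ tup W l,
        (((∏ i, x i).gcd (∏ i, y i) : ℝ) / ((∏ i, x i : ℕ) : ℝ))) ≤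
        N * (1 / ((∏ i, y i : ℕ) : ℝ) * (S + l) ^ l) :=
      mul_le_mul_of_nonneg_left (mul_le_mul_of_nonneg_left h9 (by positivity)) hN
    refine h10.trans (le_of_eq (by ring))
  refine (sum_le_sum h8).trans ?_
  rw [← mul_sum, sum_tup_inv, mul_pow, mul_assoc]
  refine mul_le_mul_of_nonneg_left ?_ hN
  rw [mul_comm]
  exact mul_le_mul_of_nonneg_right (pow_le_pow_left₀ (sum_nonneg fun p _ => by positivity) hS l)
    (by positivity)

/-! ### Expansion of products -/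

theorem nt_mul {m n : ℕ} (hm : m ≠ 0) (hn : n ≠ 0) (t : ℝ) : nt (m * n) t = nt m t * nt n t := by
  have hm' : (m : ℝ) ≠ 0 := by exact_mod_cast hm
  have hn' : (n : ℝ) ≠ 0 := by exact_mod_cast hn
  rw [nt, nt, nt, ← Complex.exp_add]
  congr 1
  push_cast
  rw [Real.log_mul hm' hn']
  push_cast
  ring

theorem nt_prod {l : ℕ} (x : Fin l → ℕ) (hx : ∀ i, x i ≠ 0) (t : ℝ) :
    nt (∏ i, x i) t = ∏ i, nt (x i) t := by
  classical
  have h : ∀ s : Finset (Fin l), nt (∏ i ∈ s, x i) t = ∏ i ∈ s, nt (x i) t := by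
    intro s
    induction s using Finset.induction_on with
    | empty => simp [nt]
    | insert a s ha ih =>
      rw [prod_insert ha, prod_insert ha, nt_mul (hx a) (prod_ne_zero_iff.2 fun i _ => hx i), ih]
  exact h univ

/-- **Expansion**: the coefficients of `Q ^ l * R`. -/
theorem expand' {W : Finset ℕ} (hW : ∀ p ∈ W, p.Prime) {S : ℝ}
    (hS : ∑ p ∈ W, 1 / (p : ℝ) ≤ S) (l : ℕ) (M : Finset ℕ) (hM : ∀ m ∈ M, 1 ≤ m) (b : ℕ → ℂ)
    (hb : ∀ m ∈ M, ‖b m‖ ≤ 1 / m) :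
    ∃ (F : Finset ℕ) (c : ℕ → ℂ),
      (∀ n ∈ F, ∃ x ∈ tup W l, ∃ m ∈ M, n = (∏ i, x i) * m) ∧
      (∀ t, (∑ p ∈ W, ((1 / p : ℝ) : ℂ) * nt p t) ^ l * (∑ m ∈ M, b m * nt m t) =
        ∑ n ∈ F, c n * nt n t) ∧
      (∀ n ∈ F, ‖c n‖ ≤ gl W l n / n) := by
  classical
  set T := tup W l ×ˢ M with hT
  set f : (Fin l → ℕ) × ℕ → ℕ := fun z => (∏ i, z.1 i) * z.2 with hf
  set u : (Fin l → ℕ) × ℕ → ℂ := fun z => ((1 / ((∏ i, z.1 i : ℕ) : ℝ) : ℝ) : ℂ) * b z.2 with hu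
  refine ⟨image f T, fun n => ∑ z ∈ T with f z = n, u z, ?_, ?_, ?_⟩
  · intro n hn
    obtain ⟨z, hz, rfl⟩ := mem_image.1 hn
    have h := mem_product.1 hz
    exact ⟨z.1, h.1, z.2, h.2, rfl⟩
  · intro t
    have h1 : ∀ n ∈ image f T, (∑ z ∈ T with f z = n, u z) * nt n t =
        ∑ z ∈ T with f z = n, u z * nt (f z) t := by
      intro n _
      rw [sum_mul]
      exact sum_congr rfl fun z hz => by rw [(mem_filter.1 hz).2]
    rw [sum_congr rfl h1, sum_fiberwise_of_maps_to (fun z hz => mem_image_of_mem f hz), sum_pow',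
      sum_mul_sum, ← sum_product']
    refine sum_congr rfl fun z hz => ?_
    have h := mem_product.1 hz
    have hx0 : ∀ i, z.1 i ≠ 0 := fun i => (hW _ (mem_tup.1 h.1 i)).ne_zero
    have hm0 : z.2 ≠ 0 := by
      have := hM _ h.2
      omega
    rw [hf, hu]
    simp only
    rw [nt_mul (prod_ne_zero_iff.2 fun i _ => hx0 i) hm0, nt_prod _ hx0, prod_mul_distrib]
    have e : ∏ i, (((1 / (z.1 i : ℝ) : ℝ)) : ℂ) = ((1 / ((∏ i, z.1 i : ℕ) : ℝ) : ℝ) : ℂ) := by
      push_cast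
      rw [prod_div_distrib, prod_const_one]
    rw [e]
    ring
  · intro n hn
    obtain ⟨z0, hz0, hn0⟩ := mem_image.1 hn
    have hnpos : 0 < n := by
      rw [← hn0]
      have h := mem_product.1 hz0
      exact Nat.mul_pos (prod_pos_of_tup hW h.1) (hM _ h.2)
    have hn1 : (0 : ℝ) < n := by exact_mod_cast hnpos
    have h1 : ∀ z ∈ T.filter (fun z => f z = n), ‖u z‖ ≤ 1 / (n : ℝ) := by
      intro z hz
      have hz' := mem_filter.1 hz
      have h := mem_product.1 hz'.1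
      have hP : (0 : ℝ) < ((∏ i, z.1 i : ℕ) : ℝ) := by exact_mod_cast prod_pos_of_tup hW h.1
      have hm : (0 : ℝ) < z.2 := by exact_mod_cast hM _ h.2
      rw [hu]
      simp only
      rw [norm_mul, norm_real, Real.norm_eq_abs, abs_of_pos (by positivity)]
      have e : (n : ℝ) = ((∏ i, z.1 i : ℕ) : ℝ) * z.2 := by
        rw [← hz'.2, hf]
        push_cast
        ring
      rw [e, ← one_div_mul_one_div]
      exact mul_le_mul_of_nonneg_left (hb _ h.2) (by positivity)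
    refine (norm_sum_le _ _).trans ((sum_le_sum h1).trans ?_)
    rw [sum_const, nsmul_eq_mul, mul_one_div]
    apply div_le_div_of_nonneg_right _ hn1.le
    have h2 : #{z ∈ T | f z = n} ≤ gl W l n := by
      apply card_le_card_of_injOn (fun z => z.1)
      · intro z hz
        have hz' := mem_filter.1 (mem_coe.1 hz)
        have h := mem_product.1 hz'.1
        exact mem_coe.2 (mem_filter.2 ⟨h.1, ⟨z.2, hz'.2.symm⟩⟩)
      · intro z hz z' hz' he
        have hz1 := mem_filter.1 (mem_coe.1 hz)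
        have hz2 := mem_filter.1 (mem_coe.1 hz')
        have h := mem_product.1 hz1.1
        have e : f z = f z' := hz1.2.trans hz2.2.symm
        rw [hf] at e
        simp only at e he
        rw [he] at e
        have hP : 0 < ∏ i, z'.1 i := prod_pos_of_tup hW (mem_product.1 hz2.1).1
        exact Prod.ext he (Nat.eq_of_mul_eq_mul_left hP e)
    exact_mod_cast h2

end Pool.Agent.MRL.MO
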