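import Mathlib
import Pool.Agent.Lib.MP_f9aece_nt_h97.Planch

/-!
Dirichlet polynomials on the line, sums over short multiplicative windows, Plancherel's
identity between the two, and the mean value theorem.
-/

set_option autoImplicit false

namespace Pool.Agent.MRL

open MeasureTheory Set Filter Topology Complex FourierTransform

/-- the Dirichlet polynomial `sum a n * n ^ (-i t)` over the finite set `s` -/
noncomputable def dp (s : Finset ℕ) (a : ℕ → ℂ) (t : ℝ) : ℂ :=
  ∑ n ∈ s, a n * cexp (-(((t * Real.log n : ℝ) : ℂ) * I))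

/-- the sum of `a n` over the `n` in `s` with `y < log n ≤ y + δ` -/
noncomputable def win (s : Finset ℕ) (a : ℕ → ℂ) (δ y : ℝ) : ℂ :=
  ∑ n ∈ s, (Ico (Real.log n - δ) (Real.log n)).indicator (fun _ => a n) y

/-- the Fourier transform of the window -/
noncomputable def kap (δ ξ : ℝ) : ℂ :=
  ∫ u in (-δ)..0, cexp (((-2 * Real.pi * u * ξ : ℝ) : ℂ) * I)

theorem win_eq (s : Finset ℕ) (a : ℕ → ℂ) (δ y : ℝ) :
    win s a δ y = ∑ n ∈ s.filter (fun n : ℕ => y < Real.log n ∧ Real.log n ≤ y + δ), a n := by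
  classical
  unfold win
  rw [Finset.sum_filter]
  refine Finset.sum_congr rfl fun n _ => ?_
  by_cases h : y < Real.log n ∧ Real.log n ≤ y + δ
  · rw [if_pos h, indicator_of_mem]
    exact ⟨by linarith [h.2], h.1⟩
  · rw [if_neg h, indicator_of_notMem]
    rintro ⟨h1, h2⟩
    exact h ⟨h2, by linarith⟩

theorem integrable_win (s : Finset ℕ) (a : ℕ → ℂ) (δ : ℝ) : Integrable (win s a δ) := by
  unfold win
  refine integrable_finsetSum s fun n _ => ?_
  exact (integrableOn_const (by simp) (by simp)).integrable_indicator measurableSet_Ico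

theorem memLp_win (s : Finset ℕ) (a : ℕ → ℂ) (δ : ℝ) : MemLp (win s a δ) 2 := by
  unfold win
  refine memLp_finsetSum s fun n _ => ?_
  exact memLp_indicator_const 2 measurableSet_Ico _ (Or.inr (by simp))

theorem fourier_win (s : Finset ℕ) (a : ℕ → ℂ) {δ : ℝ} (hδ : 0 ≤ δ) (ξ : ℝ) :
    𝓕 (win s a δ) ξ = dp s a (2 * Real.pi * ξ) * kap δ ξ := by
  have hint : ∀ n ∈ s, Integrable (fun v : ℝ => cexp (((-2 * Real.pi * v * ξ : ℝ) : ℂ) * I) •
      (Ico (Real.log n - δ) (Real.log n)).indicator (fun _ => a n) v) := by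
    intro n _
    have h1 : Integrable ((Ico (Real.log n - δ) (Real.log n)).indicator (fun _ => a n)) :=
      (integrableOn_const (by simp) (by simp)).integrable_indicator measurableSet_Ico
    refine h1.bdd_mul (c := 1) ?_ ?_
    · exact (by fun_prop : Continuous fun v : ℝ =>
        cexp (((-2 * Real.pi * v * ξ : ℝ) : ℂ) * I)).aestronglyMeasurable
    · filter_upwards with v
      rw [Complex.norm_exp_ofReal_mul_I]
  rw [Real.fourier_real_eq_integral_exp_smul]
  unfold win dp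
  simp_rw [Finset.smul_sum]
  rw [integral_finsetSum s hint, Finset.sum_mul]
  refine Finset.sum_congr rfl fun n _ => ?_
  have h1 : (fun v : ℝ => cexp (((-2 * Real.pi * v * ξ : ℝ) : ℂ) * I) •
      (Ico (Real.log n - δ) (Real.log n)).indicator (fun _ => a n) v) =
      (Ico (Real.log n - δ) (Real.log n)).indicator
        (fun v => cexp (((-2 * Real.pi * v * ξ : ℝ) : ℂ) * I) * a n) := by
    funext v
    by_cases hv : v ∈ Ico (Real.log n - δ) (Real.log n)
    · rw [indicator_of_mem hv, indicator_of_mem hv, smul_eq_mul]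
    · rw [indicator_of_notMem hv, indicator_of_notMem hv, smul_zero]
  rw [h1, integral_indicator measurableSet_Ico, integral_mul_const,
    integral_Ico_eq_integral_Ioc, ← intervalIntegral.integral_of_le (by linarith)]
  have h2 : ∫ v in (Real.log n - δ)..(Real.log n), cexp (((-2 * Real.pi * v * ξ : ℝ) : ℂ) * I) =
      cexp (-(((2 * Real.pi * ξ * Real.log n : ℝ) : ℂ) * I)) * kap δ ξ := by
    unfold kap
    rw [← intervalIntegral.integral_const_mul]
    have h3 := intervalIntegral.integral_comp_add_right (a := -δ) (b := 0)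
      (fun v : ℝ => cexp (((-2 * Real.pi * v * ξ : ℝ) : ℂ) * I)) (Real.log n)
    rw [zero_add, neg_add_eq_sub] at h3
    rw [← h3]
    refine intervalIntegral.integral_congr fun u _ => ?_
    rw [← Complex.exp_add]
    congr 1
    push_cast
    ring
  rw [h2]
  ring

theorem norm_kap_le {δ : ℝ} (hδ : 0 ≤ δ) (ξ : ℝ) : ‖kap δ ξ‖ ≤ δ := by
  unfold kap
  have h := intervalIntegral.norm_integral_le_of_norm_le_const (a := -δ) (b := 0) (C := 1)
    (f := fun u : ℝ => cexp (((-2 * Real.pi * u * ξ : ℝ) : ℂ) * I))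
    (fun u _ => by rw [Complex.norm_exp_ofReal_mul_I])
  rw [sub_neg_eq_add, zero_add, one_mul, abs_of_nonneg hδ] at h
  exact h

theorem norm_kap_eq (δ : ℝ) {ξ : ℝ} (hξ : ξ ≠ 0) :
    ‖kap δ ξ‖ = |Real.sin (Real.pi * ξ * δ)| / (Real.pi * |ξ|) := by
  unfold kap
  have hc : (((-2 * Real.pi * ξ : ℝ) : ℂ) * I) ≠ 0 := by
    refine mul_ne_zero ?_ I_ne_zero
    exact_mod_cast mul_ne_zero (by simp [Real.pi_ne_zero]) hξ
  have h1 : ∀ u : ℝ, cexp (((-2 * Real.pi * u * ξ : ℝ) : ℂ) * I) =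
      cexp ((((-2 * Real.pi * ξ : ℝ) : ℂ) * I) * u) := by
    intro u
    congr 1
    push_cast
    ring
  simp_rw [h1]
  rw [integral_exp_mul_complex hc, norm_div, norm_mul, Complex.norm_I, mul_one, Complex.norm_real,
    Real.norm_eq_abs]
  have h2 : cexp ((((-2 * Real.pi * ξ : ℝ) : ℂ) * I) * ((0 : ℝ) : ℂ)) -
      cexp ((((-2 * Real.pi * ξ : ℝ) : ℂ) * I) * ((-δ : ℝ) : ℂ)) =
      -(cexp (I * ((2 * Real.pi * ξ * δ : ℝ) : ℂ)) - 1) := by
    rw [Complex.ofReal_zero, mul_zero, Complex.exp_zero, neg_sub]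
    congr 2
    push_cast
    ring
  rw [h2, norm_neg, Complex.norm_exp_I_mul_ofReal_sub_one]
  have h3 : 2 * Real.pi * ξ * δ / 2 = Real.pi * ξ * δ := by ring
  rw [h3, Real.norm_eq_abs, abs_mul, abs_mul, abs_mul, abs_neg, abs_of_pos Real.pi_pos, abs_two]
  have hp := Real.pi_pos
  have hx : 0 < |ξ| := abs_pos.mpr hξ
  field_simp

theorem norm_kap_le' (δ : ℝ) {ξ : ℝ} (hξ : ξ ≠ 0) : ‖kap δ ξ‖ ≤ 1 / (Real.pi * |ξ|) := by
  rw [norm_kap_eq δ hξ]
  have hp := Real.pi_pos
  have hx : 0 < |ξ| := abs_pos.mpr hξ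
  gcongr
  exact Real.abs_sin_le_one _

theorem le_norm_kap {δ ξ : ℝ} (hδ : 0 < δ) (h : 2 * δ * |ξ| ≤ 1) :
    2 * δ / Real.pi ≤ ‖kap δ ξ‖ := by
  have hp := Real.pi_pos
  rcases eq_or_ne ξ 0 with h0 | h0
  · subst h0
    unfold kap
    simp only [mul_zero, Complex.ofReal_zero, zero_mul, Complex.exp_zero]
    rw [intervalIntegral.integral_const, sub_neg_eq_add, zero_add, norm_smul, norm_one, mul_one,
      Real.norm_eq_abs, abs_of_pos hδ, div_le_iff₀ hp]
    nlinarith [Real.two_le_pi]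
  · rw [norm_kap_eq δ h0]
    have hx : 0 < |ξ| := abs_pos.mpr h0
    have h1 : |Real.sin (Real.pi * ξ * δ)| = Real.sin (Real.pi * |ξ| * δ) := by
      have h2 : |Real.pi * ξ * δ| = Real.pi * |ξ| * δ := by
        rw [abs_mul, abs_mul, abs_of_pos hp, abs_of_pos hδ]
      have h3 : 0 ≤ Real.pi * |ξ| * δ := by positivity
      have h4 : Real.pi * |ξ| * δ ≤ Real.pi := by nlinarith
      rw [← h2, ← Real.abs_sin_eq_sin_abs_of_abs_le_pi (by rw [h2]; exact h4)]
    rw [h1, le_div_iff₀ (by positivity)]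
    have h5 := Real.mul_le_sin (x := Real.pi * |ξ| * δ) (by positivity) (by nlinarith)
    have h6 : 2 * δ / Real.pi * (Real.pi * |ξ|) = 2 / Real.pi * (Real.pi * |ξ| * δ) := by
      field_simp
    rw [h6]
    exact h5

end Pool.Agent.MRL
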